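import Mathlib
import Pool.Agent.TIF.Defs
import Pool.Agent.MP_c1dca2_ag.GT.A1
import Pool.Agent.MP_c1dca2_ag.GT.A2
import Pool.Agent.MP_c1dca2_ag.GT.A3
import Pool.Agent.MP_c1dca2_ag.GT.A3b
import Pool.Agent.MP_c1dca2_ag.GT.A7
import Pool.Agent.MP_c1dca2_ag.GT.A8
import Pool.Agent.MP_c1dca2_ag.GT.A9
import Pool.Agent.MP_c1dca2_ag.GT.A10
import Pool.Agent.MP_c1dca2_ag.GT.C0
import Pool.Agent.MP_c1dca2_ag.GT.C0b
import Pool.Agent.MP_c1dca2_ag.GT.C1
import Pool.Agent.MP_c1dca2_ag.GT.C2
import Pool.Agent.MP_c1dca2_ag.GT.C2b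
import Pool.Agent.MP_c1dca2_ag.GT.C3
import Pool.Agent.MP_c1dca2_ag.GT.C3b
import Pool.Agent.MP_c1dca2_ag.GT.C4

/-!
# [TIF, block THETA] theta functions by determinants: definitions

`WB T` is the ring of the functions on the curve with poles only at the point `P₀`; the points (other
than `P₀`) are the algebra homomorphisms `WB T → κ`. The class group of `WB T` is the Jacobian.
`e T i` is the basis of `WB T` of the monic monomials in the order of their poles;
`Dl X = det (e_j (X_i))`.
-/

set_option autoImplicit false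
set_option linter.unusedSectionVars false

open Polynomial IsLocalRing

namespace Pool.Agent.TIFT

open GT

section basis

variable {d : ℕ} [NeZero d] {R : Type} [CommRing R]

/-- `m` is the order of a pole of a function in `WB T` -/
def Ow (T : Tab R d) (m : ℕ) : Prop := ∃ (j : ZMod d) (n : ℕ), d * n + T.w j = m

/-- the monomial of weight `m` (`0` if there is none) -/
noncomputable def mono (T : Tab R d) (m : ℕ) : WB T :=
  ∑ j, if T.w j ≤ m ∧ (m - T.w j) % d = 0 then (X ^ ((m - T.w j) / d) : R[X]) • WB.f T j else 0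

/-- the basis of the monic monomials, by increasing order of the pole -/
noncomputable def e (T : Tab R d) (i : ℕ) : WB T := mono T (Nat.nth (Ow T) i)

end basis

section points

variable {d : ℕ} [NeZero d] {κ : Type} [Field κ]

/-- the points other than `P₀` -/
abbrev Pt (T : Tab κ d) := WB T →ₐ[κ] κ

variable {T : Tab κ d}

/-- `det (e_j (X_i))` -/
noncomputable def Dl (X : List (Pt T)) : κ :=
  Matrix.det (Matrix.of fun i j : Fin X.length => (X.get i) (e T j))

/-- the value `∏ b(X_i)` -/
noncomputable def ev (b : WB T) (X : List (Pt T)) : κ := (X.map fun P => P b).prod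

/-- the ideal of the functions vanishing at `P` -/
noncomputable def mP (P : Pt T) : Ideal (WB T) := RingHom.ker P

/-- the ideal of the divisor `∑ X_i` -/
noncomputable def dI (X : List (Pt T)) : Ideal (WB T) := (X.map mP).prod

/-- the class of `∑ X_i` -/
noncomputable def cl [IsDedekindDomain (WB T)] (X : List (Pt T)) : ClassGroup (WB T) := cls (dI X)

/-- the class `x` is not in the theta divisor: `x⁻¹` is not the class of an effective divisor of
degree less than the genus -/
def Ns [IsDedekindDomain (WB T)] [IsAlgClosed κ] (x : ClassGroup (WB T)) : Prop :=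
  len (rdc x⁻¹) = gp T

/-- every class is the class of a list of `n` different points for `n ≥ nT T` -/
def nT {d : ℕ} [NeZero d] {R : Type} [CommRing R] (T : Tab R d) : ℕ :=
  2 * gp T + d + (∑ j, T.w j) + 1

/-- `u / v` is the monic function with divisor `X - X'` -/
structure Eqv (X X' : List (Pt T)) (u v : WB T) : Prop where
  u0 : u ≠ 0
  v0 : v ≠ 0
  lc : lc u = lc v
  div : Ideal.span {u} * dI X' = Ideal.span {v} * dI X

/-- the theta monomial `∏ Dl (B_i, X) / (Dl X ^ m * h(X))` -/
noncomputable def th {m : ℕ} (B : Fin m → List (Pt T)) (h : WB T) (X : List (Pt T)) : κ :=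
  (∏ i, Dl (B i ++ X)) / (Dl X ^ m * ev h X)

/-- `h` is monic with the zeros `∑ B_i` -/
structure Hd {m : ℕ} (B : Fin m → List (Pt T)) (h : WB T) : Prop where
  lc : lc h = 1
  div : Ideal.span {h} = ∏ i, dI (B i)

/-- the cube function -/
noncomputable def cube (X Y Z : List (Pt T)) : κ :=
  Dl (X ++ Y ++ Z) * Dl X * Dl Y * Dl Z / (Dl (X ++ Y) * Dl (Y ++ Z) * Dl (X ++ Z))

end points

/-! ### fields of definition, generic points -/

section generic

variable {k Ω : Type} [Field k] [Field Ω] [Algebra k Ω] {d : ℕ} [NeZero d] {T : Tab Ω d}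

/-- `K` is algebraic over a finitely generated field -/
def Small (K : IntermediateField k Ω) : Prop :=
  ∃ S : Finset Ω, ∀ x ∈ K, IsAlgebraic (IntermediateField.adjoin k (S : Set Ω)) x

/-- the algebraic closure of `k` in `Ω` -/
noncomputable abbrev kbF (k Ω : Type) [Field k] [Field Ω] [Algebra k Ω] : IntermediateField k Ω :=
  algebraicClosure k Ω

/-- the algebraic closure of `K` in `Ω` -/
noncomputable def acl (K : IntermediateField k Ω) : IntermediateField k Ω :=
  (algebraicClosure K Ω).restrictScalars k

/-- the point `P` is defined over `K` -/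
def PK (k : Type) {Ω : Type} [Field k] [Field Ω] [Algebra k Ω] {d : ℕ} [NeZero d] {T : Tab Ω d}
    (K : Set Ω) (P : Pt T) : Prop :=
  ∀ b : WB T, TIF.Cf (Set.range (algebraMap k Ω)) b → P b ∈ K

/-- the coordinate of a point -/
noncomputable def xx (P : Pt T) : Ω := P (WB.x T)

/-- `X` is a list of independent generic points over `K` -/
def Ind (K : IntermediateField k Ω) (X : List (Pt T)) : Prop :=
  AlgebraicIndependent K fun i : Fin X.length => xx (X.get i)

/-- the field generated by `K` and the coordinates of the points of `X` -/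
noncomputable def kL (K : IntermediateField k Ω) (X : List (Pt T)) : IntermediateField k Ω :=
  K ⊔ ⨆ P ∈ X, TIF.kP k P

/-- the action of the automorphisms on the points -/
noncomputable def aP (hT : TIF.Tk k T) (σ : Ω ≃ₐ[k] Ω) (P : Pt T) : Pt T where
  toFun b := σ (P ((TIF.rac hT σ).symm b))
  map_one' := by rw [map_one, map_one, map_one]
  map_mul' b c := by rw [map_mul, map_mul, map_mul]
  map_zero' := by rw [map_zero, map_zero, map_zero]
  map_add' b c := by rw [map_add, map_add, map_add]
  commutes' r := by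
    have h : (TIF.rac hT σ).symm (algebraMap Ω (WB T) r) = algebraMap Ω (WB T) (σ.symm r) := by
      rw [RingEquiv.symm_apply_eq, TIF.rac, bE_apply, bmap_algebraMap']
      simp
    rw [h, AlgHom.commutes]
    simp

variable [IsAlgClosed Ω] [IsDedekindDomain (WB T)] {ρ : Type} [Fintype ρ]

/-- families of independent generic points over `K` -/
def IndA (K : IntermediateField k Ω) (X : ρ → List (Pt T)) : Prop :=
  AlgebraicIndependent K fun p : Σ r, Fin (X r).length => xx ((X p.1).get p.2)

/-- `x` is a generic point of `A = J ^ ρ` over `K` -/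
def GenA (K : IntermediateField k Ω) (x : ρ → ClassGroup (WB T)) : Prop :=
  ∃ X : ρ → List (Pt T), (∀ r, (X r).length = gp T) ∧ IndA K X ∧ ∀ r, cl (X r) = x r

end generic

/-! ### theta functions on `J` and on `A = J ^ ρ` -/

section theta

variable {d : ℕ} [NeZero d] {Ω : Type} [Field Ω] [IsAlgClosed Ω] {T : Tab Ω d}
  [IsDedekindDomain (WB T)]

/-- the value of the theta monomial at the class `x` -/
noncomputable def thc {m : ℕ} (B : Fin m → List (Pt T)) (h : WB T) (x : ClassGroup (WB T)) : Ω := by
  classical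
  exact if H : ∃ X : List (Pt T), gp T ≤ X.length ∧ Dl X ≠ 0 ∧ cl X = x ∧ ev h X ≠ 0 then
    th B h H.choose else 0

/-- data of a theta monomial of weight `m` on `A = J ^ ρ` over `K` -/
structure TD (k : Type) {Ω : Type} [Field k] [Field Ω] [Algebra k Ω] {d : ℕ} [NeZero d]
    (T : Tab Ω d) (ρ : Type) (K : IntermediateField k Ω) (m : ℕ) where
  B : ρ → Fin m → List (Pt T)
  h : ρ → WB T
  hd : ∀ r, Hd (B r) (h r)
  nd : ∀ r i, (B r i).Nodup
  pk : ∀ r i, ∀ P ∈ B r i, PK k (K : Set Ω) P

end theta

section functions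

variable {k Ω : Type} [Field k] [Field Ω] [Algebra k Ω] [IsAlgClosed Ω] {d : ℕ} [NeZero d]
  {T : Tab Ω d} [IsDedekindDomain (WB T)] {ρ : Type} [Fintype ρ]

open Classical in
/-- the theta monomial as a function on the generic points over `K` of `A` (`0` elsewhere) -/
noncomputable def tmf {K : IntermediateField k Ω} {m : ℕ} (D : TD k T ρ K m)
    (x : ρ → ClassGroup (WB T)) : Ω :=
  if GenA K x then ∏ r, thc (D.B r) (D.h r) (x r) else 0

/-- the space of the functions on `A` over `K` spanned by the theta monomials of weight `m` -/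
noncomputable def HH (T : Tab Ω d) [IsDedekindDomain (WB T)] (ρ : Type) [Fintype ρ]
    (K : IntermediateField k Ω) (m : ℕ) : Submodule K ((ρ → ClassGroup (WB T)) → Ω) :=
  Submodule.span K (Set.range fun D : TD k T ρ K m => tmf D)

/-- `f` is monic with divisor `n A` -/
structure Nt (n : ℕ) (A : List (Pt T)) (f : WB T) : Prop where
  lc : lc f = 1
  div : Ideal.span {f} = dI A ^ n

/-- data of a translation of `A` by the torsion class `b`, `b ^ n = 1`, over `K` -/
structure Tr (T : Tab Ω d) [IsDedekindDomain (WB T)] (ρ : Type) (K : IntermediateField k Ω)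
    (n : ℕ) (b : ρ → ClassGroup (WB T)) extends TD k T ρ K n where
  A : ρ → List (Pt T)
  eq : ∀ r i, B r i = A r
  cl_eq : ∀ r, cl (A r) = b r
  nt : ∀ r, Nt n (A r) (h r)

/-- the operator `T_b` on functions -/
noncomputable def Tr.op {K : IntermediateField k Ω} {n : ℕ} {b : ρ → ClassGroup (WB T)}
    (t : Tr T ρ K n b) (F : (ρ → ClassGroup (WB T)) → Ω) (x : ρ → ClassGroup (WB T)) : Ω :=
  tmf t.toTD x * F (x * b)

end functions

/-! ### valuations -/

section valuations

variable {k Ω : Type} [Field k] [Field Ω] [Algebra k Ω] [IsAlgClosed Ω] {d : ℕ} [NeZero d]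
  {T : Tab Ω d} [IsDedekindDomain (WB T)] {ρ : Type} [Fintype ρ]

/-- the points have the same reduction -/
def Cg (k : Type) {Ω : Type} [Field k] [Field Ω] [Algebra k Ω] {d : ℕ} [NeZero d] {T : Tab Ω d}
    (V : ValuationSubring Ω) (P Q : Pt T) : Prop :=
  ∀ b : WB T, TIF.Cf (Set.range (algebraMap k Ω)) b → V.valuation (P b - Q b) < 1

/-- `X` consists of `V`-finite points with different reductions -/
structure Good (k : Type) {Ω : Type} [Field k] [Field Ω] [Algebra k Ω] {d : ℕ} [NeZero d]
    {T : Tab Ω d} (V : ValuationSubring Ω) (X : List (Pt T)) : Prop where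
  fin : ∀ P ∈ X, xx P ∈ V
  dif : X.Pairwise fun P Q => ¬ Cg k V P Q

open Classical in
/-- the local theta function `V(Dl X)`, `X` a good list of points of class `x` -/
noncomputable def tV (k : Type) {Ω : Type} [Field k] [Field Ω] [Algebra k Ω] [IsAlgClosed Ω]
    {d : ℕ} [NeZero d] {T : Tab Ω d} [IsDedekindDomain (WB T)] (V : ValuationSubring Ω)
    (x : ClassGroup (WB T)) : V.ValueGroup :=
  if H : ∃ X : List (Pt T), Good k V X ∧ gp T ≤ X.length ∧ cl X = x then
    V.valuation (Dl H.choose) else 0

/-- the product over the coordinates -/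
noncomputable def tA (k : Type) {Ω : Type} [Field k] [Field Ω] [Algebra k Ω] [IsAlgClosed Ω]
    {d : ℕ} [NeZero d] {T : Tab Ω d} [IsDedekindDomain (WB T)] {ρ : Type} [Fintype ρ]
    (V : ValuationSubring Ω) (x : ρ → ClassGroup (WB T)) : V.ValueGroup :=
  ∏ r, tV k V (x r)

end valuations

end Pool.Agent.TIFT
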