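import Mathlib
import Pool.Agent.TIFT.Defs
import Pool.Agent.TIFP.Rat

/-!
# [TIF, block THETA] THR: rationality
-/

set_option autoImplicit false
set_option linter.unusedSectionVars false

open Polynomial IsLocalRing

namespace Pool.Agent.TIFT

open GT TIF Pool.Agent.TIFP

section R

variable {k Ω : Type} [Field k] [Field Ω] [Algebra k Ω] [IsAlgClosed Ω] {d : ℕ} [NeZero d]
  {T : Tab Ω d} [IsDedekindDomain (WB T)]

/-- `b` is the reduced monic element of order `m` of the ideal `I` -/
structure Red (I : Ideal (WB T)) (m : ℕ) (b : WB T) : Prop where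
  mem : b ∈ I
  ord : pord b = m
  lc : lc b = 1
  red : ∀ c ∈ I, c ≠ 0 → pord c < m → lcf T (pord c) b = 0

theorem r_mk {m : ℕ} {b : WB T} (hb : b ∈ Ble T m) (h : lcf T m b = 1) : pord b = m ∧ GT.lc b = 1 := by
  have h1 : pord b = m := pord_eq_of hb (by rw [h]; exact one_ne_zero)
  refine ⟨h1, ?_⟩
  unfold GT.lc
  rw [h1, h]

theorem exists_red {I : Ideal (WB T)} {c : WB T} (hc : c ∈ I) (h0 : c ≠ 0) :
    ∃ b, Red I (pord c) b := by
  set m := pord c with hm
  have key : ∀ n : ℕ, ∃ b ∈ I, pord b = m ∧ GT.lc b = 1 ∧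
      ∀ c ∈ I, c ≠ 0 → m ≤ pord c + n → pord c < m → lcf T (pord c) b = 0 := by
    intro n
    induction n with
    | zero =>
      refine ⟨(GT.lc c)⁻¹ • c, ?_, ?_, ?_, ?_⟩
      · exact (I.restrictScalars Ω).smul_mem _ hc
      · rw [pord_smul (inv_ne_zero (lc_ne h0))]
      · rw [lc_smul, inv_mul_cancel₀ (lc_ne h0)]
      · intro c' _ _ h1 h2
        omega
    | succ n ih =>
      obtain ⟨b, hb, h1, h2, h3⟩ := ih
      by_cases hex : ∃ c' ∈ I, c' ≠ 0 ∧ pord c' + (n + 1) = m
      · obtain ⟨c', hc', h0', hp⟩ := hex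
        let r : WB T := (GT.lc c')⁻¹ • c'
        have hr : r ∈ I := (I.restrictScalars Ω).smul_mem _ hc'
        have hrp : pord r = pord c' := pord_smul (inv_ne_zero (lc_ne h0')) _
        have hrl : lcf T (pord c') r = 1 := by
          have : GT.lc r = 1 := by rw [lc_smul, inv_mul_cancel₀ (lc_ne h0')]
          unfold GT.lc at this
          rwa [hrp] at this
        let a := lcf T (pord c') b
        have hzero : ∀ l, pord c' < l → lcf T l (b - a • r) = lcf T l b := by
          intro l hl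
          rw [map_sub, map_smul, a2_lcf_zero (mem_Ble_pord r) (by rw [hrp]; exact hl), smul_zero,
            sub_zero]
        have hmem : b - a • r ∈ Ble T m := by
          refine Submodule.sub_mem _ ((mem_Ble_iff _ _).2 h1.le) (Submodule.smul_mem _ _ ?_)
          rw [mem_Ble_iff, hrp]
          omega
        have hlc : lcf T m (b - a • r) = 1 := by
          rw [hzero m (by omega), ← h1]
          exact h2
        obtain ⟨h4, h5⟩ := r_mk hmem hlc
        refine ⟨b - a • r, I.sub_mem hb ((I.restrictScalars Ω).smul_mem _ hr), h4, h5, ?_⟩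
        intro c'' hc'' h0'' h6 h7
        by_cases h8 : pord c'' = pord c'
        · rw [h8, map_sub, map_smul, hrl, smul_eq_mul, mul_one]
          exact sub_self _
        · rw [hzero _ (by omega)]
          exact h3 c'' hc'' h0'' (by omega) h7
      · push Not at hex
        refine ⟨b, hb, h1, h2, ?_⟩
        intro c'' hc'' h0'' h6 h7
        have := hex c'' hc'' h0''
        exact h3 c'' hc'' h0'' (by omega) h7
  obtain ⟨b, hb, h1, h2, h3⟩ := key m
  exact ⟨b, hb, h1, h2, fun c' hc' h0' h => h3 c' hc' h0' (by omega) h⟩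

theorem red_unique {I : Ideal (WB T)} {m : ℕ} {b b' : WB T} (h : Red I m b) (h' : Red I m b') :
    b = b' := by
  by_contra hne
  have h0 : b - b' ≠ 0 := sub_ne_zero.2 hne
  have h1 : pord (b - b') < m := by
    have := pord_sub_lt (b := b) (c := b') (by rw [h.ord, h'.ord]) (by rw [h.lc, h'.lc]) hne
    rwa [h.ord] at this
  have hm : b - b' ∈ I := I.sub_mem h.mem h'.mem
  apply lc_ne h0
  unfold GT.lc
  rw [map_sub, h.red _ hm h0 h1, h'.red _ hm h0 h1, sub_zero]

theorem Red.ne {I : Ideal (WB T)} {m : ℕ} {b : WB T} (h : Red I m b) : b ≠ 0 := by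
  intro h0
  have := h.lc
  rw [h0, a3_lc_zero] at this
  exact zero_ne_one this

/-- every element of the ideal is a combination of reduced elements -/
theorem mem_span_red {I : Ideal (WB T)} {b : WB T} (hb : b ∈ I) :
    b ∈ Submodule.span Ω {c | ∃ m, Red I m c} := by
  have key : ∀ (n : ℕ) (b : WB T), b ∈ I → pord b < n → b ∈ Submodule.span Ω {c | ∃ m, Red I m c} := by
    intro n
    induction n with
    | zero => intro b _ h; omega
    | succ n ih =>
      intro b hb hn
      by_cases h0 : b = 0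
      · rw [h0]
        exact Submodule.zero_mem _
      obtain ⟨r, hr⟩ := exists_red hb h0
      have h1 : b = (b - GT.lc b • r) + GT.lc b • r := by rw [sub_add_cancel]
      have h2 : GT.lc b • r ∈ Submodule.span Ω {c | ∃ m, Red I m c} :=
        Submodule.smul_mem _ _ (Submodule.subset_span ⟨_, hr⟩)
      rw [h1]
      refine Submodule.add_mem _ ?_ h2
      by_cases h3 : b - GT.lc b • r = 0
      · rw [h3]
        exact Submodule.zero_mem _
      refine ih _ (I.sub_mem hb ((I.restrictScalars Ω).smul_mem _ hr.mem)) ?_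
      have h4 := pord_sub_lt (b := b) (c := GT.lc b • r) (by rw [pord_smul (lc_ne h0), hr.ord])
        (by rw [lc_smul, hr.lc, mul_one]) (sub_ne_zero.1 h3)
      omega
  exact key _ b hb (Nat.lt_succ_self _)

theorem r_hK (K : IntermediateField k Ω) : ∀ x : k, algebraMap k Ω x ∈ K.toSubfield :=
  fun x => K.algebraMap_mem x

theorem lcf_pm (f : Ω →+ Ω) (m : ℕ) (b : WB T) : lcf T m (pm (eW T) f b) = f (lcf T m b) := by
  rw [lcf_apply, lcf_apply, map_sum]
  refine Finset.sum_congr rfl fun j _ => ?_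
  split_ifs
  · rw [← eW_repr, pm_repr, eW_repr]
  · rw [map_zero]

theorem pm_Ble (f : Ω →+ Ω) {m : ℕ} {b : WB T} (hb : b ∈ Ble T m) : pm (eW T) f b ∈ Ble T m := by
  intro j n hn
  rw [← eW_repr, pm_repr, eW_repr, hb j n hn, map_zero]

theorem red_pm {I : Ideal (WB T)} {m : ℕ} {b : WB T} (h : Red I m b) (f : Ω →+ Ω) (hf : f 1 = 1)
    (hI : pm (eW T) f b ∈ I) : Red I m (pm (eW T) f b) := by
  have hl : lcf T m b = 1 := by
    have := h.lc
    unfold GT.lc at this
    rwa [h.ord] at this
  obtain ⟨h1, h2⟩ := r_mk (m := m) (pm_Ble f ((mem_Ble_iff b m).2 h.ord.le)) (by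
    rw [lcf_pm, hl, hf])
  exact ⟨hI, h1, h2, fun c hc h0 hlt => by rw [lcf_pm, h.red c hc h0 hlt, map_zero]⟩

theorem ratI_iff (hT : Tk k T) (K : IntermediateField k Ω) {I : Ideal (WB T)} (hI : I ≠ ⊥) :
    RatI (K : Set Ω) I ↔ ∀ m b, Red I m b → Cf (K : Set Ω) b := by
  constructor
  · intro h m b hb
    have h1 := (ratI_iff_pm hT (r_hK K) I).1 h
    obtain ⟨π, hπ⟩ := exists_fn K.toSubfield
    have h2 := red_pm hb (fn π) hπ (h1 π b hb.mem)
    rw [red_unique hb h2]
    exact (cf_iff (K.toSubfield : Set Ω) _).2 (pm_cf (K := K.toSubfield) (eW T) π b)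
  · intro h
    refine le_antisymm (fun x hx => ?_) (Ideal.span_le.2 fun x hx => hx.1)
    have hle : Submodule.span Ω {c | ∃ m, Red I m c} ≤
        (Ideal.span {b | b ∈ I ∧ Cf (K : Set Ω) b}).restrictScalars Ω := by
      rw [Submodule.span_le]
      rintro y ⟨m, hy⟩
      exact Ideal.subset_span ⟨hy.mem, h m y hy⟩
    exact hle (mem_span_red hx)

theorem ratI_span (hT : Tk k T) (K : IntermediateField k Ω) {b : WB T} (hb : Cf (K : Set Ω) b) :
    RatI (K : Set Ω) (Ideal.span {b}) := ratISpan _ hb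

theorem ratI_mul (hT : Tk k T) (K : IntermediateField k Ω) {I J : Ideal (WB T)}
    (hI : RatI (K : Set Ω) I) (hJ : RatI (K : Set Ω) J) : RatI (K : Set Ω) (I * J) :=
  ratIMul (K := K.toSubfield) hT (r_hK K) hI hJ

theorem ratI_of_mul (hT : Tk k T) (K : IntermediateField k Ω) {I J : Ideal (WB T)} (hI : I ≠ ⊥)
    {b : WB T} (hb : Cf (K : Set Ω) b) (h0 : b ≠ 0) (hI' : RatI (K : Set Ω) I)
    (h : I * J = Ideal.span {b}) : RatI (K : Set Ω) J :=
  ratIQuot (K := K.toSubfield) hT (r_hK K) hI' hI hb h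

theorem cls_mem_JK (hT : Tk k T) (K : IntermediateField k Ω) {I : Ideal (WB T)} (hI : I ≠ ⊥)
    (h : RatI (K : Set Ω) I) : cls I ∈ JK (T := T) (K : Set Ω) :=
  (mem_JK_iff' (K := K.toSubfield) hT (r_hK K) _).2 ⟨I, hI, h, rfl⟩

theorem JK_one (hT : Tk k T) (K : IntermediateField k Ω) : (1 : ClassGroup (WB T)) ∈
    JK (T := T) (K : Set Ω) := jkOne (K := K.toSubfield) hT (r_hK K)

theorem JK_mul (hT : Tk k T) (K : IntermediateField k Ω) {x y : ClassGroup (WB T)}
    (hx : x ∈ JK (T := T) (K : Set Ω)) (hy : y ∈ JK (T := T) (K : Set Ω)) :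
    x * y ∈ JK (T := T) (K : Set Ω) := jkMul (K := K.toSubfield) hT (r_hK K) hx hy

theorem JK_inv (hT : Tk k T) (K : IntermediateField k Ω) {x : ClassGroup (WB T)}
    (hx : x ∈ JK (T := T) (K : Set Ω)) : x⁻¹ ∈ JK (T := T) (K : Set Ω) :=
  jkInv (K := K.toSubfield) hT (r_hK K) hx

theorem JK_mono {K K' : Set Ω} (h : K ⊆ K') :
    JK (T := T) K ⊆ JK (T := T) K' := by
  intro x hx
  change RatI K (rdc x) at hx
  change RatI K' (rdc x)
  refine le_antisymm ?_ (Ideal.span_le.2 fun x hx => hx.1)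
  conv_lhs => rw [hx]
  exact Ideal.span_mono fun b hb => ⟨hb.1, fun j n => h (hb.2 j n)⟩

/-- the field of definition of a class -/
noncomputable def kD (k : Type) {Ω : Type} [Field k] [Field Ω] [Algebra k Ω] [IsAlgClosed Ω]
    {d : ℕ} [NeZero d] {T : Tab Ω d} [IsDedekindDomain (WB T)] (x : ClassGroup (WB T)) :
    IntermediateField k Ω :=
  IntermediateField.adjoin k {c | ∃ m b j n, Red (rdc x) m b ∧ c = (b.co j).coeff n}

theorem mem_JK_iff (hT : Tk k T) (K : IntermediateField k Ω) (x : ClassGroup (WB T)) :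
    x ∈ JK (T := T) (K : Set Ω) ↔ kD k x ≤ K := by
  change RatI (K : Set Ω) (rdc x) ↔ _
  rw [ratI_iff hT K (rdc_ne x), kD, IntermediateField.adjoin_le_iff]
  constructor
  · rintro h c ⟨m, b, j, n, hb, rfl⟩
    exact h m b hb j n
  · intro h m b hb j n
    exact h ⟨m, b, j, n, hb, rfl⟩

theorem JK_inf (hT : Tk k T) (K K' : IntermediateField k Ω) {x : ClassGroup (WB T)}
    (hx : x ∈ JK (T := T) (K : Set Ω)) (hy : x ∈ JK (T := T) (K' : Set Ω)) :
    x ∈ JK (T := T) ((K ⊓ K' : IntermediateField k Ω) : Set Ω) := by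
  rw [mem_JK_iff hT] at hx hy ⊢
  exact le_inf hx hy

/-- the action on the functions is the application to the coefficients -/
theorem rac_eq_pm (hT : Tk k T) (σ : Ω ≃ₐ[k] Ω) (b : WB T) :
    rac hT σ b = pm (eW T) ((σ : Ω →+* Ω) : Ω →+ Ω) b := by
  apply (eW T).repr.injective
  ext ⟨n, j⟩
  rw [pm_repr, eW_repr, eW_repr, rac, bE_co, coeff_map]
  rfl

theorem act_eq_iff (hT : Tk k T) (σ : Ω ≃ₐ[k] Ω) (x : ClassGroup (WB T)) :
    act hT σ x = x ↔ ∀ c ∈ kD k x, σ c = c := by
  have hmap : (rdc x).map (rac hT σ) = rdc (act hT σ x) := rdc_map _ x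
  constructor
  · intro h
    rw [h] at hmap
    have hst : ∀ y ∈ rdc x, pm (eW T) ((σ : Ω →+* Ω) : Ω →+ Ω) y ∈ rdc x := by
      intro y hy
      rw [← rac_eq_pm hT σ y]
      have h5 := Ideal.mem_map_of_mem (rac hT σ) hy
      rwa [hmap] at h5
    have hle : kD k x ≤ IntermediateField.fixedField (Subgroup.zpowers σ) := by
      rw [kD, IntermediateField.adjoin_le_iff]
      rintro c ⟨m, b, j, n, hb, rfl⟩
      have h1 := red_pm hb ((σ : Ω →+* Ω) : Ω →+ Ω) (map_one σ) (hst b hb.mem)
      have h2 := red_unique h1 hb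
      have h3 : σ ((b.co j).coeff n) = (b.co j).coeff n := by
        have := congrArg (fun z : WB T => (z.co j).coeff n) h2
        simp only [← eW_repr, pm_repr] at this
        rw [eW_repr] at this
        exact this
      rw [SetLike.mem_coe, IntermediateField.mem_fixedField_iff]
      intro τ hτ
      obtain ⟨i, rfl⟩ := Subgroup.mem_zpowers_iff.1 hτ
      have h4 : σ ∈ MulAction.stabilizer (Ω ≃ₐ[k] Ω) ((b.co j).coeff n) := h3
      exact (MulAction.stabilizer (Ω ≃ₐ[k] Ω) ((b.co j).coeff n)).zpow_mem h4 i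
    intro c hc
    have := hle hc
    rw [IntermediateField.mem_fixedField_iff] at this
    exact this σ (Subgroup.mem_zpowers σ)
  · intro h
    have h1 : (rdc x).map (rac hT σ) = rdc x := by
      have hrat : RatI (kD k x : Set Ω) (rdc x) := (mem_JK_iff hT (kD k x) x).2 le_rfl
      conv_lhs => rw [hrat]
      conv_rhs => rw [hrat]
      rw [Ideal.map_span]
      congr 1
      ext b
      have hfix : ∀ b : WB T, Cf (kD k x : Set Ω) b → rac hT σ b = b := by
        intro b hb
        rw [rac_eq_pm]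
        apply (eW T).repr.injective
        ext ⟨n, j⟩
        rw [pm_repr, eW_repr]
        exact h _ (hb j n)
      constructor
      · rintro ⟨c, hc, rfl⟩
        rw [hfix c hc.2]
        exact hc
      · intro hb
        exact ⟨b, hb, hfix b hb.2⟩
    rw [h1] at hmap
    have h2 := congrArg cls hmap
    rwa [cls_rdc, cls_rdc, eq_comm] at h2

/-! points -/

theorem r_mP_ne (P : Pt T) : mP P ≠ ⊥ := by
  intro h
  have h1 : WB.x T - algebraMap Ω (WB T) (P (WB.x T)) ∈ mP P := by
    change P _ = 0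
    rw [map_sub, AlgHom.commutes, Algebra.algebraMap_self_apply, sub_self]
  rw [h, Ideal.mem_bot, sub_eq_zero] at h1
  have h2 := congrArg (fun b : WB T => (b.co 0).coeff 1) h1
  simp only [WB.x, WB.algebraMap_co, WB.algebraMap_co', if_pos, coeff_X_one, coeff_C_succ] at h2
  exact one_ne_zero h2

theorem r_dI_ne (X : List (Pt T)) : dI X ≠ ⊥ := by
  rw [dI]
  refine List.prod_ne_zero ?_
  intro h
  obtain ⟨P, _, hP⟩ := List.mem_map.1 h
  exact r_mP_ne P hP

/-- the monomials are taken to `K` by a point over `K` -/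
theorem r_eW_mem (K : IntermediateField k Ω) {P : Pt T} (hP : PK k (K : Set Ω) P)
    (i : ℕ × ZMod d) : P (eW T i) ∈ K := by
  apply hP
  intro j n
  rw [← eW_repr, (eW T).repr_self]
  by_cases h : i = (n, j)
  · rw [h, Finsupp.single_eq_same]
    exact ⟨1, map_one _⟩
  · rw [Finsupp.single_eq_of_ne' h]
    exact ⟨0, map_zero _⟩

theorem r_pm_pt (K : IntermediateField k Ω) {P : Pt T} (hP : PK k (K : Set Ω) P)
    (π : Ω →ₗ[K.toSubfield] K.toSubfield) (x : WB T) : P (pm (eW T) (fn π) x) = fn π (P x) := by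
  have h1 : P x = ((eW T).repr x).sum fun i r => r * P (eW T i) := by
    conv_lhs => rw [← (eW T).linearCombination_repr x]
    rw [Finsupp.linearCombination_apply, map_finsuppSum]
    refine Finsupp.sum_congr fun i _ => ?_
    rw [map_smul, smul_eq_mul]
  have h2 : pm (eW T) (fn π) x = ((eW T).repr x).sum fun i r => fn π r • eW T i := by
    conv_lhs => rw [← (eW T).linearCombination_repr x]
    rw [Finsupp.linearCombination_apply, map_finsuppSum]
    refine Finsupp.sum_congr fun i _ => ?_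
    rw [pm_basis]
  rw [h1, h2, map_finsuppSum, map_finsuppSum]
  refine Finsupp.sum_congr fun i _ => ?_
  rw [map_smul, smul_eq_mul, mul_comm (((eW T).repr x) i),
    fn_mul π _ _ (r_eW_mem K hP i), mul_comm]

theorem ratI_mP (hT : Tk k T) (K : IntermediateField k Ω) {P : Pt T} (hP : PK k (K : Set Ω) P) :
    RatI (K : Set Ω) (mP P) := by
  refine (ratI_iff_pm hT (r_hK K) _).2 fun π x hx => ?_
  change P _ = 0
  rw [r_pm_pt K hP]
  have : P x = 0 := hx
  rw [this, map_zero]

theorem ratI_dI (hT : Tk k T) (K : IntermediateField k Ω) {X : List (Pt T)}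
    (hX : ∀ P ∈ X, PK k (K : Set Ω) P) : RatI (K : Set Ω) (dI X) := by
  induction X with
  | nil =>
    have h : dI ([] : List (Pt T)) = ⊤ := by
      rw [dI, List.map_nil, List.prod_nil, Ideal.one_eq_top]
    rw [h]
    exact ratITop K.toSubfield
  | cons P X ih =>
    have h : dI (P :: X) = mP P * dI X := by
      rw [dI, dI, List.map_cons, List.prod_cons]
    rw [h]
    exact ratI_mul hT K (ratI_mP hT K (hX P (List.mem_cons_self)))
      (ih fun Q hQ => hX Q (List.mem_cons_of_mem _ hQ))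

theorem cl_mem_JK (hT : Tk k T) (K : IntermediateField k Ω) {X : List (Pt T)}
    (hX : ∀ P ∈ X, PK k (K : Set Ω) P) : cl X ∈ JK (T := T) (K : Set Ω) :=
  cls_mem_JK hT K (r_dI_ne X) (ratI_dI hT K hX)

theorem r_dI_le {X : List (Pt T)} {P : Pt T} (hP : P ∈ X) : dI X ≤ mP P := by
  rw [dI, ← Ideal.dvd_iff_le]
  exact List.dvd_prod (List.mem_map_of_mem hP)

/- an ideal rational over an algebraically closed field is a product of points over it -/
theorem PK_of_ratI (hT : Tk k T) (K : IntermediateField k Ω) [IsAlgClosed K] {X : List (Pt T)}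
    (h : RatI (K : Set Ω) (dI X)) : ∀ P ∈ X, PK k (K : Set Ω) P := by
  intro P hP b hb
  -- the polynomial `p = ∏ (X - P_i b)`; `p(b)` is in the ideal
  let p : Polynomial Ω := (X.map fun Q => Polynomial.X - C (Q b)).prod
  have hp1 : p.Monic := by
    have h2 : ∀ Y : List (Pt T), Monic (Y.map fun Q : Pt T => Polynomial.X - C (Q b)).prod := by
      intro Y
      induction Y with
      | nil => simp
      | cons Q Y ih =>
        rw [List.map_cons, List.prod_cons]
        exact (monic_X_sub_C _).mul ih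
    exact h2 X
  have hpb : aeval b p ∈ dI X := by
    have h1 : aeval b p = (X.map fun Q => b - algebraMap Ω (WB T) (Q b)).prod := by
      change aeval b (X.map fun Q => Polynomial.X - C (Q b)).prod = _
      rw [map_list_prod, List.map_map]
      congr 1
      refine List.map_congr_left fun Q _ => ?_
      simp
    rw [h1, dI]
    have h2 : ∀ Y : List (Pt T), (Y.map fun Q => b - algebraMap Ω (WB T) (Q b)).prod ∈
        (Y.map mP).prod := by
      intro Y
      induction Y with
      | nil => simp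
      | cons Q Y ih =>
        rw [List.map_cons, List.map_cons, List.prod_cons, List.prod_cons]
        refine Ideal.mul_mem_mul ?_ ih
        change Q _ = 0
        rw [map_sub, AlgHom.commutes, Algebra.algebraMap_self_apply, sub_self]
    exact h2 X
  obtain ⟨π, hπ⟩ := exists_fn K.toSubfield
  have hbK : Cf (K.toSubfield : Set Ω) b := fun j n => by
    obtain ⟨r, hr⟩ := hb j n
    rw [← hr]
    exact K.algebraMap_mem r
  have hpow : ∀ n, Cf (K.toSubfield : Set Ω) (b ^ n) := by
    intro n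
    induction n with
    | zero => rw [pow_zero]; exact cfOne
    | succ n ih => rw [pow_succ]; exact cfMul hT (r_hK K) ih hbK
  have h3 := (ratI_iff_pm hT (r_hK K) _).1 h π _ hpb
  have h4 : pm (eW T) (fn π) (aeval b p) = ∑ i ∈ Finset.range (p.natDegree + 1),
      fn π (p.coeff i) • b ^ i := by
    rw [aeval_eq_sum_range, map_sum]
    exact Finset.sum_congr rfl fun i _ => pm_smul _ π _ _ ((cf_iff _ _).1 (hpow i))
  rw [h4] at h3
  have h5 : P (∑ i ∈ Finset.range (p.natDegree + 1), fn π (p.coeff i) • b ^ i) = 0 :=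
    r_dI_le hP h3
  rw [map_sum] at h5
  let q : Polynomial K := ∑ i ∈ Finset.range (p.natDegree + 1),
    monomial i (⟨fn π (p.coeff i), fn_mem π _⟩ : K)
  have hq0 : q ≠ 0 := by
    intro h0
    have h6 : q.coeff p.natDegree = 0 := by rw [h0, coeff_zero]
    rw [finsetSum_coeff, Finset.sum_eq_single p.natDegree] at h6
    · rw [coeff_monomial_same] at h6
      have h7 := congrArg (Subtype.val : K → Ω) h6
      change fn π (p.coeff p.natDegree) = 0 at h7
      rw [coeff_natDegree, hp1.leadingCoeff, hπ] at h7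
      exact one_ne_zero h7
    · intro i _ hi
      rw [coeff_monomial, if_neg hi]
    · intro h
      exact absurd (Finset.mem_range.2 (Nat.lt_succ_self _)) h
  have hq : aeval (P b) q = 0 := by
    rw [map_sum, ← h5]
    refine Finset.sum_congr rfl fun i _ => ?_
    rw [aeval_monomial, map_smul, map_pow, smul_eq_mul]
    rfl
  have halg : IsAlgebraic K (P b) := ⟨q, hq0, hq⟩
  have hint : IsIntegral K (P b) := halg.isIntegral
  have hdeg := IsAlgClosed.degree_eq_one_of_irreducible K (minpoly.irreducible hint)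
  obtain ⟨c, hc⟩ := minpoly.mem_range_of_degree_eq_one K (P b) hdeg
  rw [← hc]
  exact c.2

theorem r_e_co (i : ℕ) (j : ZMod d) (n : ℕ) :
    ((e T i).co j).coeff n = 0 ∨ ((e T i).co j).coeff n = 1 := by
  have h1 : ∀ m, (mono T m).co j = if T.w j ≤ m ∧ (m - T.w j) % d = 0 then
      (Polynomial.X ^ ((m - T.w j) / d) : Polynomial Ω) else 0 := by
    intro m
    have h : (mono T m).co = ∑ j, (if T.w j ≤ m ∧ (m - T.w j) % d = 0 then
        (Polynomial.X ^ ((m - T.w j) / d) : Polynomial Ω) • WB.f T j else 0 : WB T).co :=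
      map_sum (⟨⟨WB.co, rfl⟩, fun _ _ => rfl⟩ : WB T →+ (ZMod d → Polynomial Ω)) _ _
    rw [h, Finset.sum_apply, Finset.sum_eq_single j]
    · split_ifs
      · rw [WB.co_smul, WB.f_co, Pi.single_eq_same, mul_one]
      · rfl
    · intro l _ hl
      split_ifs
      · rw [WB.co_smul, WB.f_co, Pi.single_eq_of_ne hl.symm, mul_zero]
      · rfl
    · intro h; exact absurd (Finset.mem_univ _) h
  rw [e, h1]
  split_ifs
  · rw [coeff_X_pow]
    split_ifs
    · exact Or.inr rfl
    · exact Or.inl rfl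
  · exact Or.inl (coeff_zero _)

theorem r_e_mem (K : IntermediateField k Ω) {P : Pt T} (hP : PK k (K : Set Ω) P) (i : ℕ) :
    P (e T i) ∈ K := by
  apply hP
  intro j n
  rcases r_e_co (T := T) i j n with h | h
  · rw [h]; exact ⟨0, map_zero _⟩
  · rw [h]; exact ⟨1, map_one _⟩

theorem Dl_mem (hT : Tk k T) (K : IntermediateField k Ω) {X : List (Pt T)}
    (hX : ∀ P ∈ X, PK k (K : Set Ω) P) : Dl X ∈ K := by
  rw [Dl, Matrix.det_apply]
  refine K.sum_mem fun σ _ => ?_
  have h1 : ∏ i, Matrix.of (fun i j : Fin X.length => (X.get i) (e T j)) (σ i) i ∈ K :=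
    K.prod_mem fun i _ => r_e_mem K (hX _ (List.get_mem _ _)) _
  rcases Int.units_eq_one_or (Equiv.Perm.sign σ) with h | h
  · rw [h, one_smul]; exact h1
  · rw [h, Units.neg_smul, one_smul]; exact K.neg_mem h1

theorem r_rac_e (hT : Tk k T) (σ : Ω ≃ₐ[k] Ω) (i : ℕ) : rac hT σ (e T i) = e T i := by
  refine WB.ext (funext fun j => Polynomial.ext fun n => ?_)
  rw [rac, bE_co, coeff_map]
  rcases r_e_co (T := T) i j n with h | h
  · rw [h, map_zero]
  · rw [h, map_one]

theorem Dl_aP (hT : Tk k T) (σ : Ω ≃ₐ[k] Ω) (X : List (Pt T)) :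
    Dl (X.map (aP hT σ)) = σ (Dl X) := by
  have h1 : ∀ P : Pt T, ∀ j, (aP hT σ P) (e T j) = σ (P (e T j)) := by
    intro P j
    change σ (P ((rac hT σ).symm (e T j))) = _
    rw [(RingEquiv.symm_apply_eq _).2 (r_rac_e hT σ j).symm]
  have hlen : (X.map (aP hT σ)).length = X.length := List.length_map _
  rw [Dl, Dl, ← AlgEquiv.coe_ringEquiv, RingEquiv.map_det, ← Matrix.det_reindex_self (finCongr hlen)]
  congr 1
  ext i j
  simp only [Matrix.reindex_apply, Matrix.submatrix_apply, Matrix.of_apply, finCongr_symm,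
    finCongr_apply, Fin.val_cast, RingEquiv.mapMatrix_apply, Matrix.map_apply]
  rw [List.get_eq_getElem, List.getElem_map, h1]
  rfl

theorem r_mP_aP (hT : Tk k T) (σ : Ω ≃ₐ[k] Ω) (P : Pt T) :
    mP (aP hT σ P) = (mP P).map (rac hT σ) := by
  ext b
  rw [Ideal.mem_map_of_equiv]
  constructor
  · intro h
    have h1 : σ (P ((rac hT σ).symm b)) = 0 := h
    rw [map_eq_zero_iff σ σ.injective] at h1
    exact ⟨(rac hT σ).symm b, h1, RingEquiv.apply_symm_apply _ _⟩
  · rintro ⟨c, hc, rfl⟩
    change σ (P ((rac hT σ).symm (rac hT σ c))) = 0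
    rw [RingEquiv.symm_apply_apply]
    have : P c = 0 := hc
    rw [this, map_zero]

theorem cl_aP (hT : Tk k T) (σ : Ω ≃ₐ[k] Ω) (X : List (Pt T)) :
    cl (X.map (aP hT σ)) = act hT σ (cl X) := by
  rw [cl, cl, act, clm_cls _ (r_dI_ne X)]
  congr 1
  induction X with
  | nil =>
    have h : dI ([] : List (Pt T)) = ⊤ := by
      rw [dI, List.map_nil, List.prod_nil, Ideal.one_eq_top]
    rw [List.map_nil, h, Ideal.map_top]
  | cons P X ih =>
    rw [List.map_cons]
    have h : ∀ (P : Pt T) (X : List (Pt T)), dI (P :: X) = mP P * dI X := fun P X => by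
      rw [dI, dI, List.map_cons, List.prod_cons]
    rw [h, h, Ideal.map_mul, ih, r_mP_aP]

end R

end Pool.Agent.TIFT
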