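import Pool.Agent.TIFT.Defs

/-!
# [TIF, block THETA] row A1

combinatorics of the semigroup of the pole orders: Ow T m <-> exists j, T.w j <= m and m = T.w j mod d (each residue class has exactly one w j, T.w_cast); Ow_add from T.top;
there are exactly gp T = sum_j w j / d gaps (numbers with not Ow; GT.A8 count_ge / count_eq may help for large m); if m is a gap then for each a <= m one of a, m - a is a gap
(Ow_add), so m + 1 <= 2 * (number of gaps <= m) <= 2 gp: all gaps are < 2 gp. Nat.count / Nat.nth API (Nat.nth_count).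
-/

set_option autoImplicit false
set_option linter.unusedSectionVars false

open Polynomial IsLocalRing

namespace Pool.Agent.TIFT

open GT TIF

section

variable {d : ℕ} [NeZero d] {R : Type} [CommRing R] [Nontrivial R]

theorem Ow_infinite (T : Tab R d) : (Set.ofPred (Ow T)).Infinite := by
  refine Set.infinite_of_injective_forall_mem (f := fun n : ℕ => d * n + T.w 0) ?_ ?_
  · intro a b hab
    exact (T.wt_inj hab).2
  · intro n
    exact ⟨0, n, rfl⟩

theorem Ow_add (T : Tab R d) {m n : ℕ} (hm : Ow T m) (hn : Ow T n) : Ow T (m + n) := by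
  obtain ⟨i, a, rfl⟩ := hm
  obtain ⟨j, b, rfl⟩ := hn
  obtain ⟨c, hc, -⟩ := T.top i j
  refine ⟨i + j, a + b + c, ?_⟩
  have e : d * (a + b + c) = d * a + d * b + d * c := by ring
  rw [e]
  omega

private theorem a1_ge_iff (T : Tab R d) (m : ℕ) (j : ZMod d) (i : ℕ) :
    (if T.w j ≤ m then (m - T.w j) / d + 1 else 0) ≤ i ↔ m < d * i + T.w j := by
  have hl : 0 < d := Nat.pos_of_ne_zero (NeZero.ne d)
  split_ifs with h
  · rw [Nat.add_one_le_iff, Nat.div_lt_iff_lt_mul hl, mul_comm]
    omega
  · simp only [zero_le, true_iff]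
    omega

open Classical in
private theorem a1_count (T : Tab R d) (m : ℕ) :
    Nat.count (Ow T) (m + 1) = ∑ j, if T.w j ≤ m then (m - T.w j) / d + 1 else 0 := by
  have e : (Finset.range (m + 1)).filter (Ow T) =
      (Finset.univ.sigma fun j : ZMod d =>
        Finset.range (if T.w j ≤ m then (m - T.w j) / d + 1 else 0)).image
        fun x : (Σ _ : ZMod d, ℕ) => d * x.2 + T.w x.1 := by
    ext t
    simp only [Finset.mem_filter, Finset.mem_range, Finset.mem_image, Finset.mem_sigma,
      Finset.mem_univ, true_and]
    constructor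
    · rintro ⟨ht, j, n, rfl⟩
      refine ⟨⟨j, n⟩, ?_, rfl⟩
      by_contra hc
      have := (a1_ge_iff T m j n).1 (not_lt.1 hc)
      omega
    · rintro ⟨⟨j, n⟩, hn, rfl⟩
      refine ⟨?_, j, n, rfl⟩
      by_contra hc
      simp only at hc hn
      have := (a1_ge_iff T m j n).2 (by omega)
      omega
  rw [Nat.count_eq_card_filter_range, e, Finset.card_image_of_injective, Finset.card_sigma]
  · simp only [Finset.card_range]
  · rintro ⟨i, a⟩ ⟨j, b⟩ h
    obtain ⟨h1, h2⟩ := T.wt_inj h
    simp only at h1 h2
    subst h1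
    subst h2
    rfl

theorem Ow_large (T : Tab R d) {m : ℕ} (hm : 2 * gp T ≤ m) : Ow T m := by
  classical
  by_contra hc
  have h1 := count_ge T m
  rw [← a1_count, Nat.count_eq_card_filter_range] at h1
  have h1' : m + 1 ≤ ((Finset.range (m + 1)).filter (Ow T)).card + gp T := h1
  have h2 := Finset.card_filter_add_card_filter_not (s := Finset.range (m + 1)) (Ow T)
  rw [Finset.card_range] at h2
  have h2' : ((Finset.range (m + 1)).filter (Ow T)).card +
      ((Finset.range (m + 1)).filter fun t => ¬ Ow T t).card = m + 1 := h2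
  have h3 : ((Finset.range (m + 1)).filter (Ow T)).card ≤
      ((Finset.range (m + 1)).filter fun t => ¬ Ow T t).card := by
    refine Finset.card_le_card_of_injOn (fun a => m - a) ?_ ?_
    · intro a ha
      simp only [Finset.coe_filter, Finset.mem_range, Set.mem_ofPred_eq] at ha ⊢
      refine ⟨by omega, fun h => hc ?_⟩
      have := Ow_add T ha.2 h
      rwa [show a + (m - a) = m by omega] at this
    · intro a ha b hb hab
      simp only [Finset.coe_filter, Finset.mem_range, Set.mem_ofPred_eq] at ha hb hab
      omega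
  omega

open Classical in
theorem count_Ow (T : Tab R d) {m : ℕ} (hm : 2 * gp T ≤ m) : Nat.count (Ow T) m + gp T = m := by
  have h0 : ∀ j, T.w j ≤ m + ∑ i, T.w i := fun j =>
    le_add_left (Finset.single_le_sum (f := fun i => T.w i) (fun _ _ => Nat.zero_le _)
      (Finset.mem_univ j))
  have h1 := count_eq T (m + ∑ i, T.w i) h0
  rw [← a1_count] at h1
  have h2 : ∀ k, Nat.count (Ow T) (m + k) = Nat.count (Ow T) m + k := by
    intro k
    induction k with
    | zero => rfl
    | succ k ih =>
      rw [← add_assoc, Nat.count_succ, if_pos (Ow_large T (by omega)), ih]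
      omega
  rw [add_assoc m, h2] at h1
  omega

theorem nth_Ow (T : Tab R d) {i : ℕ} (hi : gp T ≤ i) : Nat.nth (Ow T) i = i + gp T := by
  classical
  have h1 := count_Ow T (m := i + gp T) (by omega)
  have h2 := Nat.nth_count (p := Ow T) (n := i + gp T) (Ow_large T (by omega))
  rwa [show Nat.count (Ow T) (i + gp T) = i by omega] at h2

end

end Pool.Agent.TIFT
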