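import Pool.Agent.TIFT.Defs

/-!
# [TIF, block THETA] row B1

Matrix.det_permute, Matrix.det_zero_of_row_eq. Dl_swap: induction on B and C with adjacent transpositions (first: Dl (A ++ [P, Q] ++ D) = - Dl (A ++ [Q, P] ++ D)), or the sign of the block permutation (finAddFlip / Equiv.Perm.sign). Dl_perm: List.Perm induction is not enough (cons): prove it for A ++ X ++ D with both sides extended.
-/

set_option autoImplicit false
set_option linter.unusedSectionVars false

open Polynomial IsLocalRing

namespace Pool.Agent.TIFT

open GT TIF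

section

variable {d : ℕ} [NeZero d] {κ : Type} [Field κ] {T : Tab κ d}

theorem Dl_perm_sign {X Y : List (Pt T)} (h : X.length = Y.length) (σ : Equiv.Perm (Fin X.length))
    (hσ : ∀ i, X.get (σ i) = Y.get (Fin.cast h i)) :
    Dl Y = (Equiv.Perm.sign σ : ℤ) * Dl X := by
  have h1 : Dl Y = Matrix.det (Matrix.submatrix
      (Matrix.of fun i j : Fin Y.length => (Y.get i) (e T j)) (finCongr h) (finCongr h)) :=
    (Matrix.det_submatrix_equiv_self (finCongr h) _).symm
  have h2 : Matrix.submatrix (Matrix.of fun i j : Fin Y.length => (Y.get i) (e T j))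
      (finCongr h) (finCongr h) =
      Matrix.submatrix (Matrix.of fun i j : Fin X.length => (X.get i) (e T j)) σ id := by
    ext i j
    show (Y.get (Fin.cast h i)) (e T (Fin.cast h j)) = (X.get (σ i)) (e T j)
    rw [hσ i]
    rfl
  rw [h1, h2, Matrix.det_permute]
  rfl

private theorem b1_adj (A D : List (Pt T)) (P Q : Pt T) :
    Dl (A ++ P :: Q :: D) = - Dl (A ++ Q :: P :: D) := by
  have hl : (A ++ Q :: P :: D).length = (A ++ P :: Q :: D).length := by simp
  have h1 : A.length < (A ++ Q :: P :: D).length := by
    rw [List.length_append, List.length_cons]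
    omega
  have h2 : A.length + 1 < (A ++ Q :: P :: D).length := by
    rw [List.length_append, List.length_cons, List.length_cons]
    omega
  rw [Dl_perm_sign hl (Equiv.swap ⟨A.length, h1⟩ ⟨A.length + 1, h2⟩), Equiv.Perm.sign_swap]
  · simp
  · intro h
    have := congrArg Fin.val h
    simp at this
  · intro i
    rw [List.get_eq_getElem, List.get_eq_getElem]
    by_cases h3 : i = ⟨A.length, h1⟩
    · subst h3
      rw [Equiv.swap_apply_left]
      simp
    · by_cases h4 : i = ⟨A.length + 1, h2⟩
      · subst h4
        rw [Equiv.swap_apply_right]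
        simp
      · rw [Equiv.swap_apply_of_ne_of_ne h3 h4]
        obtain ⟨i, hi⟩ := i
        simp only [Fin.mk.injEq] at h3 h4
        simp only [Fin.val_cast]
        rcases lt_or_ge i A.length with h5 | h5
        · rw [List.getElem_append_left h5, List.getElem_append_left h5]
        · rw [List.getElem_append_right h5, List.getElem_append_right h5]
          obtain ⟨j, rfl⟩ : ∃ j, i = A.length + (j + 2) := ⟨i - A.length - 2, by omega⟩
          simp

private theorem b1_one (P : Pt T) (D : List (Pt T)) : ∀ (C A : List (Pt T)),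
    Dl (A ++ P :: (C ++ D)) = (-1) ^ C.length * Dl (A ++ C ++ P :: D)
  | [], A => by simp
  | Q :: C, A => by
    have h1 := b1_one P D C (A ++ [Q])
    have h2 := b1_adj A (C ++ D) P Q
    simp only [List.append_assoc, List.cons_append, List.nil_append] at h1 h2 ⊢
    rw [h2, h1, List.length_cons, pow_succ]
    ring

private theorem b1_swap (C D : List (Pt T)) : ∀ (B A : List (Pt T)),
    Dl (A ++ (B ++ (C ++ D))) = (-1) ^ (B.length * C.length) * Dl (A ++ (C ++ (B ++ D)))
  | [], A => by simp
  | P :: B, A => by
    have h1 := b1_swap C D B (A ++ [P])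
    have h2 := b1_one P (B ++ D) C A
    simp only [List.append_assoc, List.cons_append, List.nil_append] at h1 h2 ⊢
    rw [h1, h2, List.length_cons, Nat.succ_mul, pow_add]
    ring

theorem Dl_swap (A B C D : List (Pt T)) :
    Dl (A ++ B ++ C ++ D) = (-1) ^ (B.length * C.length) * Dl (A ++ C ++ B ++ D) := by
  have h := b1_swap C D B A
  simp only [List.append_assoc] at h ⊢
  exact h

theorem Dl_comm (B C : List (Pt T)) :
    Dl (B ++ C) = (-1) ^ (B.length * C.length) * Dl (C ++ B) := by
  have h := Dl_swap [] B C []
  simp only [List.append_nil, List.nil_append] at h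
  exact h

private theorem b1_perm {X Y : List (Pt T)} (h : X.Perm Y) : ∀ A : List (Pt T),
    Dl (A ++ X) = Dl (A ++ Y) ∨ Dl (A ++ X) = - Dl (A ++ Y) := by
  induction h with
  | nil => exact fun A => Or.inl rfl
  | cons x _ ih =>
    intro A
    have h := ih (A ++ [x])
    simp only [List.append_assoc, List.cons_append, List.nil_append] at h
    exact h
  | swap x y l => exact fun A => Or.inr (b1_adj A l y x)
  | trans _ _ h1 h2 =>
    intro A
    rcases h1 A with h1 | h1 <;> rcases h2 A with h2 | h2
    · exact Or.inl (h1.trans h2)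
    · exact Or.inr (h1.trans h2)
    · refine Or.inr ?_
      rw [h1, h2]
    · refine Or.inl ?_
      rw [h1, h2, neg_neg]

theorem Dl_perm {X Y : List (Pt T)} (h : X.Perm Y) : Dl X = Dl Y ∨ Dl X = - Dl Y := by
  have h1 := b1_perm h []
  simp only [List.nil_append] at h1
  exact h1

theorem nodup_of_Dl {X : List (Pt T)} (h : Dl X ≠ 0) : X.Nodup := by
  rw [List.nodup_iff_injective_get]
  intro i j hij
  by_contra hne
  apply h
  refine Matrix.det_zero_of_row_eq hne ?_
  funext l
  show (X.get i) (e T l) = (X.get j) (e T l)
  rw [hij]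

end

end Pool.Agent.TIFT
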