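import Pool.Agent.TIFT.Defs

/-!
# [TIF, block THETA] row B3

(φ i (h' j)) = (φ i (h j)) * U with U unipotent upper triangular (Matrix.det_of_upperTriangular).
-/

set_option autoImplicit false
set_option linter.unusedSectionVars false

open Polynomial IsLocalRing

namespace Pool.Agent.TIFT

open GT TIF

section

variable {d : ℕ} [NeZero d] {κ : Type} [Field κ] {T : Tab κ d}

/-- The statement for a vector space. -/
theorem b3_gen {K M : Type} [Field K] [AddCommGroup M] [Module K M] {n : ℕ} (h h' : Fin n → M)
    (hh : ∀ i, h' i - h i ∈ Submodule.span K (Set.range fun j : {j : Fin n // j < i} => h j))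
    (φ : Fin n → M →ₗ[K] K) :
    Matrix.det (Matrix.of fun i j => φ i (h' j)) = Matrix.det (Matrix.of fun i j => φ i (h j)) := by
  classical
  have hc : ∀ i, ∃ c : {j : Fin n // j < i} → K, ∑ j, c j • h j = h' i - h i := fun i =>
    (Submodule.mem_span_range_iff_exists_fun K).1 (hh i)
  choose c hc using hc
  let U : Matrix (Fin n) (Fin n) K := fun j i =>
    if hji : j < i then c i ⟨j, hji⟩ else if j = i then 1 else 0
  have hU : ∀ i, h' i = ∑ j, U j i • h j := by
    intro i
    have e1 : ∑ j : {j : Fin n // j < i}, c i j • h j =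
        ∑ j ∈ Finset.univ.filter (fun j : Fin n => j < i), U j i • h j := by
      rw [← Finset.sum_subtype_eq_sum_filter]
      refine Finset.sum_bij' (fun j _ => ⟨j.1, j.2⟩) (fun j _ => ⟨j.1, j.2⟩) ?_ ?_ ?_ ?_ ?_
      · intro j _
        exact Finset.mem_subtype.2 (Finset.mem_univ _)
      · intro j _
        exact Finset.mem_univ _
      · intro j _
        rfl
      · intro j _
        rfl
      · intro j _
        have e : U j.1 i = c i j := by
          show (if hji : j.1 < i then c i ⟨j.1, hji⟩ else if j.1 = i then 1 else 0) = _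
          rw [dif_pos j.2]
        show _ = U j.1 i • h j.1
        rw [e]
    have e2 : ∑ j, U j i • h j = ∑ j ∈ Finset.univ.filter (fun j : Fin n => j < i), U j i • h j +
        ∑ j ∈ Finset.univ.filter (fun j : Fin n => ¬ j < i), U j i • h j :=
      (Finset.sum_filter_add_sum_filter_not _ _ _).symm
    have e3 : ∑ j ∈ Finset.univ.filter (fun j : Fin n => ¬ j < i), U j i • h j = h i := by
      rw [Finset.sum_eq_single i]
      · have e : U i i = 1 := by
          show (if hji : i < i then c i ⟨i, hji⟩ else if i = i then 1 else 0) = _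
          rw [dif_neg (lt_irrefl _), if_pos rfl]
        rw [e, one_smul]
      · intro j hj hji
        rw [Finset.mem_filter] at hj
        have e : U j i = 0 := by
          show (if hji : j < i then c i ⟨j, hji⟩ else if j = i then 1 else 0) = _
          rw [dif_neg hj.2, if_neg hji]
        rw [e, zero_smul]
      · intro hi
        exact absurd (Finset.mem_filter.2 ⟨Finset.mem_univ i, lt_irrefl i⟩) hi
    rw [e2, e3, ← e1, hc i, sub_add_cancel]
  have hM : (Matrix.of fun i j => φ i (h' j)) = (Matrix.of fun i j => φ i (h j)) * U := by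
    ext i j
    rw [Matrix.mul_apply, Matrix.of_apply, hU j, map_sum]
    refine Finset.sum_congr rfl fun l _ => ?_
    rw [map_smul, Matrix.of_apply, smul_eq_mul, mul_comm]
  have hdet : U.det = 1 := by
    have hT : U.BlockTriangular id := by
      intro i j hij
      show (if hji : i < j then c j ⟨i, hji⟩ else if i = j then 1 else 0) = _
      have hij' : j < i := hij
      rw [dif_neg (not_lt_of_gt hij'), if_neg (ne_of_gt hij')]
    rw [Matrix.det_of_isUpperTriangular hT]
    refine Finset.prod_eq_one fun i _ => ?_
    show (if hji : i < i then c i ⟨i, hji⟩ else if i = i then 1 else 0) = _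
    rw [dif_neg (lt_irrefl _), if_pos rfl]
  rw [hM, Matrix.det_mul, hdet, mul_one]

theorem det_stair {n : ℕ} (h h' : Fin n → WB T)
    (hh : ∀ i, h' i - h i ∈ Submodule.span κ (Set.range fun j : {j : Fin n // j < i} => h j))
    (φ : Fin n → WB T →ₗ[κ] κ) :
    Matrix.det (Matrix.of fun i j => φ i (h' j)) = Matrix.det (Matrix.of fun i j => φ i (h j)) :=
  b3_gen h h' hh φ

end

end Pool.Agent.TIFT
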