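import Pool.Agent.TIFT.Defs

/-!
# [TIF, block THETA] row B4

h j := e (|X| + j) - sum_i c_ij e_i, c = A⁻¹ (column of the values of e (|X|+j) on X), A = (e_j (X_i)). Reindex X ++ Y by Fin |X| ⊕ Fin |Y| and use Matrix.det_fromBlocks₁₁ (D - C A⁻¹ B = (h_j (Y_i))).
-/

set_option autoImplicit false
set_option linter.unusedSectionVars false

open Polynomial IsLocalRing

namespace Pool.Agent.TIFT

open GT TIF

section

variable {d : ℕ} [NeZero d] {κ : Type} [Field κ] {T : Tab κ d}

theorem exists_stair {X : List (Pt T)} (hX : Dl X ≠ 0) :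
    ∃ h : ℕ → WB T, (∀ j, h j - e T (X.length + j) ∈
        Submodule.span κ (Set.range fun i : Fin X.length => e T i)) ∧
      (∀ j, ∀ P ∈ X, P (h j) = 0) ∧
      ∀ Y : List (Pt T), Dl (X ++ Y) =
        Dl X * Matrix.det (Matrix.of fun i j : Fin Y.length => (Y.get i) (h j)) := by
  classical
  let A : Matrix (Fin X.length) (Fin X.length) κ := Matrix.of fun i j => (X.get i) (e T j)
  have hA : IsUnit A.det := isUnit_iff_ne_zero.2 hX
  let c : ℕ → Fin X.length → κ := fun j =>
    A⁻¹.mulVec (fun b => (X.get b) (e T (X.length + j)))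
  let h : ℕ → WB T := fun j => e T (X.length + j) - ∑ a, c j a • e T a
  have hAc : ∀ j, A.mulVec (c j) = fun b => (X.get b) (e T (X.length + j)) := by
    intro j
    show A.mulVec (A⁻¹.mulVec _) = _
    rw [Matrix.mulVec_mulVec, Matrix.mul_nonsing_inv _ hA, Matrix.one_mulVec]
  refine ⟨h, ?_, ?_, ?_⟩
  · intro j
    have e1 : h j - e T (X.length + j) = -∑ a, c j a • e T a := by
      show e T (X.length + j) - ∑ a, c j a • e T a - e T (X.length + j) = _
      abel
    rw [e1]
    refine Submodule.neg_mem _ (Submodule.sum_mem _ fun a _ => Submodule.smul_mem _ _ ?_)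
    exact Submodule.subset_span ⟨a, rfl⟩
  · intro j P hP
    obtain ⟨i, rfl⟩ := List.mem_iff_get.1 hP
    show (X.get i) (e T (X.length + j) - ∑ a, c j a • e T a) = 0
    rw [map_sub, map_sum, sub_eq_zero]
    have e1 := congrFun (hAc j) i
    rw [← e1]
    show ∑ a, A i a * c j a = _
    refine Finset.sum_congr rfl fun a _ => ?_
    rw [map_smul, smul_eq_mul, mul_comm]
    rfl
  · intro Y
    let E : Fin X.length ⊕ Fin Y.length ≃ Fin (X ++ Y).length :=
      finSumFinEquiv.trans (finCongr (List.length_append).symm)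
    have hEl : ∀ i : Fin X.length, ((E (Sum.inl i) : Fin (X ++ Y).length) : ℕ) = i := fun i => rfl
    have hEr : ∀ i : Fin Y.length, ((E (Sum.inr i) : Fin (X ++ Y).length) : ℕ) = X.length + i :=
      fun i => rfl
    have hgl : ∀ i : Fin X.length, (X ++ Y).get (E (Sum.inl i)) = X.get i := by
      intro i
      rw [List.get_eq_getElem, List.get_eq_getElem]
      simp only [hEl]
      rw [List.getElem_append_left i.2]
    have hgr : ∀ i : Fin Y.length, (X ++ Y).get (E (Sum.inr i)) = Y.get i := by
      intro i
      rw [List.get_eq_getElem, List.get_eq_getElem]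
      simp only [hEr]
      rw [List.getElem_append_right (Nat.le_add_right _ _)]
      simp
    let B : Matrix (Fin X.length) (Fin Y.length) κ :=
      Matrix.of fun i j => (X.get i) (e T (X.length + j))
    let C : Matrix (Fin Y.length) (Fin X.length) κ := Matrix.of fun i j => (Y.get i) (e T j)
    let D' : Matrix (Fin Y.length) (Fin Y.length) κ :=
      Matrix.of fun i j => (Y.get i) (e T (X.length + j))
    have hM : (Matrix.of fun i j : Fin (X ++ Y).length => ((X ++ Y).get i) (e T j)).submatrix E E =
        Matrix.fromBlocks A B C D' := by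
      ext i j
      rcases i with i | i <;> rcases j with j | j
      · rw [Matrix.submatrix_apply, Matrix.of_apply, hgl, hEl, Matrix.fromBlocks_apply₁₁]
        rfl
      · rw [Matrix.submatrix_apply, Matrix.of_apply, hgl, hEr, Matrix.fromBlocks_apply₁₂]
        rfl
      · rw [Matrix.submatrix_apply, Matrix.of_apply, hgr, hEl, Matrix.fromBlocks_apply₂₁]
        rfl
      · rw [Matrix.submatrix_apply, Matrix.of_apply, hgr, hEr, Matrix.fromBlocks_apply₂₂]
        rfl
    have hdet : Dl (X ++ Y) = (Matrix.fromBlocks A B C D').det := by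
      rw [← hM, Matrix.det_submatrix_equiv_self]
      rfl
    have : Invertible A := Matrix.invertibleOfIsUnitDet A hA
    rw [hdet, Matrix.det_fromBlocks₁₁, Matrix.invOf_eq_nonsing_inv]
    have hS : D' - C * A⁻¹ * B = Matrix.of fun i j : Fin Y.length => (Y.get i) (h j) := by
      ext i j
      rw [Matrix.sub_apply, Matrix.mul_assoc, Matrix.mul_apply, Matrix.of_apply]
      show _ = (Y.get i) (e T (X.length + j) - ∑ a, c j a • e T a)
      rw [map_sub, map_sum]
      congr 1
      refine Finset.sum_congr rfl fun a _ => ?_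
      rw [map_smul, smul_eq_mul, mul_comm]
      rfl
    rw [hS]
    rfl

end

end Pool.Agent.TIFT
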