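import Pool.Agent.TIFT.A3

/-!
# [TIF, block THETA] row B5

If pord b < |X| + gp then b = sum_{i < |X|} c_i e_i (Ble_eq_span) and the vector c is in the kernel of the matrix (e_j (X_i)): Matrix.exists_mulVec_eq_zero_iff / det ≠ 0.
-/

set_option autoImplicit false
set_option linter.unusedSectionVars false

open Polynomial IsLocalRing

namespace Pool.Agent.TIFT

open GT TIF

section

variable {d : ℕ} [NeZero d] {κ : Type} [Field κ] {T : Tab κ d}

theorem pord_of_vanish {X : List (Pt T)} (hg : gp T ≤ X.length) (hX : Dl X ≠ 0) {b : WB T}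
    (hb : b ≠ 0) (h : ∀ P ∈ X, P b = 0) : X.length + gp T ≤ pord b := by
  classical
  by_contra hlt
  rw [not_le] at hlt
  have hm : X.length + gp T - 1 + 1 = X.length + gp T := by omega
  have hb1 : b ∈ Ble T (X.length + gp T - 1) := (mem_Ble_iff b _).2 (by omega)
  rw [Ble_eq_span hg hm, Submodule.mem_span_range_iff_exists_fun] at hb1
  obtain ⟨c, hc⟩ := hb1
  have h0 : (Matrix.of fun i j : Fin X.length => (X.get i) (e T j)).mulVec c = 0 := by
    funext i
    have h1 := h (X.get i) (List.get_mem X i)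
    rw [← hc, map_sum] at h1
    rw [Pi.zero_apply, ← h1]
    show ∑ j : Fin X.length, (X.get i) (e T j) * c j = _
    refine Finset.sum_congr rfl fun j _ => ?_
    rw [map_smul, smul_eq_mul, mul_comm]
  have hc0 : c = 0 := Matrix.eq_zero_of_mulVec_eq_zero hX h0
  apply hb
  rw [← hc, hc0]
  simp

theorem Dl_ne_of {X : List (Pt T)} (hg : gp T ≤ X.length)
    (h : ∀ b : WB T, b ≠ 0 → (∀ P ∈ X, P b = 0) → X.length + gp T ≤ pord b) : Dl X ≠ 0 := by
  classical
  intro h0
  obtain ⟨c, hc, hc0⟩ := Matrix.exists_mulVec_eq_zero_iff.2 h0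
  have hpos : 1 ≤ X.length := by
    by_contra hlt
    apply hc
    funext i
    exact absurd i.2 (by omega)
  have hm : X.length + gp T - 1 + 1 = X.length + gp T := by omega
  have hne : ∑ i : Fin X.length, c i • e T i ≠ 0 := by
    intro h1
    apply hc
    have hli : LinearIndependent κ (fun i : Fin X.length => e T (i : ℕ)) :=
      (linearIndependent_e T).comp _ Fin.val_injective
    funext i
    exact Fintype.linearIndependent_iff.1 hli c h1 i
  have hv : ∀ P ∈ X, P (∑ i : Fin X.length, c i • e T i) = 0 := by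
    intro P hP
    obtain ⟨i, rfl⟩ := List.mem_iff_get.1 hP
    have h1 := congrFun hc0 i
    rw [Pi.zero_apply] at h1
    rw [map_sum, ← h1]
    show _ = ∑ j : Fin X.length, (X.get i) (e T j) * c j
    refine Finset.sum_congr rfl fun j _ => ?_
    rw [map_smul, smul_eq_mul, mul_comm]
  have h2 := h _ hne hv
  have h3 : ∑ i : Fin X.length, c i • e T i ∈ Ble T (X.length + gp T - 1) := by
    rw [Ble_eq_span hg hm]
    exact Submodule.sum_mem _ fun i _ => Submodule.smul_mem _ _ (Submodule.subset_span ⟨i, rfl⟩)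
  have h4 := (mem_Ble_iff _ _).1 h3
  omega

end

end Pool.Agent.TIFT
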