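import Pool.Agent.TIFT.Defs
import Pool.Agent.TIFS.W2

/-!
# [TIF, block THETA] row C1: divisors
-/

set_option autoImplicit false
set_option linter.unusedSectionVars false

open Polynomial IsLocalRing

namespace Pool.Agent.TIFT

open GT TIF

section

variable {d : ℕ} [NeZero d] {κ : Type} [Field κ] [IsAlgClosed κ] {T : Tab κ d}
  [IsDedekindDomain (WB T)]

theorem dI_eq_iX (X : List (Pt T)) : dI X = Pool.Agent.TIFS.iX (X : Multiset (Pt T)) := by
  rw [dI, Pool.Agent.TIFS.iX, Multiset.map_coe, Multiset.prod_coe]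
  rfl

theorem ev_eq (b : WB T) (X : List (Pt T)) :
    ev b X = Pool.Agent.TIFS.ev b (X : Multiset (Pt T)) := by
  rw [ev, Pool.Agent.TIFS.ev, Multiset.map_coe, Multiset.prod_coe]

theorem mP_ne_bot (P : Pt T) : mP P ≠ ⊥ := Pool.Agent.TIFS.ker_ne_bot' P

theorem mP_inj {P Q : Pt T} (h : mP P ≤ mP Q) : P = Q := by
  have h2 : RingHom.ker P = RingHom.ker Q :=
    (Pool.Agent.TIFS.ker_maximal' P).eq_of_le (Pool.Agent.TIFS.ker_maximal' Q).ne_top h
  exact Pool.Agent.TIFS.alg_ext h2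

theorem dI_ne_bot (X : List (Pt T)) : dI X ≠ ⊥ := by
  rw [dI_eq_iX]
  exact Pool.Agent.TIFS.iX_ne _

theorem dI_nil : dI ([] : List (Pt T)) = ⊤ := by
  rw [dI_eq_iX]
  exact Pool.Agent.TIFS.iX_zero

theorem dI_append (X Y : List (Pt T)) : dI (X ++ Y) = dI X * dI Y := by
  rw [dI, dI, dI, List.map_append, List.prod_append]

theorem cl_append (X Y : List (Pt T)) : cl (X ++ Y) = cl X * cl Y := by
  rw [cl, cl, cl, dI_append, cls_mul (dI_ne_bot X) (dI_ne_bot Y)]

theorem dI_perm {X Y : List (Pt T)} (h : X.Perm Y) : dI X = dI Y := by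
  rw [dI_eq_iX, dI_eq_iX, Multiset.coe_eq_coe.2 h]

theorem cl_perm {X Y : List (Pt T)} (h : X.Perm Y) : cl X = cl Y := by
  rw [cl, cl, dI_perm h]

theorem exists_dI {I : Ideal (WB T)} (hI : I ≠ ⊥) : ∃ X : List (Pt T), dI X = I := by
  obtain ⟨X, hX⟩ := Pool.Agent.TIFS.iX_surj hI
  induction X using Quotient.inductionOn with
  | h X => exact ⟨X, by rw [dI_eq_iX]; exact hX⟩

theorem perm_of_dI {X Y : List (Pt T)} (h : dI X = dI Y) : X.Perm Y := by
  rw [dI_eq_iX, dI_eq_iX] at h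
  exact Multiset.coe_eq_coe.1 (Pool.Agent.TIFS.iX_inj h)

theorem len_dI (X : List (Pt T)) : len (dI X) = X.length := by
  rw [dI_eq_iX, Pool.Agent.TIFS.len_iX, Multiset.coe_card]

theorem dI_le_mP {X : List (Pt T)} {P : Pt T} : dI X ≤ mP P ↔ P ∈ X := by
  rw [dI_eq_iX, ← Multiset.mem_coe]
  exact Pool.Agent.TIFS.le_ker_iff

theorem dI_le_iff {X : List (Pt T)} (hX : X.Nodup) {b : WB T} :
    b ∈ dI X ↔ ∀ P ∈ X, P b = 0 := by
  induction X with
  | nil => simp [dI_nil]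
  | cons Q X ih =>
    have hQ : dI (Q :: X) = mP Q * dI X := by rw [dI, dI, List.map_cons, List.prod_cons]
    have hcop : IsCoprime (mP Q) (dI X) := by
      rw [Ideal.isCoprime_iff_sup_eq]
      by_contra hne
      obtain ⟨M, hM, hle⟩ := Ideal.exists_le_maximal _ hne
      have h1 : mP Q = M :=
        (Pool.Agent.TIFS.ker_maximal' Q).eq_of_le hM.ne_top (le_sup_left.trans hle)
      have h2 : dI X ≤ mP Q := by rw [h1]; exact le_sup_right.trans hle
      exact (List.nodup_cons.1 hX).1 (dI_le_mP.1 h2)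
    rw [hQ, Ideal.mul_eq_inf_of_coprime (Ideal.isCoprime_iff_sup_eq.1 hcop), Ideal.mem_inf,
      ih (List.nodup_cons.1 hX).2]
    simp only [List.mem_cons, forall_eq_or_imp]
    rfl

theorem ev_eq_zero_iff (b : WB T) (X : List (Pt T)) : ev b X = 0 ↔ ∃ P ∈ X, P b = 0 := by
  rw [ev_eq, Pool.Agent.TIFS.ev_eq_zero]
  rfl

theorem ev_perm {X Y : List (Pt T)} (h : X.Perm Y) (b : WB T) : ev b X = ev b Y := by
  rw [ev_eq, ev_eq, Multiset.coe_eq_coe.2 h]

theorem ev_append (b : WB T) (X Y : List (Pt T)) : ev b (X ++ Y) = ev b X * ev b Y := by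
  rw [ev, ev, ev, List.map_append, List.prod_append]

theorem ev_mul (b c : WB T) (X : List (Pt T)) : ev (b * c) X = ev b X * ev c X := by
  rw [ev_eq, ev_eq, ev_eq, Pool.Agent.TIFS.ev_mul]

theorem ev_smul (c : κ) (b : WB T) (X : List (Pt T)) : ev (c • b) X = c ^ X.length * ev b X := by
  rw [Algebra.smul_def, ev_mul]
  congr 1
  rw [ev_eq, Pool.Agent.TIFS.ev_const, Multiset.coe_card]

theorem span_eq_dI_length {b : WB T} (hb : b ≠ 0) {X : List (Pt T)} (h : Ideal.span {b} = dI X) :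
    X.length = pord b := by
  rw [← len_dI, ← h, len_span hb]

end

end Pool.Agent.TIFT
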