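import Pool.Agent.TIFT.A2
import Pool.Agent.TIFT.B3
import Pool.Agent.TIFT.B4
import Pool.Agent.TIFT.C1
import Pool.Agent.TIFT.A1
import Pool.Agent.TIFT.B1
import Pool.Agent.TIFT.B5

/-!
# [TIF, block THETA] row D2

exists_stair for X: h_j of order |X| + j + gp, leading coefficient 1, vanishing on X (X is Nodup, so h_j ∈ dI X). v h_j ∈ (v) dI X = (u) dI X', so v h_j = u h''_j with h''_j ∈ dI X' of order |X'| + j + gp (pord u + |X'| = pord v + |X|) and leading coefficient lc v / lc u = 1.
h''_j - h'_j (h' = exists_stair for X') is an element of dI X' of smaller order; an element b of dI X' of order < |X'| + j + gp is a combination of the h'_i, i < j (induction: b - lc b h'_i has smaller order if pord b = |X'| + i + gp; pord b >= |X'| + gp by pord_of_vanish). So det_stair applies with φ_i = evaluation at Y_i: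
det (h''_j (Y_i)) = det (h'_j (Y_i)); multiply rows: ev v Y * det (h_j (Y_i)) = det ((v h_j)(Y_i)) = ev u Y * det (h''_j (Y_i)). You may also import B5, A3.
-/

set_option autoImplicit false
set_option linter.unusedSectionVars false

open Polynomial IsLocalRing

namespace Pool.Agent.TIFT

open GT TIF

section

variable {d : ℕ} [NeZero d] {κ : Type} [Field κ] [IsAlgClosed κ] {T : Tab κ d}
  [IsDedekindDomain (WB T)]

private theorem d2_stair {X : List (Pt T)} (hg : gp T ≤ X.length) {b : WB T} (j : ℕ)
    (hb : b - e T (X.length + j) ∈ Submodule.span κ (Set.range fun i : Fin X.length => e T i)) :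
    pord b = X.length + j + gp T ∧ lc b = 1 := by
  have hp : pord (e T (X.length + j)) = X.length + j + gp T := by
    rw [pord_e, nth_Ow T (by omega)]
  have h1 : Submodule.span κ (Set.range fun i : Fin X.length => e T i) ≤
      Ble T (X.length + j + gp T) ⊓ LinearMap.ker (lcf T (X.length + j + gp T)) := by
    rw [Submodule.span_le]
    rintro _ ⟨i, rfl⟩
    have h2 : pord (e T (i : ℕ)) < X.length + j + gp T := by
      rw [← hp]
      exact pord_e_lt T (by omega)
    refine ⟨(mem_Ble_iff _ _).2 h2.le, ?_⟩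
    change lcf T (X.length + j + gp T) (e T (i : ℕ)) = 0
    by_contra h3
    have h4 := pord_eq_of ((mem_Ble_iff _ _).2 h2.le) h3
    omega
  have h2 := h1 hb
  have h3 : b = (b - e T (X.length + j)) + e T (X.length + j) := by abel
  have h4 : lcf T (X.length + j + gp T) b = 1 := by
    have h5 : lcf T (X.length + j + gp T) (b - e T (X.length + j)) = 0 := h2.2
    have h6 : lcf T (X.length + j + gp T) (e T (X.length + j)) = 1 := by
      have := lc_e T (X.length + j)
      rw [lc, hp] at this
      exact this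
    rw [h3, map_add, h5, h6, zero_add]
  have h5 : b ∈ Ble T (X.length + j + gp T) := by
    rw [h3]
    exact (Ble T _).add_mem h2.1 ((mem_Ble_iff _ _).2 hp.le)
  have h6 : pord b = X.length + j + gp T := pord_eq_of h5 (by rw [h4]; exact one_ne_zero)
  exact ⟨h6, by rw [lc, h6, h4]⟩

private theorem d2_span {X : List (Pt T)} (hg : gp T ≤ X.length) (hX : Dl X ≠ 0) (h : ℕ → WB T)
    (hh : ∀ j, pord (h j) = X.length + j + gp T ∧ lc (h j) = 1) (hv : ∀ j, ∀ P ∈ X, P (h j) = 0)
    (i : ℕ) : ∀ b : WB T, (∀ P ∈ X, P b = 0) → (b ≠ 0 → pord b < X.length + i + gp T) →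
      b ∈ Submodule.span κ (h '' Set.Iio i) := by
  induction i with
  | zero =>
    intro b hb hlt
    by_cases h0 : b = 0
    · rw [h0]
      exact Submodule.zero_mem _
    · have h1 := pord_of_vanish hg hX h0 hb
      have h2 := hlt h0
      omega
  | succ i ih =>
    intro b hb hlt
    have hmono : Submodule.span κ (h '' Set.Iio i) ≤ Submodule.span κ (h '' Set.Iio (i + 1)) :=
      Submodule.span_mono (Set.image_mono (Set.Iio_subset_Iio (Nat.le_succ i)))
    by_cases h0 : b ≠ 0 → pord b < X.length + i + gp T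
    · exact hmono (ih b hb h0)
    · push Not at h0
      obtain ⟨h0, h1⟩ := h0
      have h2 := hlt h0
      have h3 : pord b = X.length + i + gp T := by omega
      have h4 : lc b ≠ 0 := lc_ne h0
      have h5 : b - lc b • h i ∈ Submodule.span κ (h '' Set.Iio i) := by
        refine ih _ (fun P hP => ?_) (fun h6 => ?_)
        · rw [map_sub, map_smul, hb P hP, hv i P hP, smul_zero, sub_zero]
        · rw [← h3]
          refine pord_sub_lt ?_ ?_ (sub_ne_zero.1 h6)
          · rw [pord_smul h4, h3, (hh i).1]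
          · rw [lc_smul, (hh i).2, mul_one]
      have h6 : b = (b - lc b • h i) + lc b • h i := by abel
      rw [h6]
      refine Submodule.add_mem _ (hmono h5) (Submodule.smul_mem _ _ (Submodule.subset_span ?_))
      exact ⟨i, Nat.lt_succ_self i, rfl⟩

private theorem d2_ev (b : WB T) (Y : List (Pt T)) :
    ev b Y = ∏ i : Fin Y.length, (Y.get i) b := by
  rw [ev, ← List.prod_ofFn]
  congr 1
  refine List.ext_getElem (by simp) fun i h1 h2 => ?_
  simp

theorem Dl_change {X X' : List (Pt T)} (hg : gp T ≤ X.length) (hg' : gp T ≤ X'.length)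
    (hX : Dl X ≠ 0) (hX' : Dl X' ≠ 0) {u v : WB T} (h : Eqv X X' u v) (Y : List (Pt T)) :
    Dl (X ++ Y) * Dl X' * ev v Y = Dl (X' ++ Y) * Dl X * ev u Y := by
  obtain ⟨f, hf1, hf2, hf3⟩ := exists_stair hX
  obtain ⟨f', hf1', hf2', hf3'⟩ := exists_stair hX'
  have ho := fun j => d2_stair hg j (hf1 j)
  have ho' := fun j => d2_stair hg' j (hf1' j)
  have hn := nodup_of_Dl hX
  have hn' := nodup_of_Dl hX'
  -- the degrees
  have hdeg : pord u + X'.length = pord v + X.length := by
    have h1 := congrArg len h.div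
    rw [len_mul (by simpa using h.u0) (dI_ne_bot X'), len_mul (by simpa using h.v0) (dI_ne_bot X),
      len_span h.u0, len_span h.v0, len_dI, len_dI] at h1
    exact h1
  have hex : ∀ j, ∃ g ∈ dI X', u * g = v * f j := by
    intro j
    have h1 : v * f j ∈ Ideal.span {v} * dI X :=
      Ideal.mul_mem_mul (Ideal.mem_span_singleton_self v) ((dI_le_iff hn).2 (hf2 j))
    rw [← h.div, Ideal.mem_span_singleton_mul] at h1
    exact h1
  choose g hg1 hg2 using hex
  have hf0 : ∀ j, f j ≠ 0 := by
    intro j h0
    have := (ho j).2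
    rw [h0, (lc_eq_zero_iff (0 : WB T)).2 rfl] at this
    exact zero_ne_one this
  have hg0 : ∀ j, g j ≠ 0 := by
    intro j h0
    have := hg2 j
    rw [h0, mul_zero] at this
    exact mul_ne h.v0 (hf0 j) this.symm
  have hgo : ∀ j, pord (g j) = X'.length + j + gp T ∧ lc (g j) = 1 := by
    intro j
    constructor
    · have h1 := congrArg pord (hg2 j)
      rw [pord_mul h.u0 (hg0 j), pord_mul h.v0 (hf0 j), (ho j).1] at h1
      omega
    · have h1 := congrArg lc (hg2 j)
      rw [lc_mul, lc_mul, (ho j).2, h.lc] at h1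
      exact mul_left_cancel₀ (lc_ne h.v0) h1
  have hgv : ∀ j, ∀ P ∈ X', P (g j) = 0 := fun j => (dI_le_iff hn').1 (hg1 j)
  have hdet : Matrix.det (Matrix.of fun i j : Fin Y.length => (Y.get i) (g j)) =
      Matrix.det (Matrix.of fun i j : Fin Y.length => (Y.get i) (f' j)) := by
    refine det_stair (fun j : Fin Y.length => f' j) (fun j : Fin Y.length => g j) ?_
      (fun i => (Y.get i).toLinearMap)
    intro i
    have h1 : g i - f' i ∈ Submodule.span κ (f' '' Set.Iio (i : ℕ)) := by
      refine d2_span hg' hX' f' ho' hf2' i _ (fun P hP => ?_) (fun h2 => ?_)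
      · rw [map_sub, hgv _ P hP, hf2' _ P hP, sub_zero]
      · rw [← (hgo i).1]
        refine pord_sub_lt ?_ ?_ (sub_ne_zero.1 h2)
        · rw [(hgo i).1, (ho' i).1]
        · rw [(hgo i).2, (ho' i).2]
    refine Submodule.span_mono ?_ h1
    rintro _ ⟨j, hj, rfl⟩
    have hj' : j < (i : ℕ) := hj
    exact ⟨⟨⟨j, hj'.trans i.2⟩, hj'⟩, rfl⟩
  have hrow : ev v Y * Matrix.det (Matrix.of fun i j : Fin Y.length => (Y.get i) (f j)) =
      ev u Y * Matrix.det (Matrix.of fun i j : Fin Y.length => (Y.get i) (g j)) := by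
    rw [d2_ev, d2_ev, ← Matrix.det_mul_column, ← Matrix.det_mul_column]
    congr 1
    ext i j
    rw [Matrix.of_apply, Matrix.of_apply, Matrix.of_apply, Matrix.of_apply, ← map_mul, ← map_mul,
      hg2]
  rw [hf3 Y, hf3' Y, ← hdet]
  linear_combination (Dl X * Dl X') * hrow

end

end Pool.Agent.TIFT
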