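import Pool.Agent.TIFT.K2
import Pool.Agent.TIFT.D2

/-!
# [TIF, block THETA] row K3

exists_rep: exists_repK with k := κ, K := ⊤ (Tk κ T: T.map (RingHom.id) = T; every D is in JK ⊤: RatI univ I trivial; IsAlgClosed (⊤ : IntermediateField κ κ)). exists_Eqv: Z of class (cl X)⁻¹ outside S; generators of the principal ideals dI X dI Z, dI X' dI Z (cls_eq_one_iff), scaled to lc = 1.
-/

set_option autoImplicit false
set_option linter.unusedSectionVars false

open Polynomial IsLocalRing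

namespace Pool.Agent.TIFT

open GT TIF

section

variable {d : ℕ} [NeZero d] {κ : Type} [Field κ] [IsAlgClosed κ] {T : Tab κ d}
  [IsDedekindDomain (WB T)]

theorem k3_Tk (T : Tab κ d) : Tk κ T := ⟨T, T.map_id⟩

theorem exists_rep (x : ClassGroup (WB T)) (S : List (Pt T)) {n : ℕ} (hn : nT T ≤ n) :
    ∃ X : List (Pt T), X.Nodup ∧ (∀ P ∈ X, P ∉ S) ∧ cl X = x ∧ X.length = n := by
  have hac : IsAlgClosed (⊤ : IntermediateField κ κ) :=
    IsAlgClosed.of_ringEquiv κ (⊤ : IntermediateField κ κ)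
      (IntermediateField.topEquiv (F := κ) (E := κ)).symm.toRingEquiv
  have hx : x ∈ JK (T := T) ((⊤ : IntermediateField κ κ) : Set κ) := by
    change rdc x = Ideal.span {b | b ∈ rdc x ∧ Cf ((⊤ : IntermediateField κ κ) : Set κ) b}
    apply le_antisymm
    · intro b hb
      refine Ideal.subset_span ⟨hb, ?_⟩
      intro j n
      exact IntermediateField.mem_top
    · rw [Ideal.span_le]
      exact fun b hb => hb.1
  obtain ⟨X, h1, h2, h3, h4, _⟩ := exists_repK (k3_Tk T) ⊤ hx S hn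
  exact ⟨X, h1, h2, h3, h4⟩

theorem exists_Eqv {X X' : List (Pt T)} (h : cl X = cl X') (S : List (Pt T)) :
    ∃ (u v : WB T) (Z : List (Pt T)), Eqv X X' u v ∧ Ideal.span {u} = dI X * dI Z ∧
      Ideal.span {v} = dI X' * dI Z ∧ ∀ P ∈ S, P ∉ Z := by
  obtain ⟨Z, _, hZ2, hZ3, _⟩ := exists_rep (cl X)⁻¹ S (le_refl (nT T))
  have hX := dI_ne_bot X
  have hX' := dI_ne_bot X'
  have hZ := dI_ne_bot Z
  have h1 : cls (dI X * dI Z) = 1 := by
    rw [cls_mul hX hZ]
    change cl X * cl Z = 1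
    rw [hZ3, mul_inv_cancel]
  have h2 : cls (dI X' * dI Z) = 1 := by
    rw [cls_mul hX' hZ]
    change cl X' * cl Z = 1
    rw [hZ3, h, mul_inv_cancel]
  have hn1 : dI X * dI Z ≠ ⊥ := mul_ne_zero hX hZ
  have hn2 : dI X' * dI Z ≠ ⊥ := mul_ne_zero hX' hZ
  obtain ⟨u, hu⟩ := (cls_eq_one_iff hn1).1 h1
  obtain ⟨v, hv⟩ := (cls_eq_one_iff hn2).1 h2
  have hu0 : u ≠ 0 := by
    rintro rfl
    rw [Ideal.span_singleton_eq_bot.2 rfl] at hu
    exact hn1 hu
  have hv0 : v ≠ 0 := by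
    rintro rfl
    rw [Ideal.span_singleton_eq_bot.2 rfl] at hv
    exact hn2 hv
  have hc : lc u / lc v ≠ 0 := div_ne_zero (lc_ne hu0) (lc_ne hv0)
  have hspan : Ideal.span {(lc u / lc v) • v} = Ideal.span {v} := by
    rw [Algebra.smul_def]
    exact Ideal.span_singleton_mul_left_unit ((IsUnit.mk0 _ hc).map (algebraMap κ (WB T))) v
  refine ⟨u, (lc u / lc v) • v, Z, ⟨hu0, ?_, ?_, ?_⟩, hu.symm, by rw [hspan, hv], fun P hP hPZ => hZ2 P hPZ hP⟩
  · intro h0
    exact hv0 ((smul_eq_zero.1 h0).resolve_left hc)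
  · rw [lc_smul, div_mul_cancel₀ _ (lc_ne hv0)]
  · rw [hspan, ← hu, ← hv]
    ring

end

end Pool.Agent.TIFT
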