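import Pool.Agent.TIFT.B5
import Pool.Agent.TIFT.C1

/-!
# [TIF, block THETA] row C2

rdc x⁻¹ is the ideal of the least length in its class and has length <= gp (GT.A10: exists_reduced, len_rdc, rdc_unique, cls_rdc). If Dl X ≠ 0: dI X * rdc (cl X)⁻¹ = (b) (cls_eq_one_iff), b vanishes on X, so |X| + gp <= pord b = |X| + len rdc (len_span, len_mul). Conversely b vanishing on X (Nodup) is in dI X, (b) = dI X * I, len I = pord b - |X|, class (cl X)⁻¹: Dl_ne_of.
-/

set_option autoImplicit false
set_option linter.unusedSectionVars false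

open Polynomial IsLocalRing

namespace Pool.Agent.TIFT

open GT TIF

section

variable {d : ℕ} [NeZero d] {κ : Type} [Field κ] [IsAlgClosed κ] {T : Tab κ d}
  [IsDedekindDomain (WB T)]

theorem Ns_iff_vanish (x : ClassGroup (WB T)) : Ns x ↔
    ∀ I : Ideal (WB T), I ≠ ⊥ → cls I = x⁻¹ → gp T ≤ len I := by
  constructor
  · intro h I hI hc
    by_contra hlt
    rw [not_le] at hlt
    have h' : len (rdc x⁻¹) = gp T := h
    have h1 : len I ≤ len (rdc x⁻¹) := by
      rw [h']
      exact hlt.le
    have h2 := rdc_unique x⁻¹ I hI hc h1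
    rw [h2, h'] at hlt
    exact lt_irrefl _ hlt
  · intro h
    exact le_antisymm (len_rdc _) (h _ (rdc_ne _) (cls_rdc _))

private theorem c2_nodup {X : List (Pt T)} (h : Dl X ≠ 0) : X.Nodup := by
  rw [List.nodup_iff_injective_get]
  intro i j hij
  by_contra hne
  apply h
  refine Matrix.det_zero_of_row_eq hne ?_
  funext l
  show (X.get i) (e T l) = (X.get j) (e T l)
  rw [hij]

theorem Dl_ne_zero_iff {X : List (Pt T)} (hg : gp T ≤ X.length) :
    Dl X ≠ 0 ↔ X.Nodup ∧ Ns (cl X) := by
  have hX0 := dI_ne_bot X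
  constructor
  · intro h
    refine ⟨c2_nodup h, (Ns_iff_vanish _).2 fun I hI hc => ?_⟩
    have hne : dI X * I ≠ ⊥ := mul_ne_zero hX0 hI
    have h1 : cls (dI X * I) = 1 := by
      rw [cls_mul hX0 hI, hc]
      exact mul_inv_cancel _
    obtain ⟨b, hb⟩ := (cls_eq_one_iff hne).1 h1
    have hb0 : b ≠ 0 := by
      rintro rfl
      apply hne
      rw [hb]
      exact Ideal.span_singleton_eq_bot.2 rfl
    have hbX : b ∈ dI X := by
      have h2 : b ∈ dI X * I := by
        rw [hb]
        exact Ideal.mem_span_singleton_self b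
      have h2' : dI X * I ≤ dI X := Ideal.mul_le_left
      exact h2' h2
    have hv : ∀ P ∈ X, P b = 0 := by
      intro P hP
      have hm : b ∈ mP P := dI_le_mP.2 hP hbX
      unfold mP at hm
      exact RingHom.mem_ker.1 hm
    have h3 := pord_of_vanish hg h hb0 hv
    have h4 := len_span hb0
    rw [← hb, len_mul hX0 hI, len_dI] at h4
    omega
  · rintro ⟨hnd, hns⟩
    refine Dl_ne_of hg fun b hb0 hb => ?_
    have h1 : b ∈ dI X := (dI_le_iff hnd).2 hb
    have h2 : dI X ∣ Ideal.span {b} := Ideal.dvd_iff_le.2 ((Ideal.span_singleton_le_iff_mem _).2 h1)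
    obtain ⟨I, hI⟩ := h2
    have hI0 : I ≠ ⊥ := by
      rintro rfl
      apply hb0
      rw [Ideal.mul_bot] at hI
      exact Ideal.span_singleton_eq_bot.1 hI
    have h3 : cls I = (cl X)⁻¹ := by
      have h4 := cls_span hb0
      rw [hI, cls_mul hX0 hI0] at h4
      exact eq_inv_of_mul_eq_one_right h4
    have h5 := (Ns_iff_vanish _).1 hns I hI0 h3
    have h6 := len_span hb0
    rw [hI, len_mul hX0 hI0, len_dI] at h6
    omega

end

end Pool.Agent.TIFT
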