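import Pool.Agent.TIFT.K3
import Pool.Agent.TIFT.C2

/-!
# [TIF, block THETA] row K5

Dl_ne_zero_iff and exists_rep (gp T <= nT T).
-/

set_option autoImplicit false
set_option linter.unusedSectionVars false

open Polynomial IsLocalRing

namespace Pool.Agent.TIFT

open GT TIF

section

variable {d : ℕ} [NeZero d] {κ : Type} [Field κ] [IsAlgClosed κ] {T : Tab κ d}
  [IsDedekindDomain (WB T)]

theorem Ns_iff (x : ClassGroup (WB T)) :
    Ns x ↔ ∃ X : List (Pt T), gp T ≤ X.length ∧ Dl X ≠ 0 ∧ cl X = x := by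
  constructor
  · intro hx
    obtain ⟨X, h1, _, h3, h4⟩ := exists_rep x [] (le_refl (nT T))
    have hg : gp T ≤ X.length := by
      rw [h4, nT]; omega
    exact ⟨X, hg, (Dl_ne_zero_iff hg).2 ⟨h1, by rw [h3]; exact hx⟩, h3⟩
  · rintro ⟨X, hg, hD, rfl⟩
    exact ((Dl_ne_zero_iff hg).1 hD).2

end

end Pool.Agent.TIFT
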