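import Pool.Agent.TIFT.A3
import Pool.Agent.TIFT.B4

/-!
# [TIF, block THETA] row B6

Expansion of the determinant along the last row (Matrix.det_succ_row): F = sum_i ± minor_i e_i; the coefficient of e |X| is Dl X. Orders: pord_e, nth_Ow.
-/

set_option autoImplicit false
set_option linter.unusedSectionVars false

open Polynomial IsLocalRing

namespace Pool.Agent.TIFT

open GT TIF

section

variable {d : ℕ} [NeZero d] {κ : Type} [Field κ] {T : Tab κ d}

private theorem b6_cast {m : ℕ} (Y : List (Pt T)) (h : Y.length = m) :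
    Dl Y = Matrix.det (Matrix.of fun i j : Fin m => (Y.get (Fin.cast h.symm i)) (e T j)) := by
  subst h
  rfl

theorem exists_last (X : List (Pt T)) :
    ∃ F : WB T, (∀ P : Pt T, P F = Dl (X ++ [P])) ∧
      F - Dl X • e T X.length ∈ Submodule.span κ (Set.range fun i : Fin X.length => e T i) := by
  let M : Fin (X.length + 1) → κ := fun j =>
    Matrix.det (Matrix.of fun i k : Fin X.length => (X.get i) (e T (j.succAbove k : Fin (X.length + 1))))
  refine ⟨∑ j : Fin (X.length + 1), ((-1 : κ) ^ (X.length + (j : ℕ)) * M j) • e T j, ?_, ?_⟩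
  · intro P
    have hlen : (X ++ [P]).length = X.length + 1 := by simp
    rw [b6_cast (X ++ [P]) hlen, Matrix.det_succ_row _ (Fin.last X.length), map_sum]
    refine Finset.sum_congr rfl fun j _ => ?_
    rw [map_smul, smul_eq_mul]
    have e1 : (X ++ [P]).get (Fin.cast hlen.symm (Fin.last X.length)) = P := by
      rw [List.get_eq_getElem]
      simp
    have e2 : (Matrix.of fun i j : Fin (X.length + 1) =>
        ((X ++ [P]).get (Fin.cast hlen.symm i)) (e T j)) (Fin.last X.length) j = P (e T j) := by
      rw [Matrix.of_apply, e1]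
    have e3 : (Matrix.of fun i j : Fin (X.length + 1) =>
        ((X ++ [P]).get (Fin.cast hlen.symm i)) (e T j)).submatrix (Fin.last X.length).succAbove
          j.succAbove =
        Matrix.of fun i k : Fin X.length => (X.get i) (e T (j.succAbove k : Fin (X.length + 1))) := by
      ext i k
      rw [Matrix.submatrix_apply, Matrix.of_apply, Matrix.of_apply, Fin.succAbove_last]
      congr 1
      rw [List.get_eq_getElem, List.get_eq_getElem]
      exact List.getElem_append_left i.2
    rw [e2, e3, Fin.val_last]
    ring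
  · rw [Fin.sum_univ_castSucc]
    have e1 : ((-1 : κ) ^ (X.length + ((Fin.last X.length : Fin (X.length + 1)) : ℕ)) *
        M (Fin.last X.length)) = Dl X := by
      rw [Fin.val_last, ← two_mul, pow_mul, neg_one_sq, one_pow, one_mul]
      show Matrix.det _ = Matrix.det _
      congr 1
      ext i k
      rw [Matrix.of_apply, Matrix.of_apply, Fin.succAbove_last, Fin.val_castSucc]
    rw [e1, Fin.val_last, add_sub_cancel_right]
    refine Submodule.sum_mem _ fun j _ => Submodule.smul_mem _ _ (Submodule.subset_span ⟨j, ?_⟩)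
    rw [Fin.val_castSucc]

private theorem b6_lcf {b : WB T} {m : ℕ} (h : pord b < m) : b ∈ Ble T m ∧ lcf T m b = 0 := by
  have h1 : b ∈ Ble T m := (mem_Ble_iff b m).2 h.le
  refine ⟨h1, ?_⟩
  by_contra h2
  exact absurd (pord_eq_of h1 h2) h.ne

theorem last_Ble {X : List (Pt T)} (hg : gp T ≤ X.length) {F : WB T}
    (h : F - Dl X • e T X.length ∈ Submodule.span κ (Set.range fun i : Fin X.length => e T i)) :
    F ∈ Ble T (X.length + gp T) ∧ lcf T (X.length + gp T) F = Dl X := by
  have hp : pord (e T X.length) = X.length + gp T := by rw [pord_e, nth_Ow T hg]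
  have h1 : Submodule.span κ (Set.range fun i : Fin X.length => e T i) ≤
      Ble T (X.length + gp T) ⊓ LinearMap.ker (lcf T (X.length + gp T)) := by
    rw [Submodule.span_le]
    rintro _ ⟨i, rfl⟩
    have h2 : pord (e T i) < X.length + gp T := by
      rw [← hp]
      exact pord_e_lt T i.2
    exact ⟨(b6_lcf h2).1, LinearMap.mem_ker.2 (b6_lcf h2).2⟩
  obtain ⟨h3, h4⟩ := h1 h
  have h5 : e T X.length ∈ Ble T (X.length + gp T) := (mem_Ble_iff _ _).2 hp.le
  have h6 : lcf T (X.length + gp T) (e T X.length) = 1 := by
    have := lc_e T X.length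
    unfold lc at this
    rwa [hp] at this
  constructor
  · have h7 := Submodule.add_mem _ h3 (Submodule.smul_mem _ (Dl X) h5)
    rwa [sub_add_cancel] at h7
  · have h7 : lcf T (X.length + gp T) (F - Dl X • e T X.length) = 0 := h4
    rw [map_sub, map_smul, h6, smul_eq_mul, mul_one, sub_eq_zero] at h7
    exact h7

end

end Pool.Agent.TIFT
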