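import Pool.Agent.TIFT.B6
import Pool.Agent.TIFT.C2

/-!
# [TIF, block THETA] row C3

eq_of_pt: a nonzero element has only finitely many zeros (pord many), there are infinitely many points. F is the element of exists_last (eq_of_pt), so lc F = Dl X, pord F = |X| + gp (pord_eq_of). F vanishes on X (equal rows; X Nodup), (F) = dI X * I, len I = gp, class (cl X)⁻¹, so I = rdc (Dl_ne_zero_iff, rdc_unique: len I <= len rdc = gp).
-/

set_option autoImplicit false
set_option linter.unusedSectionVars false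

open Polynomial IsLocalRing

namespace Pool.Agent.TIFT

open GT TIF

section

variable {d : ℕ} [NeZero d] {κ : Type} [Field κ] [IsAlgClosed κ] {T : Tab κ d}
  [IsDedekindDomain (WB T)]

private theorem c3_zero {f : WB T} (h : ∀ P : Pt T, P f = 0) : f = 0 := by
  by_contra hf
  have hx0 : WB.x T ≠ 0 := by
    intro h0
    have h1 : pord (WB.x T) = d * (X : κ[X]).natDegree := pord_algebraMap X
    have h2 : pord (0 : WB T) ≤ 0 := (mem_Ble_iff _ _).1 (Submodule.zero_mem _)
    rw [h0, natDegree_X, mul_one] at h1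
    have h3 := NeZero.ne d
    omega
  have hx : 0 < pord (WB.x T) := by
    have h1 : pord (WB.x T) = d * (X : κ[X]).natDegree := pord_algebraMap X
    rw [h1, natDegree_X, mul_one]
    exact Nat.pos_of_ne_zero (NeZero.ne d)
  have hfx : pord (f * WB.x T) = pord f + pord (WB.x T) := pord_mul hf hx0
  have h1b : (1 : WB T) ∈ Ble T 0 := (mem_Ble_iff _ _).2 (by rw [pord_one])
  have hu : 0 < pord (1 + f * WB.x T) := by
    rw [Nat.pos_iff_ne_zero]
    intro h0
    have h1 : (1 + f * WB.x T) ∈ Ble T 0 := (mem_Ble_iff _ _).2 h0.le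
    have h2 : f * WB.x T ∈ Ble T 0 := by
      have h3 := Submodule.sub_mem _ h1 h1b
      rwa [add_sub_cancel_left] at h3
    have h4 := (mem_Ble_iff _ _).1 h2
    omega
  have hu0 : (1 + f * WB.x T) ≠ 0 := by
    intro h0
    rw [h0] at hu
    have h2 : pord (0 : WB T) ≤ 0 := (mem_Ble_iff _ _).1 (Submodule.zero_mem _)
    omega
  obtain ⟨Z, hZ⟩ := exists_dI (T := T) (I := Ideal.span {1 + f * WB.x T}) (by
    rw [Ne, Ideal.span_singleton_eq_bot]; exact hu0)
  have hl := span_eq_dI_length hu0 hZ.symm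
  have hne : Z ≠ [] := by
    rintro rfl
    simp only [List.length_nil] at hl
    omega
  obtain ⟨P, hP⟩ := List.exists_mem_of_ne_nil Z hne
  have h1 : Ideal.span {1 + f * WB.x T} ≤ mP P := by
    rw [← hZ]; exact dI_le_mP.2 hP
  have h2 : (1 + f * WB.x T) ∈ mP P := h1 (Ideal.mem_span_singleton_self _)
  have h3 : P (1 + f * WB.x T) = 0 := h2
  rw [map_add, map_mul, h P, zero_mul, add_zero, map_one] at h3
  exact one_ne_zero h3

theorem eq_of_pt {b c : WB T} (h : ∀ P : Pt T, P b = P c) : b = c :=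
  sub_eq_zero.1 (c3_zero fun P => by rw [map_sub, h P, sub_self])

theorem div_last {X : List (Pt T)} (hg : gp T ≤ X.length) (hX : Dl X ≠ 0) {F : WB T}
    (hF : ∀ P : Pt T, P F = Dl (X ++ [P])) :
    lc F = Dl X ∧ pord F = X.length + gp T ∧ Ideal.span {F} = dI X * rdc (cl X)⁻¹ := by
  obtain ⟨F', hF', hs⟩ := exists_last X
  obtain rfl : F = F' := eq_of_pt fun P => by rw [hF, hF']
  obtain ⟨hB, hlc⟩ := last_Ble hg hs
  have hp : pord F = X.length + gp T := pord_eq_of hB (by rw [hlc]; exact hX)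
  have hlc' : lc F = Dl X := by
    show lcf T (pord F) F = Dl X
    rw [hp, hlc]
  have hF0 : F ≠ 0 := by
    rintro rfl
    rw [map_zero] at hlc
    exact hX hlc.symm
  refine ⟨hlc', hp, ?_⟩
  have hXs := (Dl_ne_zero_iff hg).1 hX
  have hv : F ∈ dI X := by
    rw [dI_le_iff hXs.1]
    intro P hP
    rw [hF]
    by_contra h0
    have h1 := ((Dl_ne_zero_iff (X := X ++ [P]) (by
      rw [List.length_append]; omega)).1 h0).1
    rw [List.nodup_append] at h1
    exact h1.2.2 P hP P (List.mem_singleton_self P) rfl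
  have hle : Ideal.span {F} ≤ dI X := (Ideal.span_singleton_le_iff_mem _).2 hv
  obtain ⟨I, hI⟩ := Ideal.dvd_iff_le.2 hle
  have hI0 : I ≠ ⊥ := by
    rintro rfl
    rw [Ideal.mul_bot, Ideal.span_singleton_eq_bot] at hI
    exact hF0 hI
  have hX0 := dI_ne_bot X
  have hlen : len I = gp T := by
    have h1 : len (Ideal.span {F}) = pord F := len_span hF0
    rw [hI, len_mul hX0 hI0, len_dI, hp] at h1
    omega
  have hcls : cls I = (cl X)⁻¹ := by
    have h1 : cls (Ideal.span {F}) = 1 := cls_span hF0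
    rw [hI, cls_mul hX0 hI0] at h1
    exact eq_inv_of_mul_eq_one_right h1
  have hns : len (rdc (cl X)⁻¹) = gp T := hXs.2
  rw [hI, rdc_unique (cl X)⁻¹ I hI0 hcls (by rw [hlen, hns])]

end

end Pool.Agent.TIFT
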