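import Pool.Agent.TIFT.B1
import Pool.Agent.TIFT.B6
import Pool.Agent.TIFT.C1
import Pool.Agent.TIFT.C3

/-!
# [TIF, block THETA] row T4

F_i := exists_last for B i ++ X: P F_i = Dl (B i ++ X ++ [P]); F_i ∈ dI (B i) * dI X (it vanishes at the points; if B i ++ X is not Nodup it is 0), order <= |B i| + |X| + gp (last_Ble). The product is in (h) * dI X ^ m: divide by h and by ev h X; orders: pord h = sum |B i|.
-/

set_option autoImplicit false
set_option linter.unusedSectionVars false

open Polynomial IsLocalRing

namespace Pool.Agent.TIFT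

open GT TIF

section

variable {d : ℕ} [NeZero d] {κ : Type} [Field κ] [IsAlgClosed κ] {T : Tab κ d}
  [IsDedekindDomain (WB T)]

private theorem t4_dI_flatten (L : List (List (Pt T))) : dI L.flatten = (L.map dI).prod := by
  induction L with
  | nil => simp [dI]
  | cons a L ih => rw [List.flatten_cons, dI_append, ih, List.map_cons, List.prod_cons]

private theorem t4_mem (Y : List (Pt T)) {F : WB T}
    (hF : ∀ P : Pt T, P F = Dl (Y ++ [P])) : F ∈ dI Y := by
  by_cases hY : Y.Nodup
  · rw [dI_le_iff hY]
    intro P hP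
    rw [hF]
    by_contra hne
    have := nodup_of_Dl hne
    rw [List.nodup_append] at this
    exact this.2.2 P hP P (by simp) rfl
  · have : F = 0 := by
      apply eq_of_pt
      intro P
      rw [hF, map_zero]
      by_contra hne
      have := nodup_of_Dl hne
      rw [List.nodup_append] at this
      exact hY this.1
    rw [this]
    exact Ideal.zero_mem _

private theorem t4_Ble_prod {m : ℕ} (F : Fin m → WB T) (n : Fin m → ℕ)
    (h : ∀ i, F i ∈ Ble T (n i)) : (∏ i, F i) ∈ Ble T (∑ i, n i) := by
  induction m with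
  | zero =>
    simp only [Finset.univ_eq_empty, Finset.prod_empty, Finset.sum_empty]
    rw [mem_Ble_iff, pord_one]
  | succ m ih =>
    rw [Fin.prod_univ_succ, Fin.sum_univ_succ]
    exact Ble_mul (h 0) (ih _ _ fun i => h i.succ)

private theorem t4_mem_prod {m : ℕ} (F : Fin m → WB T) (I : Fin m → Ideal (WB T))
    (h : ∀ i, F i ∈ I i) : (∏ i, F i) ∈ ∏ i, I i := by
  induction m with
  | zero => simp
  | succ m ih =>
    rw [Fin.prod_univ_succ, Fin.prod_univ_succ]
    exact Ideal.mul_mem_mul (h 0) (ih _ _ fun i => h i.succ)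

theorem th_last {m : ℕ} {B : Fin m → List (Pt T)} {h : WB T} (hB : Hd B h) {X : List (Pt T)}
    (hg : gp T ≤ X.length) (h0 : ev h X ≠ 0) :
    ∃ F : WB T, F ∈ dI X ^ m ∧ pord F ≤ m * (X.length + gp T) ∧
      ∀ P : Pt T, P F * (P h * ev h X) = ∏ i, Dl (B i ++ X ++ [P]) := by
  have hh : h ≠ 0 := by
    intro h1
    have := hB.lc
    rw [h1, (lc_eq_zero_iff (0 : WB T)).2 rfl] at this
    exact zero_ne_one this
  choose F hF1 hF2 using fun i : Fin m => exists_last (B i ++ X)
  have hFI : ∀ i, F i ∈ dI (B i) * dI X := by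
    intro i
    rw [← dI_append]
    exact t4_mem _ (hF1 i)
  have hFB : ∀ i, F i ∈ Ble T ((B i).length + (X.length + gp T)) := by
    intro i
    have := (last_Ble (X := B i ++ X) (by rw [List.length_append]; omega) (hF2 i)).1
    rw [List.length_append, add_assoc] at this
    exact this
  have hprod : (∏ i, F i) ∈ Ideal.span {h} * dI X ^ m := by
    have := t4_mem_prod F (fun i => dI (B i) * dI X) hFI
    rw [Finset.prod_mul_distrib, ← hB.div, Finset.prod_const, Finset.card_univ,
      Fintype.card_fin] at this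
    exact this
  rw [Ideal.mem_span_singleton_mul] at hprod
  obtain ⟨G, hG, hGe⟩ := hprod
  have hpB := t4_Ble_prod F _ hFB
  rw [Finset.sum_add_distrib, Finset.sum_const, Finset.card_univ, Fintype.card_fin, smul_eq_mul,
    mem_Ble_iff] at hpB
  have hph : pord h = ∑ i, (B i).length := by
    have h1 : Ideal.span {h} = dI (List.ofFn B).flatten := by
      rw [t4_dI_flatten, List.map_ofFn, List.prod_ofFn, hB.div]
      rfl
    have h2 := span_eq_dI_length hh h1
    rw [← h2, List.length_flatten, List.map_ofFn, List.sum_ofFn]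
    rfl
  refine ⟨(ev h X)⁻¹ • G, ?_, ?_, ?_⟩
  · rw [Algebra.smul_def]
    exact Ideal.mul_mem_left _ _ hG
  · refine (pord_smul_le _ _).trans ?_
    by_cases hG0 : G = 0
    · rw [hG0]
      have : (0 : WB T) ∈ Ble T 0 := Submodule.zero_mem _
      rw [mem_Ble_iff] at this
      omega
    · rw [← hGe, pord_mul hh hG0, hph] at hpB
      omega
  · intro P
    have h1 : P (∏ i, F i) = ∏ i, Dl (B i ++ X ++ [P]) := by
      rw [map_prod]
      exact Finset.prod_congr rfl fun i _ => hF1 i P
    rw [← h1, ← hGe, map_mul, map_smul, smul_eq_mul]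
    field_simp

end

end Pool.Agent.TIFT
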