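import Mathlib
import Pool.Agent.TIFT.Defs

/-!
# [TIF, block THETA] section V (valuations): definitions
-/

set_option autoImplicit false
set_option linter.unusedSectionVars false

open Polynomial IsLocalRing

namespace Pool.Agent.TIFT

open GT TIF

section W

variable {F : Type} [Field F] {V : ValuationSubring F} {d : ℕ} [NeZero d] {T : Tab V d}

/-- `P'` is the reduction of the point `P` -/
def RedP (P : Pt (T.map V.subtype)) (P' : Pt (T.map (residue V))) : Prop :=
  ∀ b : WB T, ∃ c : V, (c : F) = P (inc T b) ∧ residue V c = P' (rd T b)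

/-- the points have the same reduction (`T` a table over `V`) -/
def CgW (P Q : Pt (T.map V.subtype)) : Prop :=
  ∀ b : WB T, V.valuation (P (inc T b) - Q (inc T b)) < 1

/-- the ideal contains a monic element with coefficients in `V` -/
def VF (J : Ideal (WB (T.map V.subtype))) : Prop := ∃ b : WB T, inc T b ∈ J ∧ lc b = 1

end W

section V

variable {k Ω : Type} [Field k] [Field Ω] [Algebra k Ω] {d : ℕ} [NeZero d] {T : Tab Ω d}

/-- the inclusion of `k` in the valuation ring -/
noncomputable def kV {V : ValuationSubring Ω} (hV : ∀ c : k, algebraMap k Ω c ∈ V) : k →+* V :=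
  (algebraMap k Ω).codRestrict V hV

/-- the coefficients are in `V` and one of them is a unit -/
structure Prim (V : ValuationSubring Ω) (b : WB T) : Prop where
  int : Cf (V : Set Ω) b
  unit : ∃ j n, V.valuation ((b.co j).coeff n) = 1

/-- functions of `n` points with coefficients in `V` -/
def MPf (V : ValuationSubring Ω) {n : ℕ} (Φ : (Fin n → Pt T) → Ω) : Prop :=
  ∀ (i : Fin n) (Q : Fin n → Pt T), (∀ j, xx (Q j) ∈ V) →
    ∃ N : WB T, Cf (V : Set Ω) N ∧ ∀ P : Pt T, P N = Φ (Function.update Q i P)

/-- the points `P i` with `r i = s` -/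
noncomputable def Al {ρ : Type} [DecidableEq ρ] {L : ℕ} (r : Fin L → ρ) (P : Fin L → Pt T) (s : ρ) :
    List (Pt T) :=
  ((List.finRange L).filter fun i => r i = s).map P

end V

section S

variable {k Ω : Type} [Field k] [Field Ω] [Algebra k Ω] [IsAlgClosed Ω] {d : ℕ} [NeZero d]
  {T : Tab Ω d} [IsDedekindDomain (WB T)] {ρ : Type} [Fintype ρ]

/-- the sum of the theta monomials `D j` with the coefficients `c j`, at all classes -/
noncomputable def Sth {K : IntermediateField k Ω} {m J : ℕ} (c : Fin J → K)
    (D : Fin J → TD k T ρ K m) (y : ρ → ClassGroup (WB T)) : Ω :=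
  ∑ j, (c j : Ω) * ∏ s, thc ((D j).B s) ((D j).h s) (y s)

/-- the numerator of `Sth` at the classes of `X s ++ A s` -/
noncomputable def Phi {K : IntermediateField k Ω} {m J : ℕ} (c : Fin J → K)
    (D : Fin J → TD k T ρ K m) (X A : ρ → List (Pt T)) : Ω :=
  ∑ j, (c j : Ω) * (∏ s, (∏ i, Dl ((D j).B s i ++ X s ++ A s)) / ev ((D j).h s) (X s)) *
    ∏ j' ∈ Finset.univ.erase j, ∏ s, ev ((D j').h s) (A s)

end S

end Pool.Agent.TIFT
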