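import Mathlib
import Pool.Agent.TIFT.VDefs

/-!
# [TIF, block THETA, section V] row VA1

WB T is finite over V[X]: every b : WB T is integral over V[X] (Algebra.IsIntegral.of_finite); apply P ∘ inc: P (inc b) is a root of a monic polynomial with coefficients P (inc (algebraMap p)) = p.eval₂ _ (xx P) ∈ V, and V is integrally closed (int_of_xx; Valuation subrings: ValuationSubring.isIntegral / IsIntegrallyClosed.isIntegral_iff as in GT/C0.lean). exists_redP: b ↦ residue ⟨P (inc b), _⟩ is a ring hom φ : WB T → ResidueField V over V; sol_of, Sol.change (hT := rfl : T.map (residue V) = _), GT.lift: the AlgHom P' of WB (T.map (residue V)) with P' (rd b) = φ b (both sides agree on algebraMap and f_j: lift_apply, rd_co, eval₂_map). xx_mem: b = WB.x T (bmap_x). uniq: rd surjective (rd_surj). redP_eq_iff: residue c = residue c' iff V.valuation (c - c') < 1 (residue_eq_zero_iff, ValuationSubring.valuation_lt_one_iff). exists_redL: induction.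
-/

set_option autoImplicit false
set_option linter.unusedSectionVars false

open Polynomial IsLocalRing

namespace Pool.Agent.TIFT

open GT TIF

section

variable {F : Type} [Field F] {V : ValuationSubring F} {d : ℕ} [NeZero d] {T : Tab V d}

private theorem va1_alg (P : Pt (T.map V.subtype)) (r : V) :
    P (inc T (algebraMap V (WB T) r)) = (r : F) := by
  have h : inc T (algebraMap V (WB T) r) = algebraMap F (WB (T.map V.subtype)) (V.subtype r) :=
    bmap_algebraMap' V.subtype rfl r
  rw [h, AlgHom.commutes]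
  rfl

private theorem va1_x (P : Pt (T.map V.subtype)) : P (inc T (WB.x T)) = xx P := by
  have h : inc T (WB.x T) = WB.x (T.map V.subtype) := bmap_x V.subtype rfl
  rw [h]
  rfl

private theorem va1_pol (P : Pt (T.map V.subtype)) (p : V[X]) :
    P (inc T (algebraMap V[X] (WB T) p)) = p.eval₂ V.subtype (xx P) := by
  induction p using Polynomial.induction_on' with
  | add p q hp hq => rw [map_add, map_add, map_add, hp, hq, eval₂_add]
  | monomial n a =>
    rw [← C_mul_X_pow_eq_monomial, map_mul, map_mul, map_mul, map_pow, map_pow, map_pow,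
      eval₂_mul, eval₂_C, eval₂_pow, eval₂_X]
    have h1 : algebraMap V[X] (WB T) (C a) = algebraMap V (WB T) a := by
      rw [IsScalarTower.algebraMap_apply V V[X] (WB T), Polynomial.algebraMap_eq]
    have h2 : algebraMap V[X] (WB T) X = WB.x T := rfl
    rw [h1, h2, va1_alg, va1_x]
    rfl

theorem int_of_xx {P : Pt (T.map V.subtype)} (hP : xx P ∈ V) (b : WB T) : P (inc T b) ∈ V := by
  have hb : IsIntegral V[X] b := IsIntegral.of_finite V[X] b
  obtain ⟨q, hq, hqb⟩ := hb
  let φ : WB T →+* F := (P : WB (T.map V.subtype) →+* F).comp (inc T)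
  have h1 : φ.comp (algebraMap V[X] (WB T)) =
      V.subtype.comp (Polynomial.evalRingHom (⟨xx P, hP⟩ : V)) := by
    refine RingHom.ext fun p => ?_
    show P (inc T (algebraMap V[X] (WB T) p)) = V.subtype (p.eval (⟨xx P, hP⟩ : V))
    rw [va1_pol, ← eval₂_at_apply]
    rfl
  have h2 := congrArg φ hqb
  rw [map_zero, hom_eval₂, h1, ← eval₂_map] at h2
  have hint : IsIntegral V (φ b) :=
    ⟨q.map (Polynomial.evalRingHom (⟨xx P, hP⟩ : V)), hq.map _, h2⟩
  obtain ⟨y, hy⟩ := IsIntegrallyClosed.isIntegral_iff.1 hint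
  have h3 : P (inc T b) = (y : F) := hy.symm
  rw [h3]
  exact y.2

theorem exists_redP {P : Pt (T.map V.subtype)} (hP : xx P ∈ V) :
    ∃ P' : Pt (T.map (residue V)), RedP P P' := by
  let φ : WB T →+* V :=
    ((P : WB (T.map V.subtype) →+* F).comp (inc T)).codRestrict V (int_of_xx hP)
  have hφ : ∀ b, ((φ b : V) : F) = P (inc T b) := fun b => rfl
  let ψ : WB T →+* ResidueField V := (residue V).comp φ
  have hψ : ∀ r, ψ (algebraMap V (WB T) r) = residue V r := by
    intro r
    have h : φ (algebraMap V (WB T) r) = r := Subtype.ext (va1_alg P r)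
    show residue V (φ (algebraMap V (WB T) r)) = residue V r
    rw [h]
  have hs : Sol (T.map (residue V)) (RingHom.id (ResidueField V)) (ψ (WB.x T))
      (fun j => ψ (WB.f T j)) :=
    Sol.change (hT := rfl) (RingHom.id_comp _) (sol_of ψ hψ)
  let P' : Pt (T.map (residue V)) :=
    { lift hs with
      commutes' := fun r => lift_algebraMap' hs r }
  refine ⟨P', fun b => ⟨φ b, hφ b, ?_⟩⟩
  show ψ b = lift hs (rd T b)
  rw [lift_unique ψ hψ b, lift_apply, lift_apply]
  refine Finset.sum_congr rfl fun j _ => ?_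
  rw [rd_co, eval₂_map, RingHom.id_comp]

theorem RedP.xx_mem {P : Pt (T.map V.subtype)} {P' : Pt (T.map (residue V))} (h : RedP P P') :
    xx P ∈ V := by
  obtain ⟨c, hc, -⟩ := h (WB.x T)
  rw [← va1_x P, ← hc]
  exact c.2

theorem RedP.uniq {P : Pt (T.map V.subtype)} {P' P'' : Pt (T.map (residue V))} (h : RedP P P')
    (h' : RedP P P'') : P' = P'' := by
  refine AlgHom.ext fun z => ?_
  obtain ⟨b, rfl⟩ := rd_surj z
  obtain ⟨c, hc, hc'⟩ := h b
  obtain ⟨e, he, he'⟩ := h' b
  have hce : c = e := Subtype.ext (hc.trans he.symm)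
  rw [← hc', ← he', hce]

theorem RedP.val_lt_iff {P : Pt (T.map V.subtype)} {P' : Pt (T.map (residue V))} (h : RedP P P')
    (b : WB T) : V.valuation (P (inc T b)) < 1 ↔ P' (rd T b) = 0 := by
  obtain ⟨c, hc, hc'⟩ := h b
  rw [← hc, ← hc', residue_eq_zero_iff, V.valuation_lt_one_iff]

theorem redP_eq_iff {P Q : Pt (T.map V.subtype)} {P' Q' : Pt (T.map (residue V))} (hP : RedP P P')
    (hQ : RedP Q Q') : P' = Q' ↔ CgW P Q := by
  have key : ∀ b : WB T, V.valuation (P (inc T b) - Q (inc T b)) < 1 ↔
      P' (rd T b) = Q' (rd T b) := by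
    intro b
    obtain ⟨c, hc, hc'⟩ := hP b
    obtain ⟨e, he, he'⟩ := hQ b
    have h1 : P (inc T b) - Q (inc T b) = ((c - e : V) : F) := by
      rw [← hc, ← he]
      rfl
    rw [h1, ← V.valuation_lt_one_iff, ← residue_eq_zero_iff, map_sub, hc', he', sub_eq_zero]
  constructor
  · intro h b
    rw [key, h]
  · intro h
    refine AlgHom.ext fun z => ?_
    obtain ⟨b, rfl⟩ := rd_surj z
    exact (key b).1 (h b)

theorem exists_redL {X : List (Pt (T.map V.subtype))} (hX : ∀ P ∈ X, xx P ∈ V) :
    ∃ X' : List (Pt (T.map (residue V))), List.Forall₂ RedP X X' := by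
  induction X with
  | nil => exact ⟨[], List.Forall₂.nil⟩
  | cons P X ih =>
    obtain ⟨X', hX'⟩ := ih fun Q hQ => hX Q (List.mem_cons_of_mem _ hQ)
    obtain ⟨P', hP'⟩ := exists_redP (hX P List.mem_cons_self)
    exact ⟨P' :: X', List.Forall₂.cons hP' hX'⟩

end

end Pool.Agent.TIFT
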