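import Mathlib
import Pool.Agent.TIFT.VDefs
import Pool.Agent.TIFT.VA1

/-!
# [TIF, block THETA, section V] row VE2

cf_iff_inc: GT.mem_range_inc (C0b). cg_iff_cgW: (<=) an element b with coefficients in k is inc of an element of WB (T₀.map (kV hV)) (bmap of an element of WB T₀; or cf_iff_inc as k ⊆ V). (=>) CgW: for b : WB (T₀.map _), inc b = sum_j algebraMap (b.co j) * f_j (sum_f), P (inc b) = sum_j (b.co j).eval₂ (xx P) * P (f_j): a polynomial expression with coefficients in V in xx P and the P (f_j), all in V (int_of_xx), and xx P - xx Q, P f_j - Q f_j have valuation < 1 (Cg for WB.x and f_j, whose coefficients 0, 1 are in k); so use residues: the reductions P', Q' (exists_redP) agree on WB.x and the f_j, hence P' = Q' (GT.lift_unique / sum_f), redP_eq_iff. good_iff_red: exists_redL; Pairwise ¬Cg ↔ Pairwise (· ≠ ·) of the reductions (redP_eq_iff, cg_iff_cgW). cg_refl, cg_symm: V.valuation (-a) = V.valuation a; cg_trans: valuation of a sum (Valuation.map_add_lt). cg_xx: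 b = WB.x T: xx P - xx Q ∈ V.
-/

set_option autoImplicit false
set_option linter.unusedSectionVars false

open Polynomial IsLocalRing

namespace Pool.Agent.TIFT

open GT TIF

section

variable {k Ω : Type} [Field k] [Field Ω] [Algebra k Ω] {d : ℕ} [NeZero d]

theorem cf_iff_inc {V : ValuationSubring Ω} {T : Tab V d} (b : WB (T.map V.subtype)) :
    Cf (V : Set Ω) b ↔ ∃ b', inc T b' = b := mem_range_inc.symm

private theorem ve2_cf_x (T : Tab Ω d) : Cf (Set.range (algebraMap k Ω)) (WB.x T) := by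
  intro j n
  rw [WB.x, WB.algebraMap_co]
  split_ifs
  · rw [coeff_X]
    split_ifs
    · exact ⟨1, map_one _⟩
    · exact ⟨0, map_zero _⟩
  · exact ⟨0, by rw [coeff_zero, map_zero]⟩

private theorem ve2_cf_f (T : Tab Ω d) (i : ZMod d) :
    Cf (Set.range (algebraMap k Ω)) (WB.f T i) := by
  intro j n
  rw [WB.f_co]
  by_cases h : j = i
  · rw [h, Pi.single_eq_same, coeff_one]
    split_ifs
    · exact ⟨1, map_one _⟩
    · exact ⟨0, map_zero _⟩
  · rw [Pi.single_eq_of_ne h]
    exact ⟨0, by rw [coeff_zero, map_zero]⟩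

private theorem ve2_smul {κ : Type} [Field κ] {T : Tab κ d} (P : Pt T) (p : Polynomial κ)
    (b : WB T) : P (p • b) = p.eval (P (WB.x T)) * P b := by
  rw [Algebra.smul_def, map_mul]
  congr 1
  have h1 : (P : WB T →+* κ).comp (algebraMap (Polynomial κ) (WB T)) =
      Polynomial.evalRingHom (P (WB.x T)) := by
    refine Polynomial.ringHom_ext (fun a => ?_) ?_
    · show P (algebraMap (Polynomial κ) (WB T) (C a)) = (C a).eval _
      rw [eval_C, ← Polynomial.algebraMap_eq, ← IsScalarTower.algebraMap_apply]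
      exact P.commutes a
    · show P (algebraMap (Polynomial κ) (WB T) X) = X.eval _
      rw [eval_X]
      rfl
  exact congrArg (fun g : (Polynomial κ) →+* κ => g p) h1

/- a point is determined by its coordinates -/
private theorem ve2_ext {κ : Type} [Field κ] {T : Tab κ d} {P Q : Pt T}
    (hx : P (WB.x T) = Q (WB.x T)) (hf : ∀ j, P (WB.f T j) = Q (WB.f T j)) : P = Q := by
  refine AlgHom.ext fun b => ?_
  have hP : ∀ P : Pt T, P b = ∑ j, (b.co j).eval (P (WB.x T)) * P (WB.f T j) := by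
    intro P
    conv_lhs => rw [← WB.sum_f b]
    rw [map_sum]
    exact Finset.sum_congr rfl fun j _ => ve2_smul P _ _
  rw [hP P, hP Q, hx]
  exact Finset.sum_congr rfl fun j _ => by rw [hf j]

private theorem ve2_red {V : ValuationSubring Ω} {T : Tab V d} {P Q : Pt (T.map V.subtype)}
    {P' Q' : Pt (T.map (residue V))} (hP : RedP P P') (hQ : RedP Q Q') (h : Cg k V P Q)
    {b : WB T} (hb : Cf (Set.range (algebraMap k Ω)) (inc T b)) : P' (rd T b) = Q' (rd T b) := by
  obtain ⟨c, hc, hc'⟩ := hP b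
  obtain ⟨c₂, hc₂, hc₂'⟩ := hQ b
  rw [← hc', ← hc₂', ← sub_eq_zero, ← map_sub, residue_eq_zero_iff, V.valuation_lt_one_iff]
  have h1 := h _ hb
  rw [← hc, ← hc₂] at h1
  exact h1

theorem cg_iff_cgW {V : ValuationSubring Ω} (hV : ∀ c : k, algebraMap k Ω c ∈ V) (T₀ : Tab k d)
    {P Q : Pt ((T₀.map (kV hV)).map V.subtype)} (hP : xx P ∈ V) (hQ : xx Q ∈ V) :
    Cg k V P Q ↔ CgW P Q := by
  constructor
  · intro h
    obtain ⟨P', hP'⟩ := exists_redP hP
    obtain ⟨Q', hQ'⟩ := exists_redP hQ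
    refine (redP_eq_iff hP' hQ').1 (ve2_ext ?_ fun j => ?_)
    · have h1 := ve2_red hP' hQ' h (b := WB.x _) (by
        rw [inc, bmap_x]
        exact ve2_cf_x _)
      rw [rd, bmap_x] at h1
      exact h1
    · have h1 := ve2_red hP' hQ' h (b := WB.f _ j) (by
        rw [inc, bmap_f]
        exact ve2_cf_f _ j)
      rw [rd, bmap_f] at h1
      exact h1
  · intro h b hb
    have h1 : Cf (V : Set Ω) b := fun j n => by
      obtain ⟨c, hc⟩ := hb j n
      rw [← hc]
      exact hV c
    obtain ⟨b', rfl⟩ := (cf_iff_inc b).1 h1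
    exact h b'

theorem good_iff_red {V : ValuationSubring Ω} (hV : ∀ c : k, algebraMap k Ω c ∈ V) (T₀ : Tab k d)
    (X : List (Pt ((T₀.map (kV hV)).map V.subtype))) :
    Good k V X ↔ ∃ X', List.Forall₂ RedP X X' ∧ X'.Nodup := by
  have key : ∀ {X : List (Pt ((T₀.map (kV hV)).map V.subtype))} {X'}, List.Forall₂ RedP X X' →
      ((∀ P ∈ X, ∃ P' ∈ X', RedP P P') ∧ (∀ P' ∈ X', ∃ P ∈ X, RedP P P')) := by
    intro X X' h
    induction h with
    | nil => exact ⟨fun P hP => absurd hP List.not_mem_nil, fun P hP => absurd hP List.not_mem_nil⟩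
    | cons h1 _ ih =>
      constructor
      · intro P hP
        rcases List.mem_cons.1 hP with rfl | hP
        · exact ⟨_, List.mem_cons_self, h1⟩
        · obtain ⟨P', h3, h4⟩ := ih.1 P hP
          exact ⟨P', List.mem_cons_of_mem _ h3, h4⟩
      · intro P hP
        rcases List.mem_cons.1 hP with rfl | hP
        · exact ⟨_, List.mem_cons_self, h1⟩
        · obtain ⟨P', h3, h4⟩ := ih.2 P hP
          exact ⟨P', List.mem_cons_of_mem _ h3, h4⟩
  have key2 : ∀ {P Q : Pt ((T₀.map (kV hV)).map V.subtype)} {P' Q'}, RedP P P' → RedP Q Q' →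
      (Cg k V P Q ↔ P' = Q') := by
    intro P Q P' Q' hP hQ
    rw [cg_iff_cgW hV T₀ hP.xx_mem hQ.xx_mem, redP_eq_iff hP hQ]
  have key3 : ∀ {X : List (Pt ((T₀.map (kV hV)).map V.subtype))} {X'}, List.Forall₂ RedP X X' →
      ((X.Pairwise fun P Q => ¬ Cg k V P Q) ↔ X'.Nodup) := by
    intro X X' h
    induction h with
    | nil => simp
    | @cons P P' X X' h1 h2 ih =>
      rw [List.pairwise_cons, List.nodup_cons, ih]
      refine and_congr_left fun _ => ⟨fun h3 h4 => ?_, fun h3 Q hQ h4 => ?_⟩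
      · obtain ⟨Q, hQ, hQ'⟩ := (key h2).2 P' h4
        exact h3 Q hQ ((key2 h1 hQ').2 rfl)
      · obtain ⟨Q', hQ', hQQ⟩ := (key h2).1 Q hQ
        exact h3 ((key2 h1 hQQ).1 h4 ▸ hQ')
  constructor
  · intro h
    obtain ⟨X', hX'⟩ := exists_redL h.fin
    exact ⟨X', hX', (key3 hX').1 h.dif⟩
  · rintro ⟨X', hX', hn⟩
    refine ⟨fun P hP => ?_, (key3 hX').2 hn⟩
    obtain ⟨P', _, h⟩ := (key hX').1 P hP
    exact h.xx_mem

variable {T : Tab Ω d}

theorem cg_refl (V : ValuationSubring Ω) (P : Pt T) : Cg k V P P := by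
  intro b _
  rw [sub_self, map_zero]
  exact zero_lt_one

theorem cg_symm {V : ValuationSubring Ω} {P Q : Pt T} (h : Cg k V P Q) : Cg k V Q P := by
  intro b hb
  rw [Valuation.map_sub_swap]
  exact h b hb

theorem cg_trans {V : ValuationSubring Ω} {P Q R : Pt T} (h : Cg k V P Q) (h' : Cg k V Q R) :
    Cg k V P R := by
  intro b hb
  have h1 : P b - R b = (P b - Q b) + (Q b - R b) := by ring
  rw [h1]
  exact Valuation.map_add_lt _ (h b hb) (h' b hb)

theorem cg_xx {V : ValuationSubring Ω} {P Q : Pt T} (h : Cg k V P Q) (hP : xx P ∈ V) :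
    xx Q ∈ V := by
  have h1 : V.valuation (xx P - xx Q) < 1 := h _ (ve2_cf_x T)
  have h2 : xx P - xx Q ∈ V := (V.valuation_le_one_iff _).1 h1.le
  have h3 : xx Q = xx P - (xx P - xx Q) := by ring
  rw [h3]
  exact V.toSubring.sub_mem hP h2

theorem Good.nodup {V : ValuationSubring Ω} {X : List (Pt T)} (h : Good k V X) : X.Nodup :=
  h.dif.imp fun {P Q} h1 (h2 : P = Q) => h1 (by rw [← h2]; exact cg_refl V P)

end

end Pool.Agent.TIFT
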