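import Pool.Agent.TIFT.G0

/-!
# [TIF, block THETA] row G1

P f_j is integral over k[xx P] (WB T is finite over Ω[X] with structure constants over k: GT.Base; T₀ from hT), see also TIF_Top.lean in the store (kP_eq, kP_fg, alg_f, P_smul: copy what you need). exists_xx: WB T / (x - c) ≠ 0 (free over Ω[X]), a maximal ideal over it, exists_hom (A7). ind_nodup: AlgebraicIndependent.injective.
-/

set_option autoImplicit false
set_option linter.unusedSectionVars false

open Polynomial IsLocalRing

namespace Pool.Agent.TIFT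

open GT TIF

section

variable {k Ω : Type} [Field k] [Field Ω] [Algebra k Ω] [IsAlgClosed Ω] {d : ℕ} [NeZero d]
  {T : Tab Ω d} [IsDedekindDomain (WB T)]

theorem g_P_smul (P : Pt T) (p : Polynomial Ω) (b : WB T) :
    P (p • b) = p.eval (xx P) * P b := by
  rw [Algebra.smul_def, map_mul]
  congr 1
  have h1 : (P : WB T →+* Ω).comp (algebraMap (Polynomial Ω) (WB T)) =
      Polynomial.evalRingHom (P (WB.x T)) := by
    refine Polynomial.ringHom_ext (fun a => ?_) ?_
    · show P (algebraMap (Polynomial Ω) (WB T) (C a)) = (C a).eval _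
      rw [eval_C, ← Polynomial.algebraMap_eq, ← IsScalarTower.algebraMap_apply]
      exact P.commutes a
    · show P (algebraMap (Polynomial Ω) (WB T) X) = X.eval _
      rw [eval_X]
      rfl
  exact congrArg (fun g : (Polynomial Ω) →+* Ω => g p) h1

theorem g_cf_mono {K K' : Set Ω} (h : K ⊆ K') {b : WB T} (hb : Cf K b) : Cf K' b :=
  fun j n => h (hb j n)

theorem g_range_sub (K : IntermediateField k Ω) : Set.range (algebraMap k Ω) ⊆ (K : Set Ω) := by
  rintro _ ⟨a, rfl⟩
  exact K.algebraMap_mem a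

theorem g_cf_x : Cf (Set.range (algebraMap k Ω)) (WB.x T) := by
  intro j n
  rw [WB.x, WB.algebraMap_co]
  split_ifs
  · rw [coeff_X]
    split_ifs
    · exact ⟨1, map_one _⟩
    · exact ⟨0, map_zero _⟩
  · exact ⟨0, by rw [coeff_zero, map_zero]⟩

/-- the table over `K` -/
theorem g_form (hT : Tk k T) (K : IntermediateField k Ω) :
    ∃ T' : Tab K d, T'.map (algebraMap K Ω) = T := by
  obtain ⟨T₀, rfl⟩ := hT
  refine ⟨T₀.map (algebraMap k K), ?_⟩
  rw [Tab.map_map]
  rfl

theorem g_lift {K : IntermediateField k Ω} {T' : Tab K d} (h : T'.map (algebraMap K Ω) = T)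
    {b : WB T} (hb : Cf (K : Set Ω) b) : ∃ b' : WB T', bmap (algebraMap K Ω) h b' = b := by
  have h1 : ∀ j, ∃ p : Polynomial K, p.map (algebraMap K Ω) = b.co j := by
    intro j
    have h2 : b.co j ∈ Polynomial.lifts (algebraMap K Ω) := by
      rw [Polynomial.lifts_iff_coeff_lifts]
      intro n
      exact ⟨⟨_, hb j n⟩, rfl⟩
    exact (Polynomial.mem_lifts _).1 h2
  choose p hp using h1
  exact ⟨⟨p⟩, WB.ext (funext fun j => hp j)⟩

theorem g_cf {K : IntermediateField k Ω} {T' : Tab K d} (h : T'.map (algebraMap K Ω) = T)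
    (b' : WB T') : Cf (K : Set Ω) (bmap (algebraMap K Ω) h b') := by
  intro j n
  rw [bmap_co, coeff_map]
  exact (((b'.co j).coeff n : K)).2

theorem g_alg {K : IntermediateField k Ω} {T' : Tab K d} (h : T'.map (algebraMap K Ω) = T)
    (P : Pt T) (b' : WB T') : P (bmap (algebraMap K Ω) h b') ∈ acl (ad K {xx P}) := by
  have hint : IsIntegral (Polynomial K) b' := IsIntegral.of_finite (Polynomial K) b'
  obtain ⟨q, hq, hqb⟩ := hint
  let ψ : WB T' →+* Ω := (P : WB T →+* Ω).comp (bmap (algebraMap K Ω) h)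
  let E := ad K {xx P}
  let θ : E := ⟨xx P, sub_ad K {xx P} rfl⟩
  let g : Polynomial K →+* E :=
    Polynomial.eval₂RingHom (IntermediateField.inclusion (le_ad K {xx P}) : K →+* E) θ
  have hg : (algebraMap E Ω).comp g = ψ.comp (algebraMap (Polynomial K) (WB T')) := by
    refine Polynomial.ringHom_ext (fun a => ?_) ?_
    · show algebraMap E Ω (Polynomial.eval₂ _ θ (C a)) =
        P (bmap (algebraMap K Ω) h (algebraMap (Polynomial K) (WB T') (C a)))
      rw [eval₂_C, bmap_algebraMap, Polynomial.map_C, ← Polynomial.algebraMap_eq,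
        ← IsScalarTower.algebraMap_apply]
      exact (P.commutes (algebraMap K Ω a)).symm
    · show algebraMap E Ω (Polynomial.eval₂ _ θ X) =
        P (bmap (algebraMap K Ω) h (WB.x T'))
      rw [eval₂_X, bmap_x]
      rfl
  rw [mem_acl]
  refine ⟨q.map g, (hq.map g).ne_zero, ?_⟩
  rw [Polynomial.aeval_def, Polynomial.eval₂_map, hg]
  have h1 := congrArg ψ hqb
  rw [map_zero, Polynomial.hom_eval₂] at h1
  exact h1

theorem g_acl_eq (K : IntermediateField k Ω) [IsAlgClosed K] : acl K = K := by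
  refine le_antisymm (fun x hx => ?_) (le_acl K)
  have h1 : IsAlgebraic K x := mem_acl.1 hx
  have h2 := IsAlgClosed.degree_eq_one_of_irreducible K (minpoly.irreducible h1.isIntegral)
  obtain ⟨y, hy⟩ := (minpoly.degree_eq_one_iff.1 h2)
  rw [← hy]
  exact y.2

theorem g_acl (hT : Tk k T) {K : IntermediateField k Ω} {P : Pt T} {b : WB T}
    (hb : Cf (K : Set Ω) b) : P b ∈ acl (ad K {xx P}) := by
  obtain ⟨T', h⟩ := g_form hT K
  obtain ⟨b', rfl⟩ := g_lift h hb
  exact g_alg h P b'

theorem PK_iff_xx (hT : Tk k T) (K : IntermediateField k Ω) [IsAlgClosed K] (P : Pt T) :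
    PK k (K : Set Ω) P ↔ xx P ∈ K := by
  constructor
  · intro h
    exact h _ g_cf_x
  · intro h b hb
    have h1 := g_acl hT (K := K) (P := P) (g_cf_mono (g_range_sub K) hb)
    have h2 : ad K {xx P} ≤ K := ad_le le_rfl (by simpa using h)
    have h3 := acl_mono h2 h1
    rwa [g_acl_eq] at h3

theorem PK_iff_kP (K : IntermediateField k Ω) (P : Pt T) :
    PK k (K : Set Ω) P ↔ kP k P ≤ K := by
  rw [kP, IntermediateField.adjoin_le_iff]
  constructor
  · rintro h _ ⟨b, hb, rfl⟩
    exact h b hb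
  · intro h b hb
    exact h ⟨b, hb, rfl⟩

theorem kP_alg (hT : Tk k T) {P : Pt T} {c : Ω} (hc : c ∈ kP k P) :
    IsAlgebraic (IntermediateField.adjoin k {xx P}) c := by
  have h1 : ad (⊥ : IntermediateField k Ω) {xx P} = IntermediateField.adjoin k {xx P} := by
    rw [ad, bot_sup_eq]
  rw [← mem_acl, ← h1]
  refine (PK_iff_kP _ P).1 (fun b hb => ?_) hc
  exact g_acl hT (K := ⊥) (P := P) (g_cf_mono (g_range_sub _) hb)

theorem genP_iff (hT : Tk k T) (K : IntermediateField k Ω) (P : Pt T) :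
    GenP k K P ↔ Transcendental K (xx P) := by
  constructor
  · rintro ⟨b, hb, h⟩ halg
    refine h (mem_acl.1 ?_)
    have h1 := g_acl hT (K := K) (P := P) (g_cf_mono (g_range_sub K) hb)
    have h2 : ad K {xx P} ≤ acl K := ad_le (le_acl K) (by simpa using mem_acl.2 halg)
    exact acl_le h2 h1
  · intro h
    exact ⟨_, g_cf_x, h⟩

theorem exists_xx (T : Tab Ω d) [IsDedekindDomain (WB T)] (c : Ω) : ∃ P : Pt T, xx P = c := by
  have hco : ∀ b : WB T, (((X - C c : Polynomial Ω) • b).co 0) = (X - C c) * b.co 0 := fun b => rfl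
  have h1 : Ideal.span {((X - C c : Polynomial Ω) • (1 : WB T))} ≠ ⊤ := by
    intro h
    rw [Ideal.span_singleton_eq_top, isUnit_iff_exists_inv] at h
    obtain ⟨b, hb⟩ := h
    rw [WB.smul_mul', one_mul] at hb
    have h2 := congrArg (fun b : WB T => b.co 0) hb
    simp only [hco, WB.co_one, Pi.single_eq_same] at h2
    have h3 : IsUnit (X - C c) := IsUnit.of_mul_eq_one _ h2
    exact Polynomial.not_isUnit_X_sub_C c h3
  obtain ⟨Q, hQ, hle⟩ := Ideal.exists_le_maximal _ h1
  have hmem : ((X - C c : Polynomial Ω) • (1 : WB T)) ∈ Q := hle (Ideal.mem_span_singleton_self _)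
  have h0 : Q ≠ ⊥ := by
    rintro rfl
    rw [Ideal.mem_bot] at hmem
    have h2 := congrArg (fun b : WB T => b.co 0) hmem
    simp only [hco, WB.co_one, Pi.single_eq_same, mul_one] at h2
    exact Polynomial.X_sub_C_ne_zero c h2
  obtain ⟨χ, hχ⟩ := exists_hom Q hQ h0
  refine ⟨χ, ?_⟩
  rw [← hχ, RingHom.mem_ker] at hmem
  have h2 := g_P_smul χ (X - C c) 1
  rw [eval_sub, eval_X, eval_C, map_one, mul_one] at h2
  have h3 : χ ((X - C c : Polynomial Ω) • (1 : WB T)) = 0 := hmem
  rw [h3] at h2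
  exact sub_eq_zero.1 h2.symm

theorem ind_nodup {K : IntermediateField k Ω} {X : List (Pt T)} (h : Ind K X) : X.Nodup := by
  rw [List.nodup_iff_injective_get]
  intro i j hij
  exact h.injective (congrArg xx hij)

end

end Pool.Agent.TIFT
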