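import Pool.Agent.TIFT.A2

/-!
# [TIF, block THETA] row A3

Every b is the sum of lcf T m b • mono T m over the weights m <= pord b (compare coordinates: mono_co, lcf_eq); the weights < Nat.nth (Ow T) n are the pord (e T i), i < n; nth_Ow for Ble_eq_span.
Linear independence: different orders, leading coefficients 1.
-/

set_option autoImplicit false
set_option linter.unusedSectionVars false

open Polynomial IsLocalRing

namespace Pool.Agent.TIFT

open GT TIF

section

variable {d : ℕ} [NeZero d] {κ : Type} [Field κ] {T : Tab κ d}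

private theorem a3_none {m : ℕ} (h : ¬ Ow T m) (b : WB T) : lcf T m b = 0 := by
  refine lcf_none ?_ b
  intro j i hji
  exact h ⟨j, i, hji⟩

private theorem a3_zero {b : WB T} (h : ∀ m, lcf T m b = 0) : b = 0 := by
  refine WB.ext (funext fun j => ?_)
  ext i
  have h1 := h (d * i + T.w j)
  rw [lcf_eq] at h1
  rw [h1]
  simp

private theorem a3_gt {b : WB T} {m : ℕ} (h : pord b < m) : lcf T m b = 0 := by
  by_cases hO : Ow T m
  · obtain ⟨j, i, rfl⟩ := hO
    rw [lcf_eq]
    exact mem_Ble.1 (mem_Ble_pord b) j i h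
  · exact a3_none hO b

private theorem a3_e_self (T : Tab κ d) (n : ℕ) : lcf T (Nat.nth (Ow T) n) (e T n) = 1 :=
  lcf_mono T (Nat.nth_mem_of_infinite (Ow_infinite T) n)

private theorem a3_e_gt (T : Tab κ d) {n m : ℕ} (h : Nat.nth (Ow T) n < m) :
    lcf T m (e T n) = 0 := by
  refine a3_gt ?_
  rw [pord_e]
  exact h

private theorem a3_notOw (T : Tab κ d) {n m : ℕ} (h : m < Nat.nth (Ow T) (n + 1))
    (h' : Nat.nth (Ow T) n < m) : ¬ Ow T m := by
  classical
  intro hO
  rw [← Nat.nth_count hO] at h h'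
  have h1 := (Nat.nth_lt_nth (Ow_infinite T)).1 h
  have h2 := (Nat.nth_lt_nth (Ow_infinite T)).1 h'
  omega

private theorem a3_notOw0 (T : Tab κ d) {m : ℕ} (h : m < Nat.nth (Ow T) 0) : ¬ Ow T m := by
  classical
  intro hO
  rw [← Nat.nth_count hO] at h
  exact absurd ((Nat.nth_lt_nth (Ow_infinite T)).1 h) (Nat.not_lt_zero _)

private theorem a3_span (T : Tab κ d) : ∀ (n : ℕ) {b : WB T},
    (∀ m, Nat.nth (Ow T) n ≤ m → lcf T m b = 0) →
    b ∈ Submodule.span κ (Set.range fun i : Fin n => e T i)
  | 0, b, hb => by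
    have h : b = 0 := by
      refine a3_zero fun m => ?_
      rcases lt_or_ge m (Nat.nth (Ow T) 0) with h | h
      · exact a3_none (a3_notOw0 T h) b
      · exact hb m h
    rw [h]
    exact Submodule.zero_mem _
  | n + 1, b, hb => by
    have h1 : b - lcf T (Nat.nth (Ow T) n) b • e T n ∈
        Submodule.span κ (Set.range fun i : Fin n => e T i) := by
      refine a3_span T n fun m hm => ?_
      rw [map_sub, map_smul]
      rcases eq_or_lt_of_le hm with h | h
      · rw [← h, a3_e_self, smul_eq_mul, mul_one, sub_self]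
      · rw [a3_e_gt T h, smul_zero, sub_zero]
        rcases lt_or_ge m (Nat.nth (Ow T) (n + 1)) with h2 | h2
        · exact a3_none (a3_notOw T h2 h) b
        · exact hb m h2
    have h2 : Submodule.span κ (Set.range fun i : Fin n => e T i) ≤
        Submodule.span κ (Set.range fun i : Fin (n + 1) => e T i) := by
      refine Submodule.span_mono ?_
      rintro _ ⟨i, rfl⟩
      exact ⟨i.castSucc, rfl⟩
    have h3 : e T n ∈ Submodule.span κ (Set.range fun i : Fin (n + 1) => e T i) :=
      Submodule.subset_span ⟨Fin.last n, rfl⟩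
    have h4 := Submodule.add_mem _ (h2 h1) (Submodule.smul_mem _ (lcf T (Nat.nth (Ow T) n) b) h3)
    rwa [sub_add_cancel] at h4

theorem Ble_eq_span {n m : ℕ} (hn : gp T ≤ n) (hm : m + 1 = n + gp T) :
    Ble T m = Submodule.span κ (Set.range fun i : Fin n => e T i) := by
  have h0 : Nat.nth (Ow T) n = m + 1 := by rw [nth_Ow T hn, hm]
  refine le_antisymm ?_ ?_
  · intro b hb
    refine a3_span T n fun m' hm' => ?_
    rw [h0] at hm'
    exact a3_gt (lt_of_le_of_lt ((mem_Ble_iff b m).1 hb) hm')
  · rw [Submodule.span_le]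
    rintro _ ⟨i, rfl⟩
    refine (mem_Ble_iff _ m).2 ?_
    show pord (e T i) ≤ m
    rw [pord_e]
    have h1 := (Nat.nth_lt_nth (Ow_infinite T)).2 i.2
    omega

theorem mem_Ble_span (T : Tab κ d) (n : ℕ) {b : WB T} (hb : ∀ m, Nat.nth (Ow T) n ≤ m → lcf T m b = 0) :
    b ∈ Submodule.span κ (Set.range fun i : Fin n => e T i) := a3_span T n hb

theorem linearIndependent_e (T : Tab κ d) : LinearIndependent κ (e T) := by
  classical
  rw [linearIndependent_iff']
  intro s g hg i hi
  by_contra hne
  have hne' : (s.filter fun i => g i ≠ 0).Nonempty := ⟨i, Finset.mem_filter.2 ⟨hi, hne⟩⟩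
  obtain ⟨j, hj, hmax⟩ := Finset.exists_max_image _ id hne'
  rw [Finset.mem_filter] at hj
  have h1 := congrArg (lcf T (Nat.nth (Ow T) j)) hg
  rw [map_sum, map_zero, Finset.sum_eq_single j] at h1
  · rw [map_smul, a3_e_self, smul_eq_mul, mul_one] at h1
    exact hj.2 h1
  · intro l hl hlj
    by_cases h0 : g l = 0
    · rw [h0, zero_smul, map_zero]
    · have h2 := hmax l (Finset.mem_filter.2 ⟨hl, h0⟩)
      have h3 : l < j := lt_of_le_of_ne h2 hlj
      rw [map_smul, a3_e_gt T ((Nat.nth_lt_nth (Ow_infinite T)).2 h3), smul_zero]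
  · intro h
    exact absurd hj.1 h

end

end Pool.Agent.TIFT
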