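import Pool.Agent.TIFT.G3
import Pool.Agent.TIFT.A3

/-!
# [TIF, block THETA] row G4

ne_zero_gen: the norm of b over Ω[X] is a nonzero polynomial with coefficients in K, multiple of b; if P b = 0 it vanishes at xx P. Dl_ind: induction from the end: X ++ [P]: the function F of exists_last has coefficients in K(X) and P F = Dl (X ++ [P]); F ≠ 0 because its coefficient at e |X| is Dl X ≠ 0.
-/

set_option autoImplicit false
set_option linter.unusedSectionVars false

open Polynomial IsLocalRing

namespace Pool.Agent.TIFT

open GT TIF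

section

variable {k Ω : Type} [Field k] [Field Ω] [Algebra k Ω] [IsAlgClosed Ω] {d : ℕ} [NeZero d]
  {T : Tab Ω d} [IsDedekindDomain (WB T)]

theorem ne_zero_gen (hT : Tk k T) {K : IntermediateField k Ω} {P : Pt T} (h : GenP k K P)
    {b : WB T} (hb : Cf (K : Set Ω) b) (h0 : b ≠ 0) : P b ≠ 0 := by
  obtain ⟨T', h'⟩ := g_form hT K
  obtain ⟨b', rfl⟩ := g_lift h' hb
  intro h1
  rw [g_inj h' ((genP_iff hT K P).1 h) h1, map_zero] at h0
  exact h0 rfl

theorem ind_gen (hT : Tk k T) {K : IntermediateField k Ω} {X : List (Pt T)} (h : Ind K X)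
    {P : Pt T} (hP : P ∈ X) : GenP k K P := by
  obtain ⟨i, rfl⟩ := List.get_of_mem hP
  exact (genP_iff hT K _).2 (h.transcendental i)

theorem ev_ind (hT : Tk k T) {K : IntermediateField k Ω} {X : List (Pt T)} (h : Ind K X) {b : WB T}
    (hb : Cf (K : Set Ω) b) (h0 : b ≠ 0) : ev b X ≠ 0 := by
  rw [ev]
  intro h1
  obtain ⟨P, hP, hP0⟩ := List.mem_map.1 (List.prod_eq_zero_iff.1 h1)
  exact ne_zero_gen hT (ind_gen hT h hP) hb h0 hP0

theorem PK_kL (K : IntermediateField k Ω) {X : List (Pt T)} {P : Pt T} (hP : P ∈ X) :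
    PK k (kL K X : Set Ω) P := (PK_iff_kP _ P).2 (g_kP_le_kL K hP)

theorem g_last (X : List (Pt T)) {L : IntermediateField k Ω}
    (hL : ∀ P ∈ X, PK k (L : Set Ω) P) :
    ∃ c : Fin (X.length + 1) → Ω, (∀ j, c j ∈ L) ∧ c (Fin.last _) = Dl X ∧
      ∀ P : Pt T, P (∑ j, c j • e T j) = Dl (X ++ [P]) := by
  let B : Matrix (Fin X.length) (Fin (X.length + 1)) Ω := Matrix.of fun i j => X.get i (e T j)
  refine ⟨fun j => (-1) ^ (X.length + (j : ℕ)) * (B.submatrix id j.succAbove).det, ?_, ?_, ?_⟩
  · intro j
    refine mul_mem (pow_mem (neg_mem (one_mem L)) _) ?_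
    rw [Matrix.det_apply]
    refine L.sum_mem fun σ _ => ?_
    have h1 : ∏ i, B.submatrix id j.succAbove (σ i) i ∈ L :=
      L.prod_mem fun i _ => r_e_mem L (hL _ (List.get_mem _ _)) _
    rcases Int.units_eq_one_or (Equiv.Perm.sign σ) with h | h
    · rw [h, one_smul]
      exact h1
    · rw [h, Units.neg_smul, one_smul]
      exact L.neg_mem h1
  · show (-1) ^ (X.length + X.length) * _ = _
    rw [← two_mul, pow_mul, neg_one_sq, one_pow, one_mul, Dl]
    congr 1
    ext i j
    show X.get i (e T ((Fin.last X.length).succAbove j)) = X.get i (e T j)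
    rw [Fin.succAbove_last]
    rfl
  · intro P
    let A : Matrix (Fin (X.length + 1)) (Fin (X.length + 1)) Ω :=
      Matrix.of (Fin.snoc (α := fun _ => Fin (X.length + 1) → Ω) B fun j => P (e T j))
    have h1 : Dl (X ++ [P]) = A.det := by
      have hlen : (X ++ [P]).length = X.length + 1 := by simp
      rw [Dl, ← Matrix.det_submatrix_equiv_self (finCongr hlen) A]
      congr 1
      ext i j
      show ((X ++ [P]).get i) (e T j) = A (finCongr hlen i) (finCongr hlen j)
      have hA1 : ∀ (i : Fin X.length) (j : Fin (X.length + 1)), A i.castSucc j = X.get i (e T j) := by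
        intro i j
        show (Fin.snoc (α := fun _ => Fin (X.length + 1) → Ω) B fun j => P (e T j)) i.castSucc j = _
        rw [Fin.snoc_castSucc]
        rfl
      have hA2 : ∀ (j : Fin (X.length + 1)), A (Fin.last _) j = P (e T j) := by
        intro j
        show (Fin.snoc (α := fun _ => Fin (X.length + 1) → Ω) B fun j => P (e T j)) (Fin.last _) j = _
        rw [Fin.snoc_last]
      obtain ⟨i', hi'⟩ : ∃ i', finCongr hlen i = i' := ⟨_, rfl⟩
      rw [hi']
      have hi : (i : ℕ) = i' := by rw [← hi']; rfl
      rcases Fin.eq_castSucc_or_eq_last i' with ⟨i'', rfl⟩ | rfl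
      · rw [hA1]
        have h2 : (X ++ [P]).get i = X.get i'' := by
          rw [List.get_eq_getElem, List.get_eq_getElem]
          simp only [hi]
          exact List.getElem_append_left _
        rw [h2]
        rfl
      · rw [hA2]
        have h2 : (X ++ [P]).get i = P := by
          rw [List.get_eq_getElem]
          simp only [hi]
          simp
        rw [h2]
        rfl
    rw [h1, Matrix.det_succ_row A (Fin.last _), map_sum]
    refine Finset.sum_congr rfl fun j _ => ?_
    rw [map_smul, smul_eq_mul]
    have h2 : A (Fin.last _) j = P (e T j) := by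
      show (Fin.snoc (α := fun _ => Fin (X.length + 1) → Ω) B fun j => P (e T j)) (Fin.last _) j = _
      rw [Fin.snoc_last]
    have h3 : A.submatrix (Fin.last X.length).succAbove j.succAbove =
        B.submatrix id j.succAbove := by
      ext i j'
      show A ((Fin.last X.length).succAbove i) _ = B i _
      rw [Fin.succAbove_last]
      show (Fin.snoc (α := fun _ => Fin (X.length + 1) → Ω) B fun j => P (e T j)) i.castSucc _ = _
      rw [Fin.snoc_castSucc]
    rw [h2, h3, Fin.val_last]
    ring

theorem g_cf_sum {K : IntermediateField k Ω} {n : ℕ} {c : Fin n → Ω} (hc : ∀ j, c j ∈ K) :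
    Cf (K : Set Ω) (∑ j, c j • e T j : WB T) := by
  have key : ∀ s : Finset (Fin n), Cf (K : Set Ω) (∑ j ∈ s, c j • e T j : WB T) := by
    classical
    intro s
    induction s using Finset.induction_on with
    | empty =>
      intro j n
      rw [Finset.sum_empty, WB.co_zero, Pi.zero_apply, coeff_zero]
      exact K.zero_mem
    | insert a s ha ih =>
      intro j n
      rw [Finset.sum_insert ha, WB.co_add, Pi.add_apply, coeff_add, WB.co_smul', coeff_smul]
      refine K.add_mem ?_ (ih j n)
      rcases r_e_co (T := T) a j n with h | h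
      · rw [h, smul_zero]
        exact K.zero_mem
      · rw [h, smul_eq_mul, mul_one]
        exact hc a
  exact key _

theorem Dl_ind (hT : Tk k T) {K : IntermediateField k Ω} {X : List (Pt T)} (h : Ind K X) :
    Dl X ≠ 0 := by
  induction X using List.reverseRecOn with
  | nil =>
    rw [Dl]
    have h1 : Matrix.det (Matrix.of fun i j : Fin ([] : List (Pt T)).length =>
        (([] : List (Pt T)).get i) (e T j)) = 1 := Matrix.det_fin_zero (R := Ω)
    rw [h1]
    exact one_ne_zero
  | append_singleton X P ih =>
    rw [ind_append hT] at h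
    have hX := ih h.1
    have hP : GenP k (kL K X) P := (ind_singleton hT).1 h.2
    obtain ⟨c, hc, hcl, hcP⟩ := g_last (k := k) X (L := kL K X) (fun P hP => PK_kL K hP)
    rw [← hcP]
    refine ne_zero_gen hT hP (g_cf_sum hc) fun h0 => ?_
    have hli := (linearIndependent_e T).comp (fun j : Fin (X.length + 1) => (j : ℕ))
      Fin.val_injective
    have h1 := Fintype.linearIndependent_iff.1 hli c h0 (Fin.last _)
    rw [hcl] at h1
    exact hX h1

end

end Pool.Agent.TIFT
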