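import Pool.Agent.TIFT.G6

/-!
# [TIF, block THETA] row G7

genA_mul: gen_of_alg with y := x (x = (x z) z⁻¹, z rational over acl K). genA_cl: X r = X₁ r ++ X₂ r with |X₁ r| = gp: cl (X₁) is generic over kL K X₂ (ind_append), multiply by cl (X₂ r), genA_mono. genA_act: points aP. genA_conj: ind_conj + cl_aP. genA_split: kD k (x r) and the field of the points of rdc (x r) are algebraic over each other (the points of a K'-rational ideal are algebraic over K': PK_of_ratI over acl). You may need Small/Univ for one direction: if so add (hU : Univ k Ω) (hK : Small K) and tell helper30.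
-/

set_option autoImplicit false
set_option linter.unusedSectionVars false

open Polynomial IsLocalRing

namespace Pool.Agent.TIFT

open GT TIF

section

variable {k Ω : Type} [Field k] [Field Ω] [Algebra k Ω] [IsAlgClosed Ω] {d : ℕ} [NeZero d]
  {T : Tab Ω d} [IsDedekindDomain (WB T)] {ρ : Type} [Fintype ρ]

theorem genA_mul (hU : Univ k Ω) (hT : Tk k T) {K : IntermediateField k Ω} (hK : Small K)
    {x z : ρ → ClassGroup (WB T)} (h : GenA K x)
    (hz : ∀ r, z r ∈ JK (T := T) (acl K : Set Ω)) : GenA K (x * z) := by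
  refine gen_of_alg hU hT hK h fun r => ?_
  obtain ⟨F, hF⟩ : ∃ F, F = acl (K ⊔ ⨆ s, kD k ((x * z) s)) := ⟨_, rfl⟩
  rw [← hF]
  have h1 : (x * z) r ∈ JK (T := T) (F : Set Ω) := by
    rw [mem_JK_iff hT, hF]
    exact (le_iSup (fun s => kD k ((x * z) s)) r).trans (le_sup_right.trans (le_acl _))
  have h2 : z r ∈ JK (T := T) (F : Set Ω) := by
    refine JK_mono ?_ (hz r)
    rw [hF]
    exact acl_mono le_sup_left
  have h3 := JK_mul hT F h1 (JK_inv hT F h2)
  rwa [Pi.mul_apply, mul_inv_cancel_right] at h3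

theorem genA_inv (hU : Univ k Ω) (hT : Tk k T) {K : IntermediateField k Ω} (hK : Small K)
    {x : ρ → ClassGroup (WB T)} (h : GenA K x) : GenA K x⁻¹ := by
  refine gen_of_alg hU hT hK h fun r => ?_
  obtain ⟨F, hF⟩ : ∃ F, F = acl (K ⊔ ⨆ s, kD k (x⁻¹ s)) := ⟨_, rfl⟩
  rw [← hF]
  have h1 : x⁻¹ r ∈ JK (T := T) (F : Set Ω) := by
    rw [mem_JK_iff hT, hF]
    exact (le_iSup (fun s => kD k (x⁻¹ s)) r).trans (le_sup_right.trans (le_acl _))
  have h3 := JK_inv hT F h1
  rwa [Pi.inv_apply, inv_inv] at h3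

theorem genA_mono {K K' : IntermediateField k Ω} (hK : K ≤ K') {x : ρ → ClassGroup (WB T)}
    (h : GenA K' x) : GenA K x := by
  obtain ⟨X, hl, hi, hc⟩ := h
  exact ⟨X, hl, ai_mono hK hi, hc⟩

theorem genA_acl {K : IntermediateField k Ω} {x : ρ → ClassGroup (WB T)} :
    GenA (acl K) x ↔ GenA K x := by
  constructor
  · rintro ⟨X, hl, hi, hc⟩
    exact ⟨X, hl, ai_acl.1 hi, hc⟩
  · rintro ⟨X, hl, hi, hc⟩
    exact ⟨X, hl, ai_acl.2 hi, hc⟩

theorem indA_elim {ρ' : Type} [Fintype ρ'] {K : IntermediateField k Ω} {X : ρ → List (Pt T)}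
    {Y : ρ' → List (Pt T)} :
    IndA K (Sum.elim X Y) ↔ IndA K X ∧ IndA (ad K (Set.range (xf X))) Y := by
  have h1 : IndA K (Sum.elim X Y) ↔ AlgebraicIndependent K (Sum.elim (xf Y) (xf X)) := by
    have hc : Nat.card (Σ r, Fin ((Sum.elim X Y : ρ ⊕ ρ' → List (Pt T)) r).length) =
        Nat.card ((Σ r, Fin (Y r).length) ⊕ Σ r, Fin (X r).length) := by
      rw [g_card_sigma, Nat.card_sum, g_card_sigma, g_card_sigma, Fintype.sum_sum_type, add_comm]
      rfl
    have hr : Set.range (xf (Sum.elim X Y : ρ ⊕ ρ' → List (Pt T))) =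
        Set.range (Sum.elim (xf Y) (xf X)) := by
      ext c
      constructor
      · rintro ⟨⟨r | r, i⟩, rfl⟩
        · exact ⟨Sum.inr ⟨r, i⟩, rfl⟩
        · exact ⟨Sum.inl ⟨r, i⟩, rfl⟩
      · rintro ⟨⟨r, i⟩ | ⟨r, i⟩, rfl⟩
        · exact ⟨⟨Sum.inr r, i⟩, rfl⟩
        · exact ⟨⟨Sum.inl r, i⟩, rfl⟩
    constructor
    · intro h
      refine (ai_exch (K := K) (y := xf (Sum.elim X Y : ρ ⊕ ρ' → List (Pt T))) h hc.symm.le
        fun p => ?_).1
      rw [← hr]
      exact le_acl _ (sub_ad _ _ ⟨p, rfl⟩)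
    · intro h
      refine (ai_exch (K := K) (y := Sum.elim (xf Y) (xf X))
        (x := xf (Sum.elim X Y : ρ ⊕ ρ' → List (Pt T))) h hc.le fun p => ?_).1
      rw [hr]
      exact le_acl _ (sub_ad _ _ ⟨p, rfl⟩)
  rw [h1, ai_sum]
  rfl

theorem genA_cl (hU : Univ k Ω) (hT : Tk k T) {K : IntermediateField k Ω} (hK : Small K)
    {X : ρ → List (Pt T)} (h : IndA K X) (hg : ∀ r, gp T ≤ (X r).length) :
    GenA K (fun r => cl (X r)) := by
  obtain ⟨X₁, hX₁⟩ : ∃ X₁ : ρ → List (Pt T), X₁ = fun r => (X r).take (gp T) := ⟨_, rfl⟩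
  obtain ⟨X₂, hX₂⟩ : ∃ X₂ : ρ → List (Pt T), X₂ = fun r => (X r).drop (gp T) := ⟨_, rfl⟩
  have happ : ∀ r, X₁ r ++ X₂ r = X r := fun r => by
    rw [hX₁, hX₂]
    exact List.take_append_drop _ _
  have hl : ∀ r, (X₁ r).length = gp T := fun r => by
    rw [hX₁]
    show ((X r).take (gp T)).length = gp T
    rw [List.length_take]
    exact min_eq_left (hg r)
  have h1 : IndA K (Sum.elim X₂ X₁ : ρ ⊕ ρ → List (Pt T)) := by
    refine (indA_exch h ?_ ?_).1
    · rw [Fintype.sum_sum_type, ← Finset.sum_add_distrib]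
      refine le_of_eq (Finset.sum_congr rfl fun r _ => ?_)
      show (X₂ r).length + (X₁ r).length = _
      rw [← happ r, List.length_append, add_comm]
    · intro r P hP
      rw [← happ r, List.mem_append] at hP
      refine le_acl _ (sub_ad _ _ ?_)
      rcases hP with hP | hP
      · exact mem_range_xf (X := (Sum.elim X₂ X₁ : ρ ⊕ ρ → List (Pt T))) (r := Sum.inr r) hP
      · exact mem_range_xf (X := (Sum.elim X₂ X₁ : ρ ⊕ ρ → List (Pt T))) (r := Sum.inl r) hP
  obtain ⟨-, h2⟩ := indA_elim.1 h1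
  have hS : Small (ad K (Set.range (xf X₂))) := small_ad hK (Set.finite_range _)
  have h3 : GenA (ad K (Set.range (xf X₂))) (fun r => cl (X₁ r)) := ⟨X₁, hl, h2, fun _ => rfl⟩
  have h4 := genA_mul hU hT hS h3 (z := fun r => cl (X₂ r)) fun r =>
    cl_mem_JK hT _ fun P hP => (PK_iff_xx hT _ P).2
      (le_acl _ (sub_ad _ _ (mem_range_xf hP)))
  have h5 := genA_mono (le_ad _ _) h4
  have h6 : ((fun r => cl (X₁ r)) * fun r => cl (X₂ r)) = fun r => cl (X r) := by
    funext r
    rw [Pi.mul_apply, ← cl_append, happ]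
  rwa [h6] at h5

/-- the conjugate of an independent family -/
theorem ai_semi {K : IntermediateField k Ω} {ι : Type} {x : ι → Ω}
    (h : AlgebraicIndependent K x) (σ : Ω ≃ₐ[k] Ω) (hσ' : ∀ c ∈ K, σ.symm c ∈ K) :
    AlgebraicIndependent K fun i => σ (x i) := by
  rw [algebraicIndependent_iff] at h ⊢
  intro p hp
  let τ : K →+* K :=
    { toFun := fun c => ⟨σ.symm c, hσ' c c.2⟩
      map_one' := Subtype.ext (map_one σ.symm)
      map_mul' := fun a b => Subtype.ext (map_mul σ.symm (a : Ω) b)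
      map_zero' := Subtype.ext (map_zero σ.symm)
      map_add' := fun a b => Subtype.ext (map_add σ.symm (a : Ω) b) }
  have h1 : MvPolynomial.aeval x (MvPolynomial.map τ p) =
      σ.symm (MvPolynomial.aeval (fun i => σ (x i)) p) := by
    rw [MvPolynomial.aeval_def, MvPolynomial.eval₂_map, MvPolynomial.aeval_def]
    have h2 := MvPolynomial.eval₂_comp_left ((σ.symm : Ω ≃+* Ω) : Ω →+* Ω) (algebraMap K Ω)
      (fun i => σ (x i)) p
    refine Eq.trans ?_ h2.symm
    congr 1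
    funext i
    show x i = σ.symm (σ (x i))
    rw [σ.symm_apply_apply]
  have h3 := h _ (by rw [h1, hp, map_zero])
  exact (MvPolynomial.map_injective τ τ.injective) (by rw [h3, map_zero])

theorem indA_aP (hT : Tk k T) {K : IntermediateField k Ω} {X : ρ → List (Pt T)}
    (h : IndA K X) (σ : Ω ≃ₐ[k] Ω) (hσ' : ∀ c ∈ K, σ.symm c ∈ K) :
    IndA K fun r => (X r).map (aP hT σ) := by
  have h1 := ai_semi (x := xf X) h σ hσ'
  let e : (Σ r, Fin ((X r).map (aP hT σ)).length) ≃ Σ r, Fin (X r).length :=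
    Equiv.sigmaCongrRight fun r => finCongr (List.length_map _)
  have h2 := h1.comp e e.injective
  have h3 : (fun i => σ (xf X i)) ∘ e = xf fun r => (X r).map (aP hT σ) := by
    funext p
    show σ (xx ((X p.1).get (finCongr (List.length_map _) p.2))) =
      xx (((X p.1).map (aP hT σ)).get p.2)
    rw [List.get_eq_getElem, List.get_eq_getElem, List.getElem_map, xx_aP]
    rfl
  rw [h3] at h2
  exact h2

theorem genA_act (hT : Tk k T) {K : IntermediateField k Ω} {x : ρ → ClassGroup (WB T)}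
    (h : GenA K x) (σ : Ω ≃ₐ[k] Ω) (hσ : ∀ c ∈ K, σ c ∈ K) (hσ' : ∀ c ∈ K, σ.symm c ∈ K) :
    GenA K (fun r => act hT σ (x r)) := by
  obtain ⟨X, hl, hi, hc⟩ := h
  exact ⟨fun r => (X r).map (aP hT σ), fun r => by rw [List.length_map, hl r],
    indA_aP hT hi σ hσ', fun r => by rw [cl_aP, hc r]⟩

theorem genA_conj (hT : Tk k T) {K : IntermediateField k Ω}
    {x x' : ρ → ClassGroup (WB T)} (h : GenA K x) (h' : GenA K x') :
    ∃ σ : Ω ≃ₐ[k] Ω, (∀ c ∈ K, σ c = c) ∧ ∀ r, act hT σ (x r) = x' r := by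
  obtain ⟨X, hl, hi, hc⟩ := h
  obtain ⟨X', hl', hi', hc'⟩ := h'
  obtain ⟨σ, hσ, h1⟩ := ind_conj hT hi hi' fun r => by rw [hl, hl']
  refine ⟨σ, hσ, fun r => ?_⟩
  rw [← hc r, ← hc' r, ← h1 r, cl_aP]

theorem exists_genA (hU : Univ k Ω) (T : Tab Ω d) [IsDedekindDomain (WB T)]
    {K : IntermediateField k Ω} (hK : Small K) :
    ∃ x : ρ → ClassGroup (WB T), GenA K x := by
  classical
  obtain ⟨f, hf⟩ := g_exists_ai hU hK (Fintype.card (ρ × Fin (gp T)))
  choose P hP using exists_xx T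
  let e : ρ × Fin (gp T) ≃ Fin (Fintype.card (ρ × Fin (gp T))) := Fintype.equivFin _
  let X : ρ → List (Pt T) := fun r => List.ofFn fun i : Fin (gp T) => P (f (e (r, i)))
  refine ⟨fun r => cl (X r), X, fun r => List.length_ofFn, ?_, fun _ => rfl⟩
  let φ : (Σ r, Fin (X r).length) → ρ × Fin (gp T) := fun p =>
    (p.1, finCongr List.length_ofFn p.2)
  have hφ : Function.Injective φ := by
    rintro ⟨r, i⟩ ⟨s, j⟩ h
    have h1 : r = s := congrArg Prod.fst h
    subst h1
    have h2 : finCongr List.length_ofFn i = finCongr List.length_ofFn j := congrArg Prod.snd h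
    rw [(finCongr List.length_ofFn).injective h2]
  have h1 := hf.comp (fun p => e (φ p)) (e.injective.comp hφ)
  have h2 : f ∘ (fun p => e (φ p)) = xf X := by
    funext p
    show f (e (φ p)) = xx ((List.ofFn fun i : Fin (gp T) => P (f (e (p.1, i)))).get p.2)
    rw [List.get_ofFn, hP]
    rfl
  rw [h2] at h1
  exact h1

theorem genA_split (hU : Univ k Ω) (hT : Tk k T) {K : IntermediateField k Ω} (hK : Small K)
    {ρ' : Type} [Fintype ρ'] {x : ρ → ClassGroup (WB T)} {y : ρ' → ClassGroup (WB T)} :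
    GenA K (Sum.elim x y) ↔ GenA K x ∧ GenA (acl (K ⊔ ⨆ r, kD k (x r))) y := by
  constructor
  · rintro ⟨X, hl, hi, hc⟩
    have hX : (Sum.elim (fun r => X (Sum.inl r)) fun r => X (Sum.inr r)) = X := by
      funext r
      rcases r with r | r <;> rfl
    obtain ⟨h1, h2⟩ := indA_elim.1 (show IndA K
      (Sum.elim (fun r => X (Sum.inl r)) fun r => X (Sum.inr r)) by
        rw [hX]
        exact hi)
    refine ⟨⟨_, fun r => hl (Sum.inl r), h1, fun r => hc (Sum.inl r)⟩,
      ⟨_, fun r => hl (Sum.inr r), ?_, fun r => hc (Sum.inr r)⟩⟩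
    refine ai_mono ?_ (ai_acl.2 h2)
    refine acl_le (sup_le ((le_ad _ _).trans (le_acl _)) (iSup_le fun s => ?_))
    exact kD_le hT (hc (Sum.inl s)) fun P hP =>
      le_acl _ (sub_ad _ _ (mem_range_xf (X := fun r => X (Sum.inl r)) (r := s) hP))
  · rintro ⟨⟨X, hl, hi, hc⟩, Y, hl', hi', hc'⟩
    refine ⟨Sum.elim X Y, ?_, indA_elim.2 ⟨hi, ?_⟩, ?_⟩
    · rintro (r | r)
      · exact hl r
      · exact hl' r
    · refine ai_mono (ad_le (le_sup_left.trans (le_acl _)) ?_) hi'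
      rintro _ ⟨⟨r, i⟩, rfl⟩
      obtain ⟨F, hF⟩ : ∃ F, F = acl (K ⊔ ⨆ r, kD k (x r)) := ⟨_, rfl⟩
      have hFc : IsAlgClosed F := by
        rw [hF]
        infer_instance
      have h1 : RatI (F : Set Ω) (dI (X r)) := by
        have h2 : x r ∈ JK (T := T) (F : Set Ω) := by
          rw [mem_JK_iff hT, hF]
          exact (le_iSup (fun s => kD k (x s)) r).trans (le_sup_right.trans (le_acl _))
        have h3 : RatI (F : Set Ω) (rdc (x r)) := h2
        rwa [← hc r, (ind_Ns_inv hU hT hK (indA_ind hi r) (hl r)).2] at h3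
      rw [← hF]
      exact (PK_iff_xx hT F _).1 (PK_of_ratI hT F h1 _ (List.get_mem _ _))
    · rintro (r | r)
      · exact hc r
      · exact hc' r

end

end Pool.Agent.TIFT
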