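import Pool.Agent.TIFT.Defs

/-!
# [TIF, block THETA] row K0

finrank_IB_eq gives equality for all large m, so the number of m which are not the order of an element of I is gp + len I (the dimension of IB I m is the number of orders <= m). If m is missing then m - w is missing for every w = pord c <= m, c ∈ WB T (pord_mul), so there are at least m + 1 - gp missing numbers <= m: m + 1 - gp <= gp + len I.
-/

set_option autoImplicit false
set_option linter.unusedSectionVars false

open Polynomial IsLocalRing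

namespace Pool.Agent.TIFT

open GT TIF

section

variable {d : ℕ} [NeZero d] {κ : Type} [Field κ] [IsAlgClosed κ] {T : Tab κ d}
  [IsDedekindDomain (WB T)]

/-- `m` is the order of an element of `I` -/
private def k0_Or (I : Ideal (WB T)) (m : ℕ) : Prop := ∃ b ∈ I, b ≠ 0 ∧ pord b = m

private theorem k0_ker {M : Type} [AddCommGroup M] [Module κ M] (A B : Submodule κ M)
    [FiniteDimensional κ A] [FiniteDimensional κ B] (φ : M →ₗ[κ] κ)
    (hA : ∀ b, b ∈ A ↔ b ∈ B ∧ φ b = 0) :
    ((∃ b ∈ B, φ b ≠ 0) → Module.finrank κ B = Module.finrank κ A + 1) ∧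
      ((¬ ∃ b ∈ B, φ b ≠ 0) → Module.finrank κ B = Module.finrank κ A) := by
  have hAB : A ≤ B := fun b hb => ((hA b).1 hb).1
  constructor
  · rintro ⟨b0, hb0, hφ⟩
    have hlt : A < B := by
      refine lt_of_le_of_ne hAB fun h => hφ ?_
      rw [← h] at hb0
      exact ((hA b0).1 hb0).2
    have h1 := Submodule.finrank_lt_finrank_of_lt hlt
    have hle : B ≤ A ⊔ Submodule.span κ {b0} := by
      intro y hy
      have h3 : y - (φ y / φ b0) • b0 ∈ A := by
        rw [hA]
        refine ⟨B.sub_mem hy (B.smul_mem _ hb0), ?_⟩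
        rw [map_sub, map_smul, smul_eq_mul, div_mul_cancel₀ _ hφ, sub_self]
      have h4 : y = (y - (φ y / φ b0) • b0) + (φ y / φ b0) • b0 := by abel
      rw [h4]
      exact Submodule.add_mem_sup h3
        (Submodule.smul_mem _ _ (Submodule.mem_span_singleton_self b0))
    have hfd : FiniteDimensional κ (Submodule.span κ ({b0} : Set M)) :=
      FiniteDimensional.span_of_finite κ (Set.finite_singleton b0)
    have h5 := Submodule.finrank_mono hle
    have h6 := Submodule.finrank_add_le_finrank_add_finrank A (Submodule.span κ {b0})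
    have h7 : Module.finrank κ (Submodule.span κ ({b0} : Set M)) ≤ 1 := by
      have h8 := finrank_span_le_card (R := κ) ({b0} : Set M)
      simpa using h8
    omega
  · intro h
    have hBA : B ≤ A := fun b hb => (hA b).2 ⟨hb, by
      by_contra h1
      exact h ⟨b, hb, h1⟩⟩
    rw [le_antisymm hBA hAB]

private theorem k0_or_iff {I : Ideal (WB T)} {m : ℕ} :
    (∃ b ∈ IB I m, lcf T m b ≠ 0) ↔ k0_Or I m := by
  constructor
  · rintro ⟨b, hb, h⟩
    rw [mem_IB] at hb
    refine ⟨b, hb.1, ?_, pord_eq_of ((mem_Ble_iff b m).2 hb.2) h⟩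
    rintro rfl
    exact h (map_zero _)
  · rintro ⟨b, hb, h0, h⟩
    refine ⟨b, mem_IB.2 ⟨hb, h.le⟩, ?_⟩
    have h1 := lc_ne h0
    rw [lc, h] at h1
    exact h1

private theorem k0_succ (I : Ideal (WB T)) (m : ℕ) :
    (k0_Or I (m + 1) → Module.finrank κ (IB I (m + 1)) = Module.finrank κ (IB I m) + 1) ∧
      (¬ k0_Or I (m + 1) → Module.finrank κ (IB I (m + 1)) = Module.finrank κ (IB I m)) := by
  have h := k0_ker (IB I m) (IB I (m + 1)) (lcf T (m + 1)) (by
    intro b
    rw [mem_IB, mem_IB]
    constructor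
    · rintro ⟨h1, h2⟩
      refine ⟨⟨h1, h2.trans (Nat.le_succ m)⟩, ?_⟩
      by_contra h3
      have h4 := pord_eq_of ((mem_Ble_iff b (m + 1)).2 (h2.trans (Nat.le_succ m))) h3
      omega
    · rintro ⟨⟨h1, h2⟩, h3⟩
      exact ⟨h1, (mem_Ble_iff b m).1 (Ble_pred ((mem_Ble_iff b (m + 1)).2 h2) h3)⟩)
  rwa [k0_or_iff] at h

private theorem k0_zero (I : Ideal (WB T)) :
    (k0_Or I 0 → Module.finrank κ (IB I 0) = 1) ∧
      (¬ k0_Or I 0 → Module.finrank κ (IB I 0) = 0) := by
  have h := k0_ker (⊥ : Submodule κ (WB T)) (IB I 0) (lcf T 0) (by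
    intro b
    rw [mem_IB, Submodule.mem_bot]
    constructor
    · rintro rfl
      refine ⟨⟨I.zero_mem, ?_⟩, map_zero _⟩
      exact (mem_Ble_iff _ 0).1 (Submodule.zero_mem _)
    · rintro ⟨⟨h1, h2⟩, h3⟩
      exact Ble_zero ((mem_Ble_iff b 0).2 h2) h3)
  rw [k0_or_iff, finrank_bot] at h
  simpa using h

open Classical in
private theorem k0_count (I : Ideal (WB T)) (m : ℕ) :
    Module.finrank κ (IB I m) = ((Finset.range (m + 1)).filter (k0_Or I)).card := by
  induction m with
  | zero =>
    rw [zero_add, Finset.range_one]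
    by_cases h : k0_Or I 0
    · rw [(k0_zero I).1 h, Finset.filter_singleton, if_pos h, Finset.card_singleton]
    · rw [(k0_zero I).2 h, Finset.filter_singleton, if_neg h, Finset.card_empty]
  | succ m ih =>
    rw [Finset.range_add_one, Finset.filter_insert]
    by_cases h : k0_Or I (m + 1)
    · rw [(k0_succ I m).1 h, if_pos h, Finset.card_insert_of_notMem (by simp), ih]
    · rw [(k0_succ I m).2 h, if_neg h, ih]

private theorem k0_or {I : Ideal (WB T)} (hI : I ≠ ⊥) {m : ℕ} (hm : len I + 2 * gp T ≤ m) :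
    k0_Or I m := by
  classical
  by_contra hcon
  have h1 := finrank_IB_ge I hI m
  have h2 := finrank_Ble_ge (T := T) m
  rw [← IB_top, k0_count] at h2
  rw [k0_count] at h1
  have h3 : ((Finset.range (m + 1)).filter (k0_Or (⊤ : Ideal (WB T)))).card ≤
      ((Finset.range (m + 1)).filter (fun n => ¬ k0_Or I n)).card := by
    refine Finset.card_le_card_of_injOn (fun w => m - w) ?_ ?_
    · intro w hw
      rw [Finset.mem_coe, Finset.mem_filter, Finset.mem_range] at hw
      rw [Finset.mem_coe, Finset.mem_filter, Finset.mem_range]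
      change m - w < m + 1 ∧ ¬ k0_Or I (m - w)
      refine ⟨by omega, ?_⟩
      rintro ⟨b, hb, hb0, hbm⟩
      obtain ⟨c, -, hc0, hcw⟩ := hw.2
      refine hcon ⟨c * b, I.mul_mem_left c hb, mul_ne hc0 hb0, ?_⟩
      rw [pord_mul hc0 hb0, hcw, hbm]
      omega
    · intro w hw w' hw' h
      rw [Finset.mem_coe, Finset.mem_filter, Finset.mem_range] at hw hw'
      have h' : m - w = m - w' := h
      omega
  have h4 := Finset.card_filter_add_card_filter_not (s := Finset.range (m + 1)) (k0_Or I)
  rw [Finset.card_range] at h4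
  omega

theorem finrank_IB_sharp {I : Ideal (WB T)} (hI : I ≠ ⊥) {m : ℕ} (hm : len I + 2 * gp T ≤ m + 1) :
    Module.finrank κ (IB I m) + gp T + len I = m + 1 := by
  obtain ⟨m₀, hm₀⟩ := finrank_IB_eq I hI
  have h1 : ∀ n, Module.finrank κ (IB I (m + n)) = Module.finrank κ (IB I m) + n := by
    intro n
    induction n with
    | zero => rfl
    | succ n ih =>
      rw [← add_assoc, (k0_succ I (m + n)).1 (k0_or hI (by omega)), ih]
      omega
  have h2 := hm₀ (m + m₀) (Nat.le_add_left _ _)
  rw [h1] at h2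
  omega

theorem exists_order {I : Ideal (WB T)} (hI : I ≠ ⊥) {m : ℕ} (hm : len I + 2 * gp T ≤ m) :
    ∃ b ∈ I, pord b = m ∧ lc b = 1 := by
  obtain ⟨b, hb, h0, h⟩ := k0_or hI hm
  have h1 := lc_ne h0
  refine ⟨(lc b)⁻¹ • b, ?_, ?_, ?_⟩
  · exact (Submodule.restrictScalars κ I).smul_mem _
      (show b ∈ Submodule.restrictScalars κ I from hb)
  · rw [pord_smul (inv_ne_zero h1), h]
  · rw [lc_smul, inv_mul_cancel₀ h1]

end

end Pool.Agent.TIFT
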