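import Pool.Agent.TIFT.G4
import Pool.Agent.TIFT.C1
import Pool.Agent.TIFT.C2
import Pool.Agent.TIFT.K0

/-!
# [TIF, block THETA] row G5: the sum of `gp` independent points

Proof without `h⁰`: let `W` be `n = 2 gp + 1` independent points, `Y` the reduced divisor of the class
`(cl W)⁻¹` (`gp` points, since `Dl W ≠ 0`). `Y + W` is principal, so `W` is algebraic over
`K(Y, c₁, …, c_s)`, `s ≤ n - gp` coefficients: so `Y` consists of independent points, and
`dI Y = rdc (cl Y)`. All independent families are conjugate.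
-/

set_option autoImplicit false
set_option linter.unusedSectionVars false

open Polynomial IsLocalRing

namespace Pool.Agent.TIFT

open GT TIF

section

variable {k Ω : Type} [Field k] [Field Ω] [Algebra k Ω] [IsAlgClosed Ω] {d : ℕ} [NeZero d]
  {T : Tab Ω d} [IsDedekindDomain (WB T)]

open Classical in
/-- the orders `≤ m` of the elements of `I` -/
noncomputable def ords (I : Ideal (WB T)) (m : ℕ) : Finset ℕ :=
  (Finset.range (m + 1)).filter fun t => ∃ c ∈ I, c ≠ 0 ∧ pord c = t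

theorem mem_ords {I : Ideal (WB T)} {m t : ℕ} :
    t ∈ ords I m ↔ t ≤ m ∧ ∃ c ∈ I, c ≠ 0 ∧ pord c = t := by
  classical
  rw [ords, Finset.mem_filter, Finset.mem_range, Nat.lt_succ_iff]

theorem exists_redf (I : Ideal (WB T)) (m : ℕ) :
    ∃ r : ℕ → WB T, ∀ t ∈ ords I m, Red I t (r t) := by
  have h : ∀ t, ∃ b, t ∈ ords I m → Red I t b := by
    intro t
    by_cases ht : t ∈ ords I m
    · obtain ⟨-, c, hc, h0, rfl⟩ := mem_ords.1 ht
      obtain ⟨b, hb⟩ := exists_red hc h0
      exact ⟨b, fun _ => hb⟩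
    · exact ⟨0, fun h => absurd h ht⟩
  choose r hr using h
  exact ⟨r, fun t ht => hr t ht⟩

theorem lcf_red {I : Ideal (WB T)} {s t : ℕ} {r : WB T} (hr : Red I s r)
    (ht : ∃ c ∈ I, c ≠ 0 ∧ pord c = t) (hst : t ≠ s) : lcf T t r = 0 := by
  rcases lt_or_gt_of_ne hst with h | h
  · obtain ⟨c, hc, h0, rfl⟩ := ht
    exact hr.red c hc h0 h
  · exact a2_lcf_zero (mem_Ble_pord r) (by rw [hr.ord]; exact h)

theorem lcf_red_self {I : Ideal (WB T)} {s : ℕ} {r : WB T} (hr : Red I s r) :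
    lcf T s r = 1 := by
  have := hr.lc
  unfold GT.lc at this
  rwa [hr.ord] at this

theorem card_ords (I : Ideal (WB T)) (m : ℕ) :
    (ords I m).card ≤ Module.finrank Ω (IB I m) := by
  classical
  obtain ⟨r, hr⟩ := exists_redf I m
  have hmem : ∀ t : ords I m, r t ∈ IB I m := fun t => by
    rw [mem_IB]
    exact ⟨(hr t t.2).mem, by rw [(hr t t.2).ord]; exact (mem_ords.1 t.2).1⟩
  have hli : LinearIndependent Ω fun t : ords I m => (⟨r t, hmem t⟩ : IB I m) := by
    rw [Fintype.linearIndependent_iff]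
    intro g hg t
    have h1 := congrArg (fun b : IB I m => lcf T t (b : WB T)) hg
    simp only [Submodule.coe_sum, Submodule.coe_smul, map_sum, map_smul, ZeroMemClass.coe_zero,
      map_zero] at h1
    rw [Finset.sum_eq_single t] at h1
    · rwa [lcf_red_self (hr t t.2), smul_eq_mul, mul_one] at h1
    · intro s _ hs
      rw [lcf_red (hr s s.2) (mem_ords.1 t.2).2 (fun h => hs (Subtype.ext h.symm)), smul_zero]
    · intro h
      exact absurd (Finset.mem_univ _) h
  have h1 := hli.fintype_card_le_finrank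
  rwa [Fintype.card_coe] at h1

theorem eq_sum_red {I : Ideal (WB T)} {m : ℕ} {r : ℕ → WB T}
    (hr : ∀ t ∈ ords I m, Red I t (r t)) {b : WB T} (hb : b ∈ I) (hm : pord b ≤ m) :
    b = ∑ t ∈ ords I m, lcf T t b • r t := by
  classical
  by_contra hne
  obtain ⟨c, hc⟩ : ∃ c, c = b - ∑ t ∈ ords I m, lcf T t b • r t := ⟨_, rfl⟩
  have hc0 : c ≠ 0 := by
    rw [hc]
    exact sub_ne_zero.2 hne
  have hsI : (∑ t ∈ ords I m, lcf T t b • r t) ∈ IB I m :=
    Submodule.sum_mem _ fun t ht => Submodule.smul_mem _ _ (by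
      rw [mem_IB]
      exact ⟨(hr t ht).mem, by rw [(hr t ht).ord]; exact (mem_ords.1 ht).1⟩)
  have hcI : c ∈ IB I m := by
    rw [hc]
    exact Submodule.sub_mem _ (mem_IB.2 ⟨hb, hm⟩) hsI
  rw [mem_IB] at hcI
  have ho : pord c ∈ ords I m := mem_ords.2 ⟨hcI.2, c, hcI.1, hc0, rfl⟩
  have hl : ∀ l, lcf T l c = lcf T l b - ∑ t ∈ ords I m, lcf T t b * lcf T l (r t) := by
    intro l
    rw [hc, map_sub, map_sum]
    congr 1
    exact Finset.sum_congr rfl fun t _ => by rw [map_smul, smul_eq_mul]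
  apply lc_ne hc0
  unfold GT.lc
  rw [hl, Finset.sum_eq_single (pord c)]
  · rw [lcf_red_self (hr _ ho), mul_one, sub_self]
  · intro s hs hsc
    rw [lcf_red (hr s hs) (mem_ords.1 ho).2 (fun h => hsc h.symm), mul_zero]
  · intro h
    exact absurd ho h

theorem g_par (hT : Tk k T) {F : IntermediateField k Ω} {I : Ideal (WB T)} (hI : I ≠ ⊥)
    (hF : RatI (F : Set Ω) I) {W : List (Pt T)} {b : WB T} (hb0 : b ≠ 0) (hb : lc b = 1)
    (hIJ : I * dI W = Ideal.span {b}) (hm : len I + 2 * gp T ≤ pord b + 1) :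
    ∃ S : Finset Ω, S.card + gp T + len I ≤ pord b ∧ ∀ P ∈ W, xx P ∈ acl (ad F (S : Set Ω)) := by
  classical
  obtain ⟨m, hmb⟩ : ∃ m, m = pord b := ⟨_, rfl⟩
  have hbI : b ∈ I := by
    have h2 : I * dI W ≤ I := Ideal.mul_le_left
    rw [hIJ, Ideal.span_singleton_le_iff_mem] at h2
    exact h2
  obtain ⟨r, hr⟩ := exists_redf I m
  have hmo : m ∈ ords I m := mem_ords.2 ⟨le_rfl, b, hbI, hb0, hmb.symm⟩
  refine ⟨((ords I m).erase m).image fun t => lcf T t b, ?_, ?_⟩
  · have h1 := card_ords I m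
    have h2 := finrank_IB_sharp hI (m := m) (by omega)
    have h3 : (((ords I m).erase m).image fun t => lcf T t b).card ≤ ((ords I m).erase m).card :=
      Finset.card_image_le
    rw [Finset.card_erase_of_mem hmo] at h3
    have h4 : 0 < (ords I m).card := Finset.card_pos.2 ⟨m, hmo⟩
    omega
  · obtain ⟨L, hL⟩ : ∃ L, L = acl (ad F ((((ords I m).erase m).image fun t => lcf T t b :
        Finset Ω) : Set Ω)) := ⟨_, rfl⟩
    have hFL : F ≤ L := by
      rw [hL]
      exact (le_ad _ _).trans (le_acl _)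
    have hcl : ∀ t ∈ ords I m, lcf T t b ∈ L := by
      intro t ht
      by_cases htm : t = m
      · have h1 : lcf T t b = 1 := by
          unfold GT.lc at hb
          rwa [htm, hmb]
        rw [h1]
        exact L.one_mem
      · rw [hL]
        refine le_acl _ (sub_ad _ _ ?_)
        rw [Finset.mem_coe, Finset.mem_image]
        exact ⟨t, Finset.mem_erase.2 ⟨htm, ht⟩, rfl⟩
    have hcfb : Cf (L : Set Ω) b := by
      intro j n
      rw [eq_sum_red hr hbI hmb.symm.le]
      have key : ∀ s ⊆ ords I m, ((∑ t ∈ s, lcf T t b • r t : WB T).co j).coeff n ∈ L := by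
        intro s
        induction s using Finset.induction_on with
        | empty =>
          intro _
          rw [Finset.sum_empty, WB.co_zero, Pi.zero_apply, coeff_zero]
          exact L.zero_mem
        | insert a s ha ih =>
          intro hs
          rw [Finset.sum_insert ha, WB.co_add, Pi.add_apply, coeff_add, WB.co_smul', coeff_smul]
          refine L.add_mem ?_ (ih fun t ht => hs (Finset.mem_insert_of_mem ht))
          have ha' : a ∈ ords I m := hs (Finset.mem_insert_self a s)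
          rw [smul_eq_mul]
          exact L.mul_mem (hcl a ha') (hFL ((ratI_iff hT F hI).1 hF a (r a) (hr a ha') j n))
      exact key _ subset_rfl
    have hclo : IsAlgClosed L := by
      rw [hL]
      infer_instance
    have hIL : RatI (L : Set Ω) I := by
      rw [ratI_iff hT L hI]
      intro t c hc
      exact g_cf_mono hFL ((ratI_iff hT F hI).1 hF t c hc)
    have hJ := ratI_of_mul hT L hI hcfb hb0 hIL hIJ
    intro P hP
    rw [← hL]
    exact (PK_iff_xx hT L P).1 (PK_of_ratI hT L hJ P hP)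

theorem g_norm {b : WB T} (hb : b ≠ 0) :
    ∃ c : WB T, lc c = 1 ∧ pord c = pord b ∧ Ideal.span {c} = Ideal.span {b} := by
  refine ⟨(lc b)⁻¹ • b, ?_, pord_smul (inv_ne_zero (lc_ne hb)) _, ?_⟩
  · rw [lc_smul, inv_mul_cancel₀ (lc_ne hb)]
  · rw [Algebra.smul_def]
    refine Ideal.span_singleton_mul_left_unit ?_ b
    exact (IsUnit.mk0 _ (inv_ne_zero (lc_ne hb))).map (algebraMap Ω (WB T))

theorem rac_dI (hT : Tk k T) (σ : Ω ≃ₐ[k] Ω) (X : List (Pt T)) :
    dI (X.map (aP hT σ)) = (dI X).map (rac hT σ) := by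
  induction X with
  | nil => rw [List.map_nil, dI_nil, Ideal.map_top]
  | cons P X ih =>
    have h : ∀ (P : Pt T) (X : List (Pt T)), dI (P :: X) = mP P * dI X := fun P X => by
      rw [dI, dI, List.map_cons, List.prod_cons]
    rw [List.map_cons, h, h, Ideal.map_mul, ih, r_mP_aP]

theorem rdc_act (hT : Tk k T) (σ : Ω ≃ₐ[k] Ω) (x : ClassGroup (WB T)) :
    rdc (act hT σ x) = (rdc x).map (rac hT σ) := (rdc_map _ x).symm

theorem ind_Ns_inv (hU : Univ k Ω) (hT : Tk k T) {K : IntermediateField k Ω} (hK : Small K)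
    {X : List (Pt T)} (h : Ind K X) (hg : X.length = gp T) :
    Ns (cl X)⁻¹ ∧ rdc (cl X) = dI X := by
  classical
  obtain ⟨W, hWl, hW⟩ := exists_ind hU T hK (2 * gp T + 1)
  have hNs : Ns (cl W) := ((Dl_ne_zero_iff (by omega)).1 (Dl_ind hT hW)).2
  obtain ⟨Y, hY⟩ := exists_dI (rdc_ne (cl W)⁻¹)
  have hYl : Y.length = gp T := by
    rw [← len_dI, hY]
    exact hNs
  have hYc : cl Y = (cl W)⁻¹ := by
    rw [cl, hY, cls_rdc]
  have hYI : dI Y ≠ ⊥ := dI_ne_bot Y
  have hWI : dI W ≠ ⊥ := dI_ne_bot W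
  -- `Y + W` is principal
  obtain ⟨b, hb0, hb1, hbs⟩ : ∃ b : WB T, b ≠ 0 ∧ lc b = 1 ∧ dI Y * dI W = Ideal.span {b} := by
    have h1 : cls (dI Y * dI W) = 1 := by
      rw [cls_mul hYI hWI]
      change cl Y * cl W = 1
      rw [hYc, inv_mul_cancel]
    have h2 : dI Y * dI W ≠ ⊥ := mul_ne_zero hYI hWI
    obtain ⟨b, hb⟩ := (cls_eq_one_iff h2).1 h1
    have hb0 : b ≠ 0 := by
      rintro rfl
      rw [hb, Ideal.span_singleton_eq_bot.2 rfl] at h2
      exact h2 rfl
    obtain ⟨c, hc1, -, hcs⟩ := g_norm hb0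
    refine ⟨c, ?_, hc1, by rw [hcs, hb]⟩
    rintro rfl
    rw [Ideal.span_singleton_eq_bot.2 rfl] at hcs
    exact hb0 (Ideal.span_singleton_eq_bot.1 hcs.symm)
  have hbo : pord b = 3 * gp T + 1 := by
    have h1 : Ideal.span {b} = dI (Y ++ W) := by rw [dI_append, hbs]
    have h2 := span_eq_dI_length hb0 h1
    rw [List.length_append] at h2
    omega
  obtain ⟨F, hF⟩ : ∃ F, F = acl (ad K (Set.range (xs Y))) := ⟨_, rfl⟩
  have hFc : IsAlgClosed F := by
    rw [hF]
    infer_instance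
  have hratY : RatI (F : Set Ω) (dI Y) := by
    refine ratI_dI hT F fun P hP => (PK_iff_xx hT F P).2 ?_
    rw [hF]
    refine le_acl _ (sub_ad _ _ ?_)
    rw [range_xs]
    exact ⟨P, hP, rfl⟩
  obtain ⟨S, hS, hSW⟩ := g_par hT hYI hratY hb0 hb1 hbs (by rw [len_dI, hbo]; omega)
  rw [len_dI, hbo, hYl] at hS
  -- exchange
  have hex := ai_exch (K := K) (y := xs W)
    (x := (Sum.elim (xs Y) (fun s : S => (s : Ω)) : Fin Y.length ⊕ S → Ω)) hW (by
      rw [Nat.card_sum, Nat.card_fin, Nat.card_fin, Nat.card_eq_fintype_card, Fintype.card_coe]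
      omega) (by
      intro i
      have h1 := hSW _ (List.get_mem W i)
      refine acl_le (ad_le ?_ ?_) h1
      · rw [hF]
        refine acl_mono (ad_mono le_rfl ?_)
        rintro _ ⟨i, rfl⟩
        exact ⟨Sum.inl i, rfl⟩
      · intro s hs
        exact le_acl _ (sub_ad _ _ ⟨Sum.inr ⟨s, hs⟩, rfl⟩))
  have hIndY : Ind K Y := hex.1.comp Sum.inl Sum.inl_injective
  -- conjugate
  obtain ⟨σ, hσ, hσY⟩ := ind_conj (ρ := Unit) hT (X := fun _ => Y) (X' := fun _ => X) (K := K) (by
      exact (indA_iff (l := [()]) (by simp) (by simp)).2 (by simpa using hIndY)) (by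
      exact (indA_iff (l := [()]) (by simp) (by simp)).2 (by simpa using h)) (by
      intro _
      rw [hYl, hg])
  have hσX : Y.map (aP hT σ) = X := hσY ()
  have hrd : rdc (cl X) = dI X := by
    rw [← hσX, cl_aP, rdc_act, rac_dI]
    congr 1
    rw [hYc, hY]
  refine ⟨?_, hrd⟩
  rw [Ns, inv_inv, hrd, len_dI, hg]

end

end Pool.Agent.TIFT
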