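import Pool.Agent.TIFT.C1
import Pool.Agent.TIFS.W5

/-!
# [TIF, block THETA] row C5: Weil reciprocity for lists of points
-/

set_option autoImplicit false
set_option linter.unusedSectionVars false

open Polynomial IsLocalRing

namespace Pool.Agent.TIFT

open GT TIF

section

variable {d : ℕ} [NeZero d] {κ : Type} [Field κ] [IsAlgClosed κ] {T : Tab κ d}
  [IsDedekindDomain (WB T)]

theorem weil_rec {u v : WB T} (hu : u ≠ 0) (hv : v ≠ 0) {U V : List (Pt T)}
    (hU : Ideal.span {u} = dI U) (hV : Ideal.span {v} = dI V) :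
    ev u V * lc v ^ pord u = (-1) ^ (pord u * pord v) * (ev v U * lc u ^ pord v) := by
  have hlu : lc u ≠ 0 := lc_ne hu
  have hlv : lc v ≠ 0 := lc_ne hv
  have key : ∀ {b : WB T}, b ≠ 0 → ∀ {B : List (Pt T)}, Ideal.span {b} = dI B →
      lc ((lc b)⁻¹ • b) = 1 ∧ Pool.Agent.TIFS.iX (B : Multiset (Pt T)) =
        Ideal.span {(lc b)⁻¹ • b} := by
    intro b hb B hB
    have hlb : lc b ≠ 0 := lc_ne hb
    refine ⟨by rw [lc_smul, inv_mul_cancel₀ hlb], ?_⟩
    rw [← dI_eq_iX, ← hB]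
    exact (span_eq_iff).2 ⟨(lc b)⁻¹, inv_ne_zero hlb, rfl⟩
  obtain ⟨h1, h2⟩ := key hu hU
  obtain ⟨h3, h4⟩ := key hv hV
  have h := Pool.Agent.TIFS.weil h1 h3 h2 h4
  rw [← ev_eq, ← ev_eq, ev_smul, ev_smul, pord_smul (inv_ne_zero hlu),
    pord_smul (inv_ne_zero hlv), span_eq_dI_length hu hU, span_eq_dI_length hv hV] at h
  have e1 : (lc u)⁻¹ ^ pord v * lc u ^ pord v = 1 := by
    rw [← mul_pow, inv_mul_cancel₀ hlu, one_pow]
  have e2 : (lc v)⁻¹ ^ pord u * lc v ^ pord u = 1 := by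
    rw [← mul_pow, inv_mul_cancel₀ hlv, one_pow]
  calc ev u V * lc v ^ pord u
      = ((lc u)⁻¹ ^ pord v * ev u V) * (lc u ^ pord v * lc v ^ pord u) := by
        linear_combination (- ev u V * lc v ^ pord u) * e1
    _ = ((-1) ^ (pord u * pord v) * ((lc v)⁻¹ ^ pord u * ev v U)) *
        (lc u ^ pord v * lc v ^ pord u) := by rw [h]
    _ = (-1) ^ (pord u * pord v) * (ev v U * lc u ^ pord v) := by
        linear_combination ((-1) ^ (pord u * pord v) * (ev v U * lc u ^ pord v)) * e2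

end

end Pool.Agent.TIFT
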