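import Pool.Agent.TIFT.K3
import Pool.Agent.TIFT.D2
import Pool.Agent.TIFT.C5
import Pool.Agent.TIFT.B1

/-!
# [TIF, block THETA] row T1

exists_Eqv for X, X' with S := the points of all B i: u, v, Z with Z off the zeros of h. Dl_change for Y = B i (and Dl_comm to bring Dl (B i ++ X) to Dl (X ++ B i), signs (-1)^(|B i| |X|)): prod_i Dl (X ++ B i) * Dl X' ^ m * ev v (all B) = prod_i Dl (X' ++ B i) * Dl X ^ m * ev u (all B). (h) = prod dI (B i) = dI (B 0 ++ .. ) , weil_rec for (u, h) and (v, h) with U = X ++ Z, V = X' ++ Z: ev u (all B) / ev v (all B) = (-1)^((|X| - |X'|) |B|) ev h X / ev h X' (ev h Z cancels, it is ≠ 0; lc h = 1, lc u = lc v, pord u - |X| = pord v - |X'|). thc_eq: Exists.choose_spec and th_congr.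
-/

set_option autoImplicit false
set_option linter.unusedSectionVars false

open Polynomial IsLocalRing

namespace Pool.Agent.TIFT

open GT TIF

section

variable {d : ℕ} [NeZero d] {κ : Type} [Field κ] [IsAlgClosed κ] {T : Tab κ d}
  [IsDedekindDomain (WB T)]

/-- the list of all points of a family -/
private def t1_all {m : ℕ} (B : Fin m → List (Pt T)) : List (Pt T) := (List.ofFn B).flatten

private theorem t1_dI_flatten (L : List (List (Pt T))) : dI L.flatten = (L.map dI).prod := by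
  induction L with
  | nil => rw [List.flatten_nil, List.map_nil, List.prod_nil, dI_nil, Ideal.one_eq_top]
  | cons X L ih => rw [List.flatten_cons, dI_append, ih, List.map_cons, List.prod_cons]

private theorem t1_ev_flatten (b : WB T) (L : List (List (Pt T))) :
    ev b L.flatten = (L.map (ev b)).prod := by
  induction L with
  | nil => rw [List.flatten_nil, List.map_nil, List.prod_nil]; rfl
  | cons X L ih => rw [List.flatten_cons, ev_append, ih, List.map_cons, List.prod_cons]

private theorem t1_dI_all {m : ℕ} (B : Fin m → List (Pt T)) : dI (t1_all B) = ∏ i, dI (B i) := by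
  rw [t1_all, t1_dI_flatten, List.map_ofFn, List.prod_ofFn]
  rfl

private theorem t1_ev_all {m : ℕ} (b : WB T) (B : Fin m → List (Pt T)) :
    ev b (t1_all B) = ∏ i, ev b (B i) := by
  rw [t1_all, t1_ev_flatten, List.map_ofFn, List.prod_ofFn]
  rfl

private theorem t1_len_all {m : ℕ} (B : Fin m → List (Pt T)) :
    (t1_all B).length = ∑ i, (B i).length := by
  rw [t1_all, List.length_flatten, List.map_ofFn, List.sum_ofFn]
  rfl

private theorem t1_alg {κ : Type} [Field κ] (P1 P2 D1 D2 e1 e2 s1 s2 z E evu evv : κ)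
    (hE : E ≠ 0) (hz : z ≠ 0) (h1 : s1 * s1 = 1) (h2 : s2 * s2 = 1)
    (hu : evu = s1 * z * (e1 * E)) (hv : evv = s2 * z * (e2 * E))
    (h : P1 * D2 * evv = P2 * D1 * evu) :
    s1 * P1 * (D2 * e2) = s2 * P2 * (D1 * e1) := by
  rw [hu, hv] at h
  have h3 : P1 * D2 * (s2 * e2) = P2 * D1 * (s1 * e1) := by
    have h4 : (z * E) * (P1 * D2 * (s2 * e2)) = (z * E) * (P2 * D1 * (s1 * e1)) := by
      linear_combination h
    exact mul_left_cancel₀ (mul_ne_zero hz hE) h4
  calc s1 * P1 * (D2 * e2) = s1 * P1 * (D2 * e2) * (s2 * s2) := by rw [h2, mul_one]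
    _ = (P1 * D2 * (s2 * e2)) * s1 * s2 := by ring
    _ = (P2 * D1 * (s1 * e1)) * s1 * s2 := by rw [h3]
    _ = (s1 * s1) * (s2 * P2 * (D1 * e1)) := by ring
    _ = s2 * P2 * (D1 * e1) := by rw [h1, one_mul]

private theorem t1_prod {m : ℕ} (B : Fin m → List (Pt T)) (X : List (Pt T)) :
    ∏ i, Dl (B i ++ X) = (-1) ^ (X.length * (t1_all B).length) * ∏ i, Dl (X ++ B i) := by
  have h : ∀ i, Dl (B i ++ X) = (-1) ^ ((B i).length * X.length) * Dl (X ++ B i) :=
    fun i => Dl_comm (B i) X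
  rw [Finset.prod_congr rfl fun i _ => h i, Finset.prod_mul_distrib, Finset.prod_pow_eq_pow_sum,
    t1_len_all, ← Finset.sum_mul, mul_comm X.length]

theorem th_congr {m : ℕ} {B : Fin m → List (Pt T)} {h : WB T} (hB : Hd B h) {X X' : List (Pt T)}
    (hg : gp T ≤ X.length) (hg' : gp T ≤ X'.length) (hX : Dl X ≠ 0) (hX' : Dl X' ≠ 0)
    (hc : cl X = cl X') (h0 : ev h X ≠ 0) (h0' : ev h X' ≠ 0) : th B h X = th B h X' := by
  obtain ⟨u, v, Z, hE, hu, hv, hZ⟩ := exists_Eqv hc (t1_all B)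
  have hh0 : h ≠ 0 := by
    intro h1
    have := hB.lc
    rw [h1, a3_lc_zero] at this
    exact zero_ne_one this
  have hdh : Ideal.span {h} = dI (t1_all B) := by rw [t1_dI_all]; exact hB.div
  have hevZ : ev h Z ≠ 0 := by
    intro h1
    obtain ⟨P, hP, hP0⟩ := (ev_eq_zero_iff h Z).1 h1
    have h2 : dI (t1_all B) ≤ mP P := by
      rw [← hdh, Ideal.span_singleton_le_iff_mem]
      exact hP0
    exact hZ P (dI_le_mP.1 h2) hP
  have hwu := weil_rec hE.u0 hh0 (U := X ++ Z) (V := t1_all B) (by rw [hu, dI_append]) hdh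
  have hwv := weil_rec hE.v0 hh0 (U := X' ++ Z) (V := t1_all B) (by rw [hv, dI_append]) hdh
  have hpu : pord u = (X ++ Z).length :=
    (span_eq_dI_length hE.u0 (by rw [hu, dI_append])).symm
  have hpv : pord v = (X' ++ Z).length :=
    (span_eq_dI_length hE.v0 (by rw [hv, dI_append])).symm
  have hph : pord h = (t1_all B).length := (span_eq_dI_length hh0 hdh).symm
  rw [hB.lc, one_pow, mul_one, hpu, hph, ev_append, List.length_append, add_mul, pow_add] at hwu
  rw [hB.lc, one_pow, mul_one, hpv, hph, ev_append, List.length_append, add_mul, pow_add,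
    ← hE.lc] at hwv
  have hsq : ∀ n : ℕ, ((-1 : κ) ^ n) * (-1) ^ n = 1 := fun n => by
    rw [← mul_pow, neg_one_mul, neg_neg, one_pow]
  have hchange : (∏ i, Dl (X ++ B i)) * Dl X' ^ m * ev v (t1_all B) =
      (∏ i, Dl (X' ++ B i)) * Dl X ^ m * ev u (t1_all B) := by
    have h1 : ∀ i, Dl (X ++ B i) * Dl X' * ev v (B i) = Dl (X' ++ B i) * Dl X * ev u (B i) :=
      fun i => Dl_change hg hg' hX hX' hE (B i)
    have h2 := Finset.prod_congr (rfl : (Finset.univ : Finset (Fin m)) = Finset.univ)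
      fun i _ => h1 i
    rw [Finset.prod_mul_distrib, Finset.prod_mul_distrib, Finset.prod_mul_distrib,
      Finset.prod_mul_distrib, Finset.prod_const, Finset.prod_const, Finset.card_univ,
      Fintype.card_fin, ← t1_ev_all, ← t1_ev_all] at h2
    exact h2
  rw [mul_assoc (ev h X)] at hwu
  rw [mul_assoc (ev h X')] at hwv
  have key := t1_alg _ _ _ _ (ev h X) (ev h X') ((-1) ^ (X.length * (t1_all B).length))
    ((-1) ^ (X'.length * (t1_all B).length)) ((-1) ^ (Z.length * (t1_all B).length))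
    (ev h Z * lc u ^ (t1_all B).length) _ _
    (mul_ne_zero hevZ (pow_ne_zero _ (lc_ne hE.u0)))
    (pow_ne_zero _ (neg_ne_zero.2 one_ne_zero)) (hsq _) (hsq _) hwu hwv hchange
  rw [th, th, div_eq_div_iff (mul_ne_zero (pow_ne_zero _ hX) h0)
    (mul_ne_zero (pow_ne_zero _ hX') h0'), t1_prod, t1_prod]
  exact key

theorem thc_eq {m : ℕ} {B : Fin m → List (Pt T)} {h : WB T} (hB : Hd B h) {X : List (Pt T)}
    (hg : gp T ≤ X.length) (hX : Dl X ≠ 0) (h0 : ev h X ≠ 0) : thc B h (cl X) = th B h X := by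
  classical
  have H : ∃ X' : List (Pt T), gp T ≤ X'.length ∧ Dl X' ≠ 0 ∧ cl X' = cl X ∧ ev h X' ≠ 0 :=
    ⟨X, hg, hX, rfl, h0⟩
  have h1 : thc B h (cl X) = th B h H.choose := by
    unfold thc
    exact dif_pos H
  rw [h1]
  obtain ⟨h2, h3, h4, h5⟩ := H.choose_spec
  exact th_congr hB h2 hg h3 hX h4 h5 h0

end

end Pool.Agent.TIFT
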