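import Pool.Agent.TIFT.B1
import Pool.Agent.TIFT.C1

/-!
# [TIF, block THETA] row T2

pure algebra with Dl_swap / Dl_comm (Dl (B ++ X ++ A) = (-1)^(|X||A|) Dl (B ++ A ++ X), Dl (X ++ A) = (-1)^(|X||A|) Dl (A ++ X): the signs cancel), ev_append, ev_mul, dI_append, GT.A3 lc_mul; Nt.exists: cls_eq_one_iff / generator scaled to lc = 1.
-/

set_option autoImplicit false
set_option linter.unusedSectionVars false

open Polynomial IsLocalRing

namespace Pool.Agent.TIFT

open GT TIF

section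

variable {d : ℕ} [NeZero d] {κ : Type} [Field κ] [IsAlgClosed κ] {T : Tab κ d}
  [IsDedekindDomain (WB T)]

theorem th_mul {m m' : ℕ} (B : Fin m → List (Pt T)) (B' : Fin m' → List (Pt T)) (h h' : WB T)
    (X : List (Pt T)) : th B h X * th B' h' X = th (Fin.append B B') (h * h') X := by
  unfold th
  rw [Fin.prod_univ_add, ev_mul, pow_add]
  simp only [Fin.append_left, Fin.append_right]
  rw [div_mul_div_comm]
  congr 1
  ring

theorem Hd_mul {m m' : ℕ} {B : Fin m → List (Pt T)} {B' : Fin m' → List (Pt T)} {h h' : WB T}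
    (hB : Hd B h) (hB' : Hd B' h') : Hd (Fin.append B B') (h * h') := by
  constructor
  · rw [lc_mul, hB.lc, hB'.lc, mul_one]
  · rw [← Ideal.span_singleton_mul_span_singleton, hB.div, hB'.div, Fin.prod_univ_add]
    simp only [Fin.append_left, Fin.append_right]

theorem th_trans {m : ℕ} (B : Fin m → List (Pt T)) (h : WB T) (A X : List (Pt T))
    (hX : Dl X ≠ 0) (hXA : Dl (X ++ A) ≠ 0) (hA : ev h A ≠ 0) :
    (Dl (A ++ X) / Dl X) ^ m * th B h (X ++ A) * ev h A =
      (∏ i, Dl (B i ++ A ++ X)) / (Dl X ^ m * ev h X) := by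
  unfold th
  have h1 : ∀ i, Dl (B i ++ (X ++ A)) =
      (-1) ^ (X.length * A.length) * Dl (B i ++ A ++ X) := by
    intro i
    have h2 := Dl_swap (B i) X A []
    rw [List.append_nil, List.append_nil] at h2
    rw [← List.append_assoc]
    exact h2
  have h3 : Dl (X ++ A) = (-1) ^ (X.length * A.length) * Dl (A ++ X) := Dl_comm X A
  have hAX : Dl (A ++ X) ≠ 0 := by
    intro h4
    rw [h3, h4, mul_zero] at hXA
    exact hXA rfl
  have hε : ((-1 : κ) ^ (X.length * A.length)) ^ m ≠ 0 := pow_ne_zero _ (pow_ne_zero _ (by simp))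
  rw [Finset.prod_congr rfl fun i _ => h1 i, Finset.prod_mul_distrib, Finset.prod_const,
    Finset.card_univ, Fintype.card_fin, h3, ev_append, mul_pow, div_pow]
  generalize ((-1 : κ) ^ (X.length * A.length)) ^ m = ε at hε
  have hXm : Dl X ^ m ≠ 0 := pow_ne_zero _ hX
  have hAXm : Dl (A ++ X) ^ m ≠ 0 := pow_ne_zero _ hAX
  by_cases hX0 : ev h X = 0
  · rw [hX0]
    simp
  · field_simp

theorem Nt.hd {n : ℕ} {A : List (Pt T)} {f : WB T} (h : Nt n A f) :
    Hd (fun _ : Fin n => A) f := by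
  refine ⟨h.lc, ?_⟩
  rw [Finset.prod_const, Finset.card_univ, Fintype.card_fin]
  exact h.div

theorem Nt.exists {n : ℕ} {A : List (Pt T)} (h : cl A ^ n = 1) : ∃ f, Nt n A f := by
  have hne : ∀ m : ℕ, dI A ^ m ≠ ⊥ := fun m => pow_ne_zero m (dI_ne_bot A)
  have hp : ∀ m : ℕ, cls (dI A ^ m) = cl A ^ m := by
    intro m
    induction m with
    | zero =>
      rw [pow_zero, pow_zero]
      have h1 : (1 : Ideal (WB T)) ≠ ⊥ := one_ne_zero
      exact (cls_eq_one_iff h1).2 ⟨1, by rw [Ideal.one_eq_top, Ideal.span_singleton_one]⟩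
    | succ m ih =>
      rw [pow_succ, cls_mul (hne m) (dI_ne_bot A), ih, pow_succ]
      rfl
  obtain ⟨x, hx⟩ := (cls_eq_one_iff (hne n)).1 ((hp n).trans h)
  have hx0 : x ≠ 0 := by
    rintro rfl
    exact hne n (by rw [hx]; simp)
  have hl := lc_ne hx0
  refine ⟨(GT.lc x)⁻¹ • x, ?_, ?_⟩
  · rw [lc_smul, inv_mul_cancel₀ hl]
  · rw [hx, Algebra.smul_def, ← Ideal.span_singleton_mul_span_singleton]
    have hu : IsUnit (algebraMap κ (WB T) (GT.lc x)⁻¹) := (isUnit_iff_ne_zero.2 (inv_ne_zero hl)).map _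
    rw [Ideal.span_singleton_eq_top.2 hu, Ideal.top_mul]

theorem th_T {m : ℕ} (B : Fin m → List (Pt T)) (h f : WB T) (A X : List (Pt T))
    (hX : Dl X ≠ 0) (hXA : Dl (X ++ A) ≠ 0) (hA : ev h A ≠ 0) :
    th (fun _ : Fin m => A) f X * th B h (X ++ A) =
      (ev h A)⁻¹ * th (fun i => B i ++ A) (h * f) X := by
  have h1 := th_trans B h A X hX hXA hA
  have h2 : (Dl (A ++ X) / Dl X) ^ m * th B h (X ++ A) =
      (∏ i, Dl (B i ++ A ++ X)) / (Dl X ^ m * ev h X) * (ev h A)⁻¹ := by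
    rw [← h1, mul_inv_cancel_right₀ hA]
  have h3 : th (fun _ : Fin m => A) f X = (Dl (A ++ X) / Dl X) ^ m * (ev f X)⁻¹ := by
    unfold th
    rw [Finset.prod_const, Finset.card_univ, Fintype.card_fin, div_pow, div_eq_mul_inv,
      div_eq_mul_inv, mul_inv, mul_assoc]
  rw [h3, mul_right_comm, h2]
  unfold th
  rw [ev_mul, div_eq_mul_inv, div_eq_mul_inv, mul_inv, mul_inv, mul_inv]
  ring

theorem Hd_T {m : ℕ} {B : Fin m → List (Pt T)} {h f : WB T} {A : List (Pt T)} (hB : Hd B h)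
    (hf : Nt m A f) : Hd (fun i => B i ++ A) (h * f) := by
  constructor
  · rw [lc_mul, hB.lc, hf.lc, mul_one]
  · rw [← Ideal.span_singleton_mul_span_singleton, hB.div, hf.div]
    simp only [dI_append]
    rw [Finset.prod_mul_distrib, Finset.prod_const, Finset.card_univ, Fintype.card_fin]

end

end Pool.Agent.TIFT
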