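import Pool.Agent.TIFT.G7
import Pool.Agent.TIFT.K3
import Pool.Agent.TIFT.T1
import Pool.Agent.TIFT.T2

/-!
# [TIF, block THETA] row U0

IndA.ind: AlgebraicIndependent.comp with the injective map i ↦ ⟨r, i⟩. not_PK: PK applied to WB.x T gives xx P ∈ K, but xx P is transcendental over K. ev_ne: ev_eq_zero_iff; P (h r) = 0 iff (h r) ≤ mP P iff dI (B r i) ≤ mP P for some i (prime) iff P ∈ B r i (dI_le_mP). cf_h: (h r) = ∏ dI (B r i) is rational (ratI_dI, ratI_mul), h r is monic of the least order in its ideal, so Red (span {h r}) (pord (h r)) (h r) and R.ratI_iff. tmf_eval: unfold tmf, thc_eq. Dl_B_ne: Dl_ne_zero_iff: B ++ X r is Nodup (ind_nodup, not_PK) and cl (B ++ X r) = cl B * cl (X r) is nonspecial: genA_cl, genA_mul (z = cl B, cl_mem_JK, JK_mono K ≤ acl K), genA_Ns. exists_TD: exists_repK for each r, i outside S (n = nT T); the product of the classes is 1: generator, scaled to lc = 1 (cls_eq_one_iff). tmf_ne: X from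 GenA (length gp): tmf_eval with Y = X (Dl_ind, ev_ne by not_PK), all factors ≠ 0 (Dl_B_ne).
-/

set_option autoImplicit false
set_option linter.unusedSectionVars false

open Polynomial IsLocalRing

namespace Pool.Agent.TIFT

open GT TIF

section

variable {k Ω : Type} [Field k] [Field Ω] [Algebra k Ω] [IsAlgClosed Ω] {d : ℕ} [NeZero d]
  {T : Tab Ω d} [IsDedekindDomain (WB T)] {ρ : Type} [Fintype ρ]

theorem IndA.ind {K : IntermediateField k Ω} {X : ρ → List (Pt T)} (h : IndA K X) (r : ρ) :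
    Ind K (X r) :=
  AlgebraicIndependent.comp h (Sigma.mk r) sigma_mk_injective

theorem not_PK {K : IntermediateField k Ω} {X : List (Pt T)} (h : Ind K X) {P : Pt T} (hP : P ∈ X) :
    ¬ PK k (K : Set Ω) P := by
  intro hPK
  obtain ⟨i, rfl⟩ := List.get_of_mem hP
  have h1 : Transcendental K (xx (X.get i)) := AlgebraicIndependent.transcendental h i
  have h2 : xx (X.get i) ∈ K := hPK _ g_cf_x
  exact h1 (isAlgebraic_algebraMap (⟨_, h2⟩ : K))

theorem TD.ev_ne {K : IntermediateField k Ω} {m : ℕ} (D : TD k T ρ K m) (r : ρ) {Y : List (Pt T)}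
    (hY : ∀ P ∈ Y, ∀ i, P ∉ D.B r i) : ev (D.h r) Y ≠ 0 := by
  intro h
  obtain ⟨P, hP, hP0⟩ := (ev_eq_zero_iff _ _).1 h
  have h1 : ∏ i, dI (D.B r i) ≤ mP P := by
    rw [← (D.hd r).div, Ideal.span_singleton_le_iff_mem]
    exact hP0
  have hpr : (mP P).IsPrime := RingHom.ker_isPrime _
  obtain ⟨i, _, hi⟩ := hpr.prod_le.1 h1
  exact hY P hP i (dI_le_mP.1 hi)

theorem TD.cf_h (hT : Tk k T) {K : IntermediateField k Ω} {m : ℕ} (D : TD k T ρ K m) (r : ρ) :
    Cf (K : Set Ω) (D.h r) := by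
  have h0 : D.h r ≠ 0 := by
    intro h1
    have := (D.hd r).lc
    rw [h1, a3_lc_zero] at this
    exact zero_ne_one this
  have hI : Ideal.span {D.h r} ≠ ⊥ := by
    rw [Ne, Ideal.span_singleton_eq_bot]
    exact h0
  have hrat : RatI (K : Set Ω) (Ideal.span {D.h r}) := by
    rw [(D.hd r).div]
    refine Finset.prod_induction _ (fun I => RatI (K : Set Ω) I)
      (fun I J => ratI_mul hT K) ?_ fun i _ => ratI_dI hT K (D.pk r i)
    rw [Ideal.one_eq_top]
    exact Pool.Agent.TIFP.ratITop K.toSubfield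
  refine (ratI_iff hT K hI).1 hrat (pord (D.h r)) (D.h r)
    ⟨Ideal.mem_span_singleton_self _, rfl, (D.hd r).lc, ?_⟩
  intro c hc hc0 hlt
  exfalso
  obtain ⟨q, rfl⟩ := Ideal.mem_span_singleton.1 hc
  have hq : q ≠ 0 := by
    rintro rfl
    exact hc0 (mul_zero _)
  rw [pord_mul h0 hq] at hlt
  omega

theorem tmf_eval {K : IntermediateField k Ω} {m : ℕ} (D : TD k T ρ K m)
    {x : ρ → ClassGroup (WB T)} (hx : GenA K x) {Y : ρ → List (Pt T)}
    (hg : ∀ r, gp T ≤ (Y r).length) (hY : ∀ r, Dl (Y r) ≠ 0) (hc : ∀ r, cl (Y r) = x r)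
    (h0 : ∀ r, ev (D.h r) (Y r) ≠ 0) : tmf D x = ∏ r, th (D.B r) (D.h r) (Y r) := by
  unfold tmf
  rw [if_pos hx]
  refine Finset.prod_congr rfl fun r _ => ?_
  rw [← hc r]
  exact thc_eq (D.hd r) (hg r) (hY r) (h0 r)

theorem tmf_not {K : IntermediateField k Ω} {m : ℕ} (D : TD k T ρ K m)
    {x : ρ → ClassGroup (WB T)} (hx : ¬ GenA K x) : tmf D x = 0 := by
  unfold tmf
  rw [if_neg hx]

theorem HH_not {K : IntermediateField k Ω} {m : ℕ} {F : (ρ → ClassGroup (WB T)) → Ω}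
    (hF : F ∈ HH T ρ K m) {x : ρ → ClassGroup (WB T)} (hx : ¬ GenA K x) : F x = 0 := by
  unfold HH at hF
  induction hF using Submodule.span_induction with
  | mem F h =>
    obtain ⟨D, rfl⟩ := h
    exact tmf_not D hx
  | zero => rfl
  | add F G _ _ hF hG => rw [Pi.add_apply, hF, hG, add_zero]
  | smul c F _ hF => rw [Pi.smul_apply, hF, smul_zero]

theorem Dl_B_ne (hU : Univ k Ω) (hT : Tk k T) {K : IntermediateField k Ω} (hK : Small K)
    {X : ρ → List (Pt T)} (hX : IndA K X) (hg : ∀ r, gp T ≤ (X r).length) {B : List (Pt T)}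
    (hn : B.Nodup) (hB : ∀ P ∈ B, PK k (K : Set Ω) P) (r : ρ) :
    Dl (B ++ X r) ≠ 0 ∧ Dl (X r ++ B) ≠ 0 := by
  have hz : ∀ _s : ρ, cl B ∈ JK (T := T) (acl K : Set Ω) := fun _ =>
    JK_mono (le_acl K) (cl_mem_JK hT K hB)
  have h1 : Ns (cl (X r) * cl B) :=
    (genA_Ns hU hT hK (genA_mul hU hT hK (genA_cl hU hT hK hX hg) (z := fun _ => cl B) hz) r).1
  have hg' : gp T ≤ (B ++ X r).length := by
    rw [List.length_append]
    exact (hg r).trans (Nat.le_add_left _ _)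
  have h2 : Dl (B ++ X r) ≠ 0 := by
    refine (Dl_ne_zero_iff hg').2 ⟨?_, ?_⟩
    · refine List.nodup_append.2 ⟨hn, ind_nodup (hX.ind r), ?_⟩
      rintro P hP Q hQ rfl
      exact not_PK (hX.ind r) hQ (hB P hP)
    · rw [cl_append, mul_comm]
      exact h1
  refine ⟨h2, ?_⟩
  rw [Dl_comm]
  exact mul_ne_zero (pow_ne_zero _ (neg_ne_zero.2 one_ne_zero)) h2

theorem exists_TD (hT : Tk k T) (K : IntermediateField k Ω) [IsAlgClosed K] {m : ℕ}
    (a : ρ → Fin m → ClassGroup (WB T)) (ha : ∀ r i, a r i ∈ JK (T := T) (K : Set Ω))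
    (h : ∀ r, ∏ i, a r i = 1) (S : List (Pt T)) :
    ∃ D : TD k T ρ K m, (∀ r i, cl (D.B r i) = a r i) ∧ ∀ r i, ∀ P ∈ D.B r i, P ∉ S := by
  have h1 : ∀ r i, ∃ X : List (Pt T), X.Nodup ∧ (∀ P ∈ X, P ∉ S) ∧ cl X = a r i ∧
      X.length = nT T ∧ ∀ P ∈ X, PK k (K : Set Ω) P :=
    fun r i => exists_repK hT K (ha r i) S (le_refl (nT T))
  choose B hB1 hB2 hB3 _ hB5 using h1
  have hne : ∀ (r : ρ) (s : Finset (Fin m)), ∏ i ∈ s, dI (B r i) ≠ ⊥ := fun r s =>
    Finset.prod_ne_zero_iff.2 fun i _ => dI_ne_bot _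
  have hcls : ∀ (r : ρ) (s : Finset (Fin m)), cls (∏ i ∈ s, dI (B r i)) = ∏ i ∈ s, a r i := by
    intro r s
    classical
    induction s using Finset.induction_on with
    | empty =>
      rw [Finset.prod_empty, Finset.prod_empty]
      have h2 : (1 : Ideal (WB T)) ≠ ⊥ := one_ne_zero
      exact (cls_eq_one_iff h2).2 ⟨1, by rw [Ideal.one_eq_top, Ideal.span_singleton_one]⟩
    | insert i s hi ih =>
      rw [Finset.prod_insert hi, Finset.prod_insert hi, cls_mul (dI_ne_bot _) (hne r s), ih, ← hB3 r i]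
      rfl
  have h3 : ∀ r, ∃ b : WB T, Hd (B r) b := by
    intro r
    obtain ⟨x, hx⟩ := (cls_eq_one_iff (hne r Finset.univ)).1 ((hcls r Finset.univ).trans (h r))
    have hx0 : x ≠ 0 := by
      rintro rfl
      exact hne r Finset.univ (by rw [hx]; simp)
    have hl := lc_ne hx0
    refine ⟨(GT.lc x)⁻¹ • x, ?_, ?_⟩
    · rw [lc_smul, inv_mul_cancel₀ hl]
    · rw [hx, Algebra.smul_def, ← Ideal.span_singleton_mul_span_singleton]
      have hu : IsUnit (algebraMap Ω (WB T) (GT.lc x)⁻¹) :=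
        (isUnit_iff_ne_zero.2 (inv_ne_zero hl)).map _
      rw [Ideal.span_singleton_eq_top.2 hu, Ideal.top_mul]
  choose b hb using h3
  exact ⟨⟨B, b, hb, hB1, hB5⟩, hB3, hB2⟩

theorem tmf_ne (hU : Univ k Ω) (hT : Tk k T) {K : IntermediateField k Ω} (hK : Small K) {m : ℕ}
    (D : TD k T ρ K m) {x : ρ → ClassGroup (WB T)} (hx : GenA K x) : tmf D x ≠ 0 := by
  obtain ⟨X, hXl, hX, hXc⟩ := id hx
  have hg : ∀ r, gp T ≤ (X r).length := fun r => (hXl r).ge
  have hev : ∀ r, ev (D.h r) (X r) ≠ 0 := fun r =>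
    D.ev_ne r fun P hP i hPB => not_PK (hX.ind r) hP (D.pk r i P hPB)
  have hDl : ∀ r, Dl (X r) ≠ 0 := fun r => Dl_ind hT (hX.ind r)
  rw [tmf_eval D hx hg hDl hXc hev]
  refine Finset.prod_ne_zero_iff.2 fun r _ => ?_
  unfold th
  refine div_ne_zero (Finset.prod_ne_zero_iff.2 fun i _ => ?_)
    (mul_ne_zero (pow_ne_zero _ (hDl r)) (hev r))
  exact (Dl_B_ne hU hT hK hX hg (D.nd r i) (D.pk r i) r).1

end

end Pool.Agent.TIFT
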