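import Pool.Agent.TIFT.U0

/-!
# [TIF, block THETA] row U5

aP hT σ P ∈ PK K: for b with coefficients in k: (aP hT σ P) b = σ (P b). lc (rac σ h) = σ (lc h) = 1; span {rac σ h} = ∏ dI (B_i.map aP) (R.r_mP_aP, Ideal.map_mul, RingEquiv); ev (rac σ h) (X.map aP) = σ (ev h X); Dl_aP, cl_aP, genA_act (both directions for the nongeneric classes: act σ.symm (act σ x) = x). equ_HH: if σ fixes K then aP hT σ P = P for P over K (the coordinates of P are in K: r_eW_mem or PK_iff_kP) and rac σ (D.h r) = D.h r (cf_h), so D' and D have the same data (TD.ext-like: compare tmf via B, h only). conj_HH: span_induction, σ (c * y) = σ c * σ y with σ c ∈ K.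
-/

set_option autoImplicit false
set_option linter.unusedSectionVars false

open Polynomial IsLocalRing

namespace Pool.Agent.TIFT

open GT TIF Pool.Agent.TIFP

section

variable {k Ω : Type} [Field k] [Field Ω] [Algebra k Ω] [IsAlgClosed Ω] {d : ℕ} [NeZero d]
  {T : Tab Ω d} [IsDedekindDomain (WB T)] {ρ : Type} [Fintype ρ]

/-- `σ` fixes the functions with coefficients fixed by `σ` -/
private theorem u5_fix (hT : Tk k T) (σ : Ω ≃ₐ[k] Ω) {b : WB T}
    (h : ∀ j n, σ ((b.co j).coeff n) = (b.co j).coeff n) : rac hT σ b = b := by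
  refine WB.ext (funext fun j => Polynomial.ext fun n => ?_)
  rw [rac, bE_co, coeff_map]
  exact h j n

private theorem u5_fix_k (hT : Tk k T) (σ : Ω ≃ₐ[k] Ω) {b : WB T}
    (h : Cf (Set.range (algebraMap k Ω)) b) : rac hT σ b = b := by
  refine u5_fix hT σ fun j n => ?_
  obtain ⟨c, hc⟩ := h j n
  rw [← hc]
  exact σ.commutes c

private theorem u5_aP_rac (hT : Tk k T) (σ : Ω ≃ₐ[k] Ω) (P : Pt T) (b : WB T) :
    (aP hT σ P) (rac hT σ b) = σ (P b) := by
  change σ (P ((rac hT σ).symm (rac hT σ b))) = _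
  rw [RingEquiv.symm_apply_apply]

private theorem u5_aP_k (hT : Tk k T) (σ : Ω ≃ₐ[k] Ω) (P : Pt T) {b : WB T}
    (h : Cf (Set.range (algebraMap k Ω)) b) : (aP hT σ P) b = σ (P b) := by
  have h1 := u5_aP_rac hT σ P b
  rwa [u5_fix_k hT σ h] at h1

private theorem u5_aP_inj (hT : Tk k T) (σ : Ω ≃ₐ[k] Ω) : Function.Injective (aP (T := T) hT σ) := by
  intro P Q h
  refine AlgHom.ext fun b => ?_
  apply σ.injective
  rw [← u5_aP_rac hT σ P, ← u5_aP_rac hT σ Q, h]

/-- composition of the actions -/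
private theorem u5_rac_rac (hT : Tk k T) (σ : Ω ≃ₐ[k] Ω) (b : WB T) :
    rac hT σ (rac hT σ.symm b) = b := by
  refine WB.ext (funext fun j => Polynomial.ext fun n => ?_)
  rw [rac, bE_co, coeff_map, rac, bE_co, coeff_map]
  exact σ.apply_symm_apply _

private theorem u5_aP_aP (hT : Tk k T) (σ : Ω ≃ₐ[k] Ω) (P : Pt T) :
    aP hT σ (aP hT σ.symm P) = P := by
  refine AlgHom.ext fun b => ?_
  have h1 := u5_aP_rac hT σ (aP hT σ.symm P) (rac hT σ.symm b)
  rw [u5_rac_rac, u5_aP_rac, AlgEquiv.apply_symm_apply] at h1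
  exact h1

private theorem u5_act_act (hT : Tk k T) (σ : Ω ≃ₐ[k] Ω) (x : ClassGroup (WB T)) :
    act hT σ (act hT σ.symm x) = x := by
  unfold act
  rw [clm_clm (rac hT σ.symm) (rac hT σ) (RingEquiv.refl _) (fun b => (u5_rac_rac hT σ b).symm),
    clm_id _ (fun b => rfl)]

private theorem u5_act_act' (hT : Tk k T) (σ : Ω ≃ₐ[k] Ω) (x : ClassGroup (WB T)) :
    act hT σ.symm (act hT σ x) = x := by
  have h := u5_act_act hT σ.symm x
  rwa [AlgEquiv.symm_symm] at h

private theorem u5_dI_nil : dI ([] : List (Pt T)) = ⊤ := by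
  rw [dI, List.map_nil, List.prod_nil, Ideal.one_eq_top]

private theorem u5_dI_cons (P : Pt T) (X : List (Pt T)) : dI (P :: X) = mP P * dI X := by
  rw [dI, dI, List.map_cons, List.prod_cons]

private theorem u5_dI_aP (hT : Tk k T) (σ : Ω ≃ₐ[k] Ω) (X : List (Pt T)) :
    dI (X.map (aP hT σ)) = (dI X).map (rac hT σ) := by
  induction X with
  | nil => rw [List.map_nil, u5_dI_nil, Ideal.map_top]
  | cons P X ih => rw [List.map_cons, u5_dI_cons, u5_dI_cons, Ideal.map_mul, ih, r_mP_aP]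

private theorem u5_ev_aP (hT : Tk k T) (σ : Ω ≃ₐ[k] Ω) (b : WB T) (X : List (Pt T)) :
    ev (rac hT σ b) (X.map (aP hT σ)) = σ (ev b X) := by
  induction X with
  | nil => rw [List.map_nil, ev, ev, List.map_nil, List.map_nil, List.prod_nil, map_one]
  | cons P X ih =>
    rw [ev, ev] at ih
    rw [List.map_cons, ev, ev, List.map_cons, List.map_cons, List.prod_cons, List.prod_cons, map_mul,
      ih, u5_aP_rac]

private theorem u5_hd (hT : Tk k T) (σ : Ω ≃ₐ[k] Ω) {m : ℕ} {B : Fin m → List (Pt T)} {h : WB T}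
    (hB : Hd B h) : Hd (fun i => (B i).map (aP hT σ)) (rac hT σ h) := by
  refine ⟨?_, ?_⟩
  · have h1 : GT.lc (rac hT σ h) = σ (GT.lc h) := lc_bE (σ : Ω ≃+* Ω) (hT.map σ) h
    rw [h1, hB.lc, map_one]
  · have h1 : Ideal.span {rac hT σ h} = (Ideal.span {h}).map (rac hT σ) := by
      rw [Ideal.map_span, Set.image_singleton]
    rw [h1, hB.div]
    have h2 : ∀ s : Finset (Fin m), (∏ i ∈ s, dI (B i)).map (rac hT σ) =
        ∏ i ∈ s, dI ((B i).map (aP hT σ)) := by
      intro s
      induction s using Finset.induction_on with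
      | empty => rw [Finset.prod_empty, Finset.prod_empty, Ideal.one_eq_top, Ideal.map_top]
      | insert i s hi ih =>
        rw [Finset.prod_insert hi, Finset.prod_insert hi, Ideal.map_mul, ih, u5_dI_aP]
    exact h2 _

private theorem u5_th (hT : Tk k T) (σ : Ω ≃ₐ[k] Ω) {m : ℕ} (B : Fin m → List (Pt T)) (h : WB T)
    (X : List (Pt T)) :
    th (fun i => (B i).map (aP hT σ)) (rac hT σ h) (X.map (aP hT σ)) = σ (th B h X) := by
  unfold th
  rw [map_div₀, map_prod, map_mul, map_pow, u5_ev_aP, Dl_aP]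
  congr 1
  refine Finset.prod_congr rfl fun i _ => ?_
  rw [← Dl_aP hT, List.map_append]

private theorem u5_thc (hT : Tk k T) (σ : Ω ≃ₐ[k] Ω) {m : ℕ} {B : Fin m → List (Pt T)} {h : WB T}
    (hB : Hd B h) (x : ClassGroup (WB T)) :
    thc (fun i => (B i).map (aP hT σ)) (rac hT σ h) (act hT σ x) = σ (thc B h x) := by
  by_cases H : ∃ X : List (Pt T), gp T ≤ X.length ∧ Dl X ≠ 0 ∧ cl X = x ∧ ev h X ≠ 0
  · obtain ⟨X, h1, h2, h3, h4⟩ := H
    subst h3
    have hl : gp T ≤ (X.map (aP hT σ)).length := by rw [List.length_map]; exact h1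
    have hd : Dl (X.map (aP hT σ)) ≠ 0 := by
      rw [Dl_aP]
      exact (map_ne_zero_iff σ σ.injective).2 h2
    have he : ev (rac hT σ h) (X.map (aP hT σ)) ≠ 0 := by
      rw [u5_ev_aP]
      exact (map_ne_zero_iff σ σ.injective).2 h4
    rw [← cl_aP, thc_eq (u5_hd hT σ hB) hl hd he, thc_eq hB h1 h2 h4, u5_th]
  · have H' : ¬ ∃ X : List (Pt T), gp T ≤ X.length ∧ Dl X ≠ 0 ∧ cl X = act hT σ x ∧
        ev (rac hT σ h) X ≠ 0 := by
      rintro ⟨X, h1, h2, h3, h4⟩
      apply H
      have hX : (X.map (aP hT σ.symm)).map (aP hT σ) = X := by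
        rw [List.map_map]
        conv_rhs => rw [← List.map_id X]
        refine List.map_congr_left fun P _ => ?_
        exact u5_aP_aP hT σ P
      refine ⟨X.map (aP hT σ.symm), by rw [List.length_map]; exact h1, ?_, ?_, ?_⟩
      · rw [Dl_aP]
        exact (map_ne_zero_iff σ.symm σ.symm.injective).2 h2
      · rw [cl_aP, h3, u5_act_act']
      · intro h0
        apply h4
        rw [← hX, u5_ev_aP, h0, map_zero]
    unfold thc
    rw [dif_neg H, dif_neg H', map_zero]

/-- the conjugate monomial -/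
theorem exists_conjD (hT : Tk k T) {K : IntermediateField k Ω} {m : ℕ} (D : TD k T ρ K m)
    (σ : Ω ≃ₐ[k] Ω) (hσ : ∀ c ∈ K, σ c ∈ K) (hσ' : ∀ c ∈ K, σ.symm c ∈ K) :
    ∃ D' : TD k T ρ K m, (∀ r i, D'.B r i = (D.B r i).map (aP hT σ)) ∧
      (∀ r, D'.h r = rac hT σ (D.h r)) ∧
      ∀ x, tmf D' (fun r => act hT σ (x r)) = σ (tmf D x) := by
  refine ⟨⟨fun r i => (D.B r i).map (aP hT σ), fun r => rac hT σ (D.h r),
    fun r => u5_hd hT σ (D.hd r), fun r i => (D.nd r i).map (u5_aP_inj hT σ), ?_⟩,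
    fun r i => rfl, fun r => rfl, ?_⟩
  · intro r i P hP b hb
    obtain ⟨Q, hQ, rfl⟩ := List.mem_map.1 hP
    rw [u5_aP_k hT σ Q hb]
    exact hσ _ (D.pk r i Q hQ b hb)
  · intro x
    unfold tmf
    by_cases hx : GenA K x
    · rw [if_pos hx, if_pos (genA_act hT hx σ hσ hσ'), map_prod]
      exact Finset.prod_congr rfl fun r _ => u5_thc hT σ (D.hd r) (x r)
    · have hx' : ¬ GenA K fun r => act hT σ (x r) := by
        intro h
        apply hx
        have h1 := genA_act hT h σ.symm hσ' (fun c hc => by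
          rw [AlgEquiv.symm_symm]
          exact hσ c hc)
        have h2 : (fun r => act hT σ.symm (act hT σ (x r))) = x :=
          funext fun r => u5_act_act' hT σ (x r)
        rwa [h2] at h1
      rw [if_neg hx, if_neg hx', map_zero]

/-- a point over `K` is fixed by the automorphisms over `K` -/
private theorem u5_aP_fix (hT : Tk k T) {K : IntermediateField k Ω} (σ : Ω ≃ₐ[k] Ω)
    (hσ : ∀ c ∈ K, σ c = c) {P : Pt T} (hP : PK k (K : Set Ω) P) : aP hT σ P = P := by
  have h1 : (aP hT σ P).toLinearMap = P.toLinearMap := by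
    refine (eW T).ext fun i => ?_
    have hc : Cf (Set.range (algebraMap k Ω)) (eW T i) := by
      intro j n
      rw [← eW_repr, (eW T).repr_self]
      by_cases h : i = (n, j)
      · rw [h, Finsupp.single_eq_same]
        exact ⟨1, map_one _⟩
      · rw [Finsupp.single_eq_of_ne' h]
        exact ⟨0, map_zero _⟩
    change (aP hT σ P) (eW T i) = P (eW T i)
    rw [u5_aP_k hT σ P hc]
    exact hσ _ (hP _ hc)
  refine AlgHom.ext fun b => ?_
  exact LinearMap.congr_fun h1 b

theorem equ_HH (hT : Tk k T) {K : IntermediateField k Ω} {m : ℕ}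
    {F : (ρ → ClassGroup (WB T)) → Ω} (hF : F ∈ HH T ρ K m) (σ : Ω ≃ₐ[k] Ω)
    (hσ : ∀ c ∈ K, σ c = c) (x : ρ → ClassGroup (WB T)) :
    F (fun r => act hT σ (x r)) = σ (F x) := by
  have hσ1 : ∀ c ∈ K, σ c ∈ K := fun c hc => by rw [hσ c hc]; exact hc
  have hσ2 : ∀ c ∈ K, σ.symm c ∈ K := fun c hc => by
    have h : σ.symm c = c := by
      rw [AlgEquiv.symm_apply_eq]
      exact (hσ c hc).symm
    rw [h]; exact hc
  refine Submodule.span_induction (p := fun F _ => F (fun r => act hT σ (x r)) = σ (F x))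
    ?_ ?_ ?_ ?_ hF
  · rintro _ ⟨D, rfl⟩
    obtain ⟨D', h1, h2, h3⟩ := exists_conjD hT D σ hσ1 hσ2
    have hB : D'.B = D.B := by
      funext r i
      rw [h1]
      conv_rhs => rw [← List.map_id (D.B r i)]
      refine List.map_congr_left fun P hP => ?_
      exact u5_aP_fix hT σ hσ (D.pk r i P hP)
    have hh : D'.h = D.h := by
      funext r
      rw [h2]
      exact u5_fix hT σ fun j n => hσ _ (D.cf_h hT r j n)
    have h4 : ∀ y, tmf D' y = tmf D y := by
      intro y
      unfold tmf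
      rw [hB, hh]
    show tmf D (fun r => act hT σ (x r)) = σ (tmf D x)
    rw [← h3, h4]
  · exact (map_zero σ).symm
  · intro F G _ _ hF hG
    show F _ + G _ = σ (F x + G x)
    rw [hF, hG, map_add]
  · intro c F _ hF
    show (c : Ω) * F _ = σ ((c : Ω) * F x)
    rw [hF, map_mul, hσ _ c.2]

theorem conj_HH (hT : Tk k T) {K : IntermediateField k Ω} {m : ℕ}
    {F : (ρ → ClassGroup (WB T)) → Ω} (hF : F ∈ HH T ρ K m) (σ : Ω ≃ₐ[k] Ω)
    (hσ : ∀ c ∈ K, σ c ∈ K) (hσ' : ∀ c ∈ K, σ.symm c ∈ K) :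
    (fun x => σ (F (fun r => act hT σ.symm (x r)))) ∈ HH T ρ K m := by
  refine Submodule.span_induction
    (p := fun F _ => (fun x => σ (F (fun r => act hT σ.symm (x r)))) ∈ HH T ρ K m) ?_ ?_ ?_ ?_ hF
  · rintro _ ⟨D, rfl⟩
    obtain ⟨D', -, -, h3⟩ := exists_conjD hT D σ hσ hσ'
    have h4 : tmf D' = (fun x : ρ → ClassGroup (WB T) =>
        σ (tmf D (fun r => act hT σ.symm (x r)))) := by
      funext x
      have h5 := h3 (fun r => act hT σ.symm (x r))
      have h6 : (fun r => act hT σ (act hT σ.symm (x r))) = x :=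
        funext fun r => u5_act_act hT σ (x r)
      rw [h6] at h5
      exact h5
    have h7 : tmf D' ∈ HH T ρ K m := Submodule.subset_span ⟨D', rfl⟩
    rw [h4] at h7
    exact h7
  · have h : (fun x : ρ → ClassGroup (WB T) =>
        σ ((0 : (ρ → ClassGroup (WB T)) → Ω) (fun r => act hT σ.symm (x r)))) = 0 := by
      funext x
      exact map_zero σ
    rw [h]
    exact Submodule.zero_mem _
  · intro F G _ _ hF hG
    have h := Submodule.add_mem _ hF hG
    have h1 : (fun x : ρ → ClassGroup (WB T) => σ ((F + G) (fun r => act hT σ.symm (x r)))) =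
        (fun x => σ (F (fun r => act hT σ.symm (x r)))) +
          (fun x => σ (G (fun r => act hT σ.symm (x r)))) := by
      funext x
      exact map_add σ _ _
    rw [h1]
    exact h
  · intro c F _ hF
    have h := Submodule.smul_mem _ (⟨σ c, hσ _ c.2⟩ : K) hF
    have h1 : (fun x : ρ → ClassGroup (WB T) => σ ((c • F) (fun r => act hT σ.symm (x r)))) =
        (⟨σ c, hσ _ c.2⟩ : K) • (fun x => σ (F (fun r => act hT σ.symm (x r)))) := by
      funext x
      exact map_mul σ (c : Ω) _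
    rw [h1]
    exact h

end

end Pool.Agent.TIFT
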