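import Pool.Agent.TIFT.U0
import Pool.Agent.TIFT.D2
import Pool.Agent.TIFT.K3
import Pool.Agent.TIFT.G4
import Pool.Agent.TIFT.G7

/-!
# [TIF, block THETA] row U1b

c := ∏ r, ((∏ i, Dl (D'.B r i ++ C r) / Dl (D.B r i ++ C r)) * ev (D.h r) (C r) / ev (D'.h r) (C r)). For each r, i: K3.exists_Eqv gives u, v (and Z) with Eqv (D.B r i) (D'.B r i) u v; then also Eqv (D.B r i ++ C r) (D'.B r i ++ C r) u v (dI_append), so D2.Dl_change gives Dl (D.B ++ C ++ Y) * Dl (D'.B ++ C) * ev v Y = Dl (D'.B ++ C ++ Y) * Dl (D.B ++ C) * ev u Y (lengths >= gp because |C r| = gp; Dl ≠ 0: Dl_B_ne). u, v have zeros D.B r i + Z, D'.B r i + Z: choose Z off the points of Y? better: choose u, v over K: exists_Eqv is only over Ω, so choose for the given Y the u, v with S := the points of Y r (so they do not vanish on Y r: the zeros of u are D.B r i and Z, Y r is off D.B by not_PK). The product over i: h * ∏ v_i and h' * ∏ u_i (h = D.h r, h' = D'.h r) generate the same ideal and have the same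 lc, so they are equal: hence ∏ (ev v_i Y / ev u_i Y) = ev h' Y / ev h Y ... (check the direction) and everything cancels except the value c, which does not depend on Y. tmf at cl (C r ++ Y r): tmf_eval with the lists C r ++ Y r (GenA by genA_cl; Dl_ind; ev_ne by not_PK).
-/

set_option autoImplicit false
set_option linter.unusedSectionVars false

open Polynomial IsLocalRing

namespace Pool.Agent.TIFT

open GT TIF

section

variable {k Ω : Type} [Field k] [Field Ω] [Algebra k Ω] [IsAlgClosed Ω] {d : ℕ} [NeZero d]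
  {T : Tab Ω d} [IsDedekindDomain (WB T)] {ρ : Type} [Fintype ρ]

private theorem u1b_lc_prod {m : ℕ} (f : Fin m → WB T) : lc (∏ i, f i) = ∏ i, lc (f i) := by
  classical
  induction (Finset.univ : Finset (Fin m)) using Finset.induction_on with
  | empty => rw [Finset.prod_empty, Finset.prod_empty, lc_one]
  | insert a s ha ih => rw [Finset.prod_insert ha, Finset.prod_insert ha, lc_mul, ih]

private theorem u1b_ev_prod {m : ℕ} (f : Fin m → WB T) (Y : List (Pt T)) :
    ev (∏ i, f i) Y = ∏ i, ev (f i) Y := by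
  classical
  induction (Finset.univ : Finset (Fin m)) using Finset.induction_on with
  | empty =>
    rw [Finset.prod_empty, Finset.prod_empty, ev]
    simp only [map_one]
    rw [List.map_const', List.prod_replicate, one_pow]
  | insert a s ha ih => rw [Finset.prod_insert ha, Finset.prod_insert ha, ev_mul, ih]

/-- two elements with the same ideal and the same leading coefficient -/
private theorem u1b_eq {b c : WB T} (h : Ideal.span {b} = Ideal.span {c}) (hl : lc b = lc c)
    (hb : b ≠ 0) (hc : c ≠ 0) : b = c := by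
  by_contra hne
  have hp : pord b = pord c := by rw [← len_span hb, ← len_span hc, h]
  have h1 := pord_sub_lt hp hl hne
  have h2 : c ∈ Ideal.span {b} := by rw [h]; exact Ideal.mem_span_singleton_self c
  obtain ⟨w, hw⟩ := Ideal.mem_span_singleton.1 h2
  have h3 : b - c = b * (1 - w) := by rw [hw]; ring
  have h4 : (1 - w) ≠ 0 := by
    intro h5
    rw [h5, mul_zero] at h3
    exact hne (sub_eq_zero.1 h3)
  rw [h3, pord_mul hb h4] at h1
  omega

/-- one coordinate -/
private theorem u1b_one {m : ℕ} {B B' : Fin m → List (Pt T)} {h h' : WB T} (hB : Hd B h)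
    (hB' : Hd B' h') (hcl : ∀ i, cl (B i) = cl (B' i)) {C Y : List (Pt T)} (hC : gp T ≤ C.length)
    (h1 : ∀ i, Dl (B i ++ C) ≠ 0) (h1' : ∀ i, Dl (B' i ++ C) ≠ 0)
    (hY : ∀ P ∈ Y, ∀ i, P ∉ B i) (hc : ev h C ≠ 0)
    (hc' : ev h' C ≠ 0) (hy : ev h Y ≠ 0) (hy' : ev h' Y ≠ 0) (hD : Dl (C ++ Y) ≠ 0) :
    th B' h' (C ++ Y) = ((∏ i, Dl (B' i ++ C) / Dl (B i ++ C)) * ev h C / ev h' C) *
      th B h (C ++ Y) := by
  choose u v Z hE hu hv hZ using fun i => exists_Eqv (hcl i) Y
  have hne : ∀ {w : WB T}, lc w = 1 → w ≠ 0 := by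
    intro w hw hw0
    rw [hw0, a3_lc_zero] at hw
    exact zero_ne_one hw
  have hh : h ≠ 0 := hne hB.lc
  have hh' : h' ≠ 0 := hne hB'.lc
  have hpu : ∏ i, u i ≠ 0 := Finset.prod_ne_zero_iff.2 fun i _ => (hE i).u0
  have hpv : ∏ i, v i ≠ 0 := Finset.prod_ne_zero_iff.2 fun i _ => (hE i).v0
  have key : h * ∏ i, v i = h' * ∏ i, u i := by
    refine u1b_eq ?_ ?_ (mul_ne_zero hh hpv) (mul_ne_zero hh' hpu)
    · rw [← Ideal.span_singleton_mul_span_singleton, ← Ideal.span_singleton_mul_span_singleton,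
        ← Ideal.prod_span_singleton, ← Ideal.prod_span_singleton, hB.div, hB'.div,
        Finset.prod_congr rfl fun i _ => hu i, Finset.prod_congr rfl fun i _ => hv i,
        Finset.prod_mul_distrib, Finset.prod_mul_distrib]
      ring
    · rw [lc_mul, lc_mul, u1b_lc_prod, u1b_lc_prod, hB.lc, hB'.lc,
        Finset.prod_congr rfl fun i _ => (hE i).lc]
  have hev : ev h Y * ∏ i, ev (v i) Y = ev h' Y * ∏ i, ev (u i) Y := by
    have h2 := congrArg (fun w => ev w Y) key
    simp only [ev_mul, u1b_ev_prod] at h2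
    exact h2
  have hE' : ∀ i, Eqv (B i ++ C) (B' i ++ C) (u i) (v i) := fun i =>
    ⟨(hE i).u0, (hE i).v0, (hE i).lc, by
      rw [dI_append, dI_append, ← mul_assoc, ← mul_assoc, (hE i).div]⟩
  have hch : (∏ i, Dl (B i ++ (C ++ Y))) * (∏ i, Dl (B' i ++ C)) * ∏ i, ev (v i) Y =
      (∏ i, Dl (B' i ++ (C ++ Y))) * (∏ i, Dl (B i ++ C)) * ∏ i, ev (u i) Y := by
    rw [← Finset.prod_mul_distrib, ← Finset.prod_mul_distrib, ← Finset.prod_mul_distrib,
      ← Finset.prod_mul_distrib]
    refine Finset.prod_congr rfl fun i _ => ?_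
    have h3 := Dl_change (by rw [List.length_append]; omega) (by rw [List.length_append]; omega)
      (h1 i) (h1' i) (hE' i) Y
    rw [List.append_assoc, List.append_assoc] at h3
    exact h3
  have hpu0 : ∏ i, ev (u i) Y ≠ 0 := by
    refine Finset.prod_ne_zero_iff.2 fun i _ h4 => ?_
    obtain ⟨P, hP, hP0⟩ := (ev_eq_zero_iff _ _).1 h4
    have h5 : dI (B i ++ Z i) ≤ mP P := by
      rw [dI_append, ← hu i, Ideal.span_singleton_le_iff_mem]
      exact hP0
    rcases List.mem_append.1 (dI_le_mP.1 h5) with h6 | h6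
    · exact hY P hP i h6
    · exact hZ i P hP h6
  have hfin : (∏ i, Dl (B i ++ (C ++ Y))) * (∏ i, Dl (B' i ++ C)) * ev h' Y =
      (∏ i, Dl (B' i ++ (C ++ Y))) * (∏ i, Dl (B i ++ C)) * ev h Y := by
    refine mul_right_cancel₀ hpu0 ?_
    linear_combination (ev h Y) * hch - ((∏ i, Dl (B i ++ (C ++ Y))) * (∏ i, Dl (B' i ++ C))) * hev
  have hPB : ∏ i, Dl (B i ++ C) ≠ 0 := Finset.prod_ne_zero_iff.2 fun i _ => h1 i
  rw [th, th, ev_append, ev_append, Finset.prod_div_distrib, div_eq_iff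
    (mul_ne_zero (pow_ne_zero _ hD) (mul_ne_zero hc' hy'))]
  field_simp
  linear_combination -hfin

theorem tmf_ratio (hU : Univ k Ω) (hT : Tk k T) {K : IntermediateField k Ω} (hK : Small K) {m : ℕ}
    (D D' : TD k T ρ K m) (h : ∀ r i, cl (D.B r i) = cl (D'.B r i)) {C : ρ → List (Pt T)}
    (hC : ∀ r, (C r).length = gp T) (hCi : IndA K C) :
    ∃ c : Ω, c ≠ 0 ∧ ∀ Y : ρ → List (Pt T), (∀ r, (Y r).length = gp T) →
      IndA K (fun r => C r ++ Y r) →
      tmf D' (fun r => cl (C r ++ Y r)) = c * tmf D (fun r => cl (C r ++ Y r)) := by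
  have hne : ∀ (E : TD k T ρ K m) {X : ρ → List (Pt T)}, IndA K X → ∀ r, ev (E.h r) (X r) ≠ 0 :=
    fun E X hX r => E.ev_ne r fun P hP i hB => not_PK (hX.ind r) hP (E.pk r i P hB)
  have hB : ∀ (E : TD k T ρ K m) r i, Dl (E.B r i ++ C r) ≠ 0 := fun E r i =>
    (Dl_B_ne hU hT hK hCi (fun r => (hC r).ge) (E.nd r i) (E.pk r i) r).1
  refine ⟨∏ r, ((∏ i, Dl (D'.B r i ++ C r) / Dl (D.B r i ++ C r)) * ev (D.h r) (C r) /
    ev (D'.h r) (C r)), ?_, fun Y hY hCY => ?_⟩
  · refine Finset.prod_ne_zero_iff.2 fun r _ => div_ne_zero (mul_ne_zero ?_ (hne D hCi r))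
      (hne D' hCi r)
    exact Finset.prod_ne_zero_iff.2 fun i _ => div_ne_zero (hB D' r i) (hB D r i)
  · have hlen : ∀ r, gp T ≤ (C r ++ Y r).length := fun r => by
      rw [List.length_append, hC r]
      exact Nat.le_add_right _ _
    have hG : GenA K (fun r => cl (C r ++ Y r)) := genA_cl hU hT hK hCY hlen
    have hDl : ∀ r, Dl (C r ++ Y r) ≠ 0 := fun r => Dl_ind hT (hCY.ind r)
    have hev : ∀ (E : TD k T ρ K m) r, ev (E.h r) (Y r) ≠ 0 := fun E r =>
      E.ev_ne r fun P hP i hB => not_PK (hCY.ind r) (List.mem_append_right _ hP) (E.pk r i P hB)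
    rw [tmf_eval D' hG hlen hDl (fun _ => rfl) (hne D' hCY), tmf_eval D hG hlen hDl (fun _ => rfl)
      (hne D hCY), ← Finset.prod_mul_distrib]
    refine Finset.prod_congr rfl fun r _ => ?_
    exact u1b_one (D.hd r) (D'.hd r) (h r) (hC r).ge (hB D r) (hB D' r)
      (fun P hP i hB => not_PK (hCY.ind r) (List.mem_append_right _ hP) (D.pk r i P hB))
      (hne D hCi r) (hne D' hCi r) (hev D r) (hev D' r) (hDl r)

end

end Pool.Agent.TIFT
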