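import Pool.Agent.TIFT.U1
import Pool.Agent.TIFT.U1b
import Pool.Agent.TIFT.U5

/-!
# [TIF, block THETA] row U1c

Elements fixed by all automorphisms over `K`; theta monomials with the same classes are proportional.
-/

set_option autoImplicit false
set_option linter.unusedSectionVars false

open Polynomial IsLocalRing

namespace Pool.Agent.TIFT

open GT TIF

section

variable {k Ω : Type} [Field k] [Field Ω] [Algebra k Ω] [IsAlgClosed Ω] {d : ℕ} [NeZero d]
  {T : Tab Ω d} [IsDedekindDomain (WB T)] {ρ : Type} [Fintype ρ]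

private theorem u1c_ker {F : Type} [Field F] [Algebra F Ω] {c : Ω} (h : Transcendental F c) :
    RingHom.ker (MvPolynomial.aeval (fun _ : Unit => c) : MvPolynomial Unit F →ₐ[F] Ω) = ⊥ := by
  have h1 : AlgebraicIndependent F (fun _ : Unit => c) :=
    (algebraicIndependent_unique_type_iff (R := F) (x := fun _ : Unit => c)).2 h
  exact (RingHom.injective_iff_ker_eq_bot _).1 h1

theorem mem_of_fixed {K : IntermediateField k Ω} [IsAlgClosed K] {c : Ω}
    (h : ∀ σ : Ω ≃ₐ[k] Ω, (∀ a ∈ K, σ a = a) → σ c = c) : c ∈ K := by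
  by_contra hc
  have h1 : Transcendental K c := by
    intro h2
    apply hc
    rw [← g_acl_eq K]
    exact mem_acl.2 h2
  have h2 : Transcendental K (c + 1) := by
    intro h3
    apply h1
    have h4 := h3.sub (isAlgebraic_one (R := K) (A := Ω))
    rwa [add_sub_cancel_right] at h4
  obtain ⟨σ, hσ⟩ := TIFP.exists_conj (k := K) (Ω := Ω) (ι := Unit) (fun _ => c) (fun _ => c + 1)
    ((u1c_ker h1).trans (u1c_ker h2).symm)
  have h3 := h (σ.restrictScalars k) fun a ha => σ.commutes ⟨a, ha⟩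
  have h4 : σ c = c := h3
  rw [hσ ()] at h4
  have h5 : (1 : Ω) = 0 := by
    have h6 : c + 1 = c + 0 := by rw [add_zero]; exact h4
    exact add_left_cancel h6
  exact one_ne_zero h5

private theorem u1c_left {K : IntermediateField k Ω} {C Y : ρ → List (Pt T)}
    (h : IndA K fun r => C r ++ Y r) : IndA K C := by
  have h1 : AlgebraicIndependent K fun p : Σ r, Fin (C r ++ Y r).length =>
    xx ((C p.1 ++ Y p.1).get p.2) := h
  let f : (Σ r, Fin (C r).length) → Σ r, Fin (C r ++ Y r).length := fun p =>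
    ⟨p.1, ⟨p.2.1, by rw [List.length_append]; exact p.2.2.trans_le (Nat.le_add_right _ _)⟩⟩
  have hf : Function.Injective f := by
    rintro ⟨r, i⟩ ⟨s, j⟩ hij
    have h2 : r = s := congrArg Sigma.fst hij
    subst h2
    have h3 := eq_of_heq (Sigma.mk.inj hij).2
    have h4 : i.1 = j.1 := (Fin.mk.inj h3)
    have h5 : i = j := Fin.ext h4
    rw [h5]
  have h2 := h1.comp f hf
  have h3 : (fun p : Σ r, Fin (C r ++ Y r).length => xx ((C p.1 ++ Y p.1).get p.2)) ∘ f =
      fun p : Σ r, Fin (C r).length => xx ((C p.1).get p.2) := by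
    funext p
    show xx ((C p.1 ++ Y p.1)[p.2.1]'_) = xx ((C p.1)[p.2.1]'_)
    rw [List.getElem_append_left]
  rw [h3] at h2
  exact h2

theorem tmf_congr (hU : Univ k Ω) (hT : Tk k T) {K : IntermediateField k Ω} [IsAlgClosed K]
    (hK : Small K) {m : ℕ}
    (D D' : TD k T ρ K m) (h : ∀ r i, cl (D.B r i) = cl (D'.B r i)) :
    ∃ c ∈ K, c ≠ 0 ∧ ∀ x, tmf D' x = c * tmf D x := by
  obtain ⟨x₀, hx₀⟩ := exists_genA (ρ := ρ) hU T hK
  have key : ∀ x : ρ → ClassGroup (WB T), GenA K x →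
      tmf D' x = tmf D' x₀ / tmf D x₀ * tmf D x := by
    intro x hx
    obtain ⟨C, Y, Y', hl, hY, hY', hc, hc'⟩ := exists_CY hU hT hK hx hx₀
    obtain ⟨c, -, hr⟩ := tmf_ratio hU hT hK D D' h (fun r => (hl r).1) (u1c_left hY)
    have h1 := hr Y (fun r => (hl r).2.1) hY
    have h2 := hr Y' (fun r => (hl r).2.2) hY'
    have e1 : (fun r => cl (C r ++ Y r)) = x := funext hc
    have e2 : (fun r => cl (C r ++ Y' r)) = x₀ := funext hc'
    rw [e1] at h1
    rw [e2] at h2
    rw [h1, h2, mul_div_assoc, div_self (tmf_ne hU hT hK D hx₀), mul_one]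
  have hc0 : tmf D' x₀ / tmf D x₀ ≠ 0 :=
    div_ne_zero (tmf_ne hU hT hK D' hx₀) (tmf_ne hU hT hK D hx₀)
  refine ⟨tmf D' x₀ / tmf D x₀, ?_, hc0, ?_⟩
  · apply mem_of_fixed
    intro σ hσ
    have hσ' : ∀ a ∈ K, σ.symm a = a := fun a ha => by
      rw [AlgEquiv.symm_apply_eq, hσ a ha]
    have hD : tmf D ∈ HH T ρ K m := Submodule.subset_span ⟨D, rfl⟩
    have hD' : tmf D' ∈ HH T ρ K m := Submodule.subset_span ⟨D', rfl⟩
    have hg : GenA K (fun r => act hT σ (x₀ r)) :=
      genA_act hT hx₀ σ (fun c hc => by rw [hσ c hc]; exact hc)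
        (fun c hc => by rw [hσ' c hc]; exact hc)
    rw [map_div₀, ← equ_HH hT hD σ hσ x₀, ← equ_HH hT hD' σ hσ x₀, key _ hg, mul_div_assoc,
      div_self (tmf_ne hU hT hK D hg), mul_one]
  · intro x
    by_cases hx : GenA K x
    · exact key x hx
    · rw [tmf_not D' hx, tmf_not D hx, mul_zero]

end

end Pool.Agent.TIFT
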