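import Pool.Agent.TIFT.U2b
import Pool.Agent.TIFT.U1c

/-!
# [TIF, block THETA] row U2c

The operators `T_b` do not depend on the choices up to constants, preserve `HH`, and multiply.
-/

set_option autoImplicit false
set_option linter.unusedSectionVars false

open Polynomial IsLocalRing

namespace Pool.Agent.TIFT

open GT TIF

section

variable {k Ω : Type} [Field k] [Field Ω] [Algebra k Ω] [IsAlgClosed Ω] {d : ℕ} [NeZero d]
  {T : Tab Ω d} [IsDedekindDomain (WB T)] {ρ : Type} [Fintype ρ]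

theorem Tr.op_congr (hU : Univ k Ω) (hT : Tk k T) {K : IntermediateField k Ω} [IsAlgClosed K]
    (hK : Small K) {n : ℕ} (hn : 0 < n) {b : ρ → ClassGroup (WB T)} (t t' : Tr T ρ K n b) :
    ∃ c ∈ K, c ≠ 0 ∧ ∀ F, t'.op F = c • t.op F := by
  obtain ⟨c, hc, h0, h⟩ := tmf_congr hU hT hK t.toTD t'.toTD fun r i => by
    rw [t.eq r i, t'.eq r i, t.cl_eq r, t'.cl_eq r]
  refine ⟨c, hc, h0, fun F => ?_⟩
  funext x
  rw [Pi.smul_apply, smul_eq_mul, Tr.op, Tr.op, h x, mul_assoc]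

/-- the list of the points of a theta monomial -/
private noncomputable def u2c_pts {K : IntermediateField k Ω} {m : ℕ} (D : TD k T ρ K m) :
    List (Pt T) :=
  (Finset.univ : Finset ρ).toList.flatMap fun r => (List.finRange m).flatMap fun i => D.B r i

private theorem u2c_mem {K : IntermediateField k Ω} {m : ℕ} (D : TD k T ρ K m) {r : ρ} {i : Fin m}
    {P : Pt T} (h : P ∈ D.B r i) : P ∈ u2c_pts D :=
  List.mem_flatMap.2 ⟨r, Finset.mem_toList.2 (Finset.mem_univ r),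
    List.mem_flatMap.2 ⟨i, List.mem_finRange i, h⟩⟩

private theorem u2c_off (hT : Tk k T) {K : IntermediateField k Ω} [IsAlgClosed K]
    {n m : ℕ} (hn : 0 < n) {b : ρ → ClassGroup (WB T)} (t : Tr T ρ K n b) (D : TD k T ρ K m) :
    ∃ t' : Tr T ρ K n b, ∀ r i, ∀ P ∈ t'.A r, P ∉ D.B r i := by
  obtain ⟨t', ht'⟩ := exists_Tr hT K (fun r => t.pow r) (fun r => t.mem_JK hT hn r) (u2c_pts D)
  exact ⟨t', fun r i P hP h => ht' r P hP (u2c_mem D h)⟩

private theorem u2c_smul {K : IntermediateField k Ω} {n : ℕ} {c : Ω} (hc : c ∈ K)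
    {F : (ρ → ClassGroup (WB T)) → Ω} (hF : F ∈ HH T ρ K n) : c • F ∈ HH T ρ K n := by
  have h := (HH T ρ K n).smul_mem (⟨c, hc⟩ : K) hF
  exact h

theorem Tr.op_mem (hU : Univ k Ω) (hT : Tk k T) {K : IntermediateField k Ω} [IsAlgClosed K]
    (hK : Small K) {n : ℕ} (hn : 0 < n) {b : ρ → ClassGroup (WB T)}
    (t : Tr T ρ K n b) {F : (ρ → ClassGroup (WB T)) → Ω} (hF : F ∈ HH T ρ K n) :
    t.op F ∈ HH T ρ K n := by
  refine Submodule.span_induction (p := fun F _ => t.op F ∈ HH T ρ K n) ?_ ?_ ?_ ?_ hF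
  · rintro _ ⟨D, rfl⟩
    show t.op (tmf D) ∈ _
    obtain ⟨t', ht'⟩ := u2c_off hT hn t D
    obtain ⟨D', c, hc, -, -, h⟩ := t'.op_tmf hU hT hK hn D ht'
    obtain ⟨c', hc', -, h'⟩ := Tr.op_congr hU hT hK hn t' t
    have e : t'.op (tmf D) = c • tmf D' := funext h
    rw [h', e]
    exact u2c_smul hc' (u2c_smul hc (Submodule.subset_span ⟨D', rfl⟩))
  · have e : t.op 0 = 0 := by
      funext x
      rw [Tr.op, Pi.zero_apply, Pi.zero_apply, mul_zero]
    rw [e]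
    exact Submodule.zero_mem _
  · intro F G _ _ hF hG
    have e : t.op (F + G) = t.op F + t.op G := by
      funext x
      rw [Tr.op, Pi.add_apply, Pi.add_apply, mul_add]
      rfl
    rw [e]
    exact Submodule.add_mem _ hF hG
  · intro a F _ hF
    have e : t.op (a • F) = a • t.op F := by
      funext x
      rw [Tr.op, Pi.smul_apply, Pi.smul_apply, mul_smul_comm]
      rfl
    rw [e]
    exact Submodule.smul_mem _ a hF

theorem Tr.op_mul (hU : Univ k Ω) (hT : Tk k T) {K : IntermediateField k Ω} [IsAlgClosed K]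
    (hK : Small K) {n : ℕ} (hn : 0 < n)
    {b b' : ρ → ClassGroup (WB T)} (t : Tr T ρ K n b) (t' : Tr T ρ K n b')
    (t'' : Tr T ρ K n (b * b')) :
    ∃ c ∈ K, c ≠ 0 ∧ ∀ F, t.op (t'.op F) = c • t''.op F := by
  obtain ⟨t₁, ht₁⟩ := u2c_off hT hn t t'.toTD
  obtain ⟨D', c₁, hc₁, h₁, hD', e₁⟩ := t₁.op_tmf hU hT hK hn t'.toTD ht₁
  obtain ⟨c₂, hc₂, h₂, e₂⟩ := Tr.op_congr hU hT hK hn t₁ t
  obtain ⟨c₃, hc₃, h₃, e₃⟩ := tmf_congr hU hT hK t''.toTD D' fun r i => by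
    rw [hD' r i, t''.eq r i, t''.cl_eq r, t'.eq r i, t'.cl_eq r, Pi.mul_apply, mul_comm]
  refine ⟨c₂ * c₁ * c₃, mul_mem (mul_mem hc₂ hc₁) hc₃, mul_ne_zero (mul_ne_zero h₂ h₁) h₃,
    fun F => ?_⟩
  funext x
  have h4 : t.op (tmf t'.toTD) x = c₂ * c₁ * c₃ * tmf t''.toTD x := by
    rw [e₂, Pi.smul_apply, smul_eq_mul, e₁, e₃, mul_assoc, mul_assoc]
  have h5 : t.op (t'.op F) x = t.op (tmf t'.toTD) x * F (x * (b * b')) := by
    rw [Tr.op, Tr.op, Tr.op, ← mul_assoc, mul_assoc x b b']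
  rw [h5, h4, Pi.smul_apply, smul_eq_mul, Tr.op, mul_assoc]

end

end Pool.Agent.TIFT
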