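import Pool.Agent.TIFT.T2

/-!
# [TIF, block THETA] row T3

write out both sides; Dl (B ++ X ++ A) = ± Dl (A ++ X ++ B) with sign (-1)^(|A||B| + |A||X| + |B||X|) (Dl_swap), Dl (A ++ X) = (-1)^(|A||X|) Dl (X ++ A), Dl (B ++ X) = (-1)^(|B||X|) Dl (X ++ B).
-/

set_option autoImplicit false
set_option linter.unusedSectionVars false

open Polynomial IsLocalRing

namespace Pool.Agent.TIFT

open GT TIF

section

variable {d : ℕ} [NeZero d] {κ : Type} [Field κ] [IsAlgClosed κ] {T : Tab κ d}
  [IsDedekindDomain (WB T)]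

theorem th_comm {n : ℕ} (A B X : List (Pt T)) (f f' : WB T)
    (hX : Dl X ≠ 0) (hXA : Dl (X ++ A) ≠ 0) (hXB : Dl (X ++ B) ≠ 0) (hf : ev f X ≠ 0)
    (hf' : ev f' X ≠ 0) (hAB : ev f B ≠ 0) (hBA : ev f' A ≠ 0) :
    th (fun _ : Fin n => A) f X * th (fun _ : Fin n => B) f' (X ++ A) =
      ((-1) ^ (n * A.length * B.length) * ev f B / ev f' A) *
        (th (fun _ : Fin n => B) f' X * th (fun _ : Fin n => A) f (X ++ B)) := by
  have h1 : Dl (A ++ X) = (-1) ^ (A.length * X.length) * Dl (X ++ A) := Dl_comm A X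
  have h2 : Dl (B ++ X) = (-1) ^ (B.length * X.length) * Dl (X ++ B) := Dl_comm B X
  have h3 : Dl (B ++ (X ++ A)) = (-1) ^ (B.length * (X ++ A).length) * Dl (X ++ A ++ B) :=
    Dl_comm B (X ++ A)
  have h4 : Dl (A ++ (X ++ B)) = (-1) ^ (A.length * X.length) * Dl (X ++ A ++ B) := by
    have h := Dl_swap [] A X B
    rw [List.nil_append, List.nil_append, List.append_assoc] at h
    exact h
  have e3 : ((-1 : κ)) ^ (B.length * (X ++ A).length) =
      (-1) ^ (B.length * X.length) * (-1) ^ (A.length * B.length) := by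
    rw [List.length_append, mul_add, pow_add, mul_comm B.length A.length]
  have e5 : ((-1 : κ)) ^ (n * A.length * B.length) = ((-1) ^ (A.length * B.length)) ^ n := by
    rw [← pow_mul]
    congr 1
    ring
  have ha : ((-1 : κ)) ^ (A.length * X.length) ≠ 0 := pow_ne_zero _ (neg_ne_zero.2 one_ne_zero)
  unfold th
  simp only [Finset.prod_const, Finset.card_univ, Fintype.card_fin]
  rw [h1, h2, h3, h4, e3, e5, ev_append, ev_append]
  generalize ((-1 : κ)) ^ (A.length * X.length) = sA at *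
  generalize ((-1 : κ)) ^ (B.length * X.length) = sB at *
  generalize ((-1 : κ)) ^ (A.length * B.length) = sC at *
  field_simp
  simp only [mul_pow]
  ring

end

end Pool.Agent.TIFT
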