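import Pool.Agent.TIFT.U2a
import Pool.Agent.TIFT.T3

/-!
# [TIF, block THETA] row U3

for generic x: X from GenA; Tr.eval for (t, t'.toTD) and (t', t.toTD) and th_comm with A = t.A r, B = t'.A r (rewrite (t'.toTD).B r = fun _ => t'.A r by t'.eq). For nongeneric x both sides are 0 (tmf_not).
-/

set_option autoImplicit false
set_option linter.unusedSectionVars false

open Polynomial IsLocalRing

namespace Pool.Agent.TIFT

open GT TIF

section

variable {k Ω : Type} [Field k] [Field Ω] [Algebra k Ω] [IsAlgClosed Ω] {d : ℕ} [NeZero d]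
  {T : Tab Ω d} [IsDedekindDomain (WB T)] {ρ : Type} [Fintype ρ]

theorem Tr.op_comm (hU : Univ k Ω) (hT : Tk k T) {K : IntermediateField k Ω}
    (hK : Small K) {n : ℕ} (hn : 0 < n)
    {b b' : ρ → ClassGroup (WB T)} (t : Tr T ρ K n b) (t' : Tr T ρ K n b')
    (h : ∀ r, ∀ P ∈ t.A r, P ∉ t'.A r) (F : (ρ → ClassGroup (WB T)) → Ω) :
    t.op (t'.op F) = (∏ r, ((-1) ^ (n * (t.A r).length * (t'.A r).length) *
      ev (t.h r) (t'.A r) / ev (t'.h r) (t.A r))) • t'.op (t.op F) := by
  funext x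
  rw [Pi.smul_apply, smul_eq_mul]
  unfold Tr.op
  by_cases hx : GenA K x
  · obtain ⟨X, hg, hX, hc⟩ := hx
    obtain rfl : (fun r => cl (X r)) = x := funext hc
    have hB : ∀ r, t.B r = fun _ => t.A r := fun r => funext fun i => t.eq r i
    have hB' : ∀ r, t'.B r = fun _ => t'.A r := fun r => funext fun i => t'.eq r i
    obtain ⟨h1, -, h2, h3⟩ := Tr.eval hU hT hK hn t t'.toTD
      (fun r i P hP => by rw [t'.eq r i]; exact h r P hP) hX hg
    obtain ⟨h1', -, h2', h3'⟩ := Tr.eval hU hT hK hn t' t.toTD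
      (fun r i P hP hP' => by rw [t.eq r i] at hP'; exact h r P hP' hP) hX hg
    have e : (fun r => cl (X r)) * b * b' = (fun r => cl (X r)) * b' * b := mul_right_comm _ _ _
    rw [h2, h3, h2', h3', e]
    have key : ∀ r, th (fun _ : Fin n => t.A r) (t.h r) (X r) *
        th (t'.B r) (t'.h r) (X r ++ t.A r) =
        ((-1) ^ (n * (t.A r).length * (t'.A r).length) *
          ev (t.h r) (t'.A r) / ev (t'.h r) (t.A r)) *
          (th (fun _ : Fin n => t'.A r) (t'.h r) (X r) *
            th (t.B r) (t.h r) (X r ++ t'.A r)) := by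
      intro r
      rw [hB, hB']
      exact th_comm (t.A r) (t'.A r) (X r) (t.h r) (t'.h r) (h1 r).1 (h1 r).2.1 (h1' r).2.1
        (h1 r).2.2.1 (h1' r).2.2.1 (h1' r).2.2.2.1 (h1 r).2.2.2.1
    have key2 := Finset.prod_congr (s₁ := Finset.univ) rfl fun r (_ : r ∈ Finset.univ) => key r
    rw [Finset.prod_mul_distrib, Finset.prod_mul_distrib, Finset.prod_mul_distrib] at key2
    rw [← mul_assoc, key2]
    ring
  · rw [tmf_not _ hx, tmf_not _ hx, zero_mul, zero_mul, mul_zero]

end

end Pool.Agent.TIFT
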