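import Pool.Agent.TIFT.Defs

/-!
# [TIF, block THETA] row K1
-/

set_option autoImplicit false
set_option linter.unusedSectionVars false

open Polynomial IsLocalRing

namespace Pool.Agent.TIFT

open GT TIF

section

variable {d : ℕ} [NeZero d] {κ : Type} [Field κ] [IsAlgClosed κ]

private theorem k1_x_not (T : Tab κ d) : ∀ c : κ, WB.x T ≠ algebraMap κ (WB T) c := by
  intro c h
  have h1 : algebraMap κ[X] (WB T) X = algebraMap κ[X] (WB T) (C c) := by
    have : WB.x T = algebraMap κ[X] (WB T) X := rfl
    rw [← this, h, IsScalarTower.algebraMap_apply κ κ[X] (WB T), Polynomial.algebraMap_eq]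
  have h2 := FaithfulSMul.algebraMap_injective κ[X] (WB T) h1
  have h3 := congrArg Polynomial.natDegree h2
  rw [natDegree_X, natDegree_C] at h3
  exact one_ne_zero h3

private theorem k1_der (T : Tab κ d) [IsDedekindDomain (WB T)] :
    ∃ D : Derivation κ (FractionRing (WB T)) (FractionRing (WB T)), D ≠ 0 := by
  set L := FractionRing (WB T) with hL
  have hft : Algebra.FiniteType κ (WB T) :=
    Algebra.FiniteType.trans (inferInstance : Algebra.FiniteType κ κ[X]) inferInstance
  have he1 : Algebra.EssFiniteType (WB T) L := Algebra.EssFiniteType.of_isLocalization L (nonZeroDivisors (WB T))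
  have he : Algebra.EssFiniteType κ L := Algebra.EssFiniteType.comp κ (WB T) L
  have hnt : Nontrivial (Ω[L⁄κ]) := by
    by_contra hc
    have hs : Subsingleton (Ω[L⁄κ]) := not_nontrivial_iff_subsingleton.mp hc
    have hu : Algebra.FormallyUnramified κ L := ⟨hs⟩
    have hsep : Algebra.IsSeparable κ L := (Algebra.FormallyUnramified.iff_isSeparable κ L).mp hu
    have halg : Algebra.IsAlgebraic κ L := inferInstance
    have hint : Algebra.IsIntegral κ L := inferInstance
    have hsur := (IsAlgClosed.algebraMap_bijective_of_isIntegral (k := κ) (K := L)).surjective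
    obtain ⟨c, hc⟩ := hsur (algebraMap (WB T) L (WB.x T))
    apply k1_x_not T c
    apply IsFractionRing.injective (WB T) L
    rw [← hc, ← IsScalarTower.algebraMap_apply]
  by_contra hno
  push Not at hno
  obtain ⟨w, hw⟩ := exists_ne (0 : Ω[L⁄κ])
  apply hw
  rw [← Module.forall_dual_apply_eq_zero_iff L w]
  intro φ
  have h1 : φ = (0 : Ω[L⁄κ] →ₗ[L] L) := by
    apply (KaehlerDifferential.linearMapEquivDerivation κ L).injective
    rw [map_zero]
    exact hno _
  rw [h1]
  rfl

theorem exists_der (T : Tab κ d) [IsDedekindDomain (WB T)] :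
    ∃ D : Derivation κ (WB T) (WB T), D ≠ 0 := by
  obtain ⟨D0, hD0⟩ := k1_der T
  set L := FractionRing (WB T) with hL
  have hft : Algebra.FiniteType κ (WB T) :=
    Algebra.FiniteType.trans (inferInstance : Algebra.FiniteType κ κ[X]) inferInstance
  let D1 : Derivation κ (WB T) L := D0.compAlgebraMap (WB T)
  have hD1 : ∀ b, D1 b = D0 (algebraMap (WB T) L b) := fun b => rfl
  obtain ⟨S, hS⟩ := hft.out
  classical
  obtain ⟨s, hs⟩ := IsLocalization.exist_integer_multiples_of_finset (nonZeroDivisors (WB T))
    (S.image fun b => D1 b)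
  have hs0 : (s : WB T) ≠ 0 := nonZeroDivisors.ne_zero s.2
  have hall : ∀ b : WB T, ∃ c : WB T, algebraMap (WB T) L c = (s : WB T) • D1 b := by
    intro b
    have hb : b ∈ Algebra.adjoin κ (S : Set (WB T)) := hS ▸ Algebra.mem_top
    induction hb using Algebra.adjoin_induction with
    | mem x hx =>
      have := hs (D1 x) (Finset.mem_image_of_mem _ hx)
      obtain ⟨c, hc⟩ := this
      exact ⟨c, hc⟩
    | algebraMap r => exact ⟨0, by rw [Derivation.map_algebraMap, smul_zero, map_zero]⟩
    | add x y hx hy hx' hy' =>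
      obtain ⟨c, hc⟩ := hx'
      obtain ⟨c', hc'⟩ := hy'
      exact ⟨c + c', by rw [map_add, map_add, smul_add, hc, hc']⟩
    | mul x y hx hy hx' hy' =>
      obtain ⟨c, hc⟩ := hx'
      obtain ⟨c', hc'⟩ := hy'
      refine ⟨x * c' + y * c, ?_⟩
      rw [Derivation.leibniz, smul_add, map_add, map_mul, map_mul, hc, hc', smul_comm _ x, smul_comm _ y,
        Algebra.smul_def x, Algebra.smul_def y]
  choose g hg using hall
  have hinj := IsFractionRing.injective (WB T) L
  let gl : WB T →ₗ[κ] WB T :=
    { toFun := g
      map_add' := fun x y => hinj (by rw [map_add, hg, hg, hg, map_add, smul_add])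
      map_smul' := fun r x => hinj (by
        rw [hg, RingHom.id_apply, Algebra.smul_def r (g x), map_mul, hg, Derivation.map_smul,
          smul_comm, ← IsScalarTower.algebraMap_apply, ← Algebra.smul_def]) }
  refine ⟨Derivation.mk' gl (fun a b => ?_), ?_⟩
  · apply hinj
    change algebraMap (WB T) L (g (a * b)) = algebraMap (WB T) L (a • g b + b • g a)
    rw [hg, Derivation.leibniz, smul_eq_mul, smul_eq_mul, map_add, map_mul, map_mul, hg, hg, smul_add,
      smul_comm _ a, smul_comm _ b, Algebra.smul_def a, Algebra.smul_def b]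
  · intro h0
    apply hD0
    have hz : ∀ b : WB T, D0 (algebraMap (WB T) L b) = 0 := by
      intro b
      have h1 : g b = 0 := by
        have := congrArg (fun D : Derivation κ (WB T) (WB T) => D b) h0
        exact this
      have h2 := hg b
      rw [h1, map_zero, Algebra.smul_def] at h2
      have h3 := mul_eq_zero.mp h2.symm
      rcases h3 with h3 | h3
      · exact absurd ((map_eq_zero_iff _ hinj).mp h3) hs0
      · exact h3
    apply Derivation.ext
    intro y
    obtain ⟨a, b, hb, rfl⟩ := IsFractionRing.div_surjective (A := WB T) y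
    have hb0 : algebraMap (WB T) L b ≠ 0 := fun h => nonZeroDivisors.ne_zero hb ((map_eq_zero_iff _ hinj).mp h)
    have h4 := D0.leibniz (algebraMap (WB T) L b) (algebraMap (WB T) L a / algebraMap (WB T) L b)
    rw [mul_div_cancel₀ _ hb0, hz, hz, smul_zero, add_zero, smul_eq_mul] at h4
    have h5 := mul_eq_zero.mp h4.symm
    rcases h5 with h5 | h5
    · exact absurd h5 hb0
    · exact h5

end

end Pool.Agent.TIFT
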