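import Pool.Agent.TIFT.K0
import Pool.Agent.TIFT.K1
import Pool.Agent.TIFT.C1
import Pool.Agent.TIFT.R

/-!
# [TIF, block THETA] row K2

I := rdc x⁻¹ (rational over K: JK_inv), M := len I + n. The elements of I ∩ Ble M with coefficients in K span IB I M over Ω (ratI_iff / Red). b₁: Red I M (K0: order M occurs), coefficients in K; (b₁) = I * dI X₁, |X₁| = n. For P ∈ X₁ ++ S the space IB (I * mP P) M is a proper subspace of IB I M (finrank_IB_sharp). D ≠ 0 a derivation (K1): {b ∈ IB I M | b₁ D b = b D b₁} is a proper subspace: otherwise D (b/b') = 0 for all b, b' ∈ IB I M, take b' ∈ I of order <= len I + gp and b = f b' with f = x or f_j (pord f + len I + gp <= M by nT): D f = 0, so D = 0. K is infinite: there is b₂ ∈ I ∩ Ble M with coefficients in K outside these finitely many proper subspaces (a K-space spanning IB I M is not a finite union of proper subspaces: Subspace.biUnion_ne_univ_of_top_nmem or similar). For t ∈ K put b := b₁ + t b₂. w := b₁ D b₂ - b₂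 D b₁ ≠ 0. For every point P at most one t has b ∈ I * mP P (if P ∈ X₁ then b₂ ∉ I mP P, otherwise b₁ ∉ I mP P). Exclude these t for P ∈ S, P a zero of w, and the one t with order of b < M. Then (b) = I * dI X, |X| = n, class x, X avoids S and the zeros of w. X Nodup: if P occurs twice then b ∈ (mP P)², D b ∈ mP P, w = b D b₂ - b₂ D b ∈ mP P: contradiction. PK: (b) rational (ratI_span), dI X rational (ratI_of_mul), PK_of_ratI.
-/

set_option autoImplicit false
set_option linter.unusedSectionVars false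

open Polynomial IsLocalRing

namespace Pool.Agent.TIFT

open GT TIF

section

variable {k Ω : Type} [Field k] [Field Ω] [Algebra k Ω] [IsAlgClosed Ω] {d : ℕ} [NeZero d]
  {T : Tab Ω d} [IsDedekindDomain (WB T)]

/-- a derivation which vanishes on the generators is zero -/
theorem k2_der_zero (D : Derivation Ω (WB T) (WB T)) (hx : D (WB.x T) = 0)
    (hf : ∀ j, D (WB.f T j) = 0) : D = 0 := by
  have hp : ∀ p : Polynomial Ω, D (algebraMap (Polynomial Ω) (WB T) p) = 0 := by
    intro p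
    have h1 : algebraMap (Polynomial Ω) (WB T) p = aeval (WB.x T) p := by
      rw [WB.x, Polynomial.aeval_algebraMap_apply, Polynomial.aeval_X_left_apply]
    rw [h1, Derivation.map_aeval, hx, smul_zero]
  refine Derivation.ext fun b => ?_
  rw [Derivation.coe_zero, Pi.zero_apply, ← WB.sum_f b, map_sum]
  refine Finset.sum_eq_zero fun j _ => ?_
  rw [Algebra.smul_def, Derivation.leibniz, hf, hp, smul_zero, smul_zero, add_zero]

/-- the elements of `IB I m` are combinations of reduced elements of order at most `m` -/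
theorem k2_span {I : Ideal (WB T)} {m : ℕ} {b : WB T} (hb : b ∈ I) (hm : pord b ≤ m) :
    b ∈ Submodule.span Ω {c | ∃ m' ≤ m, Red I m' c} := by
  have key : ∀ (n : ℕ) (b : WB T), b ∈ I → pord b < n → pord b ≤ m →
      b ∈ Submodule.span Ω {c | ∃ m' ≤ m, Red I m' c} := by
    intro n
    induction n with
    | zero => intro b _ h; omega
    | succ n ih =>
      intro b hb hn hm
      by_cases h0 : b = 0
      · rw [h0]
        exact Submodule.zero_mem _
      obtain ⟨r, hr⟩ := exists_red hb h0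
      have h1 : b = (b - GT.lc b • r) + GT.lc b • r := by rw [sub_add_cancel]
      have h2 : GT.lc b • r ∈ Submodule.span Ω {c | ∃ m' ≤ m, Red I m' c} :=
        Submodule.smul_mem _ _ (Submodule.subset_span ⟨_, hm, hr⟩)
      rw [h1]
      refine Submodule.add_mem _ ?_ h2
      by_cases h3 : b - GT.lc b • r = 0
      · rw [h3]
        exact Submodule.zero_mem _
      have h4 := pord_sub_lt (b := b) (c := GT.lc b • r) (by rw [pord_smul (lc_ne h0), hr.ord])
        (by rw [lc_smul, hr.lc, mul_one]) (sub_ne_zero.1 h3)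
      exact ih _ (I.sub_mem hb ((I.restrictScalars Ω).smul_mem _ hr.mem)) (by omega) (by omega)
  exact key _ b hb (Nat.lt_succ_self _) hm

/-- the elements of `IB I m` with coefficients in `K` -/
noncomputable def k2_E (K : IntermediateField k Ω) (I : Ideal (WB T)) (m : ℕ) : Submodule K (WB T) where
  carrier := {b | b ∈ IB I m ∧ Cf (K : Set Ω) b}
  zero_mem' := ⟨Submodule.zero_mem _, fun _ _ => K.zero_mem⟩
  add_mem' := by
    rintro a b ⟨h1, h2⟩ ⟨h3, h4⟩
    refine ⟨Submodule.add_mem _ h1 h3, fun j n => ?_⟩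
    rw [WB.co_add, Pi.add_apply, coeff_add]
    exact K.add_mem (h2 j n) (h4 j n)
  smul_mem' := by
    rintro c b ⟨h1, h2⟩
    refine ⟨Submodule.smul_mem _ (c : Ω) h1, fun j n => ?_⟩
    change ((((c : Ω) • b : WB T)).co j).coeff n ∈ K
    rw [WB.co_smul', coeff_smul, smul_eq_mul]
    exact K.mul_mem c.2 (h2 j n)

theorem k2_mem_E {K : IntermediateField k Ω} {I : Ideal (WB T)} {m : ℕ} {b : WB T} :
    b ∈ k2_E K I m ↔ b ∈ IB I m ∧ Cf (K : Set Ω) b := Iff.rfl

/-- avoiding finitely many proper subspaces -/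
theorem k2_avoid (K : IntermediateField k Ω) [Infinite K] {I : Ideal (WB T)} (m : ℕ)
    (hI : ∀ m b, Red I m b → Cf (K : Set Ω) b) {ι : Type} (s : Finset ι)
    (W : ι → Submodule Ω (WB T)) (hW : ∀ i ∈ s, ¬ IB I m ≤ W i) :
    ∃ b ∈ IB I m, Cf (K : Set Ω) b ∧ ∀ i ∈ s, b ∉ W i := by
  classical
  obtain ⟨s', hs'⟩ : ∃ s' : Finset (Submodule K (k2_E K I m)),
      s' = s.image fun i => ((W i).restrictScalars K).comap (k2_E K I m).subtype := ⟨_, rfl⟩
  have htop : (⊤ : Submodule K (k2_E K I m)) ∉ s' := by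
    rw [hs', Finset.mem_image]
    rintro ⟨i, hi, h⟩
    apply hW i hi
    intro b hb
    obtain ⟨hb1, hb2⟩ := mem_IB.1 hb
    refine Submodule.span_le.2 ?_ (k2_span hb1 hb2)
    rintro c ⟨m', hm', hc⟩
    have hcE : c ∈ k2_E K I m := ⟨mem_IB.2 ⟨hc.mem, hc.ord.le.trans hm'⟩, hI _ _ hc⟩
    have h1 : (⟨c, hcE⟩ : k2_E K I m) ∈ (⊤ : Submodule K (k2_E K I m)) := Submodule.mem_top
    rw [← h] at h1
    exact h1
  have h2 := Subspace.biUnion_ne_univ_of_top_notMem htop
  obtain ⟨b, hb⟩ := (Set.ne_univ_iff_exists_notMem _).1 h2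
  refine ⟨b, b.2.1, b.2.2, fun i hi hbi => hb ?_⟩
  rw [Set.mem_iUnion₂]
  refine ⟨((W i).restrictScalars K).comap (k2_E K I m).subtype, ?_, hbi⟩
  rw [hs']
  exact Finset.mem_image_of_mem _ hi

/-- at most one `t` for each subspace -/
theorem k2_sub (K : IntermediateField k Ω) (W : Submodule Ω (WB T)) {b₁ b₂ : WB T}
    (h : ¬ (b₁ ∈ W ∧ b₂ ∈ W)) : {t : K | b₁ + (t : Ω) • b₂ ∈ W}.Finite := by
  refine Set.Subsingleton.finite ?_
  intro t ht t' ht'
  by_contra hne
  apply h
  have h1 : ((t : Ω) - (t' : Ω)) • b₂ ∈ W := by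
    have h2 := W.sub_mem ht ht'
    rwa [add_sub_add_left_eq_sub, ← sub_smul] at h2
  have h3 : (t : Ω) - (t' : Ω) ≠ 0 := by
    rw [sub_ne_zero]
    exact fun h4 => hne (Subtype.ext h4)
  have h4 : b₂ ∈ W := (W.smul_mem_iff h3).1 h1
  refine ⟨?_, h4⟩
  have h5 := W.sub_mem ht (W.smul_mem (t : Ω) h4)
  rwa [add_sub_cancel_right] at h5

/-- a derivation maps the square of an ideal to the ideal -/
theorem k2_der_sq (D : Derivation Ω (WB T) (WB T)) {Q : Ideal (WB T)} {b : WB T} (hb : b ∈ Q * Q) :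
    D b ∈ Q := by
  refine Submodule.mul_induction_on hb ?_ ?_
  · intro u hu v hv
    rw [Derivation.leibniz]
    exact Q.add_mem (Q.mul_mem_right _ hu) (Q.mul_mem_right _ hv)
  · intro u v hu hv
    rw [map_add]
    exact Q.add_mem hu hv

/-- the Wronskian does not vanish identically -/
theorem k2_wronski {D : Derivation Ω (WB T) (WB T)} (hD : D ≠ 0) {I : Ideal (WB T)} (hI : I ≠ ⊥)
    {n : ℕ} (hn : nT T ≤ n) (b₁ : WB T) (h₁ : b₁ ≠ 0) :
    ∃ b ∈ IB I (len I + n), b₁ * D b - b * D b₁ ≠ 0 := by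
  by_contra hcon
  push Not at hcon
  apply hD
  have h2 : ∀ b ∈ IB I (len I + n), ∀ b' ∈ IB I (len I + n), b' * D b = b * D b' := by
    intro b hb b' hb'
    have h3 := hcon b hb
    have h4 := hcon b' hb'
    apply mul_left_cancel₀ h₁
    linear_combination b' * h3 - b * h4
  obtain ⟨b', hb', hb0'⟩ : ∃ b' ∈ IB I (gp T + len I), b' ≠ 0 := by
    have h5 := finrank_IB_ge I hI (gp T + len I)
    have h6 : IB I (gp T + len I) ≠ ⊥ := by
      intro h7
      rw [h7, finrank_bot] at h5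
      omega
    obtain ⟨b', hb', h0⟩ := (Submodule.ne_bot_iff _).1 h6
    exact ⟨b', hb', h0⟩
  obtain ⟨hb1', hb2'⟩ := mem_IB.1 hb'
  have key : ∀ f : WB T, f ≠ 0 → pord f + gp T ≤ n → D f = 0 := by
    intro f hf hfn
    have h8 : b' ∈ IB I (len I + n) := mem_IB.2 ⟨hb1', by omega⟩
    have h9 : f * b' ∈ IB I (len I + n) := mem_IB.2 ⟨I.mul_mem_left _ hb1', by
      rw [pord_mul hf hb0']
      omega⟩
    have h10 := h2 _ h9 _ h8
    rw [Derivation.leibniz, smul_eq_mul, smul_eq_mul] at h10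
    have h11 : b' * b' * D f = 0 := by linear_combination h10
    rcases mul_eq_zero.1 h11 with h12 | h12
    · exact absurd h12 (mul_ne_zero hb0' hb0')
    · exact h12
  have hw : ∀ j, T.w j ≤ ∑ j, T.w j := fun j => Finset.single_le_sum (fun _ _ => Nat.zero_le _) (Finset.mem_univ j)
  unfold nT at hn
  refine k2_der_zero D (key _ ?_ ?_) fun j => key _ ?_ ?_
  · rw [WB.x, Ne, map_eq_zero_iff _ WB.algebraMap_injective]
    exact Polynomial.X_ne_zero
  · have h1 : pord (WB.x T) = d := by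
      rw [WB.x, pord_algebraMap, natDegree_X, mul_one]
    omega
  · intro h
    have h1 := congrArg (fun b : WB T => b.co j) h
    simp only [WB.f_co, Pi.single_eq_same] at h1
    exact one_ne_zero h1
  · have h1 := pord_v (T := T) j
    have h2 := hw j
    omega

theorem exists_repK (hT : Tk k T) (K : IntermediateField k Ω) [IsAlgClosed K]
    {x : ClassGroup (WB T)} (hx : x ∈ JK (T := T) (K : Set Ω)) (S : List (Pt T)) {n : ℕ}
    (hn : nT T ≤ n) :
    ∃ X : List (Pt T), X.Nodup ∧ (∀ P ∈ X, P ∉ S) ∧ cl X = x ∧ X.length = n ∧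
      ∀ P ∈ X, PK k (K : Set Ω) P := by
  classical
  have hxi := JK_inv hT K hx
  obtain ⟨I, hIdef⟩ : ∃ I, I = rdc x⁻¹ := ⟨_, rfl⟩
  have hI0 : I ≠ ⊥ := hIdef ▸ rdc_ne _
  have hIc : cls I = x⁻¹ := hIdef ▸ cls_rdc _
  have hIK : RatI (K : Set Ω) I := by
    rw [hIdef]
    exact hxi
  have hIR := (ratI_iff hT K hI0).1 hIK
  have hn' := hn
  unfold nT at hn'
  obtain ⟨c, hc, hcM, hc1⟩ := exists_order hI0 (m := len I + n) (by omega)
  have hc0 : c ≠ 0 := by
    rintro rfl
    rw [a3_lc_zero] at hc1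
    exact zero_ne_one hc1
  obtain ⟨b₁, hb₁⟩ := exists_red hc hc0
  rw [hcM] at hb₁
  have hb₁0 := hb₁.ne
  have hb₁K := hIR _ _ hb₁
  -- the divisor of an element of order `len I + n`
  have hdiv : ∀ b ∈ I, b ≠ 0 → pord b = len I + n → ∃ X : List (Pt T), I * dI X = Ideal.span {b} ∧ X.length = n := by
    intro b hb hb0 hbo
    obtain ⟨J, hJ⟩ := Ideal.dvd_iff_le.2 ((Ideal.span_singleton_le_iff_mem I).2 hb)
    have hJ0 : J ≠ ⊥ := by
      rintro rfl
      rw [Ideal.mul_bot, Ideal.span_singleton_eq_bot] at hJ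
      exact hb0 hJ
    obtain ⟨X, hX⟩ := exists_dI hJ0
    refine ⟨X, by rw [hX, hJ], ?_⟩
    have h1 := len_span hb0
    rw [hJ, len_mul hI0 hJ0, hbo] at h1
    rw [← len_dI, hX]
    omega
  -- membership in `I * mP P`
  have hmem : ∀ (b : WB T) (X : List (Pt T)), I * dI X = Ideal.span {b} → ∀ P : Pt T,
      (b ∈ I * mP P ↔ P ∈ X) := by
    intro b X h P
    rw [← Ideal.span_singleton_le_iff_mem, ← h, ← Ideal.dvd_iff_le, mul_dvd_mul_iff_left hI0, Ideal.dvd_iff_le, dI_le_mP]
  obtain ⟨X₁, hX₁, hX₁l⟩ := hdiv b₁ hb₁.mem hb₁0 hb₁.ord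
  obtain ⟨D, hD⟩ := exists_der T
  -- the choice of `b₂`
  obtain ⟨b₂, hb₂, hb₂K, hb₂W⟩ : ∃ b ∈ IB I (len I + n), Cf (K : Set Ω) b ∧
      ∀ i ∈ (insert none ((X₁ ++ S).toFinset.map Function.Embedding.some) : Finset (Option (Pt T))),
        b ∉ (match i with
          | none => LinearMap.ker ((LinearMap.mulLeft Ω b₁).comp (D : WB T →ₗ[Ω] WB T) - LinearMap.mulRight Ω (D b₁))
          | some P => (I * mP P).restrictScalars Ω : Submodule Ω (WB T)) := by
    refine k2_avoid K (len I + n) hIR _ _ ?_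
    intro i hi hle
    match i with
    | none =>
      obtain ⟨b, hb, hb'⟩ := k2_wronski hD hI0 hn b₁ hb₁0
      exact hb' (hle hb)
    | some P =>
      have h1 := finrank_IB_sharp hI0 (m := len I + n) (by omega)
      have hQ : (mP P).IsMaximal := RingHom.ker_isMaximal_of_surjective P fun r =>
        ⟨algebraMap Ω (WB T) r, P.commutes r⟩
      have h4 : len (I * mP P) = len I + 1 := by
        rw [len_mul hI0 (mP_ne_bot P), len_maximal hQ (mP_ne_bot P)]
      have h2 := finrank_IB_sharp (I := I * mP P) (mul_ne_zero hI0 (mP_ne_bot P)) (m := len I + n) (by omega)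
      have h3 : IB I (len I + n) ≤ IB (I * mP P) (len I + n) := by
        intro b hb
        exact mem_IB.2 ⟨hle hb, (mem_IB.1 hb).2⟩
      have h5 := Submodule.finrank_mono h3
      omega
  have hb₂W' : ∀ P, P ∈ X₁ ++ S → b₂ ∉ I * mP P := by
    intro P hP
    exact hb₂W (some P) (Finset.mem_insert_of_mem (Finset.mem_map.2 ⟨P, List.mem_toFinset.2 hP, rfl⟩))
  obtain ⟨w, hw⟩ : ∃ w, w = b₁ * D b₂ - b₂ * D b₁ := ⟨_, rfl⟩
  have hw0 : w ≠ 0 := by
    intro h
    apply hb₂W none (Finset.mem_insert_self _ _)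
    rw [LinearMap.mem_ker]
    rw [hw] at h
    exact h
  obtain ⟨Z, hZ⟩ := exists_dI (I := Ideal.span {w}) (by rwa [Ne, Ideal.span_singleton_eq_bot])
  -- the choice of `t`
  have hfin1 : {t : K | b₁ + (t : Ω) • b₂ ∈ LinearMap.ker (lcf T (len I + n))}.Finite := by
    refine k2_sub K _ fun h => ?_
    have h1 := hb₁.lc
    unfold GT.lc at h1
    rw [hb₁.ord, LinearMap.mem_ker.1 h.1] at h1
    exact zero_ne_one h1
  have hfin2 : ∀ P : Pt T, {t : K | b₁ + (t : Ω) • b₂ ∈ (I * mP P).restrictScalars Ω}.Finite := by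
    intro P
    refine k2_sub K _ ?_
    rintro ⟨h1, h2⟩
    have h3 : P ∈ X₁ := (hmem b₁ X₁ hX₁ P).1 h1
    exact hb₂W' P (List.mem_append_left _ h3) h2
  have hfin3 : (⋃ P ∈ (S ++ Z).toFinset, {t : K | b₁ + (t : Ω) • b₂ ∈ (I * mP P).restrictScalars Ω}).Finite :=
    Set.Finite.biUnion (Finset.finite_toSet _) fun P _ => hfin2 P
  obtain ⟨t, ht⟩ := (hfin1.union hfin3).infinite_compl.nonempty
  rw [Set.mem_compl_iff, Set.mem_union, not_or] at ht
  obtain ⟨ht1, ht2⟩ := ht
  obtain ⟨b, hb⟩ : ∃ b, b = b₁ + (t : Ω) • b₂ := ⟨_, rfl⟩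
  have hbI : b ∈ I := by
    rw [hb]
    exact I.add_mem hb₁.mem ((I.restrictScalars Ω).smul_mem _ (mem_IB.1 hb₂).1)
  have hbK : Cf (K : Set Ω) b := by
    rw [hb]
    intro j m
    rw [WB.co_add, Pi.add_apply, coeff_add, WB.co_smul', coeff_smul, smul_eq_mul]
    exact K.add_mem (hb₁K j m) (K.mul_mem t.2 (hb₂K j m))
  have hbo : pord b = len I + n := by
    refine pord_eq_of ?_ ?_
    · rw [hb]
      exact Submodule.add_mem _ ((mem_Ble_iff _ _).2 hb₁.ord.le)
        (Submodule.smul_mem _ _ ((mem_Ble_iff _ _).2 (mem_IB.1 hb₂).2))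
    · intro h
      apply ht1
      change b₁ + (t : Ω) • b₂ ∈ LinearMap.ker (lcf T (len I + n))
      rw [LinearMap.mem_ker, ← hb]
      exact h
  have hb0 : b ≠ 0 := by
    rintro rfl
    apply ht1
    change b₁ + (t : Ω) • b₂ ∈ LinearMap.ker (lcf T (len I + n))
    rw [← hb]
    exact Submodule.zero_mem _
  obtain ⟨X, hX, hXl⟩ := hdiv b hbI hb0 hbo
  have hXav : ∀ P ∈ X, P ∉ S ++ Z := by
    intro P hP hP'
    apply ht2
    rw [Set.mem_iUnion₂]
    refine ⟨P, List.mem_toFinset.2 hP', ?_⟩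
    change b₁ + (t : Ω) • b₂ ∈ I * mP P
    rw [← hb]
    exact (hmem b X hX P).2 hP
  refine ⟨X, ?_, fun P hP hP' => hXav P hP (List.mem_append_left _ hP'), ?_, hXl, ?_⟩
  · rw [List.nodup_iff_sublist]
    intro P hP
    obtain ⟨Y, hY⟩ := hP.exists_perm_append
    have h1 : b ∈ mP P * mP P := by
      have h2 : dI X ≤ mP P * mP P := by
        rw [dI_perm hY, dI_append]
        have h3 : dI [P, P] = mP P * mP P := by
          rw [dI, List.map_cons, List.map_cons, List.map_nil, List.prod_cons, List.prod_cons, List.prod_nil, mul_one]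
        rw [h3]
        exact Ideal.mul_le_left
      have h3 : Ideal.span {b} ≤ mP P * mP P := by
        rw [← hX]
        exact Ideal.mul_le_right.trans h2
      exact h3 (Ideal.mem_span_singleton_self b)
    have h2 : D b ∈ mP P := k2_der_sq D h1
    have h3 : w = b * D b₂ - b₂ * D b := by
      rw [hb, map_add, Derivation.map_smul, hw, add_mul, smul_mul_assoc, mul_add, mul_smul_comm]
      abel
    have h4 : w ∈ mP P := by
      rw [h3]
      exact (mP P).sub_mem ((mP P).mul_mem_right _ (Ideal.mul_le_left h1)) ((mP P).mul_mem_left _ h2)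
    have h5 : P ∈ Z := by
      rw [← dI_le_mP, hZ, Ideal.span_singleton_le_iff_mem]
      exact h4
    exact hXav P (hP.subset (List.mem_cons_self)) (List.mem_append_right _ h5)
  · have h1 : cls (I * dI X) = 1 := by rw [hX, cls_span hb0]
    rw [cls_mul hI0 (dI_ne_bot X), hIc] at h1
    exact (inv_mul_eq_one.1 h1).symm
  · exact PK_of_ratI hT K (ratI_of_mul hT K hI0 hbK hb0 hIK hX)

end

end Pool.Agent.TIFT
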