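import Pool.Agent.TIFT.A1

/-!
# [TIF, block THETA] row A2

mono T m = X^n f_j with d n + w j = m (unique j, n: Tab.wt_inj); pord, lcf: GT.A1 (lcf_eq, pord_eq_of, mem_Ble_iff). Nat.nth_mem_of_infinite, Nat.nth_strictMono (Ow_infinite).
bmap_e: T'.w = T.w (bmap_w), so Ow and nth agree; bmap of mono coefficientwise.
-/

set_option autoImplicit false
set_option linter.unusedSectionVars false

open Polynomial IsLocalRing

namespace Pool.Agent.TIFT

open GT TIF

section

variable {d : ℕ} [NeZero d] {R : Type} [CommRing R] [Nontrivial R]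

private theorem a2_mono_eq (T : Tab R d) (i n : ℕ) (j : ZMod d) (h : d * n + T.w j = i) :
    mono T i = (X ^ n : R[X]) • WB.f T j := by
  subst h
  unfold mono
  rw [Finset.sum_eq_single j]
  · rw [Nat.add_sub_cancel, Nat.mul_mod_right, if_pos ⟨Nat.le_add_left _ _, rfl⟩,
      Nat.mul_div_cancel_left _ (Nat.pos_of_ne_zero (NeZero.ne d))]
  · intro j' _ hj'
    rw [if_neg]
    rintro ⟨h1, h2⟩
    have h3 := Nat.mod_add_div (d * n + T.w j - T.w j') d
    rw [h2] at h3
    have h4 : d * ((d * n + T.w j - T.w j') / d) + T.w j' = d * n + T.w j := by omega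
    exact hj' (T.wt_inj h4).1
  · intro h
    exact absurd (Finset.mem_univ _) h

theorem mono_co (T : Tab R d) (i n : ℕ) (j j' : ZMod d) (h : d * n + T.w j = i) :
    (mono T i).co j' = if j' = j then (X ^ n : R[X]) else 0 := by
  rw [a2_mono_eq T i n j h, WB.co_smul, WB.f_co]
  by_cases hj : j' = j
  · rw [if_pos hj, hj, Pi.single_eq_same, mul_one]
  · rw [if_neg hj, Pi.single_eq_of_ne hj, mul_zero]

theorem lcf_mono (T : Tab R d) {m : ℕ} (hm : Ow T m) : lcf T m (mono T m) = 1 := by
  obtain ⟨j, n, h⟩ := hm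
  have h1 := mono_co T m n j j h
  rw [if_pos rfl] at h1
  conv_lhs => rw [← h]
  rw [lcf_eq, h, h1, coeff_X_pow_self]

theorem pord_mono (T : Tab R d) {m : ℕ} (hm : Ow T m) : pord (mono T m) = m := by
  refine pord_eq_of ?_ (by rw [lcf_mono T hm]; exact one_ne_zero)
  obtain ⟨j, n, h⟩ := hm
  intro j' n' h'
  rw [mono_co T m n j j' h]
  by_cases hj : j' = j
  · rw [if_pos hj, coeff_X_pow, if_neg]
    rintro rfl
    rw [hj, h] at h'
    exact lt_irrefl _ h'
  · rw [if_neg hj, coeff_zero]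

private theorem a2_mem (T : Tab R d) (i : ℕ) : Ow T (Nat.nth (Ow T) i) :=
  Nat.nth_mem_of_infinite (Ow_infinite T) i

theorem pord_e (T : Tab R d) (i : ℕ) : pord (e T i) = Nat.nth (Ow T) i :=
  pord_mono T (a2_mem T i)

theorem lc_e (T : Tab R d) (i : ℕ) : lc (e T i) = 1 := by
  show lcf T (pord (e T i)) (e T i) = 1
  rw [pord_e]
  exact lcf_mono T (a2_mem T i)

theorem pord_e_lt (T : Tab R d) {i j : ℕ} (h : i < j) : pord (e T i) < pord (e T j) := by
  rw [pord_e, pord_e]
  exact Nat.nth_strictMono (Ow_infinite T) h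

theorem bmap_e {S : Type} [CommRing S] [Nontrivial S] {T : Tab R d} {T' : Tab S d} (f : R →+* S)
    (h : T.map f = T') (i : ℕ) : bmap f h (e T i) = e T' i := by
  subst h
  show bmap f rfl (mono T (Nat.nth (Ow T) i)) = mono (T.map f) (Nat.nth (Ow T) i)
  unfold mono
  rw [map_sum]
  refine Finset.sum_congr rfl fun j _ => ?_
  rw [Tab.map_w]
  split_ifs
  · rw [bmap_smul, bmap_f, Polynomial.map_pow, Polynomial.map_X]
  · exact map_zero _

end

end Pool.Agent.TIFT
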