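import Mathlib
import Pool.Agent.TIFT.VDefs
import Pool.Agent.MP_c1dca2_ag.GT.C1

/-!
# [TIF, block THETA, section V] row VB1

The dimension of the reduction of a space of functions.
-/

set_option autoImplicit false
set_option linter.unusedSectionVars false

open Polynomial IsLocalRing

namespace Pool.Agent.TIFT

open GT TIF

section

variable {F : Type} [Field F] {V : ValuationSubring F} {d : ℕ} [NeZero d] {T : Tab V d}

private theorem vb1_main (m : ℕ) : ∀ (n : ℕ) (W : Submodule F (WB (T.map V.subtype))),
    W ≤ Ble (T.map V.subtype) m → n ≤ Module.finrank (ResidueField V) (rW W) →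
    n ≤ Module.finrank F W := by
  intro n
  induction n with
  | zero => intro W _ _; exact Nat.zero_le _
  | succ n ih =>
    intro W hW hn
    have hfd : FiniteDimensional F W := c1_fd hW
    have hfd' : FiniteDimensional (ResidueField V) (rW W) := c1_fd (rW_Ble hW)
    have hWne : rW W ≠ ⊥ := by
      intro h0
      rw [h0, finrank_bot] at hn
      omega
    obtain ⟨w, ⟨b, hb, hbw⟩, hw0⟩ := Submodule.exists_mem_ne_zero_of_ne_bot hWne
    rw [← hbw] at hw0
    obtain ⟨j, i, hji⟩ := c1_exists_co hw0
    rw [rd_co, coeff_map] at hji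
    have hu : IsUnit ((b.co j).coeff i) := by
      by_contra h
      exact hji ((residue_eq_zero_iff _).2 ((mem_maximalIdeal _).2 h))
    obtain ⟨u, hu⟩ := hu
    have h1 := c1_ker (rW W) (c1_cf (T.map (residue V)) j i)
    have hW' : W ⊓ LinearMap.ker (c1_cf (T.map V.subtype) j i) ≤ Ble (T.map V.subtype) m :=
      inf_le_left.trans hW
    have hle : rW W ⊓ LinearMap.ker (c1_cf (T.map (residue V)) j i) ≤
        rW (W ⊓ LinearMap.ker (c1_cf (T.map V.subtype) j i)) := by
      rintro z ⟨⟨b', hb', rfl⟩, hz⟩
      have hz1 : residue V ((b'.co j).coeff i) = 0 := by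
        have hz2 : c1_cf (T.map (residue V)) j i (rd T b') = 0 := hz
        rw [c1_cf_apply, rd_co, coeff_map] at hz2
        exact hz2
      refine ⟨b' - ((b'.co j).coeff i * ((u⁻¹ : Vˣ) : V)) • b, ⟨?_, ?_⟩, ?_⟩
      · rw [map_sub, inc_smul]
        exact W.sub_mem hb' (W.smul_mem _ hb)
      · show c1_cf (T.map V.subtype) j i
          (inc T (b' - ((b'.co j).coeff i * ((u⁻¹ : Vˣ) : V)) • b)) = 0
        rw [c1_cf_apply, inc_co, coeff_map]
        have h2 : ((b' - ((b'.co j).coeff i * ((u⁻¹ : Vˣ) : V)) • b).co j).coeff i = 0 := by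
          have h3 : ((b' - ((b'.co j).coeff i * ((u⁻¹ : Vˣ) : V)) • b).co j).coeff i =
              (b'.co j).coeff i - ((b'.co j).coeff i * ((u⁻¹ : Vˣ) : V)) * (b.co j).coeff i := by
            rw [sub_eq_add_neg, WB.co_add, Pi.add_apply, coeff_add, WB.co_neg, Pi.neg_apply,
              coeff_neg, WB.co_smul', coeff_smul, smul_eq_mul, sub_eq_add_neg]
          rw [h3, ← hu, mul_assoc, Units.inv_mul, mul_one, sub_self]
        rw [h2, map_zero]
      · rw [map_sub, rd_smul, map_mul, hz1, zero_mul, zero_smul, sub_zero]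
    have hfd2 : FiniteDimensional (ResidueField V)
        (rW (W ⊓ LinearMap.ker (c1_cf (T.map V.subtype) j i))) := c1_fd (rW_Ble hW')
    have h4 := Submodule.finrank_mono hle
    have h2 := ih _ hW' (by omega)
    have h3 : W ⊓ LinearMap.ker (c1_cf (T.map V.subtype) j i) < W := by
      refine lt_of_le_of_ne inf_le_left ?_
      intro heq
      rw [← heq] at hb
      have h5 : c1_cf (T.map V.subtype) j i (inc T b) = 0 := hb.2
      rw [c1_cf_apply, inc_co, coeff_map] at h5
      have h6 : (b.co j).coeff i = 0 := V.subtype_injective (by rw [h5, map_zero])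
      exact hji (by rw [h6, map_zero])
    have h7 := Submodule.finrank_lt_finrank_of_lt h3
    omega

theorem finrank_rW_le {W : Submodule F (WB (T.map V.subtype))} {m : ℕ}
    (h : W ≤ Ble (T.map V.subtype) m) :
    Module.finrank (ResidueField V) (rW W) ≤ Module.finrank F W :=
  vb1_main m _ W h le_rfl

end

end Pool.Agent.TIFT
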