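import Mathlib
import Pool.Agent.TIFT.VB1
import Pool.Agent.TIFT.A2
import Pool.Agent.MP_c1dca2_ag.GT.C2

/-!
# [TIF, block THETA, section V] row VB2

lc_one_rd: lcf commutes with inc, rd (lcf_bmap), Ble (bmap_Ble), pord_eq_of. VF_ne: inc injective. VF_IB_le: let z ∈ IB (rI J) m, z = rd c, inc c ∈ J (mem_rI). Induction on pord c: if pord c <= m then inc c ∈ IB J m (pord_bmap), done. Otherwise pord c > m >= pord z: lcf T (pord c) c = lc c reduces to 0. The monomial e := mono T (pord c - pord b) is monic of order pord c - pord b (Ow_large, pord_mono, lcf_mono; here pord c - pord b > 2 gp); c' := c - lc c • (b * e) : inc c' ∈ J, rd c' = rd c (rd_smul, residue (lc c) = 0), pord c' < pord c (pord_sub_lt or Ble_pred; lc_mul, pord_mul). VF_len: for large m (finrank_IB_eq for J and for rI J, rI_ne_bot): dim IB (rI J) m <= dim rW (IB J m) <= dim IB J m (finrank_rW_le), so len J <= len (rI J); len_rI_le is the other inequality.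
-/

set_option autoImplicit false
set_option linter.unusedSectionVars false

open Polynomial IsLocalRing

namespace Pool.Agent.TIFT

open GT TIF

section

variable {F : Type} [Field F] [IsAlgClosed F] {V : ValuationSubring F} {d : ℕ} [NeZero d]
  {T : Tab V d} [hG : IsDedekindDomain (WB (T.map V.subtype))]
  [hG' : IsDedekindDomain (WB (T.map (residue V)))]

theorem vb2_lc {R S : Type} [CommRing R] [Nontrivial R] [CommRing S] [Nontrivial S] {d : ℕ} [NeZero d]
    {T : Tab R d} {T' : Tab S d} (f : R →+* S) (hT : T.map f = T') {b : WB T} (h : lc b = 1) :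
    lc (bmap f hT b) = 1 ∧ pord (bmap f hT b) = pord b ∧ bmap f hT b ≠ 0 := by
  have h1 : lcf T' (pord b) (bmap f hT b) = 1 := by
    rw [lcf_bmap]
    show f (lc b) = 1
    rw [h, map_one]
  have h2 : pord (bmap f hT b) = pord b :=
    pord_eq_of (bmap_Ble f hT (mem_Ble_pord b)) (by rw [h1]; exact one_ne_zero)
  refine ⟨?_, h2, ?_⟩
  · show lcf T' (pord (bmap f hT b)) (bmap f hT b) = 1
    rw [h2, h1]
  · intro h0
    rw [h0, map_zero] at h1
    exact zero_ne_one h1

theorem lc_one_rd {b : WB T} (h : lc b = 1) : lc (inc T b) = 1 ∧ pord (inc T b) = pord b ∧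
    lc (rd T b) = 1 ∧ pord (rd T b) = pord b ∧ rd T b ≠ 0 ∧ inc T b ≠ 0 := by
  obtain ⟨h1, h2, h3⟩ := vb2_lc V.subtype rfl h
  obtain ⟨h4, h5, h6⟩ := vb2_lc (residue V) rfl h
  exact ⟨h1, h2, h4, h5, h6, h3⟩

theorem VF_ne {J : Ideal (WB (T.map V.subtype))} (h : VF J) : J ≠ ⊥ := by
  obtain ⟨b, hb, hl⟩ := h
  rintro rfl
  exact (lc_one_rd hl).2.2.2.2.2 ((Submodule.mem_bot _).1 hb)

theorem VF_IB_le {J : Ideal (WB (T.map V.subtype))} {b : WB T} (hb : inc T b ∈ J) (h : lc b = 1)
    {m : ℕ} (hm : pord b + 2 * gp T ≤ m) : IB (rI J) m ≤ rW (IB J m) := by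
  intro z hz
  rw [mem_IB] at hz
  obtain ⟨hz1, hz2⟩ := hz
  rw [mem_rI] at hz1
  obtain ⟨c, hc, rfl⟩ := hz1
  have key : ∀ n : ℕ, ∀ c' : WB T, pord c' ≤ n → inc T c' ∈ J → rd T c' = rd T c →
      rd T c ∈ rW (IB J m) := by
    intro n
    induction n with
    | zero =>
      intro c' h1 h2 h3
      refine ⟨c', ?_, h3⟩
      rw [mem_IB]
      refine ⟨h2, ?_⟩
      rw [← mem_Ble_iff]
      exact bmap_Ble V.subtype rfl ((mem_Ble_iff _ _).2 (le_trans h1 (Nat.zero_le _)))
    | succ p ih =>
      intro c' h1 h2 h3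
      by_cases hpm : p + 1 ≤ m
      · refine ⟨c', ?_, h3⟩
        rw [mem_IB]
        refine ⟨h2, ?_⟩
        rw [← mem_Ble_iff]
        exact bmap_Ble V.subtype rfl ((mem_Ble_iff _ _).2 (le_trans h1 hpm))
      · -- the leading coefficient reduces to zero
        have hOw : Ow T (p + 1 - pord b) := Ow_large T (by omega)
        have hc' : c' ∈ Ble T (p + 1) := (mem_Ble_iff _ _).2 h1
        have hb : b ∈ Ble T (pord b) := mem_Ble_pord b
        have he : mono T (p + 1 - pord b) ∈ Ble T (p + 1 - pord b) :=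
          (mem_Ble_iff _ _).2 (le_of_eq (pord_mono T hOw))
        have hsum : pord b + (p + 1 - pord b) = p + 1 := by omega
        have hbe : b * mono T (p + 1 - pord b) ∈ Ble T (p + 1) := by
          have := Ble_mul hb he
          rwa [hsum] at this
        have hlbe : lcf T (p + 1) (b * mono T (p + 1 - pord b)) = 1 := by
          have := lcf_mul hb he
          rw [hsum, lcf_mono T hOw, mul_one] at this
          rw [this]
          exact h
        have hres : residue V (lcf T (p + 1) c') = 0 := by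
          have h4 : lcf (T.map (residue V)) (p + 1) (rd T c') = residue V (lcf T (p + 1) c') :=
            lcf_bmap (residue V) rfl (p + 1) c'
          rw [← h4, h3]
          have h5 : rd T c ∈ Ble (T.map (residue V)) p :=
            (mem_Ble_iff _ _).2 (le_trans hz2 (by omega))
          by_contra h6
          have h7 := pord_eq_of (Ble_mono (Nat.le_succ p) h5) h6
          have h8 := (mem_Ble_iff _ _).1 h5
          omega
        refine ih (c' - lcf T (p + 1) c' • (b * mono T (p + 1 - pord b))) ?_ ?_ ?_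
        · rw [← mem_Ble_iff]
          refine Ble_pred (Submodule.sub_mem _ hc' (Submodule.smul_mem _ _ hbe)) ?_
          rw [map_sub, map_smul, hlbe, smul_eq_mul, mul_one, sub_self]
        · rw [map_sub, inc_smul, map_mul]
          exact J.sub_mem h2 (c2_smul_mem _ (J.mul_mem_right _ ‹inc T b ∈ J›))
        · rw [map_sub, rd_smul, hres, zero_smul, sub_zero, h3]
  exact key (pord c) c le_rfl hc rfl

theorem VF_len {J : Ideal (WB (T.map V.subtype))} (h : VF J) : len (rI J) = len J := by
  have hJ := VF_ne h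
  obtain ⟨b, hb, hl⟩ := h
  refine le_antisymm (len_rI_le hJ) ?_
  obtain ⟨m₀, hm₀⟩ := finrank_IB_eq (rI J) (rI_ne_bot hJ)
  obtain ⟨m₁, hm₁⟩ := finrank_IB_eq J hJ
  have h1 := hm₀ (m₀ + m₁ + pord b + 2 * gp T) (by omega)
  have h2 := hm₁ (m₀ + m₁ + pord b + 2 * gp T) (by omega)
  have hfd : FiniteDimensional (ResidueField V) (rW (IB J (m₀ + m₁ + pord b + 2 * gp T))) :=
    c1_fd (rW_Ble (m := m₀ + m₁ + pord b + 2 * gp T) inf_le_right)
  have h3 := Submodule.finrank_mono (VF_IB_le (J := J) hb hl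
    (m := m₀ + m₁ + pord b + 2 * gp T) (by omega))
  have h4 := finrank_rW_le (W := IB J (m₀ + m₁ + pord b + 2 * gp T))
    (m := m₀ + m₁ + pord b + 2 * gp T) inf_le_right
  have e1 : gp (T.map V.subtype) = gp T := rfl
  have e2 : gp (T.map (residue V)) = gp T := rfl
  omega

end

end Pool.Agent.TIFT
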