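import Mathlib
import Pool.Agent.TIFT.VB2
import Pool.Agent.MP_c1dca2_ag.GT.C2b

/-!
# [TIF, block THETA, section V] row VB3

Ideals with a monic integral element: products, principal ideals.
-/

set_option autoImplicit false
set_option linter.unusedSectionVars false

open Polynomial IsLocalRing

namespace Pool.Agent.TIFT

open GT TIF

section

variable {F : Type} [Field F] [IsAlgClosed F] {V : ValuationSubring F} {d : ℕ} [NeZero d]
  {T : Tab V d} [hG : IsDedekindDomain (WB (T.map V.subtype))]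
  [hG' : IsDedekindDomain (WB (T.map (residue V)))]

private theorem vb3_pord (b : WB T) : pord (inc T b) = pord b :=
  pord_bmap V.subtype rfl V.subtype_injective b

private theorem vb3_pord_rd (b : WB T) : pord (rd T b) ≤ pord b :=
  pord_bmap_le (residue V) rfl b

private theorem vb3_unit {b : WB T} (h0 : rd T b ≠ 0) (h : pord (rd T b) = pord b) :
    ∃ u : Vˣ, (u : V) = lc b := by
  have h1 : lcf (T.map (residue V)) (pord b) (rd T b) = residue V (lcf T (pord b) b) :=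
    lcf_bmap (residue V) rfl (pord b) b
  have h2 : lc (rd T b) = residue V (lc b) := by
    unfold GT.lc
    rw [h, h1]
  have h3 := lc_ne h0
  rw [h2] at h3
  have h4 : IsUnit (lc b) := by
    by_contra h5
    exact h3 ((residue_eq_zero_iff _).2 ((mem_maximalIdeal _).2 h5))
  obtain ⟨u, hu⟩ := h4
  exact ⟨u, hu⟩

private theorem vb3_scale {b : WB T} {u : Vˣ} (hu : (u : V) = lc b) :
    lc (((u⁻¹ : Vˣ) : V) • b) = 1 := by
  rw [lc_smul, ← hu, Units.inv_mul]

theorem VF_of_len {J : Ideal (WB (T.map V.subtype))} (hJ : J ≠ ⊥) (h : len (rI J) = len J) :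
    VF J := by
  obtain ⟨m, b, hb, hbm, hb0, hl⟩ := exists_large hJ
  have h1 := vb3_pord b
  have h2 := vb3_pord_rd b
  obtain ⟨u, hu⟩ := vb3_unit hb0 (by omega)
  refine ⟨((u⁻¹ : Vˣ) : V) • b, ?_, vb3_scale hu⟩
  rw [inc_smul]
  exact c2_smul_mem _ hb

theorem VF_mul {I J : Ideal (WB (T.map V.subtype))} (hI : VF I) (hJ : VF J) : VF (I * J) := by
  obtain ⟨b, hb, hb1⟩ := hI
  obtain ⟨c, hc, hc1⟩ := hJ
  refine ⟨b * c, ?_, ?_⟩
  · rw [map_mul]
    exact Ideal.mul_mem_mul hb hc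
  · rw [lc_mul, hb1, hc1, mul_one]

theorem VF_mono {I J : Ideal (WB (T.map V.subtype))} (h : I ≤ J) (hI : VF I) : VF J := by
  obtain ⟨b, hb, hb1⟩ := hI
  exact ⟨b, h hb, hb1⟩

theorem rI_mul {I J : Ideal (WB (T.map V.subtype))} (hI : VF I) (hJ : VF J) :
    rI (I * J) = rI I * rI J := by
  have hI0 := VF_ne hI
  have hJ0 := VF_ne hJ
  have hle : rI I * rI J ≤ rI (I * J) := by
    rw [Ideal.mul_le]
    intro z hz w hw
    obtain ⟨b, hb, rfl⟩ := mem_rI.1 hz
    obtain ⟨c, hc, rfl⟩ := mem_rI.1 hw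
    rw [mem_rI]
    refine ⟨b * c, ?_, map_mul _ _ _⟩
    rw [map_mul]
    exact Ideal.mul_mem_mul hb hc
  refine (eq_of_len_eq (mul_ne_zero (rI_ne_bot hI0) (rI_ne_bot hJ0)) hle ?_).symm
  rw [len_mul (rI_ne_bot hI0) (rI_ne_bot hJ0), VF_len hI, VF_len hJ, VF_len (VF_mul hI hJ),
    len_mul hI0 hJ0]

theorem rI_span {g : WB T} (hg : rd T g ≠ 0) :
    rI (Ideal.span {inc T g}) = Ideal.span {rd T g} := by
  apply le_antisymm
  · intro z hz
    obtain ⟨b, hb, rfl⟩ := mem_rI.1 hz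
    obtain ⟨c, hc⟩ := Ideal.mem_span_singleton.1 hb
    obtain ⟨b', hb'⟩ := gauss g b c hg hc
    have h2 : b = g * b' := inc_inj (by rw [map_mul, hb', hc])
    rw [Ideal.mem_span_singleton, h2, map_mul]
    exact Dvd.intro _ rfl
  · rw [Ideal.span_singleton_le_iff_mem, mem_rI]
    exact ⟨g, Ideal.mem_span_singleton_self _, rfl⟩

theorem VF_gen {b : WB (T.map V.subtype)} (hb : b ≠ 0) (h : VF (Ideal.span {b})) :
    ∃ g : WB T, lc g = 1 ∧ Ideal.span {inc T g} = Ideal.span {b} ∧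
      rI (Ideal.span {b}) = Ideal.span {rd T g} := by
  obtain ⟨c, g, hc, hg, hg0⟩ := exists_normal b hb
  have h1 : Ideal.span {inc T g} = Ideal.span {b} :=
    (span_eq_iff.2 ⟨c, hc, hg⟩).symm
  have h2 : rI (Ideal.span {b}) = Ideal.span {rd T g} := by rw [← h1, rI_span hg0]
  have h3 : inc T g ≠ 0 := by
    intro h4
    rw [hg] at h4
    exact (smul_ne_zero hc hb) h4
  have h4 := VF_len h
  rw [h2, len_span hg0, ← h1, len_span h3, vb3_pord] at h4
  obtain ⟨u, hu⟩ := vb3_unit hg0 h4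
  have hu1 : (((u⁻¹ : Vˣ) : V) : F) ≠ 0 := by
    intro h5
    have h6 : ((u⁻¹ : Vˣ) : V) = 0 := Subtype.ext h5
    exact (u⁻¹).ne_zero h6
  have hu2 : residue V ((u⁻¹ : Vˣ) : V) ≠ 0 := by
    rw [Ne, residue_eq_zero_iff, mem_maximalIdeal]
    exact fun h5 => h5 (u⁻¹).isUnit
  refine ⟨((u⁻¹ : Vˣ) : V) • g, vb3_scale hu, ?_, ?_⟩
  · rw [← h1]
    exact (span_eq_iff.2 ⟨_, hu1, inc_smul _ _⟩).symm
  · rw [h2]
    exact span_eq_iff.2 ⟨_, hu2, rd_smul _ _⟩

end

end Pool.Agent.TIFT
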