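import Mathlib
import Pool.Agent.TIFT.VDefs
import Pool.Agent.TIFT.A2
import Pool.Agent.MP_c1dca2_ag.GT.C0b

/-!
# [TIF, block THETA, section V] row VB4

Let m := pord b + 2 gp. The V-submodule M of F generated by the finitely many P (inc (X^n f_j)) with d n + w_j <= m contains P (inc c) for ALL c : WB T, by induction on pord c: if pord c <= m then c is a combination of these monomials; if pord c > m subtract lc c • (b * mono T (pord c - pord b)) (Ow_large, pord_mono, lcf_mono; lc b = 1), P kills inc b. So M = the range of the ring hom P ∘ inc : WB T → F, a subring containing V and xx P = P (inc (WB.x T)), and it is a finitely generated V-module: xx P is integral over V (IsIntegral.of_mem_of_fg, or Algebra.IsIntegral.of_finite for the range subalgebra), so in V (ValuationSubring is integrally closed, as in GT/C0.lean).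
-/

set_option autoImplicit false
set_option linter.unusedSectionVars false

open Polynomial IsLocalRing

namespace Pool.Agent.TIFT

open GT TIF

section

variable {F : Type} [Field F] {V : ValuationSubring F} {d : ℕ} [NeZero d] {T : Tab V d}

private theorem vb4_alg (P : Pt (T.map V.subtype)) (r : V) :
    P (inc T (algebraMap V (WB T) r)) = (r : F) := by
  have h : inc T (algebraMap V (WB T) r) = algebraMap F (WB (T.map V.subtype)) (V.subtype r) :=
    bmap_algebraMap' V.subtype rfl r
  rw [h, AlgHom.commutes]
  rfl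

private noncomputable def vb4_φ (P : Pt (T.map V.subtype)) : WB T →ₐ[V] F :=
  { (P : WB (T.map V.subtype) →+* F).comp (inc T) with
    commutes' := fun r => vb4_alg P r }

private theorem vb4_φ_apply (P : Pt (T.map V.subtype)) (c : WB T) : vb4_φ P c = P (inc T c) := rfl

private theorem vb4_sub {n : ℕ} {c e : WB T} (hc : c ∈ Ble T (n + 1)) (he : e ∈ Ble T (n + 1))
    (h1 : lcf T (n + 1) e = 1) : c - lcf T (n + 1) c • e ∈ Ble T n := by
  refine Ble_pred (Submodule.sub_mem _ hc (Submodule.smul_mem _ _ he)) ?_
  rw [map_sub, map_smul, h1, smul_eq_mul, mul_one, sub_self]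

private theorem vb4_mono {i : ℕ} (h : Ow T i) : mono T i ∈ Ble T i ∧ lcf T i (mono T i) = 1 :=
  ⟨(mem_Ble_iff _ _).2 (pord_mono T h).le, lcf_mono T h⟩

private theorem vb4_all {P : Pt (T.map V.subtype)} {b : WB T} (hb : lc b = 1)
    (h : P (inc T b) = 0) : ∀ (n : ℕ) (c : WB T), c ∈ Ble T n → vb4_φ P c ∈
      Submodule.span V (Set.range fun i : Fin (pord b + 2 * gp T + 1) => vb4_φ P (mono T i))
  | 0, c, hc => by
    by_cases hO : Ow T 0
    · obtain ⟨h1, h2⟩ := vb4_mono hO
      have h3 : c - lcf T 0 c • mono T 0 = 0 := by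
        refine Ble_zero (Submodule.sub_mem _ hc (Submodule.smul_mem _ _ h1)) ?_
        rw [map_sub, map_smul, h2, smul_eq_mul, mul_one, sub_self]
      rw [sub_eq_zero.1 h3, map_smul]
      exact Submodule.smul_mem _ _ (Submodule.subset_span ⟨⟨0, by omega⟩, rfl⟩)
    · have h3 : c = 0 := by
        refine Ble_zero hc (lcf_none ?_ c)
        intro j i hji
        exact hO ⟨j, i, hji⟩
      rw [h3, map_zero]
      exact Submodule.zero_mem _
  | n + 1, c, hc => by
    by_cases hm : n + 1 ≤ pord b + 2 * gp T
    · by_cases hO : Ow T (n + 1)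
      · obtain ⟨h1, h2⟩ := vb4_mono hO
        have h3 := vb4_all hb h n _ (vb4_sub hc h1 h2)
        rw [map_sub, map_smul] at h3
        have h4 : vb4_φ P (mono T (n + 1)) ∈ Submodule.span V
            (Set.range fun i : Fin (pord b + 2 * gp T + 1) => vb4_φ P (mono T i)) :=
          Submodule.subset_span ⟨⟨n + 1, by omega⟩, rfl⟩
        have h5 := Submodule.add_mem _ h3 (Submodule.smul_mem _ (lcf T (n + 1) c) h4)
        rwa [sub_add_cancel] at h5
      · refine vb4_all hb h n c (Ble_pred hc (lcf_none ?_ c))
        intro j i hji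
        exact hO ⟨j, i, hji⟩
    · have hO : Ow T (n + 1 - pord b) := Ow_large T (by omega)
      obtain ⟨h1, h2⟩ := vb4_mono hO
      have hbB : b ∈ Ble T (pord b) := mem_Ble_pord b
      have h3 : b * mono T (n + 1 - pord b) ∈ Ble T (n + 1) := by
        have h4 := Ble_mul hbB h1
        rwa [show pord b + (n + 1 - pord b) = n + 1 by omega] at h4
      have h4 : lcf T (n + 1) (b * mono T (n + 1 - pord b)) = 1 := by
        have h5 := lcf_mul hbB h1
        rw [show pord b + (n + 1 - pord b) = n + 1 by omega, h2] at h5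
        have h6 : lcf T (pord b) b = 1 := hb
        rw [h5, h6, one_mul]
      have h5 := vb4_all hb h n _ (vb4_sub hc h3 h4)
      have h6 : vb4_φ P b = 0 := h
      rwa [map_sub, map_smul, map_mul, h6, zero_mul, smul_zero, sub_zero] at h5

theorem xx_mem_of_monic {P : Pt (T.map V.subtype)} {b : WB T} (hb : lc b = 1)
    (h : P (inc T b) = 0) : xx P ∈ V := by
  have hS : Subalgebra.toSubmodule (vb4_φ P).range =
      Submodule.span V (Set.range fun i : Fin (pord b + 2 * gp T + 1) => vb4_φ P (mono T i)) := by
    refine le_antisymm ?_ ?_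
    · rintro _ ⟨c, rfl⟩
      exact vb4_all hb h (pord c) c (mem_Ble_pord c)
    · rw [Submodule.span_le]
      rintro _ ⟨i, rfl⟩
      exact ⟨mono T i, rfl⟩
  have hfg : (Subalgebra.toSubmodule (vb4_φ P).range).FG := by
    rw [hS]
    exact Submodule.fg_span (Set.finite_range _)
  have hx : xx P ∈ (vb4_φ P).range := by
    refine ⟨WB.x T, ?_⟩
    have h1 : inc T (WB.x T) = WB.x (T.map V.subtype) := bmap_x V.subtype rfl
    show P (inc T (WB.x T)) = xx P
    rw [h1]
    rfl
  have hint : IsIntegral V (xx P) := IsIntegral.of_mem_of_fg _ hfg _ hx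
  obtain ⟨y, hy⟩ := IsIntegrallyClosed.isIntegral_iff.1 hint
  have h3 : xx P = (y : F) := hy.symm
  rw [h3]
  exact y.2

end

end Pool.Agent.TIFT
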