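import Mathlib
import Pool.Agent.TIFT.VB3
import Pool.Agent.TIFT.VB4
import Pool.Agent.TIFT.VA1
import Pool.Agent.TIFT.C1

/-!
# [TIF, block THETA, section V] row VB5

VF_dI_iff: (<=) product of the monic elements WB.x T - algebraMap c_P, c_P = xx P ∈ V (a3_lc, or lc of algebraMap (X - C c)). (=>) inc b ∈ dI X, lc b = 1: P (inc b) = 0 for P ∈ X (dI X <= mP P): xx_mem_of_monic. rI_mP: rI (mP P) <= mP P' (RedP), both have length 1 (len_dI for the singletons, VF_len; mP P = dI [P]), mP P' ≠ ⊥: eq_of_len_eq. rI_dI: induction with rI_mul (VF of mP P and of dI X). exists_lift: c : V with residue c = xx P' (residue_surjective), g := WB.x T - algebraMap c: lc g = 1; span {inc g} = dI X (exists_dI); X is V-finite (VF_dI_iff; inc g is in it); exists_redL X X'; span {rd g} = rI (dI X) = dI X' (rI_span, rI_dI); P' (rd g) = 0, so dI X' <= mP P', a prime ideal: mP Q' <= mP P' for some Q' ∈ X', Q' = P' (mP_inj); Forall₂ gives P ∈ X with RedP P P'.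
-/

set_option autoImplicit false
set_option linter.unusedSectionVars false

open Polynomial IsLocalRing

namespace Pool.Agent.TIFT

open GT TIF

section

variable {F : Type} [Field F] [IsAlgClosed F] {V : ValuationSubring F} {d : ℕ} [NeZero d]
  {T : Tab V d} [hG : IsDedekindDomain (WB (T.map V.subtype))]
  [hG' : IsDedekindDomain (WB (T.map (residue V)))]

/-- the monic element `x - c` -/
private noncomputable def vb5_g (T : Tab V d) (c : V) : WB T := algebraMap V[X] (WB T) (X - C c)

private theorem vb5_lc (c : V) : lc (vb5_g T c) = 1 := by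
  rw [vb5_g, lc_algebraMap, leadingCoeff_X_sub_C]

/-- the value of `x - c` at a point -/
private theorem vb5_val {K : Type} [Field K] {T' : Tab K d} (P : Pt T') (c : K) :
    P (algebraMap K[X] (WB T') (X - C c)) = xx P - c := by
  rw [map_sub, map_sub]
  have h1 : algebraMap K[X] (WB T') (C c) = algebraMap K (WB T') c :=
    (IsScalarTower.algebraMap_apply K K[X] (WB T') c).symm
  rw [h1, AlgHom.commutes]
  rfl

private theorem vb5_inc (c : V) (P : Pt (T.map V.subtype)) :
    P (inc T (vb5_g T c)) = xx P - c := by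
  have h1 : inc T (vb5_g T c) = algebraMap F[X] (WB (T.map V.subtype)) (X - C (c : F)) := by
    show bmap V.subtype rfl (algebraMap V[X] (WB T) (X - C c)) = _
    rw [bmap_algebraMap, Polynomial.map_sub, Polynomial.map_X, Polynomial.map_C]
    rfl
  rw [h1, vb5_val]

private theorem vb5_rd (c : V) (P' : Pt (T.map (residue V))) :
    P' (rd T (vb5_g T c)) = xx P' - residue V c := by
  have h1 : rd T (vb5_g T c) =
      algebraMap (ResidueField V)[X] (WB (T.map (residue V))) (X - C (residue V c)) := by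
    show bmap (residue V) rfl (algebraMap V[X] (WB T) (X - C c)) = _
    rw [bmap_algebraMap, Polynomial.map_sub, Polynomial.map_X, Polynomial.map_C]
  rw [h1, vb5_val]

private theorem vb5_cons {K : Type} [Field K] {T' : Tab K d} (P : Pt T') (X : List (Pt T')) :
    dI (P :: X) = mP P * dI X := by
  unfold dI
  rw [List.map_cons, List.prod_cons]

private theorem vb5_single {K : Type} [Field K] {T' : Tab K d} (P : Pt T') :
    dI [P] = mP P := by
  unfold dI
  rw [List.map_cons, List.map_nil, List.prod_cons, List.prod_nil, mul_one]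

private theorem vb5_VF {P : Pt (T.map V.subtype)} (hP : xx P ∈ V) : VF (mP P) := by
  refine ⟨vb5_g T ⟨xx P, hP⟩, ?_, vb5_lc _⟩
  show P (inc T (vb5_g T ⟨xx P, hP⟩)) = 0
  rw [vb5_inc]
  exact sub_self _

theorem VF_dI_iff {X : List (Pt (T.map V.subtype))} : VF (dI X) ↔ ∀ P ∈ X, xx P ∈ V := by
  constructor
  · rintro ⟨b, hb, hlc⟩ P hP
    have h1 : inc T b ∈ mP P := dI_le_mP.2 hP hb
    exact xx_mem_of_monic hlc h1
  · intro h
    induction X with
    | nil =>
      refine ⟨1, ?_, lc_one⟩
      rw [dI_nil]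
      exact Submodule.mem_top
    | cons P X ih =>
      rw [vb5_cons]
      exact VF_mul (vb5_VF (h P List.mem_cons_self)) (ih fun Q hQ => h Q (List.mem_cons_of_mem _ hQ))

/-- the reduction of the ideal of a point -/
private theorem vb5_rI {P : Pt (T.map V.subtype)} {P' : Pt (T.map (residue V))} (h : RedP P P') :
    rI (mP P) = mP P' := by
  have hle : rI (mP P) ≤ mP P' := by
    intro z hz
    obtain ⟨b, hb, rfl⟩ := mem_rI.1 hz
    obtain ⟨c, hc, hc'⟩ := h b
    have hb' : P (inc T b) = 0 := hb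
    rw [hb'] at hc
    have hc0 : c = 0 := Subtype.ext hc
    rw [hc0, map_zero] at hc'
    exact hc'.symm
  have hl : ∀ {K : Type} [Field K] [IsAlgClosed K] {T' : Tab K d} [IsDedekindDomain (WB T')]
      (Q : Pt T'), len (mP Q) = 1 := by
    intro K _ _ T' _ Q
    rw [← vb5_single, len_dI]
    rfl
  refine eq_of_len_eq (rI_ne_bot (mP_ne_bot P)) hle ?_
  rw [VF_len (vb5_VF h.xx_mem), hl, hl]

/-- the elements of lists in a relation -/
private theorem vb5_left {α β : Type} {R : α → β → Prop} {X : List α} {X' : List β}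
    (h : List.Forall₂ R X X') {a : α} (ha : a ∈ X) : ∃ b ∈ X', R a b := by
  induction h with
  | nil => simp at ha
  | cons h1 _ ih =>
    rcases List.mem_cons.1 ha with rfl | ha
    · exact ⟨_, List.mem_cons_self, h1⟩
    · obtain ⟨b, hb, hr⟩ := ih ha
      exact ⟨b, List.mem_cons_of_mem _ hb, hr⟩

private theorem vb5_right {α β : Type} {R : α → β → Prop} {X : List α} {X' : List β}
    (h : List.Forall₂ R X X') {b : β} (hb : b ∈ X') : ∃ a ∈ X, R a b := by
  induction h with
  | nil => simp at hb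
  | cons h1 _ ih =>
    rcases List.mem_cons.1 hb with rfl | hb
    · exact ⟨_, List.mem_cons_self, h1⟩
    · obtain ⟨a, ha, hr⟩ := ih hb
      exact ⟨a, List.mem_cons_of_mem _ ha, hr⟩

theorem rI_dI {X : List (Pt (T.map V.subtype))} {X' : List (Pt (T.map (residue V)))}
    (h : List.Forall₂ RedP X X') : rI (dI X) = dI X' := by
  induction h with
  | nil => rw [dI_nil, dI_nil, rI_top]
  | cons h1 h2 ih =>
    rw [vb5_cons, vb5_cons, rI_mul (vb5_VF h1.xx_mem) (VF_dI_iff.2 fun P hP => ?_), vb5_rI h1, ih]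
    obtain ⟨P', _, hr⟩ := vb5_left h2 hP
    exact hr.xx_mem

theorem exists_lift (P' : Pt (T.map (residue V))) : ∃ P : Pt (T.map V.subtype), RedP P P' := by
  obtain ⟨c, hc⟩ := residue_surjective (R := V) (xx P')
  have hlc := lc_one_rd (T := T) (vb5_lc c)
  obtain ⟨X, hX⟩ := exists_dI (T := T.map V.subtype) (I := Ideal.span {inc T (vb5_g T c)}) (by
    rw [Ne, Ideal.span_singleton_eq_bot]
    exact hlc.2.2.2.2.2)
  have hV : VF (dI X) := ⟨vb5_g T c, by rw [hX]; exact Ideal.mem_span_singleton_self _, vb5_lc c⟩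
  obtain ⟨X', hXX⟩ := exists_redL (VF_dI_iff.1 hV)
  have h1 := rI_dI hXX
  rw [hX, rI_span hlc.2.2.2.2.1] at h1
  have h2 : dI X' ≤ mP P' := by
    rw [← h1, Ideal.span_singleton_le_iff_mem]
    show P' (rd T (vb5_g T c)) = 0
    rw [vb5_rd, hc, sub_self]
  obtain ⟨P, _, hP⟩ := vb5_right hXX (dI_le_mP.1 h2)
  exact ⟨P, hP⟩

theorem exists_liftL (X' : List (Pt (T.map (residue V)))) :
    ∃ X : List (Pt (T.map V.subtype)), List.Forall₂ RedP X X' := by
  induction X' with
  | nil => exact ⟨[], List.Forall₂.nil⟩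
  | cons P' X' ih =>
    obtain ⟨P, hP⟩ := exists_lift P'
    obtain ⟨X, hX⟩ := ih
    exact ⟨P :: X, List.Forall₂.cons hP hX⟩

end

end Pool.Agent.TIFT
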