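import Mathlib
import Pool.Agent.TIFT.VDefs
import Pool.Agent.MP_c1dca2_ag.GT.C0
import Pool.Agent.TIFCRV.Ded0

/-!
# [TIF, block THETA, section V] row VE1

T = T₀.map (algebraMap k Ω). kbF k Ω ⊆ V (algebraic elements are integral over k). T₁ := T₀.map (k -> kbF): WB T₁ is Dedekind (TIFCRV.ded_down for kbF -> Ω), so WB (T₁.map (kbF -> V -> ResidueField V)) is Dedekind (TIFCRV.ded_up).
-/

set_option autoImplicit false
set_option linter.unusedSectionVars false

open Polynomial IsLocalRing

namespace Pool.Agent.TIFT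

open GT TIF

section

variable {k Ω : Type} [Field k] [Field Ω] [Algebra k Ω] [IsAlgClosed Ω] {d : ℕ} [NeZero d]
  {T : Tab Ω d} [IsDedekindDomain (WB T)] {ρ : Type} [Fintype ρ]

theorem exists_model (hT : Tk k T) {V : ValuationSubring Ω} (hV : ∀ c : k, algebraMap k Ω c ∈ V) :
    ∃ T₀ : Tab k d, (T₀.map (kV hV)).map V.subtype = T ∧
      IsDedekindDomain (WB ((T₀.map (kV hV)).map (residue V))) := by
  obtain ⟨T₀, rfl⟩ := hT
  refine ⟨T₀, ?_, ?_⟩
  · rw [Tab.map_map]
    rfl
  · -- the algebraic closure of `k` is contained in `V`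
    have hE : ∀ c : kbF k Ω, (c : Ω) ∈ V := by
      intro c
      have h1 : IsAlgebraic k (c : Ω) := (mem_algebraicClosure_iff).1 c.2
      obtain ⟨p, hp, hpc⟩ := h1.isIntegral
      have h2 : IsIntegral V (c : Ω) := by
        refine ⟨p.map (kV hV), hp.map _, ?_⟩
        rw [eval₂_map]
        exact hpc
      obtain ⟨y, hy⟩ := IsIntegrallyClosed.isIntegral_iff.1 h2
      rw [← hy]
      exact y.2
    have e1 : (T₀.map (algebraMap k (kbF k Ω))).map (algebraMap (kbF k Ω) Ω) =
        T₀.map (algebraMap k Ω) := by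
      rw [Tab.map_map]
      rfl
    have hac : IsAlgClosed (kbF k Ω) :=
      (inferInstance : IsAlgClosure k (algebraicClosure k Ω)).isAlgClosed
    have i1 : IsDedekindDomain (WB ((T₀.map (algebraMap k (kbF k Ω))).map
        (algebraMap (kbF k Ω) Ω))) := by
      rw [e1]
      infer_instance
    have i2 : IsDedekindDomain (WB (T₀.map (algebraMap k (kbF k Ω)))) :=
      TIFCRV.ded_down _ (algebraMap (kbF k Ω) Ω)
    have i3 := TIFCRV.ded_up (T₀.map (algebraMap k (kbF k Ω)))
      ((residue V).comp ((algebraMap (kbF k Ω) Ω).codRestrict V hE))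
    have e2 : (T₀.map (algebraMap k (kbF k Ω))).map
        ((residue V).comp ((algebraMap (kbF k Ω) Ω).codRestrict V hE)) =
        (T₀.map (kV hV)).map (residue V) := by
      rw [Tab.map_map, Tab.map_map]
      rfl
    rw [← e2]
    exact i3

end

end Pool.Agent.TIFT
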