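import Mathlib
import Pool.Agent.TIFT.VB5
import Pool.Agent.TIFT.VE1
import Pool.Agent.TIFT.VE2
import Pool.Agent.TIFT.G1
import Pool.Agent.TIFT.C1
import Pool.Agent.TIFT.VA1
import Pool.Agent.TIFT.VB2
import Pool.Agent.TIFT.VB3

/-!
# [TIF, block THETA, section V] row VE5

hd_int: obtain ⟨T₀, rfl, hD⟩ := exists_model hT hV. span {h} = prod_i dI (B i) is VF (VF_dI_iff and the list of all points of the B i, or VF_mul over Fin m): VF_gen: g : WB _, lc g = 1, span {inc g} = span {h}; lc h = 1 = lc (inc g) (lc_one_rd), so h = inc g (GT.eq_of_span_eq): Cf V h. span {rd g} = rI (prod dI (B i)) = prod_i dI (B i reduced) (rI_mul, rI_dI). P V-finite with reduction P': if V.valuation (P h) < 1 then P' (rd g) = 0, prod dI (B i)^ <= mP P', so P' is the reduction of some Q ∈ B i: Cg k V P Q. And V.valuation (P h) <= 1 (int_of_xx). PK_xx: WB.x T has coefficients in k. cg_kb: for b with coefficients in k, P b - Q b ∈ kbF; a nonzero element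 of the field kbF ⊆ V has valuation 1 (its inverse is in V too), so P b = Q b; WB.x and the f_j have coefficients in k and determine the point. good_kb: PK_xx and cg_kb. kb_val: the same. finite_cg: at most one kb-point is congruent to a given point (cg_symm, cg_trans, cg_kb).
-/

set_option autoImplicit false
set_option linter.unusedSectionVars false

open Polynomial IsLocalRing

namespace Pool.Agent.TIFT

open GT TIF

section

variable {k Ω : Type} [Field k] [Field Ω] [Algebra k Ω] [IsAlgClosed Ω] {d : ℕ} [NeZero d]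
  {T : Tab Ω d} [IsDedekindDomain (WB T)] {ρ : Type} [Fintype ρ]

private theorem ve5_forall2 {α β : Type} {R : α → β → Prop} {l : List α} {l' : List β}
    (h : List.Forall₂ R l l') {b : β} (hb : b ∈ l') : ∃ a ∈ l, R a b := by
  induction h with
  | nil => exact absurd hb List.not_mem_nil
  | cons hr _ ih =>
    rcases List.mem_cons.1 hb with rfl | hb
    · exact ⟨_, List.mem_cons_self, hr⟩
    · obtain ⟨a, ha, hab⟩ := ih hb
      exact ⟨a, List.mem_cons_of_mem _ ha, hab⟩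

theorem hd_int (hT : Tk k T) {V : ValuationSubring Ω} (hV : ∀ c : k, algebraMap k Ω c ∈ V) {m : ℕ}
    {B : Fin m → List (Pt T)} {h : WB T} (hB : Hd B h) (hf : ∀ i, ∀ P ∈ B i, xx P ∈ V) :
    Cf (V : Set Ω) h ∧ ∀ P : Pt T, xx P ∈ V → (∀ i, ∀ Q ∈ B i, ¬ Cg k V P Q) →
      V.valuation (P h) = 1 := by
  classical
  obtain ⟨T₀, rfl, hD⟩ := exists_model hT hV
  have hR : ∀ i, ∃ X', List.Forall₂ RedP (B i) X' := fun i => exists_redL (hf i)
  choose B' hB' using hR
  have hVF : ∀ i, VF (dI (B i)) := fun i => VF_dI_iff.2 (hf i)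
  have key : ∀ s : Finset (Fin m), VF (∏ i ∈ s, dI (B i)) ∧
      rI (∏ i ∈ s, dI (B i)) = ∏ i ∈ s, dI (B' i) := by
    intro s
    induction s using Finset.induction_on with
    | empty =>
      have h1 : VF (dI ([] : List (Pt ((T₀.map (kV hV)).map V.subtype)))) :=
        VF_dI_iff.2 fun P hP => absurd hP List.not_mem_nil
      have h2 : rI (dI ([] : List (Pt ((T₀.map (kV hV)).map V.subtype)))) = dI [] :=
        rI_dI List.Forall₂.nil
      rw [dI_nil] at h1 h2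
      rw [dI_nil] at h2
      rw [Finset.prod_empty, Finset.prod_empty, Ideal.one_eq_top, Ideal.one_eq_top]
      exact ⟨h1, h2⟩
    | insert i s hi ih =>
      rw [Finset.prod_insert hi, Finset.prod_insert hi]
      exact ⟨VF_mul (hVF i) ih.1, by rw [rI_mul (hVF i) ih.1, rI_dI (hB' i), ih.2]⟩
  obtain ⟨hV1, hr⟩ := key Finset.univ
  have hsp : Ideal.span {h} = ∏ i, dI (B i) := hB.div
  have h0 : h ≠ 0 := by
    intro h0
    apply VF_ne hV1
    rw [← hsp, h0, Ideal.span_singleton_eq_bot]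
  obtain ⟨g, hg1, hg2, hg3⟩ := VF_gen h0 (by rw [hsp]; exact hV1)
  have hgl : lc (inc _ g) = 1 := (lc_one_rd hg1).1
  have hhg : h = inc _ g := eq_of_span_eq h0 hg2.symm (by rw [hB.lc, hgl])
  subst hhg
  refine ⟨(cf_iff_inc _).2 ⟨g, rfl⟩, fun P hP hC => ?_⟩
  obtain ⟨P', hP'⟩ := exists_redP hP
  have hle : V.valuation (P (inc _ g)) ≤ 1 := (V.valuation_le_one_iff _).2 (int_of_xx hP g)
  refine le_antisymm hle (not_lt.1 fun hlt => ?_)
  have h3 : P' (rd _ g) = 0 := (hP'.val_lt_iff g).1 hlt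
  have h4 : ∏ i, dI (B' i) ≤ mP P' := by
    rw [← hr, ← hsp, hg3, Ideal.span_singleton_le_iff_mem]
    exact h3
  have : (mP P').IsPrime := RingHom.ker_isPrime _
  obtain ⟨i, -, hi⟩ := (Ideal.IsPrime.prod_le this).1 h4
  have h5 : P' ∈ B' i := dI_le_mP.1 hi
  obtain ⟨Q, hQ, hQP⟩ := ve5_forall2 (hB' i) h5
  exact hC i Q hQ ((cg_iff_cgW hV T₀ hP (hf i Q hQ)).2 ((redP_eq_iff hP' hQP).1 rfl))

theorem kb_le (k : Type) {Ω : Type} [Field k] [Field Ω] [Algebra k Ω] {V : ValuationSubring Ω}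
    (hV : ∀ c ∈ kbF k Ω, c ∈ V) (c : k) : algebraMap k Ω c ∈ V :=
  hV _ ((kbF k Ω).algebraMap_mem c)

theorem kb_val {V : ValuationSubring Ω} (hV : ∀ c ∈ kbF k Ω, c ∈ V) {c : Ω} (hc : c ∈ kbF k Ω)
    (h0 : c ≠ 0) : V.valuation c = 1 := by
  have h1 : V.valuation c ≤ 1 := (V.valuation_le_one_iff _).2 (hV c hc)
  have h2 : V.valuation c⁻¹ ≤ 1 := (V.valuation_le_one_iff _).2 (hV _ ((kbF k Ω).inv_mem hc))
  have h3 : V.valuation c * V.valuation c⁻¹ = 1 := by
    rw [← map_mul, mul_inv_cancel₀ h0, map_one]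
  refine le_antisymm h1 ?_
  calc (1 : V.ValueGroup) = V.valuation c * V.valuation c⁻¹ := h3.symm
    _ ≤ V.valuation c * 1 := mul_le_mul_right h2 _
    _ = V.valuation c := mul_one _

theorem PK_xx {K : Set Ω} {P : Pt T} (hP : PK k K P) : xx P ∈ K := hP _ g_cf_x

private theorem ve5_cf_f (j : ZMod d) : Cf (Set.range (algebraMap k Ω)) (WB.f T j) := by
  intro i n
  rw [WB.f_co]
  by_cases hj : i = j
  · rw [hj, Pi.single_eq_same, coeff_one]
    split_ifs
    · exact ⟨1, map_one _⟩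
    · exact ⟨0, map_zero _⟩
  · rw [Pi.single_eq_of_ne hj, coeff_zero]
    exact ⟨0, map_zero _⟩

theorem ve5_pt_ext {P Q : Pt T} (h : ∀ b : WB T, Cf (Set.range (algebraMap k Ω)) b → P b = Q b) :
    P = Q := by
  have hx : xx P = xx Q := h _ g_cf_x
  refine AlgHom.ext fun b => ?_
  rw [← WB.sum_f b, map_sum, map_sum]
  refine Finset.sum_congr rfl fun j _ => ?_
  rw [g_P_smul, g_P_smul, hx, h _ (ve5_cf_f j)]

theorem cg_kb {V : ValuationSubring Ω} (hV : ∀ c ∈ kbF k Ω, c ∈ V) {P Q : Pt T}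
    (hP : PK k (kbF k Ω : Set Ω) P) (hQ : PK k (kbF k Ω : Set Ω) Q) (h : Cg k V P Q) : P = Q := by
  refine ve5_pt_ext (k := k) fun b hb => ?_
  by_contra hne
  have h1 : P b - Q b ∈ kbF k Ω := (kbF k Ω).sub_mem (hP b hb) (hQ b hb)
  have h2 := kb_val hV h1 (sub_ne_zero.2 hne)
  exact absurd (h b hb) (by rw [h2]; exact lt_irrefl _)

theorem good_kb {V : ValuationSubring Ω} (hV : ∀ c ∈ kbF k Ω, c ∈ V) {X : List (Pt T)}
    (hX : ∀ P ∈ X, PK k (kbF k Ω : Set Ω) P) (hn : X.Nodup) : Good k V X where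
  fin P hP := hV _ (PK_xx (hX P hP))
  dif := List.Pairwise.imp_of_mem
    (fun {P Q} hP hQ hne hC => hne (cg_kb hV (hX P hP) (hX Q hQ) hC)) hn

theorem finite_cg {V : ValuationSubring Ω} (hV : ∀ c ∈ kbF k Ω, c ∈ V) (S : List (Pt T)) :
    {P : Pt T | PK k (kbF k Ω : Set Ω) P ∧ ∃ Q ∈ S, Cg k V P Q}.Finite := by
  have h1 : {P : Pt T | PK k (kbF k Ω : Set Ω) P ∧ ∃ Q ∈ S, Cg k V P Q} ⊆
      ⋃ Q ∈ {Q | Q ∈ S}, {P : Pt T | PK k (kbF k Ω : Set Ω) P ∧ Cg k V P Q} := by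
    rintro P ⟨hP, Q, hQ, hC⟩
    exact Set.mem_biUnion (show Q ∈ {Q | Q ∈ S} from hQ) ⟨hP, hC⟩
  refine Set.Finite.subset (Set.Finite.biUnion (List.finite_toSet S) fun Q _ => ?_) h1
  refine Set.Subsingleton.finite fun P hP P' hP' => ?_
  exact cg_kb hV hP.1 hP'.1 (cg_trans hP.2 (cg_symm hP'.2))

end

end Pool.Agent.TIFT
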