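import Mathlib
import Pool.Agent.TIFT.VDefs
import Pool.Agent.TIFT.A3
import Pool.Agent.TIFT.VA1

/-!
# [TIF, block THETA, section V] row VA2

The reduction of `ev` and of `Dl`.
-/

set_option autoImplicit false
set_option linter.unusedSectionVars false

open Polynomial IsLocalRing

namespace Pool.Agent.TIFT

open GT TIF

section

variable {F : Type} [Field F] {V : ValuationSubring F} {d : ℕ} [NeZero d] {T : Tab V d}

theorem redL_ev {X : List (Pt (T.map V.subtype))} {X' : List (Pt (T.map (residue V)))}
    (h : List.Forall₂ RedP X X') (b : WB T) :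
    ∃ c : V, (c : F) = ev (inc T b) X ∧ residue V c = ev (rd T b) X' := by
  induction h with
  | nil =>
    refine ⟨1, ?_, ?_⟩
    · rw [ev, List.map_nil, List.prod_nil]
      rfl
    · rw [ev, List.map_nil, List.prod_nil, map_one]
  | cons h1 h2 ih =>
    obtain ⟨c, hc, hc'⟩ := ih
    obtain ⟨a, ha, ha'⟩ := h1 b
    refine ⟨a * c, ?_, ?_⟩
    · rw [ev, List.map_cons, List.prod_cons, ← ha]
      rw [ev] at hc
      rw [← hc]
      rfl
    · rw [ev, List.map_cons, List.prod_cons, ← ha', map_mul, hc']
      rfl

theorem redL_Dl {X : List (Pt (T.map V.subtype))} {X' : List (Pt (T.map (residue V)))}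
    (h : List.Forall₂ RedP X X') :
    ∃ c : V, (c : F) = Dl X ∧ residue V c = Dl X' := by
  have hl : X.length = X'.length := h.length_eq
  have hg : ∀ i : Fin X.length, RedP (X.get i) (X'.get (Fin.cast hl i)) := fun i =>
    List.Forall₂.get h i.2 (by rw [← hl]; exact i.2)
  choose c hc hc' using fun (i : Fin X.length) (j : ℕ) => hg i (e T j)
  have e1 : ∀ j, inc T (e T j) = e (T.map V.subtype) j := fun j => bmap_e V.subtype rfl j
  have e2 : ∀ j, rd T (e T j) = e (T.map (residue V)) j := fun j => bmap_e (residue V) rfl j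
  refine ⟨Matrix.det (Matrix.of fun i j : Fin X.length => c i j), ?_, ?_⟩
  · have h1 := V.subtype.map_det (Matrix.of fun i j : Fin X.length => c i j)
    refine h1.trans ?_
    unfold Dl
    congr 1
    ext i j
    show (c i j : F) = X.get i (e (T.map V.subtype) j)
    rw [hc, e1]
  · rw [RingHom.map_det]
    have h2 : Dl X' = Matrix.det ((Matrix.of fun i j : Fin X'.length =>
        (X'.get i) (e (T.map (residue V)) j)).submatrix (finCongr hl) (finCongr hl)) := by
      rw [Matrix.det_submatrix_equiv_self]
      rfl
    rw [h2]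
    congr 1
    ext i j
    show residue V (c i j) = X'.get (Fin.cast hl i) (e (T.map (residue V)) j)
    rw [hc', e2]

end

end Pool.Agent.TIFT
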