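import Mathlib
import Pool.Agent.TIFT.VB3
import Pool.Agent.MP_c1dca2_ag.GT.C3

/-!
# [TIF, block THETA, section V] row VC1

exists_VF: I := an ideal of class x⁻¹ (exists_cls), I ≠ ⊥. exists_large: inc b ∈ I, pord (inc b) <= m, rd b ≠ 0, m + len (rI I) <= pord (rd b) + len I. span {inc b} <= I: span {inc b} = I * J (Dedekind: Ideal.dvd_iff_le), cls J = x (cls_span, cls_mul). rI I * rI J <= rI (I * J) = rI (span {inc b}) = span {rd b} (rI_span; the inclusion as in rI_mul), so pord (rd b) = len (span {rd b}) <= len (rI I) + len (rI J) (len_mono, len_mul, len_span). len J = pord (inc b) - len I <= m - len I <= pord (rd b) - len (rI I) <= len (rI J), with len_rI_le equality: VF_of_len. cls_rI_eq (W4): let K be VF of class (cls J)⁻¹ (exists_VF): J * K = span {a}, a ≠ 0 (cls_eq_one_iff), VF (VF_mul): VF_gen: rI J * rI K = rI (J * K) = span {rd g}, so cls (rI J) * cls (rI K) = 1; the same for J'. rW_IB_eq (W5): rW (IB J m) <= IB (rI J) m (rW_IB); finrank_IB_sharp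 (import TIFT.K0) on both sides, finrank_rW, VF_len: equal dimensions (Submodule.eq_of_le_of_finrank_le).
-/

set_option autoImplicit false
set_option linter.unusedSectionVars false

open Polynomial IsLocalRing

namespace Pool.Agent.TIFT

open GT TIF

section

variable {F : Type} [Field F] [IsAlgClosed F] {V : ValuationSubring F} {d : ℕ} [NeZero d]
  {T : Tab V d} [hG : IsDedekindDomain (WB (T.map V.subtype))]
  [hG' : IsDedekindDomain (WB (T.map (residue V)))]

theorem exists_VF (x : ClassGroup (WB (T.map V.subtype))) :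
    ∃ J : Ideal (WB (T.map V.subtype)), VF J ∧ cls J = x := by
  obtain ⟨I, hI, hc⟩ := exists_cls x⁻¹
  obtain ⟨m, b, hb, hbm, hb0, hlarge⟩ := exists_large hI
  have hib : inc T b ≠ 0 := by
    intro h
    apply hb0
    rw [inc_inj (h.trans (map_zero _).symm), map_zero]
  have hs0 : (Ideal.span {inc T b} : Ideal (WB (T.map V.subtype))) ≠ ⊥ := by
    rwa [Ne, Ideal.span_singleton_eq_bot]
  obtain ⟨J, hJ⟩ := Ideal.dvd_iff_le.2 ((Ideal.span_singleton_le_iff_mem _).2 hb)
  have hJ0 : J ≠ ⊥ := by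
    rintro rfl
    rw [Ideal.mul_bot] at hJ
    exact hs0 hJ
  have hcJ : cls J = x := by
    have h1 : cls (Ideal.span {inc T b} : Ideal (WB (T.map V.subtype))) = 1 := cls_span hib
    rw [hJ, cls_mul hI hJ0, hc] at h1
    exact (inv_mul_eq_one.1 h1).symm
  refine ⟨J, VF_of_len hJ0 (le_antisymm (len_rI_le hJ0) ?_), hcJ⟩
  have h1 : rI I * rI J ≤ Ideal.span {rd T b} := by
    rw [← rI_span hb0, hJ, Ideal.mul_le]
    intro y hy z hz
    rw [mem_rI] at hy hz ⊢
    obtain ⟨y', hy', rfl⟩ := hy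
    obtain ⟨z', hz', rfl⟩ := hz
    refine ⟨y' * z', ?_, map_mul _ _ _⟩
    rw [map_mul]
    exact Ideal.mul_mem_mul hy' hz'
  have h2 := len_mono (mul_ne_zero (rI_ne_bot hI) (rI_ne_bot hJ0)) h1
  rw [len_mul (rI_ne_bot hI) (rI_ne_bot hJ0), len_span hb0] at h2
  have h3 := len_span hib
  rw [hJ, len_mul hI hJ0] at h3
  omega

/-- the inverse class -/
private theorem vc1_inv {J K : Ideal (WB (T.map V.subtype))} (hJ : VF J) (hK : VF K)
    (h : cls J * cls K = 1) : cls (rI J) * cls (rI K) = 1 := by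
  have hJ0 := VF_ne hJ
  have hK0 := VF_ne hK
  have hJK := VF_mul hJ hK
  have hJK0 : J * K ≠ ⊥ := mul_ne_zero hJ0 hK0
  rw [← cls_mul hJ0 hK0, cls_eq_one_iff hJK0] at h
  obtain ⟨a, ha⟩ := h
  have ha0 : a ≠ 0 := by
    rintro rfl
    rw [Ideal.span_singleton_eq_bot.2 rfl] at ha
    exact hJK0 ha
  rw [ha] at hJK
  obtain ⟨g, hg, -, hg2⟩ := VF_gen ha0 hJK
  have hg0 := (lc_one_rd hg).2.2.2.2.1
  rw [← cls_mul (rI_ne_bot hJ0) (rI_ne_bot hK0), ← rI_mul hJ hK, ha, hg2, cls_span hg0]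

theorem cls_rI_eq {J J' : Ideal (WB (T.map V.subtype))} (hJ : VF J) (hJ' : VF J')
    (h : cls J = cls J') : cls (rI J) = cls (rI J') := by
  obtain ⟨K, hK, hc⟩ := exists_VF (cls J)⁻¹
  have h1 := vc1_inv hJ hK (by rw [hc, mul_inv_cancel])
  have h2 := vc1_inv hJ' hK (by rw [hc, ← h, mul_inv_cancel])
  exact mul_right_cancel (h1.trans h2.symm)

end

end Pool.Agent.TIFT
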