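import Mathlib
import Pool.Agent.TIFT.VB2
import Pool.Agent.TIFT.K0

/-!
# [TIF, block THETA, section V] row VC3

rW (IB J m) <= IB (rI J) m (rW_IB); finrank_IB_sharp on both sides (over F and over the residue field, which is algebraically closed by GT.instResidueAlgClosed), finrank_rW, VF_len: the dimensions are equal (Submodule.eq_of_le_of_finrank_le). gp (T.map _) = gp T is rfl. NOTE: finrank_IB_sharp in TIFT/K0.lean: look whether it is stated over a general field; if it is stated in a setting with a base field k take k := F resp. k := ResidueField V (Algebra.id).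
-/

set_option autoImplicit false
set_option linter.unusedSectionVars false

open Polynomial IsLocalRing

namespace Pool.Agent.TIFT

open GT TIF

section

variable {F : Type} [Field F] [IsAlgClosed F] {V : ValuationSubring F} {d : ℕ} [NeZero d]
  {T : Tab V d} [hG : IsDedekindDomain (WB (T.map V.subtype))]
  [hG' : IsDedekindDomain (WB (T.map (residue V)))]

theorem rW_IB_eq {J : Ideal (WB (T.map V.subtype))} (hJ : VF J) {m : ℕ}
    (hm : len J + 2 * gp T ≤ m + 1) : rW (IB J m) = IB (rI J) m := by
  have hJ0 := VF_ne hJ
  have hl := VF_len hJ
  have e1 : gp (T.map V.subtype) = gp T := rfl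
  have e2 : gp (T.map (residue V)) = gp T := rfl
  have h1 := finrank_IB_sharp hJ0 (m := m) (by rw [e1]; exact hm)
  have h2 := finrank_IB_sharp (rI_ne_bot hJ0) (m := m) (by rw [e2, hl]; exact hm)
  have h3 := finrank_rW (IB J m) m inf_le_right
  refine Submodule.eq_of_le_of_finrank_le (rW_IB J m) ?_
  rw [e1] at h1
  rw [e2, hl] at h2
  omega

end

end Pool.Agent.TIFT
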