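import Mathlib
import Pool.Agent.TIFT.VB5
import Pool.Agent.TIFT.VC1
import Pool.Agent.TIFT.VC3
import Pool.Agent.TIFT.VA2
import Pool.Agent.TIFT.K3

/-!
# [TIF, block THETA, section V] row VD1

J := VF of class x⁻¹ (exists_VF). exists_rep (TIFT/K3 or K2; over the residue field) for the class (cls (rI J))⁻¹, the list S' of the reductions of the V-finite points of S (S.filterMap / induction: a list containing every P' with RedP Q P', Q ∈ S), and n: X₀ Nodup, avoids S', cl X₀ = (cls (rI J))⁻¹, |X₀| = n. rI J * dI X₀ = span {b'}, b' ≠ 0 (cls_eq_one_iff), pord b' = len (rI J) + n = len J + n =: m (len_span, len_mul, len_dI, VF_len). b' ∈ IB (rI J) m = rW (IB J m) (rW_IB_eq; 2 gp <= nT <= n): b' = rd b, inc b ∈ J, pord (inc b) <= m; pord (rd b) = m, so pord b = m and lc b is a unit (lcf_bmap); divide: wlog lc b = 1 (b' changes by a unit). span {inc b} <= J: = J * dI X (Ideal.dvd_iff_le, exists_dI), |X| = n, cl X = x. inc b ∈ dI X, so X is V-finite (VF_dI_iff);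 exists_redL: X'; rI J * dI X' = rI (J * dI X) = rI (span {inc b}) = span {rd b} = rI J * dI X₀ (rI_mul, rI_dI, rI_span): cancel: dI X' = dI X₀, perm_of_dI: X' is a permutation of X₀.
-/

set_option autoImplicit false
set_option linter.unusedSectionVars false

open Polynomial IsLocalRing

namespace Pool.Agent.TIFT

open GT TIF

section

variable {F : Type} [Field F] [IsAlgClosed F] {V : ValuationSubring F} {d : ℕ} [NeZero d]
  {T : Tab V d} [hG : IsDedekindDomain (WB (T.map V.subtype))]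
  [hG' : IsDedekindDomain (WB (T.map (residue V)))]

private theorem vd1_red (S : List (Pt (T.map V.subtype))) :
    ∃ S' : List (Pt (T.map (residue V))), ∀ Q ∈ S, ∀ P', RedP Q P' → P' ∈ S' := by
  induction S with
  | nil => exact ⟨[], by simp⟩
  | cons Q S ih =>
    obtain ⟨S', hS'⟩ := ih
    by_cases hQ : ∃ P', RedP Q P'
    · obtain ⟨P', hP'⟩ := hQ
      refine ⟨P' :: S', ?_⟩
      intro R hR P'' hP''
      rcases List.mem_cons.1 hR with rfl | hR
      · rw [hP''.uniq hP']
        exact List.mem_cons_self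
      · exact List.mem_cons_of_mem _ (hS' R hR P'' hP'')
    · refine ⟨S', ?_⟩
      intro R hR P'' hP''
      rcases List.mem_cons.1 hR with rfl | hR
      · exact absurd ⟨P'', hP''⟩ hQ
      · exact hS' R hR P'' hP''

theorem exists_goodW (x : ClassGroup (WB (T.map V.subtype))) (S : List (Pt (T.map V.subtype)))
    {n : ℕ} (hn : nT T ≤ n) :
    ∃ (X : List (Pt (T.map V.subtype))) (X' : List (Pt (T.map (residue V)))),
      List.Forall₂ RedP X X' ∧ X'.Nodup ∧ (∀ P' ∈ X', ∀ Q ∈ S, ¬ RedP Q P') ∧ cl X = x ∧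
        X.length = n := by
  obtain ⟨J, hJ, hJc⟩ := exists_VF (T := T) x⁻¹
  have hJ0 : J ≠ ⊥ := VF_ne hJ
  have hrJ0 : rI J ≠ ⊥ := rI_ne_bot hJ0
  obtain ⟨S', hS'⟩ := vd1_red S
  have hn' : nT (T.map (residue V)) ≤ n := hn
  obtain ⟨X₀, hX1, hX2, hX3, hX4⟩ := exists_rep (cls (rI J))⁻¹ S' hn'
  have hX0 : dI X₀ ≠ ⊥ := dI_ne_bot X₀
  have hI0 : rI J * dI X₀ ≠ ⊥ := mul_ne_zero hrJ0 hX0
  have hc1 : cls (rI J * dI X₀) = 1 := by
    rw [cls_mul hrJ0 hX0]
    change cls (rI J) * cl X₀ = 1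
    rw [hX3, mul_inv_cancel]
  obtain ⟨b', hb'⟩ := (cls_eq_one_iff hI0).1 hc1
  have hb'0 : b' ≠ 0 := by
    rintro rfl
    rw [Ideal.span_singleton_eq_bot.2 rfl] at hb'
    exact hI0 hb'
  have hpb' : pord b' = len J + n := by
    rw [← len_span hb'0, ← hb', len_mul hrJ0 hX0, VF_len hJ, len_dI, hX4]
  have hmem : b' ∈ IB (rI J) (len J + n) := by
    rw [mem_IB]
    refine ⟨?_, hpb'.le⟩
    have h1 : Ideal.span {b'} ≤ rI J := by
      rw [← hb']
      exact Ideal.mul_le_left
    exact (Ideal.span_singleton_le_iff_mem _).1 h1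
  have hm : len J + 2 * gp T ≤ len J + n + 1 := by
    unfold nT at hn
    omega
  have hm' : len J + 2 * gp (T.map V.subtype) ≤ len J + n + 1 := hm
  rw [← rW_IB_eq hJ hm, mem_rW] at hmem
  obtain ⟨b, hbJ, hbb⟩ := hmem
  rw [mem_IB] at hbJ
  obtain ⟨hbJ, hbp⟩ := hbJ
  have hpb : pord (inc T b) = pord b := pord_bmap V.subtype rfl Subtype.val_injective b
  have hle : pord b ≤ len J + n := by rw [← hpb]; exact hbp
  have hbm : b ∈ Ble T (len J + n) := (mem_Ble_iff b _).2 hle
  have hlcb' : GT.lc b' = residue V (lcf T (len J + n) b) := by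
    have h1 : GT.lc b' = lcf (T.map (residue V)) (pord b') b' := rfl
    rw [h1, hpb', ← hbb]
    exact lcf_bmap (residue V) rfl (len J + n) b
  have hres : residue V (lcf T (len J + n) b) ≠ 0 := by
    rw [← hlcb']
    exact lc_ne hb'0
  have hunit : IsUnit (lcf T (len J + n) b) := by
    by_contra h1
    exact hres ((residue_eq_zero_iff _).2 ((mem_maximalIdeal _).2 h1))
  have hpbm : pord b = len J + n := pord_eq_of hbm hunit.ne_zero
  have hlcb : GT.lc b = lcf T (len J + n) b := by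
    have h1 : GT.lc b = lcf T (pord b) b := rfl
    rw [h1, hpbm]
  obtain ⟨u, hu⟩ := hunit
  -- normalise
  set c : V := ((u⁻¹ : Vˣ) : V) with hcdef
  have hlc1 : GT.lc (c • b) = 1 := by
    rw [lc_smul, hlcb, ← hu, hcdef, Units.inv_mul]
  have hincJ : inc T (c • b) ∈ J := by
    rw [inc_smul, Algebra.smul_def]
    exact J.mul_mem_left _ hbJ
  obtain ⟨h1, h2, h3, h4, h5, h6⟩ := lc_one_rd hlc1
  have hspan : Ideal.span {rd T (c • b)} = Ideal.span {b'} := by
    rw [rd_smul, hbb, Algebra.smul_def]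
    have hcu : IsUnit (residue V c) := (Units.isUnit (u⁻¹)).map (residue V)
    exact Ideal.span_singleton_mul_left_unit (hcu.map (algebraMap _ (WB (T.map (residue V))))) b'
  have hleJ : Ideal.span {inc T (c • b)} ≤ J := (Ideal.span_singleton_le_iff_mem J).2 hincJ
  obtain ⟨I, hI⟩ := Ideal.dvd_iff_le.2 hleJ
  have hsp0 : Ideal.span {inc T (c • b)} ≠ ⊥ := by
    rw [Ne, Ideal.span_singleton_eq_bot]
    exact h6
  have hIne : I ≠ ⊥ := by
    rintro rfl
    rw [Ideal.mul_bot] at hI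
    exact hsp0 hI
  obtain ⟨X, rfl⟩ := exists_dI hIne
  have hpc : pord (c • b) = len J + n := by
    have h7 : c ≠ 0 := (Units.ne_zero (u⁻¹))
    rw [pord_smul h7, hpbm]
  have hXlen : X.length = n := by
    have h7 : len (Ideal.span {inc T (c • b)}) = len J + X.length := by
      rw [hI, len_mul hJ0 hIne, len_dI]
    rw [len_span h6, h2, hpc] at h7
    omega
  have hclX : cl X = x := by
    have h7 : cls (Ideal.span {inc T (c • b)}) = 1 := (cls_eq_one_iff hsp0).2 ⟨_, rfl⟩
    rw [hI, cls_mul hJ0 hIne, hJc] at h7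
    have h8 : x⁻¹ * cl X = 1 := h7
    exact (inv_mul_eq_one.1 h8).symm
  have hmemX : inc T (c • b) ∈ dI X := by
    have h7 : Ideal.span {inc T (c • b)} ≤ dI X := by
      rw [hI]
      exact Ideal.mul_le_right
    exact (Ideal.span_singleton_le_iff_mem _).1 h7
  have hVF : VF (dI X) := ⟨c • b, hmemX, hlc1⟩
  obtain ⟨X', hXX'⟩ := exists_redL (VF_dI_iff.1 hVF)
  have hkey : rI J * dI X' = rI J * dI X₀ := by
    rw [hb', ← hspan, ← rI_span h5, hI, rI_mul hJ hVF, rI_dI hXX']
  have hdI : dI X' = dI X₀ := mul_left_cancel₀ hrJ0 hkey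
  have hperm := perm_of_dI hdI
  refine ⟨X, X', hXX', hperm.nodup_iff.2 hX1, ?_, hclX, hXlen⟩
  intro P' hP' Q hQ hQP
  exact hX2 P' (hperm.mem_iff.1 hP') (hS' Q hQ P' hQP)

end

end Pool.Agent.TIFT
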