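import Pool.Agent.TIFT.K0
import Pool.Agent.TIFT.C2

/-!
# [TIF, block THETA] row K4
-/

set_option autoImplicit false
set_option linter.unusedSectionVars false

open Polynomial IsLocalRing

namespace Pool.Agent.TIFT

open GT TIF

section

variable {d : ℕ} [NeZero d] {κ : Type} [Field κ] [IsAlgClosed κ] {T : Tab κ d}
  [IsDedekindDomain (WB T)]

private theorem k4_x_not (T : Tab κ d) : ∀ c : κ, WB.x T ≠ algebraMap κ (WB T) c := by
  intro c h
  have h1 : algebraMap κ[X] (WB T) X = algebraMap κ[X] (WB T) (C c) := by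
    have : WB.x T = algebraMap κ[X] (WB T) X := rfl
    rw [← this, h, IsScalarTower.algebraMap_apply κ κ[X] (WB T), Polynomial.algebraMap_eq]
  have h2 := FaithfulSMul.algebraMap_injective κ[X] (WB T) h1
  have h3 := congrArg Polynomial.natDegree h2
  rw [natDegree_X, natDegree_C] at h3
  exact one_ne_zero h3

private theorem k4_not_isField (T : Tab κ d) : ¬ IsField (WB T) := by
  intro hf
  have hx : (WB.x T) ≠ 0 := by
    intro h
    exact k4_x_not T 0 (by rw [h, map_zero])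
  obtain ⟨y, hy⟩ := hf.mul_inv_cancel hx
  obtain ⟨r, -, hr⟩ := eq_const_of_isUnit (IsUnit.of_mul_eq_one y hy)
  exact k4_x_not T r hr

private theorem k4_pt {b : WB T} (hb : b ≠ 0) (S : List (Pt T)) : ∃ P : Pt T, P ∉ S ∧ P b ≠ 0 := by
  have hft : Algebra.FiniteType κ (WB T) :=
    Algebra.FiniteType.trans (S := κ[X]) inferInstance inferInstance
  have hJ : IsJacobsonRing (WB T) := isJacobsonRing_of_finiteType (A := κ)
  obtain ⟨c, hc⟩ : ∃ c, c = b * (S.map fun Q => WB.x T - algebraMap κ (WB T) (Q (WB.x T))).prod :=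
    ⟨_, rfl⟩
  have hc0 : c ≠ 0 := by
    rw [hc]
    refine mul_ne_zero hb ?_
    rw [Ne, List.prod_eq_zero_iff, List.mem_map]
    rintro ⟨Q, -, hQ⟩
    exact k4_x_not T _ (sub_eq_zero.mp hQ)
  by_contra hno
  push Not at hno
  have hall : ∀ P : Pt T, P c = 0 := by
    intro P
    by_cases hP : P ∈ S
    · have h0 : P ((S.map fun Q => WB.x T - algebraMap κ (WB T) (Q (WB.x T))).prod) = 0 := by
        rw [map_list_prod, List.map_map]
        apply List.prod_eq_zero
        rw [List.mem_map]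
        refine ⟨P, hP, ?_⟩
        simp
      rw [hc, map_mul, h0, mul_zero]
    · rw [hc, map_mul, hno P hP, zero_mul]
  have h2 : (⊥ : Ideal (WB T)).jacobson = ⊥ := by
    apply hJ.out
    exact Ideal.isRadical_bot
  apply hc0
  rw [← Ideal.mem_bot, ← h2, Ideal.jacobson, Ideal.mem_sInf]
  rintro M ⟨-, hM⟩
  have hM0 : M ≠ ⊥ := by
    rintro rfl
    exact k4_not_isField T (Ring.isField_iff_maximal_bot.mpr hM)
  obtain ⟨χ, hχ⟩ := exists_hom M hM hM0
  rw [← hχ, RingHom.mem_ker]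
  exact hall χ

private theorem k4_drop {J : Ideal (WB T)} {m r : ℕ}
    (h : Module.finrank κ (IB J m) ≤ r + 1) {b : WB T} (hb : IB J m ≠ ⊥ → b ∈ IB J m)
    {P : Pt T} (hP : P b ≠ 0) : Module.finrank κ (IB (J * mP P) m) ≤ r := by
  have hle : IB (J * mP P) m ≤ IB J m := IB_le Ideal.mul_le_left m
  by_cases h0 : IB J m = ⊥
  · have : IB (J * mP P) m = ⊥ := by rw [eq_bot_iff, ← h0]; exact hle
    rw [this, finrank_bot]
    exact Nat.zero_le _
  · have hlt : IB (J * mP P) m < IB J m := by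
      refine lt_of_le_of_ne hle ?_
      intro he
      have h1 := hb h0
      rw [← he, mem_IB] at h1
      have h2 : b ∈ mP P := Ideal.mul_le_right h1.1
      exact hP h2
    have := Submodule.finrank_lt_finrank_of_lt hlt
    omega

private theorem k4_kill (n : ℕ) : ∀ (J J' : Ideal (WB T)) (m m' : ℕ) (S : List (Pt T)),
    Module.finrank κ (IB J m) ≤ n → Module.finrank κ (IB J' m') ≤ n →
    ∃ Y : List (Pt T), Y.Nodup ∧ (∀ P ∈ Y, P ∉ S) ∧ Y.length = n ∧
      IB (J * dI Y) m = ⊥ ∧ IB (J' * dI Y) m' = ⊥ := by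
  induction n with
  | zero =>
    intro J J' m m' S h h'
    refine ⟨[], List.nodup_nil, by simp, rfl, ?_, ?_⟩
    · rw [dI_nil, Ideal.mul_top]
      exact Submodule.finrank_eq_zero.mp (Nat.le_zero.mp h)
    · rw [dI_nil, Ideal.mul_top]
      exact Submodule.finrank_eq_zero.mp (Nat.le_zero.mp h')
  | succ n ih =>
    intro J J' m m' S h h'
    have hex : ∀ (J : Ideal (WB T)) (m : ℕ), ∃ b : WB T, b ≠ 0 ∧ (IB J m ≠ ⊥ → b ∈ IB J m) := by
      intro J m
      by_cases h0 : IB J m = ⊥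
      · exact ⟨1, one_ne_zero, fun h => absurd h0 h⟩
      · obtain ⟨b, hb, hb0⟩ := Submodule.exists_mem_ne_zero_of_ne_bot h0
        exact ⟨b, hb0, fun _ => hb⟩
    obtain ⟨b, hb0, hb⟩ := hex J m
    obtain ⟨b', hb0', hb'⟩ := hex J' m'
    obtain ⟨P, hPS, hP⟩ := k4_pt (mul_ne_zero hb0 hb0') S
    rw [map_mul] at hP
    obtain ⟨Y, h1, h2, h3, h4, h5⟩ := ih (J * mP P) (J' * mP P) m m' (P :: S)
      (k4_drop h hb (left_ne_zero_of_mul hP)) (k4_drop h' hb' (right_ne_zero_of_mul hP))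
    have hdI : ∀ I : Ideal (WB T), I * mP P * dI Y = I * dI (P :: Y) := by
      intro I
      rw [mul_assoc]
      rfl
    refine ⟨P :: Y, ?_, ?_, ?_, ?_, ?_⟩
    · rw [List.nodup_cons]
      exact ⟨fun h => h2 P h (List.mem_cons_self ..), h1⟩
    · intro Q hQ
      rcases List.mem_cons.mp hQ with rfl | hQ
      · exact hPS
      · intro hQS
        exact h2 Q hQ (List.mem_cons_of_mem _ hQS)
    · rw [List.length_cons, h3]
    · rw [← hdI]; exact h4
    · rw [← hdI]; exact h5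

private theorem k4_ns {I : Ideal (WB T)} (hI : I ≠ ⊥) {Y : List (Pt T)} {m : ℕ}
    (hm : gp T ≠ 0 → len I + Y.length + gp T ≤ m + 1) (h : IB (I * dI Y) m = ⊥) :
    Ns (cls I * cl Y) := by
  rw [Ns_iff_vanish]
  intro J hJ hcl
  by_contra hlt
  push Not at hlt
  have hY := dI_ne_bot Y
  have h1 : cls (I * dI Y * J) = 1 := by
    rw [cls_mul (mul_ne_zero hI hY) hJ, cls_mul hI hY, hcl]
    exact mul_inv_cancel _
  obtain ⟨b, hb⟩ := (cls_eq_one_iff (mul_ne_zero (mul_ne_zero hI hY) hJ)).mp h1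
  have hb0 : b ≠ 0 := by
    rintro rfl
    rw [Ideal.span_singleton_eq_bot.mpr rfl] at hb
    exact mul_ne_zero (mul_ne_zero hI hY) hJ hb
  have h2 : pord b = len I + Y.length + len J := by
    rw [← len_span hb0, ← hb, len_mul (mul_ne_zero hI hY) hJ, len_mul hI hY, len_dI]
  have h3 : b ∈ I * dI Y := by
    have : b ∈ I * dI Y * J := by rw [hb]; exact Ideal.mem_span_singleton_self b
    exact Ideal.mul_le_left this
  have hg : gp T ≠ 0 := by omega
  have h4 : b ∈ IB (I * dI Y) m := by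
    rw [mem_IB]
    refine ⟨h3, ?_⟩
    have := hm hg
    omega
  rw [h, Submodule.mem_bot] at h4
  exact hb0 h4

private theorem k4_main (x x' : ClassGroup (WB T)) (S : List (Pt T)) {n : ℕ} (hn : gp T ≤ n) :
    ∃ Y : List (Pt T), Y.Nodup ∧ (∀ P ∈ Y, P ∉ S) ∧ Ns (x * cl Y) ∧ Ns (x' * cl Y) ∧
      Y.length = n := by
  have key : ∀ x : ClassGroup (WB T), n + gp T ≠ 0 →
      Module.finrank κ (IB (rdc x) (len (rdc x) + n + gp T - 1)) ≤ n := by
    intro x h0
    have h1 := finrank_IB_sharp (rdc_ne x) (m := len (rdc x) + n + gp T - 1) (by omega)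
    omega
  by_cases h0 : n + gp T = 0
  · have hg : gp T = 0 := by omega
    have hn0 : n = 0 := by omega
    refine ⟨[], List.nodup_nil, by simp, ?_, ?_, by rw [hn0]; rfl⟩
    · rw [Ns_iff_vanish, hg]
      intro I _ _
      exact Nat.zero_le _
    · rw [Ns_iff_vanish, hg]
      intro I _ _
      exact Nat.zero_le _
  · obtain ⟨Y, h1, h2, h3, h4, h5⟩ := k4_kill n (rdc x) (rdc x') _ _ S (key x h0) (key x' h0)
    refine ⟨Y, h1, h2, ?_, ?_, h3⟩
    · have := k4_ns (rdc_ne x) (Y := Y) (m := len (rdc x) + n + gp T - 1)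
        (by intro hg; omega) h4
      rwa [cls_rdc] at this
    · have := k4_ns (rdc_ne x') (Y := Y) (m := len (rdc x') + n + gp T - 1)
        (by intro hg; omega) h5
      rwa [cls_rdc] at this

theorem exists_kill (x x' : ClassGroup (WB T)) (S : List (Pt T)) :
    ∃ Y : List (Pt T), Y.Nodup ∧ (∀ P ∈ Y, P ∉ S) ∧ Ns (x * cl Y) ∧ Ns (x' * cl Y) := by
  obtain ⟨Y, h1, h2, h3, h4, -⟩ := k4_main x x' S le_rfl
  exact ⟨Y, h1, h2, h3, h4⟩

theorem exists_kill_len (x : ClassGroup (WB T)) (S : List (Pt T)) {n : ℕ} (hn : gp T ≤ n) :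
    ∃ Y : List (Pt T), Y.Nodup ∧ (∀ P ∈ Y, P ∉ S) ∧ Ns (x * cl Y) ∧ Y.length = n := by
  obtain ⟨Y, h1, h2, h3, -, h5⟩ := k4_main x x S hn
  exact ⟨Y, h1, h2, h3, h5⟩

end

end Pool.Agent.TIFT
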