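import Mathlib
import Pool.Agent.TIFT.VD1
import Pool.Agent.TIFT.D2
import Pool.Agent.TIFT.K4
import Pool.Agent.TIFT.C2

/-!
# [TIF, block THETA, section V] row VD2

Write X^ = X', Y^ = Y' for the reductions. If Dl X = 0 then (Dl_ne_zero_iff; X Nodup as X' is: RedP is a function) the class is not Ns, so Dl Y = 0: both values 0. Let Dl X, Dl Y ≠ 0. cls (dI X^) = cls (rI (dI X)) = cls (rI (dI Y)) = cls (dI Y^) (rI_dI, cls_rI_eq, VF_dI_iff). exists_kill over the residue field for cl X^, S = X^ ++ Y^: A^ Nodup, disjoint from X^ and Y^, Ns (cl X^ * cl A^). By Dl_ne_zero_iff Dl (X^ ++ A^) ≠ 0, Dl (Y^ ++ A^) ≠ 0. exists_liftL: A. So Dl (X ++ A), Dl (Y ++ A) have valuation 1 (redL_Dl; residue ≠ 0). exists_goodW for the class (cl X)⁻¹, S := X ++ Y ++ A: Z, Z^. dI X * dI Z = span {u₀} (class 1), VF; VF_gen: u : WB T, lc u = 1, span {inc u} = dI X * dI Z, span {rd u} = dI X^ * dI Z^; so P' (rd u) ≠ 0 for P' ∈ A^ (P' would be in X^ or Z^: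 prime ideal mP P', mP_inj). The same for Y: v. Eqv X Y (inc u) (inc v) (lc_one_rd: lc = 1 both). Dl_change with the list A: Dl (X ++ A) * Dl Y * ev v A = Dl (Y ++ A) * Dl X * ev u A; ev (inc u) A, ev (inc v) A have valuation 1 (redL_ev, nonzero residue: ev_eq_zero_iff). So the valuations of Dl X and Dl Y agree.
-/

set_option autoImplicit false
set_option linter.unusedSectionVars false

open Polynomial IsLocalRing

namespace Pool.Agent.TIFT

open GT TIF

section

variable {F : Type} [Field F] [IsAlgClosed F] {V : ValuationSubring F} {d : ℕ} [NeZero d]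
  {T : Tab V d} [hG : IsDedekindDomain (WB (T.map V.subtype))]
  [hG' : IsDedekindDomain (WB (T.map (residue V)))]

private theorem vd2_val {V : ValuationSubring F} {c : V} {x : F} (h : (c : F) = x)
    (h0 : residue V c ≠ 0) : V.valuation x = 1 := by
  rw [← h]
  refine (ValuationSubring.valuation_eq_one_iff V c).1 ?_
  by_contra hu
  exact h0 ((residue_eq_zero_iff c).2 ((mem_maximalIdeal c).2 hu))

private theorem vd2_mem {α β : Type} {R : α → β → Prop} {l : List α} {l' : List β}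
    (h : List.Forall₂ R l l') : (∀ x ∈ l, ∃ y ∈ l', R x y) ∧ ∀ y ∈ l', ∃ x ∈ l, R x y := by
  induction h with
  | nil => exact ⟨fun x hx => absurd hx List.not_mem_nil, fun y hy => absurd hy List.not_mem_nil⟩
  | cons h1 h2 ih =>
    refine ⟨fun x hx => ?_, fun y hy => ?_⟩
    · rcases List.mem_cons.1 hx with rfl | hx
      · exact ⟨_, List.mem_cons_self, h1⟩
      · obtain ⟨y, hy, hxy⟩ := ih.1 x hx
        exact ⟨y, List.mem_cons_of_mem _ hy, hxy⟩
    · rcases List.mem_cons.1 hy with rfl | hy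
      · exact ⟨_, List.mem_cons_self, h1⟩
      · obtain ⟨x, hx, hxy⟩ := ih.2 y hy
        exact ⟨x, List.mem_cons_of_mem _ hx, hxy⟩

private theorem vd2_nodup {X : List (Pt (T.map V.subtype))} {X' : List (Pt (T.map (residue V)))}
    (h : List.Forall₂ RedP X X') (hX' : X'.Nodup) : X.Nodup := by
  induction h with
  | nil => exact List.nodup_nil
  | cons h1 h2 ih =>
    rw [List.nodup_cons] at hX' ⊢
    refine ⟨fun hm => hX'.1 ?_, ih hX'.2⟩
    obtain ⟨y, hy, hxy⟩ := (vd2_mem h2).1 _ hm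
    rw [h1.uniq hxy]
    exact hy

private theorem vd2_VF {X : List (Pt (T.map V.subtype))} {X' : List (Pt (T.map (residue V)))}
    (h : List.Forall₂ RedP X X') : VF (dI X) :=
  VF_dI_iff.2 fun P hP => by
    obtain ⟨P', -, hPP⟩ := (vd2_mem h).1 P hP
    exact hPP.xx_mem

private theorem vd2_gen {X Z : List (Pt (T.map V.subtype))}
    {X' Z' : List (Pt (T.map (residue V)))}
    (hX : List.Forall₂ RedP X X') (hZ : List.Forall₂ RedP Z Z') (h : cl X * cl Z = 1) :
    ∃ u : WB T, lc u = 1 ∧ Ideal.span {inc T u} = dI X * dI Z ∧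
      Ideal.span {rd T u} = dI X' * dI Z' := by
  have hne : dI X * dI Z ≠ ⊥ := by rw [← dI_append]; exact dI_ne_bot _
  have h1 : cls (dI X * dI Z) = 1 := by
    rw [cls_mul (dI_ne_bot X) (dI_ne_bot Z)]
    exact h
  obtain ⟨b, hb⟩ := (cls_eq_one_iff hne).1 h1
  have hb0 : b ≠ 0 := by
    rintro rfl
    apply hne
    rw [hb, Ideal.span_singleton_eq_bot]
  have hV : VF (dI X * dI Z) := VF_mul (vd2_VF hX) (vd2_VF hZ)
  obtain ⟨g, hg1, hg2, hg3⟩ := VF_gen hb0 (by rw [← hb]; exact hV)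
  refine ⟨g, hg1, by rw [hg2, hb], ?_⟩
  rw [← hg3, ← hb, rI_mul (vd2_VF hX) (vd2_VF hZ), rI_dI hX, rI_dI hZ]

private theorem vd2_ev {A : List (Pt (T.map V.subtype))}
    {X' Z' A' : List (Pt (T.map (residue V)))} (hA : List.Forall₂ RedP A A') {u : WB T}
    (hu : Ideal.span {rd T u} = dI X' * dI Z') (h1 : ∀ P ∈ A', P ∉ X') (h2 : ∀ P ∈ A', P ∉ Z') :
    V.valuation (ev (inc T u) A) = 1 := by
  obtain ⟨c, hc, hc'⟩ := redL_ev hA u
  refine vd2_val hc ?_
  rw [hc']
  intro h0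
  obtain ⟨P, hP, hP0⟩ := (ev_eq_zero_iff _ _).1 h0
  have h3 : dI (X' ++ Z') ≤ mP P := by
    rw [dI_append, ← hu, Ideal.span_singleton_le_iff_mem]
    exact hP0
  rcases List.mem_append.1 (dI_le_mP.1 h3) with h4 | h4
  · exact h1 P hP h4
  · exact h2 P hP h4

theorem good_congrW {X Y : List (Pt (T.map V.subtype))} {X' Y' : List (Pt (T.map (residue V)))}
    (hX : List.Forall₂ RedP X X') (hY : List.Forall₂ RedP Y Y') (hX' : X'.Nodup) (hY' : Y'.Nodup)
    (hg : gp T ≤ X.length) (hg' : gp T ≤ Y.length) (h : cl X = cl Y) :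
    V.valuation (Dl X) = V.valuation (Dl Y) := by
  have hgg : gp T ≤ X'.length := by rw [← hX.length_eq]; exact hg
  have hgg' : gp T ≤ Y'.length := by rw [← hY.length_eq]; exact hg'
  have hiff : Dl X ≠ 0 ↔ Dl Y ≠ 0 := by
    rw [Dl_ne_zero_iff (T := T.map V.subtype) hg, Dl_ne_zero_iff (T := T.map V.subtype) hg', h]
    exact ⟨fun hh => ⟨vd2_nodup hY hY', hh.2⟩, fun hh => ⟨vd2_nodup hX hX', hh.2⟩⟩
  by_cases h0 : Dl X = 0
  · have h0' : Dl Y = 0 := by
      by_contra h1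
      exact hiff.2 h1 h0
    rw [h0, h0']
  have h0' : Dl Y ≠ 0 := hiff.1 h0
  have hcl : cl X' = cl Y' := by
    have h1 := cls_rI_eq (vd2_VF hX) (vd2_VF hY) h
    rw [rI_dI hX, rI_dI hY] at h1
    exact h1
  obtain ⟨A', hA1, hA2, hA3, -⟩ := exists_kill (cl X') (cl X') (X' ++ Y')
  have hAX : ∀ P ∈ A', P ∉ X' := fun P hP h1 => hA2 P hP (List.mem_append_left _ h1)
  have hAY : ∀ P ∈ A', P ∉ Y' := fun P hP h1 => hA2 P hP (List.mem_append_right _ h1)
  have hDX : Dl (X' ++ A') ≠ 0 := by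
    refine (Dl_ne_zero_iff (T := T.map (residue V)) ?_).2 ⟨?_, ?_⟩
    · rw [List.length_append]
      exact le_trans hgg (Nat.le_add_right _ _)
    · exact List.Nodup.append hX' hA1 fun P h1 h2 => hAX P h2 h1
    · rw [cl_append]
      exact hA3
  have hDY : Dl (Y' ++ A') ≠ 0 := by
    refine (Dl_ne_zero_iff (T := T.map (residue V)) ?_).2 ⟨?_, ?_⟩
    · rw [List.length_append]
      exact le_trans hgg' (Nat.le_add_right _ _)
    · exact List.Nodup.append hY' hA1 fun P h1 h2 => hAY P h2 h1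
    · rw [cl_append, ← hcl]
      exact hA3
  obtain ⟨A, hA⟩ := exists_liftL A'
  obtain ⟨c, hc, hc'⟩ := redL_Dl (List.rel_append hX hA)
  obtain ⟨e, he, he'⟩ := redL_Dl (List.rel_append hY hA)
  have hvX : V.valuation (Dl (X ++ A)) = 1 := vd2_val hc (by rw [hc']; exact hDX)
  have hvY : V.valuation (Dl (Y ++ A)) = 1 := vd2_val he (by rw [he']; exact hDY)
  obtain ⟨Z, Z', hZ, -, hZ2, hZ3, -⟩ := exists_goodW (cl X)⁻¹ A (le_refl (nT T))
  have hAZ : ∀ P ∈ A', P ∉ Z' := by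
    intro P hP h1
    obtain ⟨Q, hQ, hQP⟩ := (vd2_mem hA).2 P hP
    exact hZ2 P h1 Q hQ hQP
  obtain ⟨u, hu1, hu2, hu3⟩ := vd2_gen hX hZ (by rw [hZ3, mul_inv_cancel])
  obtain ⟨v, hv1, hv2, hv3⟩ := vd2_gen hY hZ (by rw [hZ3, h, mul_inv_cancel])
  have hE : Eqv X Y (inc T u) (inc T v) :=
    ⟨(lc_one_rd hu1).2.2.2.2.2, (lc_one_rd hv1).2.2.2.2.2,
      by rw [(lc_one_rd hu1).1, (lc_one_rd hv1).1], by rw [hu2, hv2]; ring⟩
  have hch := Dl_change (T := T.map V.subtype) hg hg' h0 h0' hE A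
  have hval := congrArg V.valuation hch
  rw [map_mul, map_mul, map_mul, map_mul, hvX, hvY, vd2_ev hA hu3 hAX hAZ,
    vd2_ev hA hv3 hAY hAZ, one_mul, one_mul, mul_one, mul_one] at hval
  exact hval.symm

end

end Pool.Agent.TIFT
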