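import Mathlib
import Pool.Agent.TIFT.VD1
import Pool.Agent.TIFT.VD2
import Pool.Agent.TIFT.VE1
import Pool.Agent.TIFT.VE2

/-!
# [TIF, block THETA, section V] row VE3

obtain ⟨T₀, rfl, hD⟩ := exists_model hT hV (TIFT/VE1: T = (T₀.map (kV hV)).map V.subtype, and the reduction is Dedekind). exists_good: exists_goodW; good_iff_red; if P ∈ X, Q ∈ S, Cg k V P Q then Q is V-finite (cg_xx), its reduction is that of P (cg_iff_cgW, redP_eq_iff), a contradiction. good_congr: good_iff_red, good_congrW. Dl_int: exists_redL, redL_Dl. ev_int: cf_iff_inc, int_of_xx.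
-/

set_option autoImplicit false
set_option linter.unusedSectionVars false

open Polynomial IsLocalRing

namespace Pool.Agent.TIFT

open GT TIF

section

variable {k Ω : Type} [Field k] [Field Ω] [Algebra k Ω] [IsAlgClosed Ω] {d : ℕ} [NeZero d]
  {T : Tab Ω d} [IsDedekindDomain (WB T)] {ρ : Type} [Fintype ρ]

omit [IsAlgClosed Ω] [IsDedekindDomain (WB T)] [Fintype ρ] [NeZero d] in
private theorem ve3_mem {α β : Type} {R : α → β → Prop} {l : List α} {l' : List β}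
    (h : List.Forall₂ R l l') : ∀ a ∈ l, ∃ b ∈ l', R a b := by
  induction h with
  | nil => intro a ha; exact absurd ha (List.not_mem_nil)
  | cons h1 _ ih =>
    intro a ha
    rcases List.mem_cons.1 ha with rfl | ha
    · exact ⟨_, List.mem_cons_self, h1⟩
    · obtain ⟨b, hb, hab⟩ := ih a ha
      exact ⟨b, List.mem_cons_of_mem _ hb, hab⟩

theorem exists_good (hT : Tk k T) {V : ValuationSubring Ω} (hV : ∀ c : k, algebraMap k Ω c ∈ V)
    (x : ClassGroup (WB T)) (S : List (Pt T)) {n : ℕ} (hn : nT T ≤ n) :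
    ∃ X : List (Pt T), Good k V X ∧ (∀ P ∈ X, ∀ Q ∈ S, ¬ Cg k V P Q) ∧ cl X = x ∧
      X.length = n := by
  obtain ⟨T₀, rfl, hD⟩ := exists_model hT hV
  obtain ⟨X, X', h1, h2, h3, h4, h5⟩ := exists_goodW (T := T₀.map (kV hV)) x S (n := n) hn
  refine ⟨X, (good_iff_red hV T₀ X).2 ⟨X', h1, h2⟩, ?_, h4, h5⟩
  intro P hP Q hQ hc
  obtain ⟨P', hP', hPP'⟩ := ve3_mem h1 P hP
  have hPV := hPP'.xx_mem
  have hQV := cg_xx hc hPV
  have hW := (cg_iff_cgW hV T₀ hPV hQV).1 hc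
  obtain ⟨Q', hQQ'⟩ := exists_redP hQV
  have hPQ := (redP_eq_iff hPP' hQQ').2 hW
  rw [← hPQ] at hQQ'
  exact h3 P' hP' Q hQ hQQ'

theorem good_congr (hT : Tk k T) {V : ValuationSubring Ω} (hV : ∀ c : k, algebraMap k Ω c ∈ V)
    {X X' : List (Pt T)} (hX : Good k V X) (hX' : Good k V X') (hg : gp T ≤ X.length)
    (hg' : gp T ≤ X'.length) (h : cl X = cl X') : V.valuation (Dl X) = V.valuation (Dl X') := by
  obtain ⟨T₀, rfl, hD⟩ := exists_model hT hV
  obtain ⟨Y, h1, h2⟩ := (good_iff_red hV T₀ X).1 hX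
  obtain ⟨Y', h1', h2'⟩ := (good_iff_red hV T₀ X').1 hX'
  exact good_congrW h1 h1' h2 h2' hg hg' h

theorem Dl_int (hT : Tk k T) {V : ValuationSubring Ω} (hV : ∀ c : k, algebraMap k Ω c ∈ V)
    {X : List (Pt T)} (hX : ∀ P ∈ X, xx P ∈ V) : Dl X ∈ V := by
  obtain ⟨T₀, rfl, hD⟩ := exists_model hT hV
  obtain ⟨X', h1⟩ := exists_redL hX
  obtain ⟨c, hc, _⟩ := redL_Dl h1
  rw [← hc]
  exact c.2

theorem ev_int (hT : Tk k T) {V : ValuationSubring Ω} (hV : ∀ c : k, algebraMap k Ω c ∈ V)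
    {b : WB T} (hb : Cf (V : Set Ω) b) {P : Pt T} (hP : xx P ∈ V) : P b ∈ V := by
  obtain ⟨T₀, rfl, hD⟩ := exists_model hT hV
  obtain ⟨b', rfl⟩ := (cf_iff_inc b).1 hb
  exact int_of_xx hP b'

end

end Pool.Agent.TIFT
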