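import Mathlib
import Pool.Agent.TIFT.VE3
import Pool.Agent.TIFT.C2

/-!
# [TIF, block THETA, section V] row VF1

tV_eq: unfold tV, the condition holds (X itself), dif_pos, H.choose_spec, good_congr. exists_tV: exists_good with n = nT T (gp T <= nT T), tV_eq. tV_le_one: exists_tV, Dl_int (ValuationSubring.valuation_le_one). tV_ne_zero_iff: exists_tV; V.valuation (Dl X) ≠ 0 iff Dl X ≠ 0 iff Ns x (Dl_ne_zero_iff; Good.nodup).
-/

set_option autoImplicit false
set_option linter.unusedSectionVars false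

open Polynomial IsLocalRing

namespace Pool.Agent.TIFT

open GT TIF

section

variable {k Ω : Type} [Field k] [Field Ω] [Algebra k Ω] [IsAlgClosed Ω] {d : ℕ} [NeZero d]
  {T : Tab Ω d} [IsDedekindDomain (WB T)] {ρ : Type} [Fintype ρ]

theorem tV_eq (hT : Tk k T) {V : ValuationSubring Ω} (hV : ∀ c : k, algebraMap k Ω c ∈ V)
    {X : List (Pt T)} (hX : Good k V X) (hg : gp T ≤ X.length) :
    tV k V (cl X) = V.valuation (Dl X) := by
  have H : ∃ X' : List (Pt T), Good k V X' ∧ gp T ≤ X'.length ∧ cl X' = cl X :=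
    ⟨X, hX, hg, rfl⟩
  unfold tV
  rw [dif_pos H]
  obtain ⟨h1, h2, h3⟩ := H.choose_spec
  exact good_congr hT hV h1 hX h2 hg h3

theorem exists_tV (hT : Tk k T) {V : ValuationSubring Ω} (hV : ∀ c : k, algebraMap k Ω c ∈ V)
    (x : ClassGroup (WB T)) (S : List (Pt T)) :
    ∃ X : List (Pt T), Good k V X ∧ (∀ P ∈ X, ∀ Q ∈ S, ¬ Cg k V P Q) ∧ cl X = x ∧
      gp T ≤ X.length ∧ tV k V x = V.valuation (Dl X) := by
  have hn : gp T ≤ nT T := by
    unfold nT
    omega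
  obtain ⟨X, h1, h2, h3, h4⟩ := exists_good hT hV x S (n := nT T) le_rfl
  have hg : gp T ≤ X.length := by rw [h4]; exact hn
  refine ⟨X, h1, h2, h3, hg, ?_⟩
  rw [← h3]
  exact tV_eq hT hV h1 hg

theorem tV_le_one (hT : Tk k T) {V : ValuationSubring Ω} (hV : ∀ c : k, algebraMap k Ω c ∈ V)
    (x : ClassGroup (WB T)) : tV k V x ≤ 1 := by
  obtain ⟨X, h1, _, _, _, h5⟩ := exists_tV hT hV x []
  rw [h5]
  exact (V.valuation_le_one_iff _).2 (Dl_int hT hV h1.fin)

theorem tV_ne_zero_iff (hT : Tk k T) {V : ValuationSubring Ω}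
    (hV : ∀ c : k, algebraMap k Ω c ∈ V) (x : ClassGroup (WB T)) : tV k V x ≠ 0 ↔ Ns x := by
  obtain ⟨X, h1, _, h3, h4, h5⟩ := exists_tV hT hV x []
  rw [h5, (V.valuation).ne_zero_iff, Dl_ne_zero_iff h4, h3]
  exact ⟨fun h => h.2, fun h => ⟨h1.nodup, h⟩⟩

end

end Pool.Agent.TIFT
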