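import Mathlib
import Pool.Agent.TIFT.VF1
import Pool.Agent.TIFT.VE5
import Pool.Agent.TIFT.K2
import Pool.Agent.TIFT.T1
import Pool.Agent.TIFT.U0

/-!
# [TIF, block THETA, section V] row VG1

tV_kb: exists_repK hT (kbF k Ω) hx [] (n := nT T) ([IsAlgClosed (kbF k Ω)]: IsAlgClosure k (algebraicClosure k Ω)): X Nodup of points over kbF, class x: Good (good_kb), Dl X ∈ kbF (Dl_mem), Dl X ≠ 0 (Dl_ne_zero_iff), kb_val; tV_eq. val_th: all points of the B i are V-finite (PK_xx, hV). exists_tV for x and S := all points of all B i: X. hd_int: V.valuation (P h) = 1 for P ∈ X, so V.valuation (ev h X) = 1 (product). Dl X ≠ 0 (Dl_ne_zero_iff, hx, Good.nodup). thc_eq: thc B h x = th B h X = (prod Dl (B i ++ X)) / (Dl X ^ m * ev h X). B i ++ X is Good (B i: good_kb; X; mixed pairs by the choice of X with cg_symm; List.pairwise_append), class cl (B i) * x (cl_append): tV_eq. Take valuations (map_prod, map_pow, map_div₀).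
-/

set_option autoImplicit false
set_option linter.unusedSectionVars false

open Polynomial IsLocalRing

namespace Pool.Agent.TIFT

open GT TIF

section

variable {k Ω : Type} [Field k] [Field Ω] [Algebra k Ω] [IsAlgClosed Ω] {d : ℕ} [NeZero d]
  {T : Tab Ω d} [IsDedekindDomain (WB T)] {ρ : Type} [Fintype ρ]

theorem tV_kb (hT : Tk k T) {V : ValuationSubring Ω} (hV : ∀ c ∈ kbF k Ω, c ∈ V)
    {x : ClassGroup (WB T)} (hx : x ∈ JK (T := T) (kbF k Ω : Set Ω)) (h : Ns x) :
    tV k V x = 1 := by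
  have : IsAlgClosed (kbF k Ω) := IsAlgClosure.isAlgClosed k
  obtain ⟨X, hnd, -, hc, hl, hk⟩ := exists_repK hT (kbF k Ω) hx [] (le_refl (nT T))
  have hG : Good k V X := good_kb hV hk hnd
  have hg : gp T ≤ X.length := by
    rw [hl]
    unfold nT
    omega
  have h0 : Dl X ≠ 0 := (Dl_ne_zero_iff hg).2 ⟨hnd, hc ▸ h⟩
  rw [← hc, tV_eq hT (kb_le k hV) hG hg, kb_val hV (Dl_mem hT _ hk) h0]

theorem val_th (hT : Tk k T) {V : ValuationSubring Ω} (hV : ∀ c ∈ kbF k Ω, c ∈ V) {m : ℕ}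
    {B : Fin m → List (Pt T)} {h : WB T} (hB : Hd B h) (hnd : ∀ i, (B i).Nodup)
    (hk : ∀ i, ∀ P ∈ B i, PK k (kbF k Ω : Set Ω) P) {x : ClassGroup (WB T)} (hx : Ns x) :
    V.valuation (thc B h x) * tV k V x ^ m = ∏ i, tV k V (cl (B i) * x) := by
  have hV' := kb_le k hV
  obtain ⟨X, hG, hS, hc, hg, ht⟩ := exists_tV hT hV' x ((List.finRange m).flatMap B)
  have hS' : ∀ P ∈ X, ∀ i, ∀ Q ∈ B i, ¬ Cg k V P Q := fun P hP i Q hQ =>
    hS P hP Q (List.mem_flatMap.2 ⟨i, List.mem_finRange i, hQ⟩)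
  have hfB : ∀ i, ∀ P ∈ B i, xx P ∈ V := fun i P hP => hV _ (PK_xx (hk i P hP))
  have hint := (hd_int hT hV' hB hfB).2
  have hev : V.valuation (ev h X) = 1 := by
    unfold ev
    rw [map_list_prod, List.map_map]
    apply List.prod_eq_one
    intro z hz
    obtain ⟨P, hP, rfl⟩ := List.mem_map.1 hz
    exact hint P (hG.fin P hP) (fun i Q hQ => hS' P hP i Q hQ)
  have hev0 : ev h X ≠ 0 := by
    intro h0
    rw [h0, map_zero] at hev
    exact zero_ne_one hev
  have hD : Dl X ≠ 0 := (Dl_ne_zero_iff hg).2 ⟨hG.nodup, hc ▸ hx⟩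
  have hth : thc B h x = th B h X := by
    rw [← hc]
    exact thc_eq hB hg hD hev0
  have hGi : ∀ i, Good k V (B i ++ X) := by
    intro i
    have hBi : Good k V (B i) := good_kb hV (hk i) (hnd i)
    refine ⟨fun P hP => ?_, ?_⟩
    · rcases List.mem_append.1 hP with h1 | h1
      · exact hBi.fin P h1
      · exact hG.fin P h1
    · rw [List.pairwise_append]
      exact ⟨hBi.dif, hG.dif, fun Q hQ P hP hc' => hS' P hP i Q hQ (cg_symm hc')⟩
  have hi : ∀ i, tV k V (cl (B i) * x) = V.valuation (Dl (B i ++ X)) := by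
    intro i
    have h1 : gp T ≤ (B i ++ X).length := by
      rw [List.length_append]
      omega
    rw [← hc, ← cl_append, tV_eq hT hV' (hGi i) h1]
  have hv0 : V.valuation (Dl X) ≠ 0 := (Valuation.ne_zero_iff _).2 hD
  rw [hth, ht]
  unfold th
  rw [map_div₀, map_mul, map_pow, hev, mul_one, map_prod, div_mul_cancel₀ _ (pow_ne_zero _ hv0)]
  exact Finset.prod_congr rfl fun i _ => (hi i).symm

end

end Pool.Agent.TIFT
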