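import Mathlib
import Pool.Agent.TIFT.VG1
import Pool.Agent.TIFT.G4
import Pool.Agent.TIFT.U0

/-!
# [TIF, block THETA, section V] row VG2

gen_Ns: hx gives X r independent (IndA.ind), |X r| = gp: Dl (X r) ≠ 0 (Dl_ind), Dl_ne_zero_iff. val_tmf: tmf D x = prod_r thc (definition, if_pos hx), map_prod, val_th for each r (D.hd, D.nd, D.pk, gen_Ns), Finset.prod_mul_distrib, Finset.prod_pow. val_le: Submodule.span_induction for F ∈ HH (for all x): tmf D: if GenA x by val_tmf and tV_le_one, otherwise tmf D x = 0 (tmf_not); sum: V.valuation (a + b) <= max; multiply by tA ^ m; c • F with c ∈ kbF: V.valuation c <= 1.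
-/

set_option autoImplicit false
set_option linter.unusedSectionVars false

open Polynomial IsLocalRing

namespace Pool.Agent.TIFT

open GT TIF

section

variable {k Ω : Type} [Field k] [Field Ω] [Algebra k Ω] [IsAlgClosed Ω] {d : ℕ} [NeZero d]
  {T : Tab Ω d} [IsDedekindDomain (WB T)] {ρ : Type} [Fintype ρ]

theorem gen_Ns (hT : Tk k T) {K : IntermediateField k Ω} {x : ρ → ClassGroup (WB T)}
    (hx : GenA K x) (r : ρ) : Ns (x r) := by
  obtain ⟨X, hl, hi, hc⟩ := hx
  have h1 : Dl (X r) ≠ 0 := Dl_ind hT (hi.ind r)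
  have h2 := ((Dl_ne_zero_iff (X := X r) (le_of_eq (hl r).symm)).1 h1).2
  rw [hc r] at h2
  exact h2

theorem val_tmf (hT : Tk k T) {V : ValuationSubring Ω} (hV : ∀ c ∈ kbF k Ω, c ∈ V) {m : ℕ}
    (D : TD k T ρ (kbF k Ω) m) {x : ρ → ClassGroup (WB T)} (hx : GenA (kbF k Ω) x) :
    V.valuation (tmf D x) * tA k V x ^ m = ∏ r, ∏ i, tV k V (cl (D.B r i) * x r) := by
  unfold tmf tA
  rw [if_pos hx, map_prod, ← Finset.prod_pow, ← Finset.prod_mul_distrib]
  exact Finset.prod_congr rfl fun r _ =>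
    val_th hT hV (D.hd r) (D.nd r) (D.pk r) (gen_Ns hT hx r)

theorem val_le (hT : Tk k T) {V : ValuationSubring Ω} (hV : ∀ c ∈ kbF k Ω, c ∈ V) {m : ℕ}
    {F : (ρ → ClassGroup (WB T)) → Ω} (hF : F ∈ HH T ρ (kbF k Ω) m)
    (x : ρ → ClassGroup (WB T)) : V.valuation (F x) * tA k V x ^ m ≤ 1 := by
  have hV' : ∀ c : k, algebraMap k Ω c ∈ V := fun c => hV _ ((kbF k Ω).algebraMap_mem c)
  unfold HH at hF
  induction hF using Submodule.span_induction with
  | mem F h =>
    obtain ⟨D, hD⟩ := h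
    have hD' : F = tmf D := hD.symm
    rw [hD']
    by_cases hx : GenA (kbF k Ω) x
    · rw [val_tmf hT hV D hx]
      exact Finset.prod_le_one' fun r _ => Finset.prod_le_one' fun i _ => tV_le_one hT hV' _
    · rw [tmf_not D hx, map_zero, zero_mul]
      exact zero_le_one
  | zero =>
    rw [Pi.zero_apply, map_zero, zero_mul]
    exact zero_le_one
  | add F G _ _ hF hG =>
    rw [Pi.add_apply]
    refine le_trans (mul_le_mul_left (V.valuation.map_add (F x) (G x)) _) ?_
    rcases max_choice (V.valuation (F x)) (V.valuation (G x)) with h | h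
    · rw [h]
      exact hF
    · rw [h]
      exact hG
  | smul c F _ hF =>
    have h1 : (c • F) x = (c : Ω) * F x := rfl
    rw [h1, map_mul, mul_assoc]
    exact mul_le_one' ((V.valuation_le_one_iff _).2 (hV _ c.2)) hF

end

end Pool.Agent.TIFT
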