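import Pool.Agent.TIFT.U0

/-!
# [TIF, block THETA] row U4

one_mem: the monomial with B r i = [], h r = 1 (tmf_eval at the X of GenA, Dl_ind). mul_mem: Submodule.span_induction twice; tmf D * tmf D' = tmf D'' with D''.B r = Fin.append (D.B r) (D'.B r), D''.h = D.h * D'.h (Hd_mul, th_mul, Fin.addCases for nd, pk).
-/

set_option autoImplicit false
set_option linter.unusedSectionVars false

open Polynomial IsLocalRing

namespace Pool.Agent.TIFT

open GT TIF

section

variable {k Ω : Type} [Field k] [Field Ω] [Algebra k Ω] [IsAlgClosed Ω] {d : ℕ} [NeZero d]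
  {T : Tab Ω d} [IsDedekindDomain (WB T)] {ρ : Type} [Fintype ρ]

/-- the theta monomial `1` -/
private noncomputable def u4_one (K : IntermediateField k Ω) (m : ℕ) : TD k T ρ K m where
  B _ _ := []
  h _ := 1
  hd _ := ⟨lc_one, by
    rw [Finset.prod_congr rfl fun (_ : Fin m) _ => dI_nil, Finset.prod_const,
      Ideal.span_singleton_one, ← Ideal.one_eq_top, one_pow]⟩
  nd _ _ := List.nodup_nil
  pk _ _ P hP := by simp at hP

/-- the product of two theta monomials -/
private noncomputable def u4_mul {K : IntermediateField k Ω} {m m' : ℕ} (D : TD k T ρ K m)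
    (D' : TD k T ρ K m') : TD k T ρ K (m + m') where
  B r := Fin.append (D.B r) (D'.B r)
  h r := D.h r * D'.h r
  hd r := Hd_mul (D.hd r) (D'.hd r)
  nd r i := by
    refine Fin.addCases (fun j => ?_) (fun j => ?_) i
    · rw [Fin.append_left]; exact D.nd r j
    · rw [Fin.append_right]; exact D'.nd r j
  pk r i := by
    refine Fin.addCases (fun j => ?_) (fun j => ?_) i
    · rw [Fin.append_left]; exact D.pk r j
    · rw [Fin.append_right]; exact D'.pk r j

/-- the value of a theta monomial at a generic point -/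
private theorem u4_eval (hT : Tk k T) {K : IntermediateField k Ω} {m : ℕ} (D : TD k T ρ K m)
    {x : ρ → ClassGroup (WB T)} {X : ρ → List (Pt T)} (hl : ∀ r, (X r).length = gp T)
    (hX : IndA K X) (hc : ∀ r, cl (X r) = x r) : tmf D x = ∏ r, th (D.B r) (D.h r) (X r) :=
  tmf_eval D ⟨X, hl, hX, hc⟩ (fun r => (hl r).ge) (fun r => Dl_ind hT (hX.ind r)) hc
    (fun r => D.ev_ne r fun _ hP i h => not_PK (hX.ind r) hP (D.pk r i _ h))

/-- the product of two theta monomials is a theta monomial -/
private theorem u4_tmf (hT : Tk k T) {K : IntermediateField k Ω} {m m' : ℕ} (D : TD k T ρ K m)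
    (D' : TD k T ρ K m') : tmf D * tmf D' = tmf (u4_mul D D') := by
  funext x
  show tmf D x * tmf D' x = _
  by_cases hx : GenA K x
  · obtain ⟨X, hl, hX, hc⟩ := hx
    rw [u4_eval hT D hl hX hc, u4_eval hT D' hl hX hc, u4_eval hT (u4_mul D D') hl hX hc,
      ← Finset.prod_mul_distrib]
    exact Finset.prod_congr rfl fun r _ => th_mul _ _ _ _ _
  · rw [tmf_not D hx, tmf_not (u4_mul D D') hx, zero_mul]

open Classical in
theorem one_mem_HH (hT : Tk k T) (ρ : Type) [Fintype ρ]
    (K : IntermediateField k Ω) (m : ℕ) :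
    (fun x => if GenA K x then (1 : Ω) else 0) ∈ HH T ρ K m := by
  refine Submodule.subset_span ⟨u4_one K m, ?_⟩
  funext x
  by_cases hx : GenA K x
  · show tmf (u4_one K m) x = if GenA K x then (1 : Ω) else 0
    rw [if_pos hx]
    obtain ⟨X, hl, hX, hc⟩ := hx
    rw [u4_eval hT (u4_one K m) hl hX hc]
    refine Finset.prod_eq_one fun r _ => ?_
    have h1 : Dl (X r) ≠ 0 := Dl_ind hT (hX.ind r)
    have h2 : ev (1 : WB T) (X r) = 1 := by
      unfold ev
      simp
    show (∏ _i : Fin m, Dl ([] ++ X r)) / (Dl (X r) ^ m * ev 1 (X r)) = 1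
    rw [h2, mul_one, List.nil_append, Finset.prod_const, Finset.card_univ, Fintype.card_fin]
    exact div_self (pow_ne_zero m h1)
  · show tmf (u4_one K m) x = if GenA K x then (1 : Ω) else 0
    rw [if_neg hx, tmf_not _ hx]

theorem mul_mem_HH (hT : Tk k T) {K : IntermediateField k Ω} {m m' : ℕ}
    {F F' : (ρ → ClassGroup (WB T)) → Ω} (hF : F ∈ HH T ρ K m) (hF' : F' ∈ HH T ρ K m') :
    F * F' ∈ HH T ρ K (m + m') := by
  have hs : ∀ (c : K) (G G' : (ρ → ClassGroup (WB T)) → Ω), (c • G) * G' = c • (G * G') := by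
    intro c G G'
    funext x
    show (c • G x) * G' x = c • (G x * G' x)
    rw [Algebra.smul_def, Algebra.smul_def, mul_assoc]
  have hs' : ∀ (c : K) (G G' : (ρ → ClassGroup (WB T)) → Ω), G * (c • G') = c • (G * G') := by
    intro c G G'
    rw [mul_comm, hs, mul_comm]
  refine Submodule.span_induction (p := fun G _ => G * F' ∈ HH T ρ K (m + m')) ?_ ?_ ?_ ?_ hF
  · rintro G ⟨D, rfl⟩
    refine Submodule.span_induction (p := fun G' _ => tmf D * G' ∈ HH T ρ K (m + m'))
      ?_ ?_ ?_ ?_ hF'
    · rintro G' ⟨D', rfl⟩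
      refine Submodule.subset_span ⟨u4_mul D D', ?_⟩
      exact (u4_tmf hT D D').symm
    · rw [mul_zero]
      exact Submodule.zero_mem _
    · intro a b _ _ ha hb
      rw [mul_add]
      exact Submodule.add_mem _ ha hb
    · intro c a _ ha
      rw [hs']
      exact Submodule.smul_mem _ c ha
  · rw [zero_mul]
    exact Submodule.zero_mem _
  · intro a b _ _ ha hb
    rw [add_mul]
    exact Submodule.add_mem _ ha hb
  · intro c a _ ha
    rw [hs]
    exact Submodule.smul_mem _ c ha

end

end Pool.Agent.TIFT
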