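import Pool.Agent.TIFT.U9
import Pool.Agent.TIFT.U3
import Pool.Agent.TIFT.U2c
import Pool.Agent.TIFT.U4
import Pool.Agent.TIFT.C5

/-!
# [TIF, block THETA] the theta monomials of families of classes; the exact relation with the
translations
-/

set_option autoImplicit false
set_option linter.unusedSectionVars false

open Polynomial IsLocalRing

namespace Pool.Agent.TIFT

open GT TIF

section rec

variable {d : ℕ} [NeZero d] {κ : Type} [Field κ] [IsAlgClosed κ] {T : Tab κ d}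
  [IsDedekindDomain (WB T)]

private theorem cm_dI_flatten (L : List (List (Pt T))) : dI L.flatten = (L.map dI).prod := by
  induction L with
  | nil => rw [List.flatten_nil, List.map_nil, List.prod_nil, dI_nil, Ideal.one_eq_top]
  | cons X L ih => rw [List.flatten_cons, dI_append, ih, List.map_cons, List.prod_cons]

private theorem cm_ev_flatten (b : WB T) (L : List (List (Pt T))) :
    ev b L.flatten = (L.map (ev b)).prod := by
  induction L with
  | nil => rw [List.flatten_nil, List.map_nil, List.prod_nil]; rfl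
  | cons X L ih => rw [List.flatten_cons, ev_append, ih, List.map_cons, List.prod_cons]

private theorem cm_ne {b : WB T} (h : lc b = 1) : b ≠ 0 := by
  intro h0
  rw [h0, a3_lc_zero] at h
  exact zero_ne_one h

/-- reciprocity for `f`, `div f = N A`, and `h`, `div h = ∑ B_i` -/
theorem weil_th {N m : ℕ} {A : List (Pt T)} {B : Fin m → List (Pt T)} {f h : WB T}
    (hf : Nt N A f) (hB : Hd B h) :
    ∏ i, ev f (B i) = (-1) ^ (N * A.length * ∑ i, (B i).length) * ev h A ^ N := by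
  have hU : Ideal.span {f} = dI (List.replicate N A).flatten := by
    rw [hf.div, cm_dI_flatten, List.map_replicate, List.prod_replicate]
  have hV : Ideal.span {h} = dI (List.ofFn B).flatten := by
    rw [hB.div, cm_dI_flatten, List.map_ofFn, List.prod_ofFn]
    rfl
  have hf0 := cm_ne hf.lc
  have hh0 := cm_ne hB.lc
  have h1 := weil_rec hf0 hh0 hU hV
  have h2 : pord f = N * A.length := by
    rw [← span_eq_dI_length hf0 hU, List.length_flatten, List.map_replicate, List.sum_replicate,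
      smul_eq_mul]
  have h3 : pord h = ∑ i, (B i).length := by
    rw [← span_eq_dI_length hh0 hV, List.length_flatten, List.map_ofFn, List.sum_ofFn]
    rfl
  rw [hf.lc, hB.lc, one_pow, one_pow, mul_one, mul_one, cm_ev_flatten, cm_ev_flatten,
    List.map_ofFn, List.prod_ofFn, List.map_replicate, List.prod_replicate, h2, h3] at h1
  exact h1

/-- the three-term relation between theta monomials and translations (exact) -/
theorem th_cc {N m : ℕ} {A X : List (Pt T)} {B : Fin m → List (Pt T)} {f h : WB T}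
    (hf : Nt N A f) (hB : Hd B h) (hX : Dl X ≠ 0) (hXA : Dl (X ++ A) ≠ 0)
    (hXB : ∀ i, Dl (X ++ B i) ≠ 0) (hfX : ev f X ≠ 0) (hhX : ev h X ≠ 0) (hhA : ev h A ≠ 0)
    (hfB : ∀ i, ev f (B i) ≠ 0) :
    th (fun _ : Fin N => A) f X ^ m * th B h (X ++ A) ^ N =
      (∏ i, th (fun _ : Fin N => A) f (X ++ B i)) * th B h X ^ N := by
  have hw := weil_th hf hB
  -- signs
  have hsq : ∀ n : ℕ, ((-1 : κ) ^ n) * (-1) ^ n = 1 := fun n => by
    rw [← mul_pow, neg_one_mul, neg_neg, one_pow]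
  have hsn : ∀ n : ℕ, ((-1 : κ) ^ n) ≠ 0 := fun n => pow_ne_zero _ (neg_ne_zero.2 one_ne_zero)
  set a := A.length
  set x := X.length
  have e1 : Dl (A ++ X) = (-1) ^ (a * x) * Dl (X ++ A) := Dl_comm A X
  have e2 : ∀ i, Dl (B i ++ X) = (-1) ^ ((B i).length * x) * Dl (X ++ B i) := fun i => Dl_comm _ _
  have e3 : ∀ i, Dl (A ++ (X ++ B i)) =
      (-1) ^ (a * (B i).length + a * x) * ((-1) ^ ((B i).length * x) * Dl (B i ++ (X ++ A))) := by
    intro i
    have h1 : Dl (A ++ (X ++ B i)) = (-1) ^ (a * (x + (B i).length)) * Dl ((X ++ B i) ++ A) := by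
      rw [Dl_comm A (X ++ B i), List.length_append]
    have h2 := Dl_swap [] X (B i) A
    rw [List.nil_append, List.nil_append] at h2
    rw [h1, h2, mul_add, pow_add, pow_add, mul_comm x (B i).length, List.append_assoc]
    ring
  have e4 : ∏ i, Dl (A ++ (X ++ B i)) ^ N = (-1) ^ (N * a * ∑ i, (B i).length) *
      ((-1) ^ (a * x)) ^ (N * m) * ((∏ i, ((-1 : κ) ^ ((B i).length * x)) ^ N) *
        ∏ i, Dl (B i ++ (X ++ A)) ^ N) := by
    rw [Finset.prod_congr rfl fun i _ => by rw [e3 i, mul_pow, mul_pow, pow_add, mul_pow],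
      Finset.prod_mul_distrib, Finset.prod_mul_distrib, Finset.prod_mul_distrib, Finset.prod_const,
      Finset.card_univ, Fintype.card_fin, ← pow_mul ((-1) ^ (a * x)) N m]
    congr 2
    rw [Finset.prod_congr rfl fun i _ => by rw [← pow_mul], Finset.prod_pow_eq_pow_sum]
    congr 1
    rw [Finset.mul_sum]
    exact Finset.sum_congr rfl fun i _ => by ring
  have e5 : ∏ i, Dl (B i ++ X) ^ N = (∏ i, ((-1 : κ) ^ ((B i).length * x)) ^ N) *
      ∏ i, Dl (X ++ B i) ^ N := by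
    rw [← Finset.prod_mul_distrib]
    exact Finset.prod_congr rfl fun i _ => by rw [e2 i, mul_pow]
  have e6 : (∏ i, ((-1 : κ) ^ ((B i).length * x)) ^ N) * (∏ i, ((-1 : κ) ^ ((B i).length * x)) ^ N)
      = 1 := by
    rw [← Finset.prod_mul_distrib]
    exact Finset.prod_eq_one fun i _ => by rw [← mul_pow, hsq, one_pow]
  have hPX : ∏ i, Dl (X ++ B i) ^ N ≠ 0 := Finset.prod_ne_zero_iff.2 fun i _ => pow_ne_zero _ (hXB i)
  have hPf : ∏ i, ev f (B i) ≠ 0 := Finset.prod_ne_zero_iff.2 fun i _ => hfB i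
  -- the two sides
  have l1 : th (fun _ : Fin N => A) f X ^ m * th B h (X ++ A) ^ N =
      (Dl (A ++ X) ^ (N * m) * ∏ i, Dl (B i ++ (X ++ A)) ^ N) /
        (Dl X ^ (N * m) * ev f X ^ m * (Dl (X ++ A) ^ (N * m) * ev h X ^ N * ev h A ^ N)) := by
    rw [th, th, Finset.prod_const, Finset.card_univ, Fintype.card_fin, div_pow, div_pow,
      div_mul_div_comm, ← pow_mul, mul_pow, mul_pow, ← pow_mul, ← pow_mul, ev_append, mul_pow,
      Finset.prod_pow]
    congr 1
    ring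
  have l2 : (∏ i, th (fun _ : Fin N => A) f (X ++ B i)) * th B h X ^ N =
      ((∏ i, Dl (A ++ (X ++ B i)) ^ N) * ∏ i, Dl (B i ++ X) ^ N) /
        ((∏ i, Dl (X ++ B i) ^ N) * (ev f X ^ m * ∏ i, ev f (B i)) *
          (Dl X ^ (N * m) * ev h X ^ N)) := by
    have : ∀ i, th (fun _ : Fin N => A) f (X ++ B i) = Dl (A ++ (X ++ B i)) ^ N /
        (Dl (X ++ B i) ^ N * (ev f X * ev f (B i))) := by
      intro i
      rw [th, Finset.prod_const, Finset.card_univ, Fintype.card_fin, ev_append]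
    rw [Finset.prod_congr rfl fun i _ => this i, Finset.prod_div_distrib, th, div_pow,
      div_mul_div_comm, Finset.prod_mul_distrib, Finset.prod_mul_distrib, Finset.prod_const,
      Finset.card_univ, Fintype.card_fin, Finset.prod_pow Finset.univ N fun i => Dl (B i ++ X),
      mul_pow, ← pow_mul, mul_comm m N]
  rw [l1, l2, e1, e4, e5, hw, mul_pow]
  set s1 : κ := (-1) ^ (N * a * ∑ i, (B i).length) with hs1
  set s2 : κ := ((-1) ^ (a * x)) ^ (N * m) with hs2
  set s3 : κ := ∏ i, ((-1 : κ) ^ ((B i).length * x)) ^ N with hs3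
  set P1 := ∏ i, Dl (B i ++ (X ++ A)) ^ N
  set P2 := ∏ i, Dl (X ++ B i) ^ N
  have hs1' : s1 ≠ 0 := hsn _
  rw [div_eq_div_iff]
  · calc s2 * Dl (X ++ A) ^ (N * m) * P1 *
          (P2 * (ev f X ^ m * (s1 * ev h A ^ N)) * (Dl X ^ (N * m) * ev h X ^ N))
        = 1 * (s2 * Dl (X ++ A) ^ (N * m) * P1 *
          (P2 * (ev f X ^ m * (s1 * ev h A ^ N)) * (Dl X ^ (N * m) * ev h X ^ N))) := by
          rw [one_mul]
      _ = (s3 * s3) * (s2 * Dl (X ++ A) ^ (N * m) * P1 *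
          (P2 * (ev f X ^ m * (s1 * ev h A ^ N)) * (Dl X ^ (N * m) * ev h X ^ N))) := by
          rw [e6]
      _ = _ := by ring
  · exact mul_ne_zero (mul_ne_zero (pow_ne_zero _ hX) (pow_ne_zero _ hfX))
      (mul_ne_zero (mul_ne_zero (pow_ne_zero _ hXA) (pow_ne_zero _ hhX)) (pow_ne_zero _ hhA))
  · exact mul_ne_zero (mul_ne_zero hPX (mul_ne_zero (pow_ne_zero _ hfX)
      (mul_ne_zero hs1' (pow_ne_zero _ hhA)))) (mul_ne_zero (pow_ne_zero _ hX) (pow_ne_zero _ hhX))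

end rec

section A

variable {k Ω : Type} [Field k] [Field Ω] [Algebra k Ω] [IsAlgClosed Ω] {d : ℕ} [NeZero d]
  {T : Tab Ω d} [IsDedekindDomain (WB T)] {ρ : Type} [Fintype ρ]

theorem JK_acl {K : IntermediateField k Ω} {x : ClassGroup (WB T)}
    (hx : x ∈ JK (T := T) (K : Set Ω)) : x ∈ JK (T := T) (acl K : Set Ω) :=
  JK_mono (le_acl K) hx

/-- **The exact three-term relation.** -/
theorem tmf_cc (hU : Univ k Ω) (hT : Tk k T) {K : IntermediateField k Ω} [IsAlgClosed K]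
    (hK : Small K) {N m : ℕ} (hN : 0 < N) {b : ρ → ClassGroup (WB T)} (t : Tr T ρ K N b)
    (D : TD k T ρ K m) {x : ρ → ClassGroup (WB T)} (hx : GenA K x) :
    tmf t.toTD x ^ m * tmf D (x * b) ^ N =
      (∏ i, tmf t.toTD (x * fun r => cl (D.B r i))) * tmf D x ^ N := by
  classical
  -- a translation with points off the points of `D`
  obtain ⟨t', ht'⟩ := exists_Tr hT K (fun r => t.pow r) (fun r => t.mem_JK hT hN r)
    (Finset.univ.toList.flatMap fun r => (List.ofFn (D.B r)).flatten)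
  have hd : ∀ r i, ∀ P ∈ t'.A r, P ∉ D.B r i := by
    intro r i P hP hPB
    refine ht' r P hP (List.mem_flatMap.2 ⟨r, Finset.mem_toList.2 (Finset.mem_univ r), ?_⟩)
    exact List.mem_flatten.2 ⟨D.B r i, List.mem_ofFn.2 ⟨i, rfl⟩, hPB⟩
  obtain ⟨c, hcK, hc0, hc⟩ := tmf_congr hU hT hK t'.toTD t.toTD fun r i => by
    rw [t'.eq, t.eq, t'.cl_eq, t.cl_eq]
  obtain ⟨X, hg, hX, hcl⟩ := hx
  have hx' : (fun r => cl (X r)) = x := funext hcl
  obtain ⟨h1, h2, h3, h4⟩ := Tr.eval hU hT hK hN t' D hd hX hg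
  rw [hx'] at h2 h3 h4
  have hgx : GenA K x := ⟨X, hg, hX, hcl⟩
  have hgl : ∀ r, gp T ≤ (X r).length := fun r => (hg r).ge
  have h5 : tmf D x = ∏ r, th (D.B r) (D.h r) (X r) :=
    tmf_eval D hgx hgl (fun r => (h1 r).1) hcl fun r => (h1 r).2.2.2.2
  have hXB : ∀ r i, Dl (X r ++ D.B r i) ≠ 0 := fun r i =>
    (Dl_B_ne hU hT hK hX hgl (D.nd r i) (D.pk r i) r).2
  have hfB : ∀ r i, ev (t'.h r) (D.B r i) ≠ 0 := fun r i =>
    t'.toTD.ev_ne r fun P hP j hPA => hd r i P (by rwa [t'.eq r j] at hPA) hP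
  have h6 : ∀ i, tmf t'.toTD (x * fun r => cl (D.B r i)) =
      ∏ r, th (fun _ : Fin N => t'.A r) (t'.h r) (X r ++ D.B r i) := by
    intro i
    have h7 : GenA K (x * fun r => cl (D.B r i)) := genA_mul hU hT hK hgx fun r =>
      JK_acl (cl_mem_JK hT K (D.pk r i))
    rw [tmf_eval t'.toTD h7 (Y := fun r => X r ++ D.B r i)
      (fun r => by rw [List.length_append]; exact (hgl r).trans (Nat.le_add_right _ _))
      (fun r => hXB r i) (fun r => by rw [cl_append, hcl, Pi.mul_apply])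
      (fun r => by rw [ev_append]; exact mul_ne_zero (h1 r).2.2.1 (hfB r i))]
    refine Finset.prod_congr rfl fun r _ => ?_
    have h8 : t'.toTD.B r = fun _ : Fin N => t'.A r := funext fun j => t'.eq r j
    rw [h8]
  have key : tmf t'.toTD x ^ m * tmf D (x * b) ^ N =
      (∏ i, tmf t'.toTD (x * fun r => cl (D.B r i))) * tmf D x ^ N := by
    rw [h3, h4, h5, Finset.prod_congr rfl fun i _ => h6 i, Finset.prod_comm, ← Finset.prod_pow,
      ← Finset.prod_pow, ← Finset.prod_pow, ← Finset.prod_mul_distrib, ← Finset.prod_mul_distrib]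
    exact Finset.prod_congr rfl fun r _ => th_cc (t'.nt r) (D.hd r) (h1 r).1 (h1 r).2.1 (hXB r)
      (h1 r).2.2.1 (h1 r).2.2.2.2 (h1 r).2.2.2.1 (hfB r)
  rw [hc x, Finset.prod_congr rfl fun i _ => hc (x * fun r => cl (D.B r i)),
    Finset.prod_mul_distrib, Finset.prod_const, Finset.card_univ, Fintype.card_fin, mul_pow,
    mul_assoc, key, mul_assoc]

theorem act_symm (hT : Tk k T) (σ : Ω ≃ₐ[k] Ω) (x : ClassGroup (WB T)) :
    act hT σ (act hT σ.symm x) = x := by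
  obtain ⟨X, hX⟩ := exists_dI (rdc_ne x)
  have h1 : cl X = x := cl_of_rdc hX
  rw [← h1, ← cl_aP, ← cl_aP, List.map_map]
  congr 1
  conv_rhs => rw [← List.map_id X]
  refine List.map_congr_left fun P _ => ?_
  rw [Function.comp_apply, ← aP_trans, id_eq]
  exact aP_fix hT _ fun c _ => σ.apply_symm_apply c

/-- conjugate monomials -/
theorem tmf_conj (hU : Univ k Ω) (hT : Tk k T) {n : ℕ} (D D' : TD k T ρ (kbF k Ω) n)
    (σ : Ω ≃ₐ[k] Ω) (h : ∀ r i, cl (D'.B r i) = act hT σ (cl (D.B r i))) :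
    ∃ c ∈ kbF k Ω, c ≠ 0 ∧
      ∀ x, σ (tmf D (fun r => act hT σ.symm (x r))) = c * tmf D' x := by
  have hac : IsAlgClosed (kbF k Ω) := IsAlgClosure.isAlgClosed k
  have hkb : ∀ (τ : Ω ≃ₐ[k] Ω), ∀ c ∈ kbF k Ω, τ c ∈ kbF k Ω := by
    intro τ c hc
    rw [mem_algebraicClosure_iff] at hc ⊢
    exact hc.algHom (τ : Ω →ₐ[k] Ω)
  obtain ⟨D'', h1, h2, h3⟩ := exists_conjD hT D σ (hkb σ) (hkb σ.symm)
  obtain ⟨c, hcK, hc0, hc⟩ := tmf_congr hU hT (small_kb k Ω) D' D'' fun r i => by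
    rw [h, h1, cl_aP]
  refine ⟨c, hcK, hc0, fun x => ?_⟩
  have h4 : (fun r => act hT σ ((fun r => act hT σ.symm (x r)) r)) = x :=
    funext fun r => act_symm hT σ (x r)
  rw [← h3, h4, hc]

/-! ### monomials of families of classes -/

open Classical in
/-- the theta monomial of the family `a` of classes over `kb` -/
noncomputable def Cmm (k : Type) {Ω : Type} [Field k] [Field Ω] [Algebra k Ω] [IsAlgClosed Ω]
    {d : ℕ} [NeZero d] {T : Tab Ω d} [IsDedekindDomain (WB T)] {ρ : Type} [Fintype ρ] (n : ℕ)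
    (a : Fin n → ρ → ClassGroup (WB T)) (x : ρ → ClassGroup (WB T)) : Ω :=
  if H : ∃ D : TD k T ρ (kbF k Ω) n, ∀ r i, cl (D.B r i) = a i r then tmf H.choose x else 0

/-- the conditions on the family `a` -/
structure Za (k : Type) {Ω : Type} [Field k] [Field Ω] [Algebra k Ω] [IsAlgClosed Ω]
    {d : ℕ} [NeZero d] {T : Tab Ω d} [IsDedekindDomain (WB T)] {ρ : Type} {n : ℕ}
    (a : Fin n → ρ → ClassGroup (WB T)) : Prop where
  mem : ∀ i r, a i r ∈ JK (T := T) (kbF k Ω : Set Ω)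
  prod : ∏ i, a i = 1

theorem cmm_eq (hT : Tk k T) {n : ℕ} {a : Fin n → ρ → ClassGroup (WB T)} (ha : Za k a) :
    ∃ D : TD k T ρ (kbF k Ω) n, (∀ r i, cl (D.B r i) = a i r) ∧ Cmm k n a = tmf D := by
  classical
  have hac : IsAlgClosed (kbF k Ω) := IsAlgClosure.isAlgClosed k
  have H : ∃ D : TD k T ρ (kbF k Ω) n, ∀ r i, cl (D.B r i) = a i r := by
    obtain ⟨D, hD, -⟩ := exists_TD hT (kbF k Ω) (fun r i => a i r) (fun r i => ha.mem i r)
      (fun r => by
        have := congrFun ha.prod r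
        rwa [Finset.prod_apply, Pi.one_apply] at this) []
    exact ⟨D, hD⟩
  refine ⟨H.choose, H.choose_spec, ?_⟩
  funext x
  exact dif_pos H

theorem cmm_mem (hT : Tk k T) {n : ℕ} {a : Fin n → ρ → ClassGroup (WB T)} (ha : Za k a) :
    Cmm k n a ∈ HH T ρ (kbF k Ω) n := by
  obtain ⟨D, -, h⟩ := cmm_eq hT ha
  rw [h]
  exact Submodule.subset_span ⟨D, rfl⟩

theorem cmm_ne (hU : Univ k Ω) (hT : Tk k T) {n : ℕ} {a : Fin n → ρ → ClassGroup (WB T)}
    (ha : Za k a) {x : ρ → ClassGroup (WB T)} (hx : GenA (kbF k Ω) x) : Cmm k n a x ≠ 0 := by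
  obtain ⟨D, -, h⟩ := cmm_eq hT ha
  rw [h]
  exact tmf_ne hU hT (small_kb k Ω) D hx

theorem cmm_ne' (hU : Univ k Ω) (hT : Tk k T) {n : ℕ} {a : Fin n → ρ → ClassGroup (WB T)}
    (ha : Za k a) : Cmm k n a ≠ 0 := by
  obtain ⟨x, hx⟩ := exists_genA (ρ := ρ) hU T (small_kb k Ω)
  intro h
  exact cmm_ne hU hT ha hx (congrFun h x)

theorem cmm_pr (hU : Univ k Ω) (hT : Tk k T) {n : ℕ} {a : Fin n → ρ → ClassGroup (WB T)}
    (ha : Za k a) {m : ℕ} (h0 : 0 < n ∨ 0 < m) (F : Fin n → (ρ → ClassGroup (WB T)) → Ω)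
    (hF : ∀ i, F i ∈ HH T ρ (kbF k Ω) m) :
    (fun x => (∏ i, F i (x * a i)) * Cmm k n a x ^ m) ∈ HH T ρ (kbF k Ω) (n * m) := by
  have hac : IsAlgClosed (kbF k Ω) := IsAlgClosure.isAlgClosed k
  obtain ⟨D, h1, h⟩ := cmm_eq hT ha
  rw [h]
  have h2 := prod_trans hU hT (small_kb k Ω) h0 D F hF
  have h3 : ∀ i, (fun r => cl (D.B r i)) = a i := fun i => funext fun r => h1 r i
  simpa only [h3] using h2

theorem cmm_conj (hU : Univ k Ω) (hT : Tk k T) {n : ℕ} {a : Fin n → ρ → ClassGroup (WB T)}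
    (ha : Za k a) {σ : Ω ≃ₐ[k] Ω} (ha' : Za k fun j r => act hT σ (a j r)) :
    ∃ c ∈ kbF k Ω, c ≠ 0 ∧ ∀ x, σ (Cmm k n a (fun r => act hT σ.symm (x r))) =
      c * Cmm k n (fun j r => act hT σ (a j r)) x := by
  obtain ⟨D, h1, h⟩ := cmm_eq hT ha
  obtain ⟨D', h1', h'⟩ := cmm_eq hT ha'
  rw [h, h']
  exact tmf_conj hU hT D D' σ fun r i => by rw [h1', h1]

theorem cmm_cc (hU : Univ k Ω) (hT : Tk k T) {m : ℕ} {a : Fin m → ρ → ClassGroup (WB T)}
    (ha : Za k a) {N : ℕ} (hN : 0 < N) {b : ρ → ClassGroup (WB T)} (t : Tr T ρ (kbF k Ω) N b)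
    {x : ρ → ClassGroup (WB T)} (hx : GenA (kbF k Ω) x) :
    tmf t.toTD x ^ m * Cmm k m a (x * b) ^ N =
      (∏ i, tmf t.toTD (x * a i)) * Cmm k m a x ^ N := by
  have hac : IsAlgClosed (kbF k Ω) := IsAlgClosure.isAlgClosed k
  obtain ⟨D, h1, h⟩ := cmm_eq hT ha
  rw [h]
  have h2 := tmf_cc hU hT (small_kb k Ω) hN t D hx
  have h3 : ∀ i, (fun r => cl (D.B r i)) = a i := fun i => funext fun r => h1 r i
  simpa only [h3] using h2

theorem cc_conj (hU : Univ k Ω) (hT : Tk k T) {N : ℕ} {b : ρ → ClassGroup (WB T)}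
    {σ : Ω ≃ₐ[k] Ω} (t : Tr T ρ (kbF k Ω) N b)
    (t' : Tr T ρ (kbF k Ω) N fun r => act hT σ (b r)) :
    ∃ c ∈ kbF k Ω, c ≠ 0 ∧ ∀ x, σ (tmf t.toTD (fun r => act hT σ.symm (x r))) =
      c * tmf t'.toTD x :=
  tmf_conj hU hT t.toTD t'.toTD σ fun r i => by rw [t'.eq, t.eq, t'.cl_eq, t.cl_eq]

end A

end Pool.Agent.TIFT
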