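import Pool.Agent.TIFT.PD3

/-!
# [TIF PIG, PD] The dimension of spaces of functions on `A × A`
-/

set_option autoImplicit false
set_option linter.unusedSectionVars false

open Polynomial IsLocalRing

namespace Pool.Agent.TIFT

open GT TIF

section pd

variable {k Ω : Type} [Field k] [Field Ω] [Algebra k Ω] [IsAlgClosed Ω] {d : ℕ} [NeZero d]
  {T : Tab Ω d} [IsDedekindDomain (WB T)] {ρ : Type} [Fintype ρ]

theorem pd_closed (k Ω : Type) [Field k] [Field Ω] [Algebra k Ω] [IsAlgClosed Ω] :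
    IsAlgClosed (kbF k Ω) := IsAlgClosure.isAlgClosed k

/-- the values of three theta monomials -/
theorem pd_span {K : IntermediateField k Ω} {m₁ m₂ m₃ : ℕ} (x x' x'' : ρ → ClassGroup (WB T))
    {z : Ω} (hz : z ∈ Submodule.span K {z | ∃ f ∈ HH T ρ K m₁, ∃ f' ∈ HH T ρ K m₂,
      ∃ f'' ∈ HH T ρ K m₃, z = f x * f' x' * f'' x''}) :
    z ∈ Submodule.span K (Set.range fun D : TD k T ρ K m₁ × TD k T ρ K m₂ × TD k T ρ K m₃ =>
      tmf D.1 x * tmf D.2.1 x' * tmf D.2.2 x'') := by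
  obtain ⟨W, hW⟩ : ∃ W, W = Submodule.span K (Set.range
    fun D : TD k T ρ K m₁ × TD k T ρ K m₂ × TD k T ρ K m₃ =>
      tmf D.1 x * tmf D.2.1 x' * tmf D.2.2 x'') := ⟨_, rfl⟩
  rw [← hW]
  revert z
  rw [← SetLike.le_def, Submodule.span_le]
  rintro z ⟨f, hf, f', hf', f'', hf'', rfl⟩
  rw [SetLike.mem_coe]
  refine Submodule.span_induction (p := fun f _ => f x * f' x' * f'' x'' ∈ W) ?_ ?_ ?_ ?_ hf
  · rintro _ ⟨D, rfl⟩
    refine Submodule.span_induction (p := fun f' _ => tmf D x * f' x' * f'' x'' ∈ W) ?_ ?_ ?_ ?_ hf'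
    · rintro _ ⟨D', rfl⟩
      refine Submodule.span_induction
        (p := fun f'' _ => tmf D x * tmf D' x' * f'' x'' ∈ W) ?_ ?_ ?_ ?_ hf''
      · rintro _ ⟨D'', rfl⟩
        rw [hW]
        exact Submodule.subset_span ⟨(D, D', D''), rfl⟩
      · rw [Pi.zero_apply, mul_zero]
        exact Submodule.zero_mem _
      · intro u v _ _ hu hv
        rw [Pi.add_apply, mul_add]
        exact Submodule.add_mem _ hu hv
      · intro a u _ hu
        rw [Pi.smul_apply, mul_smul_comm]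
        exact Submodule.smul_mem _ a hu
    · rw [Pi.zero_apply, mul_zero, zero_mul]
      exact Submodule.zero_mem _
    · intro u v _ _ hu hv
      rw [Pi.add_apply, mul_add, add_mul]
      exact Submodule.add_mem _ hu hv
    · intro a u _ hu
      rw [Pi.smul_apply, mul_smul_comm, smul_mul_assoc]
      exact Submodule.smul_mem _ a hu
  · rw [Pi.zero_apply, zero_mul, zero_mul]
    exact Submodule.zero_mem _
  · intro u v _ _ hu hv
    rw [Pi.add_apply, add_mul, add_mul]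
    exact Submodule.add_mem _ hu hv
  · intro a u _ hu
    rw [Pi.smul_apply, smul_mul_assoc, smul_mul_assoc]
    exact Submodule.smul_mem _ a hu

/-- exchange: `N + 1` elements of the spanning family are dependent -/
theorem pd_exch {K V ι : Type} [Field K] [AddCommGroup V] [Module K V] (v : ι → V) (N : ℕ)
    (h : ∀ t : Fin (N + 1) → ι, ¬ LinearIndependent K fun l => v (t l)) {n : ℕ} (z : Fin n → V)
    (hz : LinearIndependent K z) (hs : ∀ j, z j ∈ Submodule.span K (Set.range v)) : n ≤ N := by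
  obtain ⟨b, hb1, hb2, hb3⟩ := exists_linearIndependent K (Set.range v)
  -- `b` is finite
  have hcard : ∀ t : Fin (N + 1) → b, ¬ Function.Injective t := by
    intro t ht
    choose u hu using fun l => hb1 (t l).2
    refine h u ?_
    have h1 := hb3.comp t ht
    have e : (fun l => v (u l)) = (Subtype.val : b → V) ∘ t := funext hu
    rw [e]
    exact h1
  have hfin : Finite b := by
    by_contra hinf
    rw [not_finite_iff_infinite] at hinf
    exact hcard (fun l => Infinite.natEmbedding b l)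
      ((Infinite.natEmbedding b).injective.comp Fin.val_injective)
  have := Fintype.ofFinite b
  have hle : Fintype.card b ≤ N := by
    by_contra hlt
    push Not at hlt
    have f : Fin (N + 1) ↪ b := by
      refine (Fin.castLEEmb (Nat.succ_le_of_lt hlt)).trans
        (Fintype.equivFin b).symm.toEmbedding
    exact hcard f f.injective
  have : Module.Finite K (Submodule.span K b) :=
    Module.Finite.span_of_finite K (Set.toFinite b)
  have hz' : LinearIndependent K fun j : Fin n =>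
      (⟨z j, by rw [hb2]; exact hs j⟩ : Submodule.span K b) := by
    refine LinearIndependent.of_comp (Submodule.subtype _) ?_
    exact hz
  have h2 := hz'.fintype_card_le_finrank
  rw [Fintype.card_fin] at h2
  refine h2.trans (le_trans ?_ hle)
  have h3 := finrank_span_le_card (R := K) b
  rwa [Set.toFinset_card] at h3

theorem pd_mem_JK_kL (hT : Tk k T) (K : IntermediateField k Ω) {X Z : List (Pt T)}
    (h : ∀ P ∈ X, P ∈ Z) : cl X ∈ JK (T := T) (kL K Z : Set Ω) :=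
  cl_mem_JK hT _ fun P hP => (PK_iff_kP _ P).2 (g_kP_le_kL K (h P hP))

theorem pd (hU : Univ k Ω) (hT : Tk k T) {K : IntermediateField k Ω} (hK : kbF k Ω ≤ K)
    {x x' a : ρ → ClassGroup (WB T)} (hx : GenA (kbF k Ω) x)
    (hxK : ∀ r, x r ∈ JK (T := T) (K : Set Ω)) (hx' : GenA K x')
    (ha : ∀ r, a r ∈ JK (T := T) (kbF k Ω : Set Ω)) (m₁ m₂ m₃ n : ℕ) (z : Fin n → Ω)
    (hz : LinearIndependent (kbF k Ω) z)
    (h : ∀ j, z j ∈ Submodule.span (kbF k Ω) {z | ∃ f ∈ HH T ρ (kbF k Ω) m₁,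
      ∃ f' ∈ HH T ρ (kbF k Ω) m₂, ∃ f'' ∈ HH T ρ (kbF k Ω) m₃, z = f x * f' x' * f'' (x * x' * a)}) :
    n ≤ ((nT T + 3 * gp T) * (m₁ + m₂ + m₃) + 1) ^ (2 * (gp T * Fintype.card ρ)) := by
  classical
  have := pd_closed k Ω
  -- the points of `x`
  choose Y hY using fun r => exists_dI (rdc_ne (x r))
  obtain ⟨hYi, hYl⟩ := genA_rdc hU hT (small_kb k Ω) hx hY
  have hYc : ∀ r, cl (Y r) = x r := fun r => by
    rw [cl, hY r, cls_rdc]
  obtain ⟨Y', hY'l, hY'i, hY'c⟩ := hx'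
  -- a small field
  obtain ⟨K₀, hK₀⟩ : ∃ K₀, K₀ = kbF k Ω ⊔ ⨆ r, kD k (x r) := ⟨_, rfl⟩
  have hkb : kbF k Ω ≤ K₀ := by
    rw [hK₀]
    exact le_sup_left
  have hkD : ∀ r, kD k (x r) ≤ K₀ := fun r => by
    rw [hK₀]
    exact (le_iSup (fun r => kD k (x r)) r).trans le_sup_right
  have hK₀K : K₀ ≤ K := by
    rw [hK₀]
    exact sup_le hK (iSup_le fun r => (mem_JK_iff hT K (x r)).1 (hxK r))
  have hsm : Small K₀ := by
    refine small_mono ?_ (small_kL hT (small_kb k Ω) (Finset.univ.toList.flatMap Y))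
    rw [hK₀]
    refine sup_le (le_kL _ _) (iSup_le fun r => (mem_JK_iff hT _ _).1 ?_)
    rw [← hYc r]
    exact pd_mem_JK_kL hT _ fun P hP => List.mem_flatMap.2 ⟨r, by simp, hP⟩
  have hx'' : GenA (kbF k Ω) (x * x' * a) := by
    have h1 : GenA K₀ (x' * (x * a)) := by
      refine genA_mul hU hT hsm (genA_mono hK₀K ⟨Y', hY'l, hY'i, hY'c⟩) fun r => ?_
      refine JK_mul hT _ (JK_mono (K := (K₀ : Set Ω)) (le_acl K₀) ((mem_JK_iff hT K₀ _).2 (hkD r)))
        (JK_mono (K := (kbF k Ω : Set Ω)) (hkb.trans (le_acl K₀)) (ha r))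
    have h2 : x * x' * a = x' * (x * a) := by
      rw [mul_comm x x', mul_assoc]
    rw [h2]
    exact genA_mono hkb h1
  have hx'g : GenA (kbF k Ω) x' := genA_mono hK ⟨Y', hY'l, hY'i, hY'c⟩
  -- the points of `x` and `x'` are not algebraic
  have htr : ∀ r, ∀ P ∈ Y r, xx P ∉ kbF k Ω := by
    intro r P hP hmem
    obtain ⟨i, rfl⟩ := List.get_of_mem hP
    have h1 := hYi.transcendental ⟨r, i⟩
    exact h1 (isAlgebraic_algebraMap (⟨_, hmem⟩ : kbF k Ω))
  have htr' : ∀ r, ∀ P ∈ Y' r, xx P ∉ acl K := by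
    intro r P hP hmem
    obtain ⟨i, rfl⟩ := List.get_of_mem hP
    exact hY'i.transcendental ⟨r, i⟩ (mem_acl.1 hmem)
  have hYK : ∀ r, ∀ P ∈ Y r, xx P ∈ acl K := by
    intro r P hP
    refine (PK_iff_xx hT (acl K) P).1 ?_
    refine PK_of_ratI hT (acl K) (X := Y r) ?_ P hP
    rw [hY r]
    exact JK_mono (K := (K : Set Ω)) (le_acl K) (hxK r)
  have hkK : ∀ c ∈ kbF k Ω, c ∈ acl K := fun c hc => le_acl K (hK hc)
  -- main step
  refine pd_exch (K := kbF k Ω)
    (fun D : TD k T ρ (kbF k Ω) m₁ × TD k T ρ (kbF k Ω) m₂ × TD k T ρ (kbF k Ω) m₃ =>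
      tmf D.1 x * tmf D.2.1 x' * tmf D.2.2 (x * x' * a)) _ ?_ z hz
      (fun j => pd_span x x' (x * x' * a) (h j))
  intro t hli
  -- the exceptional points
  let S : List (Pt T) := Finset.univ.toList.flatMap fun l => Finset.univ.toList.flatMap fun r =>
    (List.ofFn ((t l).1.B r)).flatten ++ (List.ofFn ((t l).2.1.B r)).flatten ++
      (List.ofFn ((t l).2.2.B r)).flatten
  have hmemS : ∀ P, (∃ l r, (∃ i, P ∈ (t l).1.B r i) ∨ (∃ i, P ∈ (t l).2.1.B r i) ∨
      ∃ i, P ∈ (t l).2.2.B r i) ↔ P ∈ S := by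
    intro P
    simp only [S, List.mem_flatMap, Finset.mem_toList, Finset.mem_univ, true_and,
      List.mem_append, List.mem_flatten, List.mem_ofFn', Set.mem_range, exists_exists_eq_and, or_assoc]
  have hS₁ : ∀ l, pdAv (t l).1 S := fun l r i P hP => (hmemS P).1 ⟨l, r, Or.inl ⟨i, hP⟩⟩
  have hS₂ : ∀ l, pdAv (t l).2.1 S := fun l r i P hP => (hmemS P).1 ⟨l, r, Or.inr (Or.inl ⟨i, hP⟩)⟩
  have hS₃ : ∀ l, pdAv (t l).2.2 S := fun l r i P hP => (hmemS P).1 ⟨l, r, Or.inr (Or.inr ⟨i, hP⟩)⟩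
  have hSK : ∀ P ∈ S, xx P ∈ kbF k Ω := by
    intro P hP
    refine (PK_iff_xx hT _ P).1 ?_
    obtain ⟨l, r, ⟨i, hi⟩ | ⟨i, hi⟩ | ⟨i, hi⟩⟩ := (hmemS P).2 hP
    · exact (t l).1.pk r i P hi
    · exact (t l).2.1.pk r i P hi
    · exact (t l).2.2.pk r i P hi
  -- the auxiliary points
  obtain ⟨C, hC1, hC2, hC3, hC4, hC5⟩ := exists_repK hT (kbF k Ω) (JK_one hT _) S (le_refl (nT T))
  choose A hA1 hA2 hA3 hA4 hA5 using fun r => exists_repK hT (kbF k Ω) (ha r) S (le_refl (nT T))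
  have hgn : gp T ≤ nT T := by
    unfold nT
    omega
  obtain ⟨y, hy⟩ : ∃ y : Bool × ρ × Fin (gp T) → Pt T, (∀ r, pdL y false r = Y r) ∧
      ∀ r, pdL y true r = Y' r := by
    refine ⟨fun i => if i.1 = true then (Y' i.2.1).get (Fin.cast (hY'l _).symm i.2.2) else
      (Y i.2.1).get (Fin.cast (hYl _).symm i.2.2), fun r => ?_, fun r => ?_⟩
    · unfold pdL
      apply List.ext_getElem
      · rw [List.length_ofFn, hYl]
      · intro n h1 h2
        simp
    · unfold pdL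
      apply List.ext_getElem
      · rw [List.length_ofFn, hY'l]
      · intro n h1 h2
        simp
  have hyS : ∀ i, y i ∉ S := by
    rintro ⟨b, r, j⟩ hS
    have h1 := hSK _ hS
    have h2 : y (b, r, j) ∈ pdL y b r := (List.mem_ofFn' _ _).2 ⟨j, rfl⟩
    cases b with
    | false =>
      rw [hy.1] at h2
      exact htr r _ h2 h1
    | true =>
      rw [hy.2] at h2
      exact htr' r _ h2 (hkK _ h1)
  obtain ⟨c, hc, hrel⟩ := pd_grid (c := nT T + 3 * gp T) hT C A S hC2 hA2 hC5 hA5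
    (by rw [hC4]; exact hgn) (fun r => by rw [hA4]; exact hgn) (by rw [hC4]; omega)
    (fun r => by rw [hA4]; omega) (Nat.lt_succ_self _) (fun l => (t l).1) (fun l => (t l).2.1)
    (fun l => (t l).2.2) hS₁ hS₂ hS₃ y hyS
  -- the denominators
  have hxxC : ∀ P ∈ C, xx P ∈ kbF k Ω := fun P hP => (PK_iff_xx hT _ P).1 (hC5 P hP)
  have hxxA : ∀ r, ∀ P ∈ A r, xx P ∈ kbF k Ω := fun r P hP => (PK_iff_xx hT _ P).1 (hA5 r P hP)
  have hYS : ∀ r, ∀ P ∈ Y r, P ∉ S := fun r P hP hS => htr r P hP (hSK P hS)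
  have hY'S : ∀ r, ∀ P ∈ Y' r, P ∉ S := fun r P hP hS => htr' r P hP (hkK _ (hSK P hS))
  have hnd : ∀ r, (Y r).Nodup := by
    intro r
    have h1 : Ind (kbF k Ω) (Y r) := hYi.comp (fun i => ⟨r, i⟩) fun i j hij => by
      simpa using hij
    exact ind_nodup h1
  have hnd' : ∀ r, (Y' r).Nodup := by
    intro r
    have h1 : Ind K (Y' r) := hY'i.comp (fun i => ⟨r, i⟩) fun i j hij => by
      simpa using hij
    exact ind_nodup h1
  have hD₁ : ∀ r, Dl (C ++ Y r) ≠ 0 := by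
    intro r
    refine (Dl_ne_zero_iff (by rw [List.length_append, hC4]; omega)).2 ⟨?_, ?_⟩
    · refine List.nodup_append.2 ⟨hC1, hnd r, fun P hP Q hQ hPQ => ?_⟩
      exact htr r Q hQ (hPQ ▸ hxxC P hP)
    · rw [cl_append, hC3, one_mul, hYc]
      exact (genA_Ns hU hT (small_kb k Ω) hx r).1
  have hD₂ : ∀ r, Dl (C ++ Y' r) ≠ 0 := by
    intro r
    refine (Dl_ne_zero_iff (by rw [List.length_append, hC4]; omega)).2 ⟨?_, ?_⟩
    · refine List.nodup_append.2 ⟨hC1, hnd' r, fun P hP Q hQ hPQ => ?_⟩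
      exact htr' r Q hQ (hPQ ▸ hkK _ (hxxC P hP))
    · rw [cl_append, hC3, one_mul, hY'c]
      exact (genA_Ns hU hT (small_kb k Ω) hx'g r).1
  have hD₃ : ∀ r, Dl (A r ++ Y r ++ Y' r) ≠ 0 := by
    intro r
    refine (Dl_ne_zero_iff (by rw [List.length_append, List.length_append, hA4]; omega)).2 ⟨?_, ?_⟩
    · refine List.nodup_append.2 ⟨List.nodup_append.2 ⟨hA1 r, hnd r, fun P hP Q hQ hPQ => ?_⟩,
        hnd' r, fun P hP Q hQ hPQ => ?_⟩
      · exact htr r Q hQ (hPQ ▸ hxxA r P hP)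
      · refine htr' r Q hQ (hPQ ▸ ?_)
        rcases List.mem_append.1 hP with h1 | h1
        · exact hkK _ (hxxA r P h1)
        · exact hYK r P h1
    · have h1 : cl (A r ++ Y r ++ Y' r) = (x * x' * a) r := by
        rw [cl_append, cl_append, hA3, hYc, hY'c, Pi.mul_apply, Pi.mul_apply, mul_comm (a r),
          mul_right_comm]
      rw [h1]
      exact (genA_Ns hU hT (small_kb k Ω) hx'' r).1
  have happ : ∀ {X Y : List (Pt T)}, (∀ P ∈ X, P ∉ S) → (∀ P ∈ Y, P ∉ S) → ∀ P ∈ X ++ Y, P ∉ S :=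
    fun hX hY P hP => (List.mem_append.1 hP).elim (hX P) (hY P)
  have hNm : ∀ l, pdNm (t l).1 (t l).2.1 (t l).2.2 C A y =
      (tmf (t l).1 x * tmf (t l).2.1 x' * tmf (t l).2.2 (x * x' * a)) *
        ∏ r, (Dl (C ++ Y r) ^ m₁ * Dl (C ++ Y' r) ^ m₂ * Dl (A r ++ Y r ++ Y' r) ^ m₃) := by
    intro l
    unfold pdNm tmf
    rw [if_pos hx, if_pos hx'g, if_pos hx'', ← Finset.prod_mul_distrib, ← Finset.prod_mul_distrib,
      ← Finset.prod_mul_distrib]
    refine Finset.prod_congr rfl fun r _ => ?_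
    rw [hy.1, hy.2]
    have e1 : x r = cl (C ++ Y r) := by rw [cl_append, hC3, one_mul, hYc]
    have e2 : x' r = cl (C ++ Y' r) := by rw [cl_append, hC3, one_mul, hY'c]
    have e3 : (x * x' * a) r = cl (A r ++ Y r ++ Y' r) := by
      rw [cl_append, cl_append, hA3, hYc, hY'c, Pi.mul_apply, Pi.mul_apply, mul_comm (a r),
        mul_right_comm]
    rw [e3, thc_eq ((t l).2.2.hd r) (by rw [List.length_append, List.length_append, hA4]; omega)
      (hD₃ r) ((hS₃ l).ev r (happ (happ (hA2 r) (hYS r)) (hY'S r)))]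
    rw [e1, thc_eq ((t l).1.hd r) (by rw [List.length_append, hC4]; omega) (hD₁ r)
      ((hS₁ l).ev r (happ hC2 (hYS r)))]
    rw [e2, thc_eq ((t l).2.1.hd r) (by rw [List.length_append, hC4]; omega) (hD₂ r)
      ((hS₂ l).ev r (happ hC2 (hY'S r)))]
    rw [← pd_th_nm _ _ (hD₁ r), ← pd_th_nm _ _ (hD₂ r), ← pd_th_nm _ _ (hD₃ r)]
    ring
  have hden : (∏ r, (Dl (C ++ Y r) ^ m₁ * Dl (C ++ Y' r) ^ m₂ * Dl (A r ++ Y r ++ Y' r) ^ m₃)) ≠ 0 :=
    Finset.prod_ne_zero_iff.2 fun r _ => mul_ne_zero (mul_ne_zero (pow_ne_zero _ (hD₁ r))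
      (pow_ne_zero _ (hD₂ r))) (pow_ne_zero _ (hD₃ r))
  apply hc
  funext l
  have hrel' : (∑ l, c l • (tmf (t l).1 x * tmf (t l).2.1 x' * tmf (t l).2.2 (x * x' * a))) *
      ∏ r, (Dl (C ++ Y r) ^ m₁ * Dl (C ++ Y' r) ^ m₂ * Dl (A r ++ Y r ++ Y' r) ^ m₃) = 0 := by
    rw [← hrel, Finset.sum_mul]
    refine Finset.sum_congr rfl fun l _ => ?_
    rw [hNm l, smul_mul_assoc]
  exact Fintype.linearIndependent_iff.1 hli c ((mul_eq_zero.1 hrel').resolve_right hden) l

end pd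

end Pool.Agent.TIFT
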