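import Pool.Agent.TIFT.U0

/-!
# [TIF, block THETA] row U6

cf_div: for a K-linear π : Ω → K with π 1 = 1 (TIFP.exists_fn), pm (b c) = pm b * c (TIFP.pm_mul) and pm (b c) = b c (coefficients in K), so pm b = b (domain). sep_ideal: E := dI X, n := |X|. Linear algebra: W := WB T / E has dimension n (evaluation at the n different points is an isomorphism to Ω^n: dI_le_iff, Vandermonde), the images of 1, x, .., x^(n-1) are a basis (Vandermonde: the xx P are different). So for every b there are unique c_i ∈ Ω with b - sum_{i<n} c_i x^i ∈ E. If b has coefficients in K then c_i ∈ K: apply pm (fn π) (π 1 = 1, K-linear): E is stable (TIFP.ratI_iff_pm), pm (b - sum c_i x^i) = b - sum π(c_i) x^i ∈ E, so π(c_i) = c_i by uniqueness. Apply it to x^n: the polynomial t^n - sum c_i t^i ∈ K[t] vanishes at the n different values xx P, so it is ∏ (t - xx P): separable; so the xx P are separable over K; apply it to b: P b = sum c_i (xx P)^i ∈ K(xx P): separable. sep_gen: genA_rdc: IndA K X, so the xx are different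 (AlgebraicIndependent.injective), rdc (x r) = dI (X r) is rational over K'.
-/

set_option autoImplicit false
set_option linter.unusedSectionVars false

open Polynomial IsLocalRing

namespace Pool.Agent.TIFT

open GT TIF Pool.Agent.TIFP

section

variable {k Ω : Type} [Field k] [Field Ω] [Algebra k Ω] [IsAlgClosed Ω] {d : ℕ} [NeZero d]
  {T : Tab Ω d} [IsDedekindDomain (WB T)] {ρ : Type} [Fintype ρ]

/-- an element with coefficients in `K` is fixed by the functionals with `π 1 = 1` -/
private theorem u6_fix (K : IntermediateField k Ω) {π : Ω →ₗ[K.toSubfield] K.toSubfield}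
    (hπ : fn π 1 = 1) {b : WB T} (hb : Cf (K : Set Ω) b) : pm (eW T) (fn π) b = b := by
  apply (eW T).repr.injective
  ext i
  rw [pm_repr]
  have h1 : (eW T).repr b i ∈ K.toSubfield := (cf_iff (K : Set Ω) b).1 hb i
  have h2 := fn_mul π 1 _ h1
  rwa [mul_one, hπ, mul_one] at h2

theorem cf_div (hT : Tk k T) (K : IntermediateField k Ω) {b c : WB T} (hc : Cf (K : Set Ω) c)
    (h0 : c ≠ 0) (h : Cf (K : Set Ω) (b * c)) : Cf (K : Set Ω) b := by
  obtain ⟨π, hπ⟩ := exists_fn K.toSubfield
  have h1 := pm_mul (K := K.toSubfield) hT (r_hK K) π b c hc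
  rw [u6_fix K hπ h] at h1
  have h2 : b = pm (eW T) (fn π) b := mul_right_cancel₀ h0 h1
  rw [h2]
  exact (cf_iff (K.toSubfield : Set Ω) _).2 (pm_cf (K := K.toSubfield) (eW T) π b)

private theorem u6_pow (hT : Tk k T) (K : IntermediateField k Ω) {b : WB T} (hb : Cf (K : Set Ω) b)
    (n : ℕ) : Cf (K : Set Ω) (b ^ n) := by
  induction n with
  | zero => rw [pow_zero]; exact cfOne (K := K.toSubfield)
  | succ n ih => rw [pow_succ]; exact cfMul (K := K.toSubfield) hT (r_hK K) ih hb

private theorem u6_x (K : IntermediateField k Ω) : Cf (K : Set Ω) (WB.x T) := by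
  intro j n
  rw [WB.x, WB.algebraMap_co]
  split_ifs
  · rw [coeff_X]
    split_ifs
    · exact K.one_mem
    · exact K.zero_mem
  · rw [coeff_zero]
    exact K.zero_mem

/-- interpolation over `K` -/
private theorem u6_poly (hT : Tk k T) (K : IntermediateField k Ω) {X : List (Pt T)}
    (hX : (X.map xx).Nodup) (h : RatI (K : Set Ω) (dI X)) (s : Finset (Pt T)) (hs : ∀ P, P ∈ s ↔ P ∈ X)
    {b : WB T} (hb : Cf (K : Set Ω) b) :
    ∃ q : Polynomial K, q.degree < (s.card : WithBot ℕ) ∧ ∀ P ∈ X, P b = aeval (xx P) q := by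
  classical
  have hnd : X.Nodup := hX.of_map
  have hinj : Set.InjOn (xx : Pt T → Ω) s := by
    intro P hP Q hQ hPQ
    exact List.inj_on_of_nodup_map hX ((hs P).1 hP) ((hs Q).1 hQ) hPQ
  obtain ⟨q₀, hq₀⟩ : ∃ q₀ : Polynomial Ω, q₀ = Lagrange.interpolate s xx (fun P : Pt T => P b) := ⟨_, rfl⟩
  have hdeg : q₀.degree < (s.card : WithBot ℕ) := by
    rw [hq₀]
    exact Lagrange.degree_interpolate_lt _ hinj
  have hev : ∀ P ∈ X, aeval (xx P) q₀ = P b := by
    intro P hP
    rw [hq₀, coe_aeval_eq_eval, Lagrange.eval_interpolate_at_node _ hinj ((hs P).2 hP)]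
  have hmem : b - aeval (WB.x T) q₀ ∈ dI X := by
    rw [dI_le_iff hnd]
    intro P hP
    rw [map_sub, ← aeval_algHom_apply, sub_eq_zero]
    exact (hev P hP).symm
  obtain ⟨π, hπ⟩ := exists_fn K.toSubfield
  have h3 := (ratI_iff_pm hT (r_hK K) _).1 h π _ hmem
  have h4 : pm (eW T) (fn π) (aeval (WB.x T) q₀) = ∑ i ∈ Finset.range (q₀.natDegree + 1),
      fn π (q₀.coeff i) • WB.x T ^ i := by
    rw [aeval_eq_sum_range, map_sum]
    exact Finset.sum_congr rfl fun i _ => pm_smul _ π _ _ ((cf_iff _ _).1 (u6_pow hT K (u6_x K) i))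
  rw [map_sub, u6_fix K hπ hb, h4] at h3
  have hcoeff : ∀ m, (∑ i ∈ Finset.range (q₀.natDegree + 1),
      monomial i (⟨fn π (q₀.coeff i), fn_mem π _⟩ : K)).coeff m = (⟨fn π (q₀.coeff m), fn_mem π _⟩ : K) := by
    intro m
    rw [finsetSum_coeff]
    by_cases hm : m ∈ Finset.range (q₀.natDegree + 1)
    · rw [Finset.sum_eq_single m]
      · rw [coeff_monomial_same]
      · intro i _ hi
        rw [coeff_monomial, if_neg hi]
      · intro h
        exact absurd hm h
    · rw [Finset.sum_eq_zero]
      · refine Subtype.ext ?_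
        change (0 : Ω) = fn π (q₀.coeff m)
        rw [coeff_eq_zero_of_natDegree_lt (by rw [Finset.mem_range] at hm; omega), map_zero]
      · intro i hi
        rw [coeff_monomial, if_neg]
        rintro rfl
        exact hm hi
  refine ⟨∑ i ∈ Finset.range (q₀.natDegree + 1),
    monomial i (⟨fn π (q₀.coeff i), fn_mem π _⟩ : K), ?_, fun P hP => ?_⟩
  · rw [degree_lt_iff_coeff_zero] at hdeg ⊢
    intro m hm
    rw [hcoeff]
    refine Subtype.ext ?_
    change fn π (q₀.coeff m) = 0
    rw [hdeg m hm, map_zero]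
  · have h5 := (dI_le_iff hnd).1 h3 P hP
    rw [map_sub, sub_eq_zero, map_sum] at h5
    rw [h5, map_sum]
    refine Finset.sum_congr rfl fun i _ => ?_
    rw [aeval_monomial, map_smul, map_pow, smul_eq_mul]
    rfl

/-- the different points of an ideal defined over `K` with different coordinates are separable over
`K` -/
theorem sep_ideal (hT : Tk k T) (K : IntermediateField k Ω) {X : List (Pt T)}
    (hX : (X.map xx).Nodup) (h : RatI (K : Set Ω) (dI X)) {P : Pt T} (hP : P ∈ X) {b : WB T}
    (hb : Cf (K : Set Ω) b) : IsSeparable K (P b) := by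
  classical
  obtain ⟨s, hs⟩ : ∃ s : Finset (Pt T), ∀ P, P ∈ s ↔ P ∈ X := ⟨X.toFinset, fun P => List.mem_toFinset⟩
  have hinj : Set.InjOn (xx : Pt T → Ω) s := by
    intro P hP Q hQ hPQ
    exact List.inj_on_of_nodup_map hX ((hs P).1 hP) ((hs Q).1 hQ) hPQ
  obtain ⟨q, hq, hq2⟩ := u6_poly hT K hX h s hs (u6_pow hT K (u6_x K) s.card)
  have hf : (Polynomial.X ^ s.card - q).map (algebraMap K Ω) = Lagrange.nodal s (xx : Pt T → Ω) := by
    refine eq_of_degree_sub_lt_of_eval_index_eq s hinj ?_ ?_
    · rw [Polynomial.map_sub, Polynomial.map_pow, Polynomial.map_X, sub_right_comm]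
      refine lt_of_le_of_lt (degree_sub_le _ _) (max_lt ?_ ?_)
      · have h1 : (Polynomial.X ^ s.card : Polynomial Ω).degree = (Lagrange.nodal s (xx : Pt T → Ω)).degree := by
          rw [degree_X_pow, Lagrange.degree_nodal]
        have h2 := degree_sub_lt_left h1 (pow_ne_zero _ Polynomial.X_ne_zero)
          (by rw [(monic_X_pow s.card).leadingCoeff, (Lagrange.nodal_monic).leadingCoeff])
        rwa [degree_X_pow] at h2
      · exact lt_of_le_of_lt degree_map_le hq
    · intro Q hQ
      rw [Lagrange.eval_nodal_at_node hQ, eval_map_algebraMap, map_sub, map_pow, aeval_X, ← hq2 Q ((hs Q).1 hQ),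
        map_pow]
      exact sub_self _
  have hsep : (Polynomial.X ^ s.card - q : Polynomial K).Separable := by
    rw [← separable_map (algebraMap K Ω), hf, Lagrange.nodal_eq, separable_prod_X_sub_C_iff']
    exact fun Q hQ R hR h => hinj hQ hR h
  have hx : IsSeparable K (xx P) := by
    refine hsep.of_dvd (minpoly.dvd K _ ?_)
    rw [map_sub, map_pow, aeval_X, ← hq2 P hP, map_pow]
    exact sub_self _
  obtain ⟨r, -, hr⟩ := u6_poly hT K hX h s hs hb
  rw [hr P hP]
  have h1 : xx P ∈ separableClosure K Ω := mem_separableClosure_iff.2 hx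
  have h2 : aeval (xx P) r ∈ separableClosure K Ω := by
    have h3 : aeval (xx P) r = algebraMap (separableClosure K Ω) Ω (aeval (⟨xx P, h1⟩ : separableClosure K Ω) r) := by
      rw [← aeval_algebraMap_apply]
      rfl
    rw [h3]
    exact (aeval (⟨xx P, h1⟩ : separableClosure K Ω) r).2
  exact mem_separableClosure_iff.1 h2

theorem sep_gen (hU : Univ k Ω) (hT : Tk k T) {K K' : IntermediateField k Ω} (hs : Small K)
    (hK : K ≤ K')
    {x : ρ → ClassGroup (WB T)} (hx : GenA K x) (h : ∀ r, x r ∈ JK (T := T) (K' : Set Ω))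
    {X : ρ → List (Pt T)} (hX : ∀ r, dI (X r) = rdc (x r)) (r : ρ) {P : Pt T} (hP : P ∈ X r)
    {b : WB T} (hb : Cf (Set.range (algebraMap k Ω)) b) : IsSeparable K' (P b) := by
  have h1 : Ind K (X r) := (genA_rdc hU hT hs hx hX).1.ind r
  have h2 : ((X r).map xx).Nodup := by
    have h3 : (X r).map xx = List.ofFn fun i => xx ((X r).get i) := by
      conv_lhs => rw [← List.ofFn_get (X r)]
      rw [List.map_ofFn]
      rfl
    rw [h3, List.nodup_ofFn]
    exact AlgebraicIndependent.injective h1
  refine sep_ideal hT K' h2 ?_ hP fun j n => ?_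
  · rw [hX r]
    exact h r
  · obtain ⟨c, hc⟩ := hb j n
    rw [← hc]
    exact K'.algebraMap_mem c

end

end Pool.Agent.TIFT
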