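import Pool.Agent.TIFT.U8a
import Pool.Agent.TIFT.U6
import Pool.Agent.TIFT.C3

/-!
# [TIF, block THETA] row U10: the functions of `HH` along a curve
-/

set_option autoImplicit false
set_option linter.unusedSectionVars false

open Polynomial IsLocalRing

namespace Pool.Agent.TIFT

open GT TIF

section

variable {k Ω : Type} [Field k] [Field Ω] [Algebra k Ω] [IsAlgClosed Ω] {d : ℕ} [NeZero d]
  {T : Tab Ω d} [IsDedekindDomain (WB T)] {ρ : Type} [Fintype ρ]

theorem u10_pm (K : IntermediateField k Ω) (π : Ω →ₗ[K.toSubfield] K.toSubfield)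
    (hπ : TIFP.fn π 1 = 1) {b : WB T} (hb : Cf (K : Set Ω) b) :
    TIFP.pm (TIFP.eW T) (TIFP.fn π) b = b := by
  apply (TIFP.eW T).repr.injective
  ext ⟨n, j⟩
  rw [TIFP.pm_repr, TIFP.eW_repr]
  have h := TIFP.fn_mul π 1 _ (hb j n)
  rw [mul_one, hπ, mul_one] at h
  exact h

theorem u10_val (K : IntermediateField k Ω) {P : Pt T} (hP : PK k (K : Set Ω) P) {b : WB T}
    (hb : Cf (K : Set Ω) b) : P b ∈ K := by
  obtain ⟨π, hπ⟩ := TIFP.exists_fn K.toSubfield
  have h := r_pm_pt K hP π b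
  rw [u10_pm K π hπ hb] at h
  rw [h]
  exact TIFP.fn_mem π _

theorem u10_ev (K : IntermediateField k Ω) {X : List (Pt T)} (hX : ∀ P ∈ X, PK k (K : Set Ω) P)
    {b : WB T} (hb : Cf (K : Set Ω) b) : ev b X ∈ K := by
  rw [ev]
  refine K.list_prod_mem ?_
  intro x hx
  obtain ⟨P, hP, rfl⟩ := List.mem_map.1 hx
  exact u10_val K (hX P hP) hb

theorem u10_det (K : IntermediateField k Ω) {n : ℕ} {M : Matrix (Fin n) (Fin n) Ω}
    (h : ∀ i j, M i j ∈ K) : M.det ∈ K := by
  rw [Matrix.det_apply]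
  refine K.sum_mem fun σ _ => ?_
  have h1 : ∏ i, M (σ i) i ∈ K := K.prod_mem fun i _ => h _ _
  rcases Int.units_eq_one_or (Equiv.Perm.sign σ) with h | h
  · rw [h, one_smul]; exact h1
  · rw [h, Units.neg_smul, one_smul]; exact K.neg_mem h1

theorem u10_cf_add (K : IntermediateField k Ω) {b c : WB T} (hb : Cf (K : Set Ω) b)
    (hc : Cf (K : Set Ω) c) : Cf (K : Set Ω) (b + c) := fun j n => by
  rw [WB.co_add, Pi.add_apply, coeff_add]
  exact K.add_mem (hb j n) (hc j n)

theorem u10_cf_smul (K : IntermediateField k Ω) {a : Ω} (ha : a ∈ K) {c : WB T}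
    (hc : Cf (K : Set Ω) c) : Cf (K : Set Ω) (a • c) := fun j n => by
  rw [← TIFP.eW_repr, map_smul, Finsupp.smul_apply, TIFP.eW_repr, smul_eq_mul]
  exact K.mul_mem ha (hc j n)

theorem u10_cf_zero (K : IntermediateField k Ω) : Cf (K : Set Ω) (0 : WB T) := fun j n => by
  rw [← TIFP.eW_repr, map_zero]
  exact K.zero_mem

theorem u10_cf_sum (K : IntermediateField k Ω) {ι : Type} (s : Finset ι) (f : ι → WB T)
    (h : ∀ i ∈ s, Cf (K : Set Ω) (f i)) : Cf (K : Set Ω) (∑ i ∈ s, f i) := by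
  classical
  induction s using Finset.induction_on with
  | empty => exact u10_cf_zero K
  | insert a s ha ih =>
    rw [Finset.sum_insert ha]
    exact u10_cf_add K (h a (Finset.mem_insert_self _ _))
      (ih fun i hi => h i (Finset.mem_insert_of_mem hi))

theorem u10_cf_prod (hT : Tk k T) (K : IntermediateField k Ω) {ι : Type} (s : Finset ι)
    (f : ι → WB T) (h : ∀ i ∈ s, Cf (K : Set Ω) (f i)) : Cf (K : Set Ω) (∏ i ∈ s, f i) := by
  classical
  induction s using Finset.induction_on with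
  | empty => exact TIFP.cfOne (K := K.toSubfield)
  | insert a s ha ih =>
    rw [Finset.prod_insert ha]
    exact TIFP.cfMul (K := K.toSubfield) hT (r_hK K) (h a (Finset.mem_insert_self _ _))
      (ih fun i hi => h i (Finset.mem_insert_of_mem hi))

theorem u10_cf_e (K : IntermediateField k Ω) (i : ℕ) : Cf (K : Set Ω) (e T i) := fun j n => by
  rcases r_e_co (T := T) i j n with h | h
  · rw [h]; exact K.zero_mem
  · rw [h]; exact K.one_mem

theorem u10_cast {m : ℕ} (Y : List (Pt T)) (h : Y.length = m) :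
    Dl Y = Matrix.det (Matrix.of fun i j : Fin m => (Y.get (Fin.cast h.symm i)) (e T j)) := by
  subst h
  rfl

/-- the function `P ↦ Dl (X ++ [P])` has coefficients in the field of definition of `X` -/
theorem u10_last (K : IntermediateField k Ω) {X : List (Pt T)}
    (hX : ∀ P ∈ X, PK k (K : Set Ω) P) :
    ∃ F : WB T, (∀ P : Pt T, P F = Dl (X ++ [P])) ∧ Cf (K : Set Ω) F := by
  let M : Fin (X.length + 1) → Ω := fun j =>
    Matrix.det (Matrix.of fun i k : Fin X.length => (X.get i) (e T (j.succAbove k : Fin (X.length + 1))))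
  refine ⟨∑ j : Fin (X.length + 1), ((-1 : Ω) ^ (X.length + (j : ℕ)) * M j) • e T j, ?_, ?_⟩
  · intro P
    have hlen : (X ++ [P]).length = X.length + 1 := by simp
    rw [u10_cast (X ++ [P]) hlen, Matrix.det_succ_row _ (Fin.last X.length), map_sum]
    refine Finset.sum_congr rfl fun j _ => ?_
    rw [map_smul, smul_eq_mul]
    have e1 : (X ++ [P]).get (Fin.cast hlen.symm (Fin.last X.length)) = P := by
      rw [List.get_eq_getElem]
      simp
    have e2 : (Matrix.of fun i j : Fin (X.length + 1) =>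
        ((X ++ [P]).get (Fin.cast hlen.symm i)) (e T j)) (Fin.last X.length) j = P (e T j) := by
      rw [Matrix.of_apply, e1]
    have e3 : (Matrix.of fun i j : Fin (X.length + 1) =>
        ((X ++ [P]).get (Fin.cast hlen.symm i)) (e T j)).submatrix (Fin.last X.length).succAbove
          j.succAbove =
        Matrix.of fun i k : Fin X.length => (X.get i) (e T (j.succAbove k : Fin (X.length + 1))) := by
      ext i k
      rw [Matrix.submatrix_apply, Matrix.of_apply, Matrix.of_apply, Fin.succAbove_last]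
      congr 1
      rw [List.get_eq_getElem, List.get_eq_getElem]
      exact List.getElem_append_left i.2
    rw [e2, e3, Fin.val_last]
    ring
  · refine u10_cf_sum K _ _ fun j _ => u10_cf_smul K (K.mul_mem ?_ ?_) (u10_cf_e K _)
    · exact pow_mem (K.neg_mem K.one_mem) _
    · exact u10_det K fun i j => r_e_mem K (hX _ (List.get_mem _ _)) _

theorem u10_PK_mono {K K' : IntermediateField k Ω} (h : K ≤ K') {P : Pt T}
    (hP : PK k (K : Set Ω) P) : PK k (K' : Set Ω) P := fun b hb => h (hP b hb)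

theorem u10_cf_mono {K K' : IntermediateField k Ω} (h : K ≤ K') {b : WB T}
    (hb : Cf (K : Set Ω) b) : Cf (K' : Set Ω) b := fun j n => h (hb j n)

theorem u10_indA [DecidableEq ρ] (hT : Tk k T) {K : IntermediateField k Ω} {X : ρ → List (Pt T)}
    (hX : IndA K X) (i : ρ) {P : Pt T} (hP : GenP k (K ⊔ ⨆ r, kL ⊥ (X r)) P) :
    IndA K (Function.update X i (X i ++ [P])) := by
  have hl : (Finset.univ.toList : List ρ).Nodup := Finset.nodup_toList _
  have hm : ∀ r, r ∈ (Finset.univ.toList : List ρ) := fun r => Finset.mem_toList.2 (Finset.mem_univ r)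
  generalize (Finset.univ.toList : List ρ) = l at hl hm
  rw [indA_iff hl hm] at hX ⊢
  have hperm : (l.flatMap X ++ [P]).Perm (l.flatMap (Function.update X i (X i ++ [P]))) := by
    obtain ⟨l₁, l₂, rfl⟩ := List.append_of_mem (hm i)
    have h1 : i ∉ l₁ ∧ i ∉ l₂ := by
      rw [List.nodup_append] at hl
      refine ⟨fun h => hl.2.2 i h i (List.mem_cons_self) rfl, ?_⟩
      exact (List.nodup_cons.1 hl.2.1).1
    have h2 : ∀ l' : List ρ, i ∉ l' → l'.flatMap (Function.update X i (X i ++ [P])) = l'.flatMap X := by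
      intro l' hl'
      rw [List.flatMap_def, List.flatMap_def]
      congr 1
      refine List.map_congr_left fun r hr => ?_
      rw [Function.update_of_ne]
      rintro rfl
      exact hl' hr
    rw [List.flatMap_append, List.flatMap_append, List.flatMap_cons, List.flatMap_cons, h2 _ h1.1,
      h2 _ h1.2, Function.update_self, List.append_assoc, List.append_assoc, List.append_assoc]
    refine List.Perm.append_left _ (List.Perm.append_left _ ?_)
    exact List.perm_append_comm
  rw [← ind_perm hperm, ind_append hT, ind_singleton hT]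
  refine ⟨hX, ?_⟩
  have h3 : kL K (l.flatMap X) ≤ K ⊔ ⨆ r, kL ⊥ (X r) := by
    refine kL_le le_sup_left ?_
    intro Q hQ
    obtain ⟨r, _, hr⟩ := List.mem_flatMap.1 hQ
    exact (g_kP_le_kL ⊥ hr).trans ((le_iSup (fun r => kL ⊥ (X r)) r).trans le_sup_right)
  rw [← ind_singleton hT] at hP ⊢
  exact ind_mono h3 hP

theorem u10_cl (P : Pt T) : iot P = cl [P] := by
  rw [iot, cl, dI, List.map_singleton, List.prod_singleton]
  rfl

/-- the statement for one monomial -/
theorem u10_tmf [DecidableEq ρ] (hU : Univ k Ω) (hT : Tk k T) {K : IntermediateField k Ω}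
    (hK : Small K) {m : ℕ} (D : TD k T ρ K m) {X : ρ → List (Pt T)}
    (hX : IndA K X) (hg : ∀ r, gp T ≤ (X r).length) (i : ρ) :
    ∃ N : WB T, Cf ((K ⊔ ⨆ r, kL ⊥ (X r) : IntermediateField k Ω) : Set Ω) N ∧
      N ∈ dI (X i) ^ m ∧ pord N ≤ m * ((X i).length + gp T) ∧
      ∀ P : Pt T, GenP k (K ⊔ ⨆ r, kL ⊥ (X r)) P →
        P N = tmf D ((fun r => cl (X r)) * Pi.mulSingle i (iot P)) * Dl (X i ++ [P]) ^ m := by
  set K₁ : IntermediateField k Ω := K ⊔ ⨆ r, kL ⊥ (X r) with hK₁
  have hKK : K ≤ K₁ := le_sup_left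
  have hXp : ∀ r, ∀ P ∈ X r, PK k (K₁ : Set Ω) P := fun r P hP => (PK_iff_kP _ _).2
    ((g_kP_le_kL ⊥ hP).trans ((le_iSup (fun r => kL ⊥ (X r)) r).trans le_sup_right))
  have hBp : ∀ r j, ∀ P ∈ D.B r j, PK k (K₁ : Set Ω) P := fun r j P hP =>
    u10_PK_mono hKK (D.pk r j P hP)
  have hh : ∀ r, Cf (K₁ : Set Ω) (D.h r) := fun r => u10_cf_mono hKK (D.cf_h hT r)
  have h0 : ∀ r, ev (D.h r) (X r) ≠ 0 := fun r => D.ev_ne r fun P hP j hPB =>
    not_PK (hX.ind r) hP (D.pk r j P hPB)
  obtain ⟨F, hF1, hF2, hF3⟩ := th_last (D.hd i) (hg i) (h0 i)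
  -- the coefficients of `F`
  have hFc : Cf (K₁ : Set Ω) F := by
    choose G hG1 hG2 using fun j => u10_last K₁ (X := D.B i j ++ X i) fun P hP => by
      rcases List.mem_append.1 hP with h | h
      · exact hBp i j P h
      · exact hXp i P h
    have he : F * (ev (D.h i) (X i) • D.h i) = ∏ j, G j := by
      refine eq_of_pt fun P => ?_
      rw [map_mul, map_smul, smul_eq_mul, map_prod, mul_comm (ev _ _), hF3 P]
      exact Finset.prod_congr rfl fun j _ => (hG1 j P).symm
    refine cf_div hT K₁ (c := ev (D.h i) (X i) • D.h i) ?_ ?_ ?_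
    · exact u10_cf_smul K₁ (u10_ev K₁ (hXp i) (hh i)) (hh i)
    · refine smul_ne_zero (h0 i) fun h => ?_
      have := (D.hd i).lc
      rw [h, a3_lc_zero] at this
      exact zero_ne_one this
    · rw [he]
      exact u10_cf_prod hT K₁ _ _ fun j _ => hG2 j
  -- the constant
  set c : Ω := ∏ r ∈ Finset.univ.erase i, th (D.B r) (D.h r) (X r) with hc
  have hcK : c ∈ K₁ := by
    refine K₁.prod_mem fun r _ => K₁.div_mem (K₁.prod_mem fun j _ => ?_) (K₁.mul_mem (pow_mem ?_ _) ?_)
    · refine Dl_mem hT K₁ fun P hP => ?_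
      rcases List.mem_append.1 hP with h | h
      · exact hBp r j P h
      · exact hXp r P h
    · exact Dl_mem hT K₁ (hXp r)
    · exact u10_ev K₁ (hXp r) (hh r)
  refine ⟨c • F, u10_cf_smul K₁ hcK hFc, ?_, ?_, fun P hP => ?_⟩
  · rw [Algebra.smul_def]
    exact Ideal.mul_mem_left _ _ hF1
  · rw [← mem_Ble_iff] at hF2 ⊢
    exact (Ble T _).smul_mem c hF2
  · have hI := u10_indA hT hX i hP
    set X' : ρ → List (Pt T) := Function.update X i (X i ++ [P]) with hX'
    have hg' : ∀ r, gp T ≤ (X' r).length := by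
      intro r
      by_cases hr : r = i
      · subst hr
        rw [hX', Function.update_self, List.length_append]
        exact (hg r).trans (Nat.le_add_right _ _)
      · rw [hX', Function.update_of_ne hr]
        exact hg r
    have hcl : (fun r => cl (X' r)) = (fun r => cl (X r)) * Pi.mulSingle i (iot P) := by
      funext r
      rw [Pi.mul_apply]
      by_cases hr : r = i
      · subst hr
        rw [hX', Function.update_self, Pi.mulSingle_eq_same, cl_append, u10_cl]
      · rw [hX', Function.update_of_ne hr, Pi.mulSingle_eq_of_ne hr, mul_one]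
    have hG : GenA K (fun r => cl (X' r)) := genA_cl hU hT hK hI hg'
    have h0' : ∀ r, ev (D.h r) (X' r) ≠ 0 := fun r => D.ev_ne r fun P hP j hPB =>
      not_PK (hI.ind r) hP (D.pk r j P hPB)
    have hD : ∀ r, Dl (X' r) ≠ 0 := fun r => Dl_ind hT (hI.ind r)
    rw [← hcl, tmf_eval D hG hg' hD (fun _ => rfl) h0']
    have hi : ∏ r, th (D.B r) (D.h r) (X' r) = c * th (D.B i) (D.h i) (X i ++ [P]) := by
      rw [← Finset.prod_erase_mul _ _ (Finset.mem_univ i), hX', Function.update_self]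
      congr 1
      refine Finset.prod_congr rfl fun r hr => ?_
      rw [Function.update_of_ne (Finset.ne_of_mem_erase hr)]
    rw [hi, map_smul, smul_eq_mul]
    have h1 : Dl (X i ++ [P]) ≠ 0 := by
      have := hD i
      rwa [hX', Function.update_self] at this
    have h2 : ev (D.h i) (X i ++ [P]) ≠ 0 := by
      have := h0' i
      rwa [hX', Function.update_self] at this
    have h3 : ev (D.h i) (X i ++ [P]) = ev (D.h i) (X i) * P (D.h i) := by
      rw [ev_append]
      congr 1
      rw [ev, List.map_singleton, List.prod_singleton]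
    have h4 := hF3 P
    rw [th]
    rw [h3] at h2 ⊢
    simp only [List.append_assoc] at h4 ⊢
    rw [← h4]
    have h5 : ev (D.h i) (X i) ≠ 0 := left_ne_zero_of_mul h2
    have h6 : P (D.h i) ≠ 0 := right_ne_zero_of_mul h2
    field_simp

theorem exists_num [DecidableEq ρ] (hU : Univ k Ω) (hT : Tk k T) {K : IntermediateField k Ω}
    (hK : Small K) {m : ℕ} {F : (ρ → ClassGroup (WB T)) → Ω} (hF : F ∈ HH T ρ K m) {X : ρ → List (Pt T)}
    (hX : IndA K X) (hg : ∀ r, gp T ≤ (X r).length) (i : ρ) :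
    ∃ N : WB T, Cf ((K ⊔ ⨆ r, kL ⊥ (X r) : IntermediateField k Ω) : Set Ω) N ∧
      N ∈ dI (X i) ^ m ∧ pord N ≤ m * ((X i).length + gp T) ∧
      ∀ P : Pt T, GenP k (K ⊔ ⨆ r, kL ⊥ (X r)) P →
        P N = F ((fun r => cl (X r)) * Pi.mulSingle i (iot P)) * Dl (X i ++ [P]) ^ m := by
  refine Submodule.span_induction (p := fun F _ => ∃ N : WB T,
      Cf ((K ⊔ ⨆ r, kL ⊥ (X r) : IntermediateField k Ω) : Set Ω) N ∧
      N ∈ dI (X i) ^ m ∧ pord N ≤ m * ((X i).length + gp T) ∧
      ∀ P : Pt T, GenP k (K ⊔ ⨆ r, kL ⊥ (X r)) P →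
        P N = F ((fun r => cl (X r)) * Pi.mulSingle i (iot P)) * Dl (X i ++ [P]) ^ m)
    ?_ ?_ ?_ ?_ hF
  · rintro _ ⟨D, rfl⟩
    exact u10_tmf hU hT hK D hX hg i
  · refine ⟨0, u10_cf_zero _, Ideal.zero_mem _, ?_, fun P _ => ?_⟩
    · rw [← mem_Ble_iff]
      exact (Ble T _).zero_mem
    · rw [map_zero, Pi.zero_apply, zero_mul]
  · rintro F F' _ _ ⟨N, h1, h2, h3, h4⟩ ⟨N', h1', h2', h3', h4'⟩
    refine ⟨N + N', u10_cf_add _ h1 h1', Ideal.add_mem _ h2 h2', ?_, fun P hP => ?_⟩
    · rw [← mem_Ble_iff] at h3 h3' ⊢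
      exact (Ble T _).add_mem h3 h3'
    · rw [map_add, h4 P hP, h4' P hP, Pi.add_apply, add_mul]
  · rintro c F _ ⟨N, h1, h2, h3, h4⟩
    refine ⟨(c : Ω) • N, u10_cf_smul _ (le_sup_left (a := K) c.2) h1, ?_, ?_, fun P hP => ?_⟩
    · rw [Algebra.smul_def]
      exact Ideal.mul_mem_left _ _ h2
    · rw [← mem_Ble_iff] at h3 ⊢
      exact (Ble T _).smul_mem (c : Ω) h3
    · rw [map_smul, h4 P hP, Pi.smul_apply, smul_eq_mul]
      rw [show c • F ((fun r => cl (X r)) * Pi.mulSingle i (iot P)) =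
        (c : Ω) * F ((fun r => cl (X r)) * Pi.mulSingle i (iot P)) from rfl, mul_assoc]

end

end Pool.Agent.TIFT
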