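import Pool.Agent.TIFT.U5
import Pool.Agent.TIFT.U6

/-!
# [TIF, block THETA] row U7

A separable element fixed by all automorphisms over `K` is in `K`; the values of the functions of
`HH` at the generic classes rational over `K'` are in `K'`; a function of `HH` which vanishes at one
generic class is zero.
-/

set_option autoImplicit false
set_option linter.unusedSectionVars false

open Polynomial IsLocalRing

namespace Pool.Agent.TIFT

open GT TIF Pool.Agent.TIFP

section

variable {k Ω : Type} [Field k] [Field Ω] [Algebra k Ω] [IsAlgClosed Ω] {d : ℕ} [NeZero d]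
  {T : Tab Ω d} [IsDedekindDomain (WB T)] {ρ : Type} [Fintype ρ]

/-- the roots of the minimal polynomial are conjugate -/
private theorem u7_conj {K : IntermediateField k Ω} {c β : Ω} (hc : IsIntegral K c)
    (hβ : aeval β (minpoly K c) = 0) :
    ∃ σ : Ω ≃ₐ[k] Ω, (∀ a ∈ K, σ a = a) ∧ σ c = β := by
  have halg : Algebra.IsAlgebraic K (AdjoinRoot (minpoly K c)) := by
    have : Fact (Irreducible (minpoly K c)) := ⟨minpoly.irreducible hc⟩
    have hfin : Module.Finite K (AdjoinRoot (minpoly K c)) :=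
      (AdjoinRoot.powerBasis (minpoly.ne_zero hc)).finite
    exact Algebra.IsAlgebraic.of_finite K _
  have hirr : Fact (Irreducible (minpoly K c)) := ⟨minpoly.irreducible hc⟩
  let f : AdjoinRoot (minpoly K c) →ₐ[K] Ω :=
    AdjoinRoot.liftAlgHom (minpoly K c) (Algebra.ofId K Ω) c (by
      rw [← minpoly.aeval K c]; rfl)
  let g : AdjoinRoot (minpoly K c) →ₐ[K] Ω :=
    AdjoinRoot.liftAlgHom (minpoly K c) (Algebra.ofId K Ω) β (by
      rw [← hβ]; rfl)
  have htr : Algebra.trdeg K (AdjoinRoot (minpoly K c)) < Cardinal.aleph0 := by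
    have h0 : Algebra.trdeg K (AdjoinRoot (minpoly K c)) = 0 := trdeg_eq_zero
    rw [h0]
    exact Cardinal.aleph0_pos
  obtain ⟨σ, hσ⟩ := exists_aut f g htr
  refine ⟨σ.restrictScalars k, fun a ha => ?_, ?_⟩
  · exact σ.commutes (⟨a, ha⟩ : K)
  · have h1 := hσ (AdjoinRoot.root _)
    have h2 : f (AdjoinRoot.root _) = c := AdjoinRoot.liftAlgHom_root _ _ _ _
    have h3 : g (AdjoinRoot.root _) = β := AdjoinRoot.liftAlgHom_root _ _ _ _
    rw [h2, h3] at h1
    exact h1

theorem mem_of_sep_fixed {K : IntermediateField k Ω} {c : Ω} (hs : IsSeparable K c)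
    (h : ∀ σ : Ω ≃ₐ[k] Ω, (∀ a ∈ K, σ a = a) → σ c = c) : c ∈ K := by
  have hint : IsIntegral K c := hs.isIntegral
  have hsep : (minpoly K c).Separable := hs
  have hcard := Polynomial.card_rootSet_eq_natDegree (K := Ω) hsep (IsAlgClosed.splits _)
  have hsub : ∀ β ∈ (minpoly K c).rootSet Ω, β = c := by
    intro β hβ
    obtain ⟨σ, h1, h2⟩ := u7_conj hint ((mem_rootSet.1 hβ).2)
    rw [← h2]
    exact h σ h1
  have hle : Fintype.card ((minpoly K c).rootSet Ω) ≤ 1 := by
    rw [Fintype.card_le_one_iff]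
    rintro ⟨a, ha⟩ ⟨b, hb⟩
    exact Subtype.ext ((hsub a ha).trans (hsub b hb).symm)
  rw [hcard] at hle
  have hpos := minpoly.natDegree_pos hint
  have hdeg : (minpoly K c).degree = 1 := by
    rw [degree_eq_natDegree (minpoly.ne_zero hint), show (minpoly K c).natDegree = 1 by omega]
    rfl
  obtain ⟨a, ha⟩ := minpoly.mem_range_of_degree_eq_one K c hdeg
  rw [← ha]
  exact a.2

private theorem u7_PK_mono {K M : IntermediateField k Ω} (h : K ≤ M) {P : Pt T}
    (hP : PK k (K : Set Ω) P) : PK k (M : Set Ω) P := fun b hb => h (hP b hb)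

private theorem u7_val {M : IntermediateField k Ω} {P : Pt T} (hP : PK k (M : Set Ω) P) {b : WB T}
    (hb : Cf (M : Set Ω) b) : P b ∈ M := by
  have h1 : P b = ((eW T).repr b).sum fun i r => r * P (eW T i) := by
    conv_lhs => rw [← (eW T).linearCombination_repr b]
    rw [Finsupp.linearCombination_apply, map_finsuppSum]
    refine Finsupp.sum_congr fun i _ => ?_
    rw [map_smul, smul_eq_mul]
  rw [h1]
  refine M.sum_mem fun i _ => M.mul_mem ?_ (r_eW_mem M hP i)
  obtain ⟨n, j⟩ := i
  rw [eW_repr]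
  exact hb j n

private theorem u7_ev {M : IntermediateField k Ω} {X : List (Pt T)}
    (hX : ∀ P ∈ X, PK k (M : Set Ω) P) {b : WB T} (hb : Cf (M : Set Ω) b) : ev b X ∈ M := by
  unfold ev
  refine M.list_prod_mem ?_
  intro y hy
  obtain ⟨P, hP, rfl⟩ := List.mem_map.1 hy
  exact u7_val (hX P hP) hb

private theorem u7_sep (hU : Univ k Ω) (hT : Tk k T) {K K' : IntermediateField k Ω} (hs : Small K)
    (hK : K ≤ K') {m : ℕ} (D : TD k T ρ K m) {x : ρ → ClassGroup (WB T)}
    (hx : GenA K x) (h : ∀ r, x r ∈ JK (T := T) (K' : Set Ω)) : IsSeparable K' (tmf D x) := by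
  choose X hX using fun r => exists_dI (T := T) (rdc_ne (x r))
  obtain ⟨hI, hg⟩ := genA_rdc hU hT hs hx hX
  have hc : ∀ r, cl (X r) = x r := fun r => by rw [cl, hX r, cls_rdc]
  have hB : ∀ r, ∀ P ∈ X r, ∀ i, P ∉ D.B r i := fun r P hP i hPi =>
    not_PK (hI.ind r) hP (D.pk r i P hPi)
  rw [tmf_eval D hx (fun r => (hg r).ge) (fun r => Dl_ind hT (hI.ind r)) hc
    (fun r => D.ev_ne r (hB r))]
  let M : IntermediateField k Ω := (separableClosure K' Ω).restrictScalars k
  have hM : ∀ {y : Ω}, y ∈ M ↔ IsSeparable K' y := fun {y} => mem_separableClosure_iff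
  have hKM : K ≤ M := fun y hy => by
    rw [hM]
    exact isSeparable_algebraMap (⟨y, hK hy⟩ : K')
  have hPX : ∀ r, ∀ P ∈ X r, PK k (M : Set Ω) P := fun r P hP b hb =>
    hM.2 (sep_gen hU hT hs hK hx h hX r hP hb)
  rw [← hM]
  refine M.prod_mem fun r _ => ?_
  unfold th
  refine M.div_mem (M.prod_mem fun i _ => Dl_mem hT M ?_) (M.mul_mem (pow_mem (Dl_mem hT M
    (hPX r)) m) (u7_ev (hPX r) fun j n => hKM (D.cf_h hT r j n)))
  intro P hP
  rcases List.mem_append.1 hP with hP | hP
  · exact u7_PK_mono hKM (D.pk r i P hP)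
  · exact hPX r P hP

theorem val_HH (hU : Univ k Ω) (hT : Tk k T) {K K' : IntermediateField k Ω} (hs : Small K)
    (hK : K ≤ K') {m : ℕ}
    {F : (ρ → ClassGroup (WB T)) → Ω} (hF : F ∈ HH T ρ K m) {x : ρ → ClassGroup (WB T)}
    (hx : GenA K x) (h : ∀ r, x r ∈ JK (T := T) (K' : Set Ω)) : F x ∈ K' := by
  have hsep : IsSeparable K' (F x) := by
    rw [← mem_separableClosure_iff]
    unfold HH at hF
    induction hF using Submodule.span_induction with
    | mem F hF =>
      obtain ⟨D, rfl⟩ := hF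
      exact mem_separableClosure_iff.2 (u7_sep hU hT hs hK D hx h)
    | zero => exact (separableClosure K' Ω).zero_mem
    | add F G _ _ ih1 ih2 => exact (separableClosure K' Ω).add_mem ih1 ih2
    | smul c F _ ih =>
      have h1 : (c • F) x = algebraMap K' Ω ⟨(c : Ω), hK c.2⟩ * F x := rfl
      rw [h1]
      exact (separableClosure K' Ω).mul_mem (IntermediateField.algebraMap_mem _ _) ih
  refine mem_of_sep_fixed hsep fun σ hσ => ?_
  rw [← equ_HH hT hF σ (fun c hc => hσ c (hK hc)) x]
  congr 1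
  funext r
  exact (act_eq_iff hT σ (x r)).2 fun c hc => hσ c ((mem_JK_iff hT K' (x r)).1 (h r) hc)

theorem zero_HH (hU : Univ k Ω) (hT : Tk k T) {K : IntermediateField k Ω} (hK : Small K) {m : ℕ}
    {F : (ρ → ClassGroup (WB T)) → Ω} (hF : F ∈ HH T ρ K m) {x : ρ → ClassGroup (WB T)}
    (hx : GenA K x) (h : F x = 0) : F = 0 := by
  funext y
  by_cases hy : GenA K y
  · obtain ⟨σ, h1, h2⟩ := genA_conj hT hx hy
    have h3 := equ_HH hT hF σ h1 x
    have h4 : (fun r => act hT σ (x r)) = y := funext h2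
    rw [h4, h, map_zero] at h3
    exact h3
  · exact HH_not hF hy

end

end Pool.Agent.TIFT
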