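import Pool.Agent.TIFT.U8a
import Pool.Agent.TIFT.U7
import Pool.Agent.TIFP.Grid

/-!
# [TIF, block THETA] row U8

Show: any N > (m gp + 1)^(gp |ρ|) elements F_l of HH are linearly dependent (then Module.finite / finrank bounds: rank_le or LinearIndependent bounds). F_l = finite combination of monomials tmf (D_lj). Base points: X⁰ r a list of gp points over K, off all the points of all the D_lj (K is infinite; e.g. exists_pt-like: points with xx = c ∈ K: exists_xx, PK_iff_xx); grid points Q i s (i : Fin M, M = gp |ρ|, s : Fin (m gp + 1)) over K, all different (for all i, s), off the X⁰ and the D_lj. Let e : Fin M ≃ Fin gp × ρ; family of a tuple p : Fin M → Pt T: XX p r := X⁰ r ++ List.ofFn (fun j => p (e.symm (j, r))). f_l p := sum_j c_lj nm (D_lj) (XX p). P := independent generic points over K (exists_ind). TIFP.grid: values on the grid in K (nm_mem); condition hv: nm_perm moves the variable point to the end (the sign is the same for all D), nm_last: the combination is P ↦ P F with F ∈ dI C ^ m, pord F <= m (|C| + gp), C = the list of the other points (>=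 gp points, different from the grid points Q i s); F vanishes at the m gp + 1 different points Q i s not in C, so F ∈ dI C ^ m * ∏ mP (Q i s) (coprime), length m |C| + m gp + 1 > pord F, so F = 0. (For the variable point P i itself P (D.h r) ≠ 0 since it is generic; the coordinates already replaced are generic, the others grid points.) Result: a nontrivial combination sum_l c_l F_l has sum_l c_l f_l P = 0, and with nm_tmf (Y r = XX P r: Dl ≠ 0 by Dl_B_ne up to permutation, class generic by genA_cl/genA_mul) it vanishes at a generic class, so it is 0 (zero_HH).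
-/

set_option autoImplicit false
set_option linter.unusedSectionVars false

open Polynomial IsLocalRing

namespace Pool.Agent.TIFT

open GT TIF

section

private theorem u8_rank {K V : Type*} [Field K] [AddCommGroup V] [Module K V] {n : ℕ}
    (h : ∀ N, n < N → ∀ F : Fin N → V, ∃ c : Fin N → K, c ≠ 0 ∧ ∑ l, c l • F l = 0) :
    FiniteDimensional K V ∧ Module.finrank K V ≤ n := by
  have h1 : Module.rank K V ≤ n := by
    refine rank_le fun s hs => ?_
    by_contra hlt
    rw [not_le] at hlt
    obtain ⟨c, hc, h0⟩ := h s.card hlt fun i => ((s.equivFin.symm i : s) : V)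
    have h2 : LinearIndependent K fun i : Fin s.card => ((s.equivFin.symm i : s) : V) :=
      hs.comp _ s.equivFin.symm.injective
    rw [Fintype.linearIndependent_iff] at h2
    exact hc (funext fun i => h2 c h0 i)
  refine ⟨?_, Module.finrank_le_of_rank_le h1⟩
  rw [FiniteDimensional, ← Module.rank_lt_aleph0_iff]
  exact lt_of_le_of_lt h1 (Cardinal.natCast_lt_aleph0)

end

section

variable {k Ω : Type} [Field k] [Field Ω] [Algebra k Ω] [IsAlgClosed Ω] {d : ℕ} [NeZero d]
  {T : Tab Ω d} [IsDedekindDomain (WB T)] {ρ : Type} [Fintype ρ]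

private theorem u8_pts (hT : Tk k T) (K : IntermediateField k Ω) [IsAlgClosed K]
    {S : Set (Pt T)} (hS : S.Finite) : ∃ q : ℕ → Pt T, Function.Injective q ∧
      (∀ n, PK k (K : Set Ω) (q n)) ∧ ∀ n, q n ∉ S := by
  choose p hp using fun c : K => exists_xx T (c : Ω)
  have hinj : Function.Injective p := by
    intro a b hab
    apply Subtype.ext
    rw [← hp a, ← hp b, hab]
  have : Infinite K := IsAlgClosed.instInfinite
  have hinf : (Set.range p \ S).Infinite := (Set.infinite_range_of_injective hinj).sdiff hS
  refine ⟨fun n => (hinf.natEmbedding _ n : Pt T), ?_, ?_, ?_⟩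
  · intro a b hab
    exact (hinf.natEmbedding _).injective (Subtype.ext hab)
  · intro n
    obtain ⟨⟨c, hc⟩, -⟩ := (hinf.natEmbedding _ n).2
    have h := hp c
    rw [hc] at h
    rw [PK_iff_xx hT]
    change xx ((hinf.natEmbedding _ n : _) : Pt T) ∈ K
    rw [h]
    exact c.2
  · intro n
    exact (hinf.natEmbedding _ n).2.2

/-- an element of `dI C ^ m` of order at most `m (|C| + g)` with `m g + 1` further zeros is zero -/
private theorem u8_zero {C : List (Pt T)} {m g : ℕ} {G : WB T} (hG : G ∈ dI C ^ m)
    (hp : pord G ≤ m * (C.length + g)) (Q : Fin (m * g + 1) → Pt T) (hQ : Function.Injective Q)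
    (hC : ∀ s, Q s ∉ C) (h0 : ∀ s, Q s G = 0) : G = 0 := by
  classical
  by_contra hne
  have hle : Ideal.span {G} ≤ dI C ^ m := (Ideal.span_singleton_le_iff_mem _).2 hG
  obtain ⟨I, hI⟩ := Ideal.dvd_iff_le.2 hle
  have hI0 : I ≠ ⊥ := by
    rintro rfl
    rw [Ideal.mul_bot, Ideal.span_singleton_eq_bot] at hI
    exact hne hI
  obtain ⟨Z, hZ⟩ := exists_dI hI0
  have hpow : ∀ n : ℕ, dI (List.replicate n C).flatten = dI C ^ n := by
    intro n
    induction n with
    | zero => rw [List.replicate_zero, List.flatten_nil, dI_nil, pow_zero, Ideal.one_eq_top]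
    | succ n ih =>
      rw [List.replicate_succ, List.flatten_cons, dI_append, ih, pow_succ, mul_comm]
  have h1 : Ideal.span {G} = dI ((List.replicate m C).flatten ++ Z) := by
    rw [dI_append, hpow, hZ, hI]
  have h2 := span_eq_dI_length hne h1
  have hQZ : ∀ s, Q s ∈ Z := by
    intro s
    have h3 : Ideal.span {G} ≤ mP (Q s) := by
      rw [Ideal.span_singleton_le_iff_mem]
      exact h0 s
    rw [h1] at h3
    have h4 := dI_le_mP.1 h3
    rw [List.mem_append] at h4
    rcases h4 with h4 | h4
    · rw [List.mem_flatten] at h4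
      obtain ⟨l, hl, hQl⟩ := h4
      rw [List.eq_of_mem_replicate hl] at hQl
      exact absurd hQl (hC s)
    · exact h4
  have h5 : m * g + 1 ≤ Z.length := by
    have h6 : (List.ofFn Q).Nodup := List.nodup_ofFn.2 hQ
    have h7 : (List.ofFn Q).Subperm Z := h6.subperm fun a ha => by
      rw [List.mem_ofFn] at ha
      obtain ⟨s, rfl⟩ := ha
      exact hQZ s
    have := h7.length_le
    rwa [List.length_ofFn] at this
  have h8 : (List.replicate m C).flatten.length = m * C.length := by
    rw [List.length_flatten, List.map_replicate, List.sum_replicate, smul_eq_mul]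
  rw [List.length_append, h8] at h2
  rw [mul_add] at hp
  omega

/-- the family of lists of a tuple -/
private def u8X {M g : ℕ} (e : Fin M ≃ Fin g × ρ) (X0 : List (Pt T)) (p : Fin M → Pt T) (r : ρ) :
    List (Pt T) := X0 ++ List.ofFn fun j => p (e.symm (j, r))

private theorem u8X_mem {M g : ℕ} {e : Fin M ≃ Fin g × ρ} {X0 : List (Pt T)} {p : Fin M → Pt T}
    {r : ρ} {R : Pt T} (h : R ∈ u8X e X0 p r) : R ∈ X0 ∨ ∃ i, R = p i := by
  rw [u8X, List.mem_append, List.mem_ofFn] at h
  rcases h with h | ⟨j, h⟩
  · exact Or.inl h
  · exact Or.inr ⟨_, h.symm⟩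

private theorem u8_ofFn_perm {α : Type*} {g : ℕ} (f : Fin g → α) (j : Fin g) :
    (List.ofFn f).Perm ((((List.finRange g).erase j).map f) ++ [f j]) := by
  classical
  rw [List.ofFn_eq_map]
  have h1 : (List.finRange g).Perm (j :: (List.finRange g).erase j) :=
    List.perm_cons_erase (List.mem_finRange j)
  refine (h1.map f).trans ?_
  rw [List.map_cons]
  exact (List.perm_append_singleton _ _).symm

theorem finrank_HH (hU : Univ k Ω) (hT : Tk k T) {K : IntermediateField k Ω} [IsAlgClosed K]
    (hK : Small K) (m : ℕ) : FiniteDimensional K (HH T ρ K m) ∧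
      Module.finrank K (HH T ρ K m) ≤ (m * gp T + 1) ^ (gp T * Fintype.card ρ) := by
  classical
  refine u8_rank fun N hN F => ?_
  -- the monomials
  have hF : ∀ l, ∃ γ : TD k T ρ K m →₀ K, (γ.sum fun D a => a • tmf D) =
      ((F l : HH T ρ K m) : (ρ → ClassGroup (WB T)) → Ω) := by
    intro l
    have h1 : ((F l : HH T ρ K m) : (ρ → ClassGroup (WB T)) → Ω) ∈
        Submodule.span K (Set.range fun D : TD k T ρ K m => tmf D) := (F l).2
    rwa [Finsupp.mem_span_range_iff_exists_finsupp] at h1
  choose γ hγ using hF
  let 𝒟 : Finset (TD k T ρ K m) := Finset.univ.biUnion fun l => (γ l).support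
  have hγ' : ∀ l, ((F l : HH T ρ K m) : (ρ → ClassGroup (WB T)) → Ω) =
      ∑ D ∈ 𝒟, γ l D • tmf D := by
    intro l
    rw [← hγ l, Finsupp.sum]
    refine Finset.sum_subset ?_ ?_
    · intro D hD
      exact Finset.mem_biUnion.2 ⟨l, Finset.mem_univ _, hD⟩
    · intro D _ hD
      rw [Finsupp.notMem_support_iff.1 hD, zero_smul]
  -- the points of the monomials
  let S : Set (Pt T) := {P | ∃ D ∈ 𝒟, ∃ r i, P ∈ D.B r i}
  have hS : S.Finite := by
    have : S = ⋃ D ∈ 𝒟, ⋃ r, ⋃ i, {P | P ∈ D.B r i} := by
      ext P
      simp only [S, Set.mem_ofPred_eq, Set.mem_iUnion, exists_prop]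
    rw [this]
    refine Set.Finite.biUnion (Finset.finite_toSet 𝒟) fun D _ => ?_
    refine Set.finite_iUnion fun r => Set.finite_iUnion fun i => ?_
    exact List.finite_toSet _
  obtain ⟨q, hq, hqK, hqS⟩ := u8_pts hT K hS
  -- the data of the grid
  let g := gp T
  let M := g * Fintype.card ρ
  let w := m * g + 1
  let e : Fin M ≃ Fin g × ρ := (Fintype.equivFinOfCardEq (by
    rw [Fintype.card_prod, Fintype.card_fin])).symm
  let X0 : List (Pt T) := List.ofFn fun j : Fin g => q j
  let Q : Fin M → Fin w → Pt T := fun i s => q (g + (i * w + s))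
  obtain ⟨PL, hPl, hPi⟩ := exists_ind hU T hK M
  let P : Fin M → Pt T := fun i => PL.get (Fin.cast hPl.symm i)
  have hPK : ∀ i, ¬ PK k (K : Set Ω) (P i) := fun i => not_PK hPi (List.get_mem _ _)
  have hX0K : ∀ R ∈ X0, PK k (K : Set Ω) R := by
    intro R hR
    rw [List.mem_ofFn] at hR
    obtain ⟨j, rfl⟩ := hR
    exact hqK _
  have hX0S : ∀ R ∈ X0, R ∉ S := by
    intro R hR
    rw [List.mem_ofFn] at hR
    obtain ⟨j, rfl⟩ := hR
    exact hqS _
  have hX0n : X0.Nodup := List.nodup_ofFn.2 fun a b h => Fin.ext (hq h)
  have hPS : ∀ i, P i ∉ S := by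
    rintro i ⟨D, _, r, j, hj⟩
    exact hPK i (D.pk r j _ hj)
  let f : Fin N → (Fin M → Pt T) → Ω := fun l p =>
    ∑ D ∈ 𝒟, γ l D • nm D (u8X e X0 p)
  have hev : ∀ D ∈ 𝒟, ∀ (r : ρ) (Y : List (Pt T)), (∀ R ∈ Y, R ∉ S) → ev (D.h r) Y ≠ 0 := by
    intro D hD r Y hY
    refine D.ev_ne r fun R hR i hi => hY R hR ⟨D, hD, r, i, hi⟩
  have hcomb : ∀ (c : Fin N → K) (Z : (ρ → List (Pt T))),
      ∑ l, c l • ∑ D ∈ 𝒟, γ l D • nm D Z = ∑ D ∈ 𝒟, (∑ l, c l * γ l D) • nm D Z := by
    intro c Z
    simp only [Finset.smul_sum, Finset.sum_smul]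
    rw [Finset.sum_comm]
    simp only [mul_smul]
  obtain ⟨c, hc, h0⟩ := TIFP.grid (K := K) (Ω := Ω) (X := Pt T) (M := M) (d := w) (m := N) hN f Q P
    (by
      intro l s
      have h1 : f l (fun i => Q i (s i)) ∈ K := by
        refine sum_mem fun D _ => ?_
        rw [Algebra.smul_def]
        refine mul_mem (γ l D).2 (nm_mem hT D ?_)
        intro r R hR
        rcases u8X_mem hR with h | ⟨i, rfl⟩
        · exact hX0K R h
        · exact hqK _
      exact ⟨⟨_, h1⟩, rfl⟩)
    (by
      intro c i x hx1 hx2 hs
      obtain ⟨⟨j, r⟩, rfl⟩ := e.symm.surjective i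
      -- all the values of `x` but the one at `i`
      have hxS : ∀ i', i' ≠ e.symm (j, r) → x i' ∉ S := by
        intro i' hi'
        rcases lt_or_gt_of_ne hi' with h | h
        · rw [hx1 i' h]; exact hPS i'
        · obtain ⟨s, h⟩ := hx2 i' h
          rw [h]; exact hqS _
      let C : List (Pt T) := X0 ++ ((List.finRange g).erase j).map fun j' => x (e.symm (j', r))
      have hCx : ∀ R ∈ C, R ∈ X0 ∨ ∃ i', i' ≠ e.symm (j, r) ∧ R = x i' := by
        intro R hR
        rw [List.mem_append, List.mem_map] at hR
        rcases hR with hR | ⟨j', hj', rfl⟩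
        · exact Or.inl hR
        · refine Or.inr ⟨_, ?_, rfl⟩
          intro h
          have h2 := (Prod.ext_iff.1 (e.symm.injective h)).1
          simp only at h2
          rw [h2] at hj'
          exact ((List.nodup_finRange g).mem_erase_iff.1 hj').1 rfl
      have hCS : ∀ R ∈ C, R ∉ S := by
        intro R hR
        rcases hCx R hR with h | ⟨i', hi', rfl⟩
        · exact hX0S R h
        · exact hxS i' hi'
      have hClen : g ≤ C.length := by
        simp only [C, X0, List.length_append, List.length_ofFn]
        omega
      let Xt : ρ → List (Pt T) := Function.update (u8X e X0 x) r C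
      have hXtr : Xt r = C := Function.update_self _ _ _
      have hD : ∀ D ∈ 𝒟, ∃ FF : WB T, FF ∈ dI C ^ m ∧ pord FF ≤ m * (C.length + g) ∧
          ∀ R : Pt T, R (D.h r) ≠ 0 → nm D (Function.update Xt r (C ++ [R])) = R FF := by
        intro D hD
        have := nm_last D Xt r (by rw [hXtr]; exact hClen) (by
          rw [hXtr]; exact hev D hD r C hCS)
        rw [hXtr] at this
        exact this
      choose! FF hF1 hF2 hF3 using hD
      let β : TD k T ρ K m → K := fun D => ∑ l, c l * γ l D
      let G : WB T := ∑ D ∈ 𝒟, (β D : Ω) • FF D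
      have hG1 : G ∈ dI C ^ m := by
        refine Ideal.sum_mem _ fun D hD => ?_
        rw [Algebra.smul_def]
        exact Ideal.mul_mem_left _ _ (hF1 D hD)
      have hG2 : pord G ≤ m * (C.length + g) := by
        rw [← mem_Ble_iff]
        exact Submodule.sum_mem _ fun D hD => Submodule.smul_mem _ _
          ((mem_Ble_iff _ _).2 (hF2 D hD))
      have hval : ∀ R : Pt T, R ∉ S → ∃ s : Ω, s ≠ 0 ∧
          ∑ l, c l • f l (Function.update x (e.symm (j, r)) R) = s * R G := by
        intro R hR
        have hperm : ∀ r', (Function.update Xt r (C ++ [R]) r').Perm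
            (u8X e X0 (Function.update x (e.symm (j, r)) R) r') := by
          intro r'
          by_cases hr : r' = r
          · subst hr
            rw [Function.update_self, u8X]
            have h1 := u8_ofFn_perm
              (fun j' => Function.update x (e.symm (j, r')) R (e.symm (j', r'))) j
            rw [Function.update_self] at h1
            have h2 : ((List.finRange g).erase j).map
                (fun j' => Function.update x (e.symm (j, r')) R (e.symm (j', r'))) =
                ((List.finRange g).erase j).map fun j' => x (e.symm (j', r')) := by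
              refine List.map_congr_left fun j' hj' => ?_
              rw [Function.update_of_ne]
              intro h
              have h2 := (Prod.ext_iff.1 (e.symm.injective h)).1
              simp only at h2
              rw [h2] at hj'
              exact ((List.nodup_finRange g).mem_erase_iff.1 hj').1 rfl
            rw [h2] at h1
            simp only [C]
            rw [List.append_assoc]
            exact (h1.append_left X0).symm
          · have hXto : Xt r' = u8X e X0 x r' := Function.update_of_ne hr _ _
            rw [Function.update_of_ne hr, hXto, u8X, u8X]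
            refine (List.Perm.append_left X0 ?_)
            have : (fun j' => x (e.symm (j', r'))) =
                fun j' => Function.update x (e.symm (j, r)) R (e.symm (j', r')) := by
              funext j'
              rw [Function.update_of_ne]
              intro h
              exact hr (Prod.ext_iff.1 (e.symm.injective h)).2
            rw [this]
        obtain ⟨s, hs1, hs2⟩ := nm_perm (k := k) hperm m
        refine ⟨s, ?_, ?_⟩
        · rcases hs1 with rfl | rfl
          · exact one_ne_zero
          · exact neg_ne_zero.2 one_ne_zero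
        · rw [hcomb c, map_sum, Finset.mul_sum]
          refine Finset.sum_congr rfl fun D hD => ?_
          have h1 : R (D.h r) ≠ 0 := by
            have := hev D hD r [R] (by
              intro R' hR'
              rw [List.mem_singleton] at hR'
              rw [hR']; exact hR)
            rwa [ev, List.map_singleton, List.prod_singleton] at this
          rw [hs2 K D, hF3 D hD R h1, map_smul, Algebra.smul_def, smul_eq_mul]
          change (β D : Ω) * (s * R (FF D)) = s * ((β D : Ω) * R (FF D))
          ring
      have hG0 : G = 0 := by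
        refine u8_zero (g := g) hG1 hG2 (fun s => Q (e.symm (j, r)) s) ?_ ?_ ?_
        · intro s s' h
          have h1 := hq h
          apply Fin.ext
          omega
        · intro s hsC
          rcases hCx _ hsC with h | ⟨i', hi', h⟩
          · rw [List.mem_ofFn] at h
            obtain ⟨j', h⟩ := h
            have h1 := hq h
            have := j'.2
            omega
          · rcases lt_or_gt_of_ne hi' with h1 | h1
            · rw [hx1 i' h1] at h
              apply hPK i'
              rw [← h]
              exact hqK _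
            · obtain ⟨s', h2⟩ := hx2 i' h1
              rw [h2] at h
              have h3 := hq h
              have h4 := s.2
              have h5 := s'.2
              have h6 : ((e.symm (j, r) : Fin M) : ℕ) < (i' : ℕ) := h1
              have h7 : ((e.symm (j, r) : Fin M) : ℕ) * w + w ≤ (i' : ℕ) * w := by
                have := Nat.mul_le_mul_right w h6
                rwa [Nat.succ_mul] at this
              omega
        · intro s
          obtain ⟨t, ht, h⟩ := hval (Q (e.symm (j, r)) s) (hqS _)
          rw [hs s] at h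
          rcases mul_eq_zero.1 h.symm with h | h
          · exact absurd h ht
          · exact h
      obtain ⟨t, ht, h⟩ := hval (P (e.symm (j, r))) (hPS _)
      rw [h, hG0, map_zero, mul_zero])
  refine ⟨c, hc, ?_⟩
  -- the generic class
  let Pr : ρ → List (Pt T) := fun r => List.ofFn fun j => P (e.symm (j, r))
  have hPrl : ∀ r, (Pr r).length = g := fun r => List.length_ofFn
  have hPr : IndA K Pr := by
    have h1 : AlgebraicIndependent K fun i : Fin PL.length => xx (PL.get i) := hPi
    have h2 : (fun p : Σ r, Fin (Pr r).length => xx ((Pr p.1).get p.2)) =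
        (fun i : Fin PL.length => xx (PL.get i)) ∘
          fun p : Σ r, Fin (Pr r).length =>
            Fin.cast hPl.symm (e.symm (Fin.cast (hPrl p.1) p.2, p.1)) := by
      funext p
      simp only [Function.comp_apply]
      congr 1
      simp only [Pr, List.get_eq_getElem, List.getElem_ofFn]
      rfl
    rw [IndA, h2]
    refine h1.comp _ ?_
    rintro ⟨r, a⟩ ⟨r', a'⟩ h
    have h3 := e.symm.injective (Fin.cast_injective _ h)
    obtain ⟨h4, h5⟩ := Prod.ext_iff.1 h3
    simp only at h4 h5
    subst h5
    have h6 : a = a' := Fin.cast_injective _ h4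
    rw [h6]
  have hXP : ∀ r, u8X e X0 P r = X0 ++ Pr r := fun r => rfl
  have hgen : GenA K fun r => cl (u8X e X0 P r) := by
    have h1 := genA_cl hU hT hK hPr fun r => (hPrl r).ge
    have h2 := genA_mul hU hT hK h1 (z := fun _ => cl X0) fun _ =>
      JK_mono (T := T) (show (K : Set Ω) ⊆ (acl K : Set Ω) from le_acl K)
        (cl_mem_JK hT K hX0K)
    have h3 : ((fun r => cl (Pr r)) * fun _ => cl X0) = fun r => cl (u8X e X0 P r) := by
      funext r
      rw [hXP, cl_append, mul_comm (cl X0)]
      rfl
    rwa [h3] at h2
  have hDl : ∀ r, Dl (u8X e X0 P r) ≠ 0 := fun r => by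
    rw [hXP]
    exact (Dl_B_ne hU hT hK hPr (fun r => (hPrl r).ge) hX0n hX0K r).1
  have hXS : ∀ r, ∀ R ∈ u8X e X0 P r, R ∉ S := by
    intro r R hR
    rcases u8X_mem hR with h | ⟨i, rfl⟩
    · exact hX0S R h
    · exact hPS i
  have hnm : ∀ D ∈ 𝒟, nm D (u8X e X0 P) =
      tmf D (fun r => cl (u8X e X0 P r)) * ∏ r, Dl (u8X e X0 P r) ^ m := by
    intro D hD
    refine nm_tmf D hgen ?_ hDl (fun _ => rfl) fun r => hev D hD r _ (hXS r)
    intro r
    rw [hXP, List.length_append, hPrl]
    exact Nat.le_add_left _ _
  have hprod : (∏ r, Dl (u8X e X0 P r) ^ m) ≠ 0 :=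
    Finset.prod_ne_zero_iff.2 fun r _ => pow_ne_zero _ (hDl r)
  have hzero : (((∑ l, c l • F l : HH T ρ K m) : (ρ → ClassGroup (WB T)) → Ω))
      (fun r => cl (u8X e X0 P r)) = 0 := by
    have h1 : (∑ l, c l • f l P) = (((∑ l, c l • F l : HH T ρ K m) :
        (ρ → ClassGroup (WB T)) → Ω)) (fun r => cl (u8X e X0 P r)) *
          ∏ r, Dl (u8X e X0 P r) ^ m := by
      rw [Submodule.coe_sum, Finset.sum_apply, Finset.sum_mul]
      refine Finset.sum_congr rfl fun l _ => ?_
      rw [Submodule.coe_smul, Pi.smul_apply, hγ' l, Finset.sum_apply, smul_mul_assoc,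
        Finset.sum_mul]
      congr 1
      refine Finset.sum_congr rfl fun D hD => ?_
      rw [hnm D hD, Pi.smul_apply, smul_mul_assoc]
    rw [h1] at h0
    exact (mul_eq_zero.1 h0).resolve_right hprod
  exact Subtype.ext (zero_HH hU hT hK (∑ l, c l • F l : HH T ρ K m).2 hgen hzero)

end

end Pool.Agent.TIFT
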