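import Pool.Agent.TIFT.U0
import Pool.Agent.TIFT.T4

/-!
# [TIF, block THETA] row U8a

nm_tmf: tmf_eval, unfold th. Dl_perm': List.Perm induction for the statement: exists s, for all B, C: Dl (B ++ X' ++ C) = s * Dl (B ++ X ++ C); the swap case is Dl_swap with lists of length 1. nm_last: th_last, the factors r' ≠ r are constants. nm_mem: Dl_mem, cf_h (P b ∈ K for b with coefficients in K and P over K).
-/

set_option autoImplicit false
set_option linter.unusedSectionVars false

open Polynomial IsLocalRing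

namespace Pool.Agent.TIFT

open GT TIF

section

variable {k Ω : Type} [Field k] [Field Ω] [Algebra k Ω] [IsAlgClosed Ω] {d : ℕ} [NeZero d]
  {T : Tab Ω d} [IsDedekindDomain (WB T)] {ρ : Type} [Fintype ρ]

/-- the numerator of a theta monomial -/
noncomputable def nm {K : IntermediateField k Ω} {m : ℕ} (D : TD k T ρ K m)
    (X : ρ → List (Pt T)) : Ω :=
  ∏ r, ((∏ i, Dl (D.B r i ++ X r)) / ev (D.h r) (X r))

theorem nm_tmf {K : IntermediateField k Ω} {m : ℕ} (D : TD k T ρ K m)
    {x : ρ → ClassGroup (WB T)} (hx : GenA K x) {Y : ρ → List (Pt T)}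
    (hg : ∀ r, gp T ≤ (Y r).length) (hY : ∀ r, Dl (Y r) ≠ 0) (hc : ∀ r, cl (Y r) = x r)
    (h0 : ∀ r, ev (D.h r) (Y r) ≠ 0) : nm D Y = tmf D x * ∏ r, Dl (Y r) ^ m := by
  rw [tmf_eval D hx hg hY hc h0, ← Finset.prod_mul_distrib]
  refine Finset.prod_congr rfl fun r _ => ?_
  unfold th
  have h1 := pow_ne_zero m (hY r)
  have h2 := h0 r
  field_simp

private theorem u8a_perm {X X' : List (Pt T)} (h : X.Perm X') :
    ∃ s : Ω, (s = 1 ∨ s = -1) ∧ ∀ B : List (Pt T), Dl (B ++ X') = s * Dl (B ++ X) := by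
  induction h with
  | nil => exact ⟨1, Or.inl rfl, fun B => by rw [one_mul]⟩
  | cons x _ ih =>
    obtain ⟨s, hs, h⟩ := ih
    refine ⟨s, hs, fun B => ?_⟩
    have h1 := h (B ++ [x])
    simp only [List.append_assoc, List.cons_append, List.nil_append] at h1
    exact h1
  | swap x y l =>
    refine ⟨-1, Or.inr rfl, fun B => ?_⟩
    have h1 := Dl_swap B [x] [y] l
    simp only [List.append_assoc, List.cons_append, List.nil_append, List.length_cons,
      List.length_nil] at h1
    rw [h1]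
    norm_num
  | trans _ _ ih1 ih2 =>
    obtain ⟨s, hs, h⟩ := ih1
    obtain ⟨s', hs', h'⟩ := ih2
    refine ⟨s' * s, ?_, fun B => by rw [h', h, mul_assoc]⟩
    rcases hs with rfl | rfl <;> rcases hs' with rfl | rfl <;> simp

theorem Dl_perm' {X X' : List (Pt T)} (h : X.Perm X') :
    ∃ s : Ω, (s = 1 ∨ s = -1) ∧ ∀ B : List (Pt T), Dl (B ++ X') = s * Dl (B ++ X) := u8a_perm h

private theorem u8a_pow {s : Ω} (hs : s = 1 ∨ s = -1) (m : ℕ) : s ^ m = 1 ∨ s ^ m = -1 := by
  rcases hs with rfl | rfl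
  · left
    rw [one_pow]
  · exact neg_one_pow_eq_or Ω m

private theorem u8a_prod (s : ρ → Ω) (hs : ∀ r, s r = 1 ∨ s r = -1) :
    ∏ r, s r = 1 ∨ ∏ r, s r = -1 := by
  classical
  refine Finset.prod_induction s (fun a => a = 1 ∨ a = -1) ?_ (Or.inl rfl) fun r _ => hs r
  rintro a b (rfl | rfl) (rfl | rfl) <;> simp

theorem nm_perm {X X' : ρ → List (Pt T)} (h : ∀ r, (X r).Perm (X' r)) (m : ℕ) :
    ∃ s : Ω, (s = 1 ∨ s = -1) ∧ ∀ (K : IntermediateField k Ω) (D : TD k T ρ K m),
      nm D X' = s * nm D X := by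
  choose s hs h1 using fun r => Dl_perm' (T := T) (h r)
  refine ⟨∏ r, s r ^ m, u8a_prod _ fun r => u8a_pow (hs r) m, fun K D => ?_⟩
  unfold nm
  rw [← Finset.prod_mul_distrib]
  refine Finset.prod_congr rfl fun r _ => ?_
  rw [Finset.prod_congr rfl fun i _ => h1 r (D.B r i), Finset.prod_mul_distrib,
    Finset.prod_const, Finset.card_univ, Fintype.card_fin, ev_perm (h r).symm, mul_div_assoc]

theorem nm_last [DecidableEq ρ] {K : IntermediateField k Ω} {m : ℕ} (D : TD k T ρ K m)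
    (X : ρ → List (Pt T)) (r : ρ) (hg : gp T ≤ (X r).length) (h0 : ev (D.h r) (X r) ≠ 0) :
    ∃ F : WB T, F ∈ dI (X r) ^ m ∧ pord F ≤ m * ((X r).length + gp T) ∧
      ∀ P : Pt T, P (D.h r) ≠ 0 → nm D (Function.update X r (X r ++ [P])) = P F := by
  obtain ⟨F, hF1, hF2, hF3⟩ := th_last (D.hd r) hg h0
  refine ⟨(∏ s ∈ Finset.univ.erase r, ((∏ i, Dl (D.B s i ++ X s)) / ev (D.h s) (X s))) • F,
    ?_, ?_, ?_⟩
  · rw [Algebra.smul_def]
    exact Ideal.mul_mem_left _ _ hF1
  · rw [← mem_Ble_iff] at hF2 ⊢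
    exact Submodule.smul_mem _ _ hF2
  · intro P hP
    unfold nm
    rw [← Finset.mul_prod_erase Finset.univ _ (Finset.mem_univ r), Function.update_self, map_smul,
      smul_eq_mul, mul_comm]
    congr 1
    · refine Finset.prod_congr rfl fun s hs => ?_
      rw [Function.update_of_ne (Finset.ne_of_mem_erase hs)]
    · have h1 : ev (D.h r) (X r ++ [P]) = P (D.h r) * ev (D.h r) (X r) := by
        rw [ev_append, mul_comm]
        congr 1
        simp [ev]
      have h2 := hF3 P
      rw [h1, div_eq_iff (mul_ne_zero hP h0), h2]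
      refine Finset.prod_congr rfl fun i _ => ?_
      rw [List.append_assoc]

open TIFP in
private theorem u8a_pt (K : IntermediateField k Ω) {P : Pt T} (hP : PK k (K : Set Ω) P)
    {b : WB T} (hb : Cf (K : Set Ω) b) : P b ∈ K := by
  have h1 : P b = ((eW T).repr b).sum fun i r => r * P (eW T i) := by
    conv_lhs => rw [← (eW T).linearCombination_repr b]
    rw [Finsupp.linearCombination_apply, map_finsuppSum]
    refine Finsupp.sum_congr fun i _ => ?_
    rw [map_smul, smul_eq_mul]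
  rw [h1]
  refine K.sum_mem fun i _ => K.mul_mem ?_ (r_eW_mem K hP i)
  obtain ⟨n, j⟩ := i
  rw [eW_repr]
  exact hb j n

theorem nm_mem (hT : Tk k T) {K : IntermediateField k Ω} {m : ℕ} (D : TD k T ρ K m)
    {X : ρ → List (Pt T)} (hX : ∀ r, ∀ P ∈ X r, PK k (K : Set Ω) P) : nm D X ∈ K := by
  refine K.prod_mem fun r _ => K.div_mem (K.prod_mem fun i _ => Dl_mem hT K fun P hP => ?_) ?_
  · rcases List.mem_append.1 hP with hP | hP
    · exact D.pk r i P hP
    · exact hX r P hP
  · unfold ev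
    refine K.list_prod_mem fun c hc => ?_
    obtain ⟨P, hP, rfl⟩ := List.mem_map.1 hc
    exact u8a_pt K (hX r P hP) (TD.cf_h hT D r)

end

end Pool.Agent.TIFT
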