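import Pool.Agent.TIFT.U1c
import Pool.Agent.TIFT.U8a
import Pool.Agent.TIFT.T2

/-!
# [TIF, block THETA] row U9

Multilinear in F: prove for s : Finset (Fin n): if F i ∈ HH for i ∈ s and F i is a monomial tmf (D_i) for i ∉ s then the claim holds (Finset induction, Submodule.span_induction in the new variable; constants c ∈ K come out). All monomials: by exists_TD and tmf_congr we may assume that the points of D_i are off the points of D (the constants are in K). For generic x with list X r (GenA) : F_i (x * A_i) = ∏ r th (D_i.B r) (D_i.h r) (X r ++ A_i r), A_i r := D.B r i (tmf_eval; genA_mul with cl_mem_JK; Dl_B_ne), tmf D x = ∏ r th (D.B r) (D.h r) (X r). For each r and i: th_trans: (Dl (A_i ++ X) / Dl X)^m * th (D_i.B) (D_i.h) (X ++ A_i) * ev (D_i.h) A_i = ∏_j Dl (D_i.B j ++ A_i ++ X) / (Dl X ^ m * ev (D_i.h) X). The product over i is a constant of K (∏ ev (D_i.h r) (A_i r))⁻¹ times the monomial with the lists D_i.B r j ++ A_i r indexed by Fin n × Fin m ≃ Fin (n * m) (finProdFinEquiv)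 and h = (∏_i D_i.h r) * (D.h r) ^ m.
-/

set_option autoImplicit false
set_option linter.unusedSectionVars false

open Polynomial IsLocalRing

namespace Pool.Agent.TIFT

open GT TIF

section

variable {k Ω : Type} [Field k] [Field Ω] [Algebra k Ω] [IsAlgClosed Ω] {d : ℕ} [NeZero d]
  {T : Tab Ω d} [IsDedekindDomain (WB T)] {ρ : Type} [Fintype ρ]

private theorem u9_multi {F : Type} [Field F] {ι : Type} [Fintype ι] [DecidableEq ι] {M N : Type}
    [AddCommGroup M] [AddCommGroup N] [Module F M] [Module F N]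
    (Φ : MultilinearMap F (fun _ : ι => M) N) (S : Set M) (P : Submodule F N)
    (h : ∀ v : ι → M, (∀ i, v i ∈ S) → Φ v ∈ P) (v : ι → M)
    (hv : ∀ i, v i ∈ Submodule.span F S) : Φ v ∈ P := by
  have key : ∀ s : Finset ι, ∀ v : ι → M, (∀ i ∈ s, v i ∈ Submodule.span F S) →
      (∀ i, i ∉ s → v i ∈ S) → Φ v ∈ P := by
    intro s
    induction s using Finset.induction_on with
    | empty => exact fun v _ h2 => h v fun i => h2 i (Finset.notMem_empty i)
    | insert a s ha ih =>
      intro v h1 h2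
      have h3 : ∀ w ∈ Submodule.span F S, Φ (Function.update v a w) ∈ P := by
        intro w hw
        induction hw using Submodule.span_induction with
        | mem w hw =>
          refine ih _ (fun i hi => ?_) (fun i hi => ?_)
          · have hia : i ≠ a := fun h => ha (h ▸ hi)
            rw [Function.update_of_ne hia]
            exact h1 i (Finset.mem_insert_of_mem hi)
          · by_cases hia : i = a
            · rw [hia, Function.update_self]
              exact hw
            · rw [Function.update_of_ne hia]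
              exact h2 i (by simp [hia, hi])
        | zero =>
          rw [Φ.map_update_zero]
          exact P.zero_mem
        | add x y _ _ hx hy =>
          rw [Φ.map_update_add]
          exact P.add_mem hx hy
        | smul c x _ hx =>
          rw [Φ.map_update_smul]
          exact P.smul_mem c hx
      have h4 := h3 (v a) (h1 a (Finset.mem_insert_self a s))
      rwa [Function.update_eq_self] at h4
  exact key Finset.univ v (fun i _ => hv i) fun i hi => absurd (Finset.mem_univ i) hi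

private theorem u9_ev_one (X : List (Pt T)) : ev (1 : WB T) X = 1 := by
  rw [ev]
  simp

private theorem u9_ev_pow (b : WB T) (n : ℕ) (X : List (Pt T)) : ev (b ^ n) X = ev b X ^ n := by
  induction n with
  | zero => rw [pow_zero, pow_zero, u9_ev_one]
  | succ n ih => rw [pow_succ, pow_succ, ev_mul, ih]

private theorem u9_ev_prod {ι : Type} (s : Finset ι) (b : ι → WB T) (X : List (Pt T)) :
    ev (∏ i ∈ s, b i) X = ∏ i ∈ s, ev (b i) X := by
  classical
  induction s using Finset.induction_on with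
  | empty => rw [Finset.prod_empty, Finset.prod_empty, u9_ev_one]
  | insert a s ha ih => rw [Finset.prod_insert ha, Finset.prod_insert ha, ev_mul, ih]

private theorem u9_lc_prod {ι : Type} (s : Finset ι) (b : ι → WB T) (h : ∀ i ∈ s, lc (b i) = 1) :
    lc (∏ i ∈ s, b i) = 1 := by
  classical
  induction s using Finset.induction_on with
  | empty => rw [Finset.prod_empty, lc_one]
  | insert a s ha ih =>
    rw [Finset.prod_insert ha, lc_mul, h a (Finset.mem_insert_self a s),
      ih fun i hi => h i (Finset.mem_insert_of_mem hi), mul_one]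

private theorem u9_prod {M : Type} [CommMonoid M] {n m : ℕ} (f : Fin n → Fin m → M) :
    ∏ l : Fin (n * m), f (finProdFinEquiv.symm l).1 (finProdFinEquiv.symm l).2 =
      ∏ i, ∏ j, f i j := by
  rw [Equiv.prod_comp finProdFinEquiv.symm (fun p : Fin n × Fin m => f p.1 p.2),
    Fintype.prod_prod_type]

private theorem u9_alg {κ : Type} [Field κ] {n m : ℕ} (a t e d p q g : κ) (he : e ≠ 0)
    (h : (a / d ^ n) ^ m * t * e = p / ((d ^ m) ^ n * q)) :
    t * (a / (d ^ n * g)) ^ m = e⁻¹ * (p / (d ^ (n * m) * (q * g ^ m))) := by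
  have h1 : p / (d ^ (n * m) * (q * g ^ m)) = (p / ((d ^ m) ^ n * q)) * (g ^ m)⁻¹ := by
    rw [← pow_mul, mul_comm m n, ← mul_assoc, ← div_div, div_eq_mul_inv (p / _)]
  have h2 : (a / (d ^ n * g)) ^ m = (a / d ^ n) ^ m * (g ^ m)⁻¹ := by
    rw [← div_div, div_pow (a / d ^ n), div_eq_mul_inv ((a / d ^ n) ^ m)]
  rw [h1, h2, ← h]
  calc t * ((a / d ^ n) ^ m * (g ^ m)⁻¹) = (e⁻¹ * e) * (t * ((a / d ^ n) ^ m * (g ^ m)⁻¹)) := by
        rw [inv_mul_cancel₀ he, one_mul]
    _ = e⁻¹ * ((a / d ^ n) ^ m * t * e * (g ^ m)⁻¹) := by ring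

private theorem u9_th {n m : ℕ} (A : Fin n → List (Pt T)) (f : WB T)
    (B : Fin n → Fin m → List (Pt T)) (h : Fin n → WB T) (X : List (Pt T)) (hX : Dl X ≠ 0)
    (hXA : ∀ i, Dl (X ++ A i) ≠ 0) (hA : ∀ i, ev (h i) (A i) ≠ 0) :
    (∏ i, th (B i) (h i) (X ++ A i)) * th A f X ^ m = (∏ i, ev (h i) (A i))⁻¹ *
      th (fun l : Fin (n * m) => B (finProdFinEquiv.symm l).1 (finProdFinEquiv.symm l).2 ++
        A (finProdFinEquiv.symm l).1) ((∏ i, h i) * f ^ m) X := by
  have h1 : ∏ i, ((Dl (A i ++ X) / Dl X) ^ m * th (B i) (h i) (X ++ A i) * ev (h i) (A i)) =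
      ∏ i, ((∏ j, Dl (B i j ++ A i ++ X)) / (Dl X ^ m * ev (h i) X)) :=
    Finset.prod_congr rfl fun i _ => th_trans (B i) (h i) (A i) X hX (hXA i) (hA i)
  rw [Finset.prod_mul_distrib, Finset.prod_mul_distrib, Finset.prod_pow, Finset.prod_div_distrib,
    Finset.prod_div_distrib, Finset.prod_mul_distrib, Finset.prod_const, Finset.prod_const,
    Finset.card_univ, Fintype.card_fin] at h1
  have h2 := u9_alg (n := n) (m := m) _ _ _ _ _ _ (ev f X) (Finset.prod_ne_zero_iff.2 fun i _ => hA i) h1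
  have h3 : th (fun l : Fin (n * m) => B (finProdFinEquiv.symm l).1 (finProdFinEquiv.symm l).2 ++
        A (finProdFinEquiv.symm l).1) ((∏ i, h i) * f ^ m) X =
      (∏ i, ∏ j, Dl (B i j ++ A i ++ X)) / (Dl X ^ (n * m) * ((∏ i, ev (h i) X) * ev f X ^ m)) := by
    rw [th, u9_prod (fun i j => Dl (B i j ++ A i ++ X)), ev_mul, u9_ev_prod, u9_ev_pow]
  rw [h3]
  exact h2

private theorem u9_pt_mem (hT : Tk k T) {K : IntermediateField k Ω} [IsAlgClosed K] {P : Pt T}
    (hP : PK k (K : Set Ω) P) {b : WB T} (hb : Cf (K : Set Ω) b) : P b ∈ K := by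
  have h1 := g_acl hT (K := K) (P := P) hb
  have h2 : ad K {xx P} ≤ K := ad_le le_rfl (by simpa using (PK_iff_xx hT K P).1 hP)
  have h3 := acl_mono h2 h1
  rwa [g_acl_eq] at h3

private theorem u9_ev_mem (hT : Tk k T) {K : IntermediateField k Ω} [IsAlgClosed K]
    {X : List (Pt T)} (hX : ∀ P ∈ X, PK k (K : Set Ω) P) {b : WB T} (hb : Cf (K : Set Ω) b) :
    ev b X ∈ K := by
  rw [ev]
  refine IntermediateField.list_prod_mem K fun c hc => ?_
  obtain ⟨P, hP, rfl⟩ := List.mem_map.1 hc
  exact u9_pt_mem hT (hX P hP) hb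

/-- the product monomial -/
private noncomputable def u9_TD {K : IntermediateField k Ω} {m n : ℕ} (D : TD k T ρ K n)
    (E : Fin n → TD k T ρ K m) (hd : ∀ i r j, ∀ P ∈ (E i).B r j, P ∉ D.B r i) :
    TD k T ρ K (n * m) where
  B r l := (E (finProdFinEquiv.symm l).1).B r (finProdFinEquiv.symm l).2 ++
    D.B r (finProdFinEquiv.symm l).1
  h r := (∏ i, (E i).h r) * (D.h r) ^ m
  hd r := by
    constructor
    · rw [lc_mul, lc_pow, (D.hd r).lc, one_pow, mul_one]
      exact u9_lc_prod _ _ fun i _ => ((E i).hd r).lc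
    · rw [u9_prod (fun i j => dI ((E i).B r j ++ D.B r i)), ← Ideal.span_singleton_mul_span_singleton,
        ← Ideal.prod_span_singleton, ← Ideal.span_singleton_pow, (D.hd r).div, ← Finset.prod_pow,
        ← Finset.prod_mul_distrib]
      refine Finset.prod_congr rfl fun i _ => ?_
      rw [((E i).hd r).div]
      simp only [dI_append]
      rw [Finset.prod_mul_distrib, Finset.prod_const, Finset.card_univ, Fintype.card_fin]
  nd r l := by
    refine List.nodup_append.2 ⟨(E _).nd r _, D.nd r _, ?_⟩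
    intro P hP Q hQ hPQ
    subst hPQ
    exact hd _ r _ P hP hQ
  pk r l P hP := by
    rcases List.mem_append.1 hP with h | h
    · exact (E _).pk r _ P h
    · exact D.pk r _ P h

private theorem u9_gen (hU : Univ k Ω) (hT : Tk k T) {K : IntermediateField k Ω}
    (hK : Small K) {n : ℕ} (D : TD k T ρ K n) (i : Fin n) {x : ρ → ClassGroup (WB T)} :
    GenA K (x * fun r => cl (D.B r i)) ↔ GenA K x := by
  have h1 : ∀ r, (fun r => cl (D.B r i)) r ∈ JK (T := T) (acl K : Set Ω) := fun r =>
    JK_mono (le_acl K) (cl_mem_JK hT K (D.pk r i))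
  constructor
  · intro h
    have h2 := genA_mul hU hT hK (z := (fun r => cl (D.B r i))⁻¹) h fun r => by
      rw [Pi.inv_apply]
      exact JK_inv hT _ (h1 r)
    rwa [mul_inv_cancel_right] at h2
  · exact fun h => genA_mul hU hT hK h h1

/-- monomials in general position -/
private theorem u9_eval (hU : Univ k Ω) (hT : Tk k T) {K : IntermediateField k Ω}
    (hK : Small K) {m n : ℕ} (h0 : 0 < n ∨ 0 < m) (D : TD k T ρ K n)
    (E : Fin n → TD k T ρ K m) (hd : ∀ i r j, ∀ P ∈ (E i).B r j, P ∉ D.B r i)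
    (x : ρ → ClassGroup (WB T)) :
    (∏ i, tmf (E i) (x * fun r => cl (D.B r i))) * tmf D x ^ m =
      (∏ r, ∏ i, ev ((E i).h r) (D.B r i))⁻¹ * tmf (u9_TD D E hd) x := by
  by_cases hx : GenA K x
  · obtain ⟨X, hXl, hXi, hXc⟩ := id hx
    have hg : ∀ r, gp T ≤ (X r).length := fun r => (hXl r).ge
    have hX : ∀ r, Dl (X r) ≠ 0 := fun r => Dl_ind hT (hXi.ind r)
    have hev : ∀ i r, ev ((E i).h r) (D.B r i) ≠ 0 := fun i r =>
      (E i).ev_ne r fun P hP j hPj => hd i r j P hPj hP
    have hgX : ∀ {m' : ℕ} (D' : TD k T ρ K m') r, ∀ P ∈ X r, ∀ j, P ∉ D'.B r j :=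
      fun D' r P hP j hPj => not_PK (hXi.ind r) hP (D'.pk r j P hPj)
    have hXA : ∀ i r, Dl (X r ++ D.B r i) ≠ 0 := fun i r =>
      (Dl_B_ne hU hT hK hXi hg (D.nd r i) (D.pk r i) r).2
    have e1 : ∀ i, tmf (E i) (x * fun r => cl (D.B r i)) =
        ∏ r, th ((E i).B r) ((E i).h r) (X r ++ D.B r i) := by
      intro i
      refine tmf_eval (E i) ((u9_gen hU hT hK D i).2 hx) (fun r => ?_) (hXA i) (fun r => ?_)
        (fun r => ?_)
      · rw [List.length_append]
        exact (hg r).trans (Nat.le_add_right _ _)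
      · rw [cl_append, hXc]
        rfl
      · refine (E i).ev_ne r fun P hP j hPj => ?_
        rcases List.mem_append.1 hP with h | h
        · exact hgX (E i) r P h j hPj
        · exact hd i r j P hPj h
    have e2 : tmf D x = ∏ r, th (D.B r) (D.h r) (X r) :=
      tmf_eval D hx hg hX hXc fun r => D.ev_ne r (hgX D r)
    have e3 : tmf (u9_TD D E hd) x =
        ∏ r, th ((u9_TD D E hd).B r) ((u9_TD D E hd).h r) (X r) :=
      tmf_eval _ hx hg hX hXc fun r => TD.ev_ne _ r (hgX _ r)
    rw [Finset.prod_congr rfl fun i _ => e1 i, e2, e3, Finset.prod_comm, ← Finset.prod_pow,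
      ← Finset.prod_mul_distrib, ← Finset.prod_inv_distrib, ← Finset.prod_mul_distrib]
    exact Finset.prod_congr rfl fun r _ => u9_th (D.B r) (D.h r) (fun i => (E i).B r)
      (fun i => (E i).h r) (X r) (hX r) (fun i => hXA i r) (fun i => hev i r)
  · rw [tmf_not (u9_TD D E hd) hx, mul_zero]
    rcases h0 with h0 | h0
    · have h1 : ¬ GenA K (x * fun r => cl (D.B r ⟨0, h0⟩)) := fun h =>
        hx ((u9_gen hU hT hK D _).1 h)
      rw [Finset.prod_eq_zero (Finset.mem_univ (⟨0, h0⟩ : Fin n)) (tmf_not _ h1), zero_mul]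
    · rw [tmf_not D hx, zero_pow h0.ne', mul_zero]

private theorem u9_mono (hU : Univ k Ω) (hT : Tk k T) {K : IntermediateField k Ω} [IsAlgClosed K]
    (hK : Small K) {m n : ℕ} (h0 : 0 < n ∨ 0 < m) (D : TD k T ρ K n) (E : Fin n → TD k T ρ K m) :
    (fun x => (∏ i, tmf (E i) (x * fun r => cl (D.B r i))) * tmf D x ^ m) ∈
      HH T ρ K (n * m) := by
  classical
  have h1 : ∀ i, ∃ E' : TD k T ρ K m, (∀ r j, cl (E'.B r j) = cl ((E i).B r j)) ∧
      ∀ r j, ∀ P ∈ E'.B r j, P ∉
        ((Finset.univ : Finset ρ).toList.flatMap fun r => D.B r i) := by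
    intro i
    refine exists_TD hT K (fun r j => cl ((E i).B r j)) (fun r j => cl_mem_JK hT K ((E i).pk r j))
      (fun r => ?_) _
    have hcl : ∀ s : Finset (Fin m), ∏ j ∈ s, cl ((E i).B r j) =
        cls (∏ j ∈ s, dI ((E i).B r j)) := by
      intro s
      induction s using Finset.induction_on with
      | empty =>
        rw [Finset.prod_empty, Finset.prod_empty]
        exact ((cls_eq_one_iff (one_ne_zero)).2
          ⟨1, by rw [Ideal.one_eq_top, Ideal.span_singleton_one]⟩).symm
      | insert a s ha ih =>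
        rw [Finset.prod_insert ha, Finset.prod_insert ha, ih,
          cls_mul (dI_ne_bot _) (Finset.prod_ne_zero_iff.2 fun j _ => dI_ne_bot _)]
        rfl
    rw [hcl, ← ((E i).hd r).div]
    have hne : (E i).h r ≠ 0 := by
      intro h2
      have := ((E i).hd r).lc
      rw [h2, a3_lc_zero] at this
      exact zero_ne_one this
    exact (cls_eq_one_iff (by simpa using hne)).2 ⟨_, rfl⟩
  choose E' hE' hd using h1
  have hd' : ∀ i r j, ∀ P ∈ (E' i).B r j, P ∉ D.B r i := fun i r j P hP hPD =>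
    hd i r j P hP (List.mem_flatMap.2 ⟨r, Finset.mem_toList.2 (Finset.mem_univ r), hPD⟩)
  have h2 : ∀ i, ∃ c ∈ K, c ≠ 0 ∧ ∀ x, tmf (E i) x = c * tmf (E' i) x := fun i =>
    tmf_congr hU hT hK (E' i) (E i) (hE' i)
  choose c hc _ hcE using h2
  have hmem : (∏ i, c i) * (∏ r, ∏ i, ev ((E' i).h r) (D.B r i))⁻¹ ∈ K := by
    refine K.mul_mem (IntermediateField.prod_mem K fun i _ => hc i) (K.inv_mem ?_)
    exact IntermediateField.prod_mem K fun r _ => IntermediateField.prod_mem K fun i _ =>
      u9_ev_mem hT (D.pk r i) ((E' i).cf_h hT r)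
  have h3 : (fun x => (∏ i, tmf (E i) (x * fun r => cl (D.B r i))) * tmf D x ^ m) =
      (⟨_, hmem⟩ : K) • tmf (u9_TD D E' hd') := by
    funext x
    have h4 := u9_eval hU hT hK h0 D E' hd' x
    show (∏ i, tmf (E i) (x * fun r => cl (D.B r i))) * tmf D x ^ m =
      ((∏ i, c i) * (∏ r, ∏ i, ev ((E' i).h r) (D.B r i))⁻¹) * tmf (u9_TD D E' hd') x
    rw [Finset.prod_congr rfl fun i _ => hcE i _, Finset.prod_mul_distrib, mul_assoc, mul_assoc, h4]
  rw [h3]
  exact Submodule.smul_mem _ _ (Submodule.subset_span ⟨_, rfl⟩)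

/-- `F ↦ ∏ F_i (x A_i) G(x)` as a multilinear map -/
private noncomputable def u9_Phi (K : IntermediateField k Ω) {n : ℕ}
    (a : Fin n → ρ → ClassGroup (WB T)) (G : (ρ → ClassGroup (WB T)) → Ω) :
    MultilinearMap K (fun _ : Fin n => (ρ → ClassGroup (WB T)) → Ω)
      ((ρ → ClassGroup (WB T)) → Ω) :=
  (LinearMap.mulRight K G).compMultilinearMap
    ((MultilinearMap.mkPiAlgebra K (Fin n) ((ρ → ClassGroup (WB T)) → Ω)).compLinearMap
      fun i => LinearMap.funLeft K Ω fun x => x * a i)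

private theorem u9_Phi_apply (K : IntermediateField k Ω) {n : ℕ}
    (a : Fin n → ρ → ClassGroup (WB T)) (G : (ρ → ClassGroup (WB T)) → Ω)
    (F : Fin n → (ρ → ClassGroup (WB T)) → Ω) :
    u9_Phi K a G F = fun x => (∏ i, F i (x * a i)) * G x := by
  funext x
  simp [u9_Phi, LinearMap.funLeft_apply]

theorem prod_trans (hU : Univ k Ω) (hT : Tk k T) {K : IntermediateField k Ω} [IsAlgClosed K]
    (hK : Small K) {m n : ℕ} (h0 : 0 < n ∨ 0 < m)
    (D : TD k T ρ K n) (F : Fin n → (ρ → ClassGroup (WB T)) → Ω) (hF : ∀ i, F i ∈ HH T ρ K m) :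
    (fun x => (∏ i, F i (x * fun r => cl (D.B r i))) * tmf D x ^ m) ∈ HH T ρ K (n * m) := by
  have h1 := u9_multi (u9_Phi K (fun i r => cl (D.B r i)) fun x => tmf D x ^ m)
    (Set.range fun D : TD k T ρ K m => tmf D) (HH T ρ K (n * m)) (fun v hv => ?_) F hF
  · rwa [u9_Phi_apply] at h1
  · choose E hE using hv
    rw [u9_Phi_apply]
    have h2 : v = fun i => tmf (E i) := funext fun i => (hE i).symm
    rw [h2]
    exact u9_mono hU hT hK h0 D E

end

end Pool.Agent.TIFT
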