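import Mathlib
import Pool.Agent.TIFT.VA1
import Pool.Agent.TIFT.VB5
import Pool.Agent.TIFT.VE1
import Pool.Agent.TIFT.VE2
import Pool.Agent.TIFT.G1
import Pool.Agent.TIFT.C1

/-!
# [TIF, block THETA, section V] row VE4

obtain ⟨T₀, rfl, hD⟩ := exists_model hT hV. Prim V b ↔ b = inc b', rd b' ≠ 0 (cf_iff_inc, GT.rd_eq_zero_iff; the valuations are <= 1). exists_prim (any V; no base field needed): divide by the coefficient of largest valuation (finitely many coefficients; as in the proof of GT.exists_normal). prim_mul: rd b' * rd c' ≠ 0 (domain). prim_div: GT.gauss. cf_mul, cf_add: inc is a ring hom. prim_zeros: span {rd b'} = dI S' (exists_dI), |S'| = pord (rd b') (len_span, len_dI) <= pord b (GT.c2b_pord_rd_le); S := lifts of the points of S' (exists_liftL); V.valuation (P b) < 1 iff P' (rd b') = 0 (RedP.val_lt_iff) iff P' ∈ S' (dI S' <= mP P', prime, mP_inj); redP_eq_iff, cg_iff_cgW. exists_pt: for every c in the residue field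 (algebraically closed, so infinite) there is a point P' with xx P' = c (exists_xx of TIFT/G1 if it is over a general field, or from span {x - c} = dI X, |X| = d > 0); take P' different from the finitely many reductions of the points of S, lift it.
-/

set_option autoImplicit false
set_option linter.unusedSectionVars false

open Polynomial IsLocalRing

namespace Pool.Agent.TIFT

open GT TIF

section

/-- primitive functions are the `inc b'` with `rd b' ≠ 0` -/
private theorem ve4_prim {Ω : Type} [Field Ω] {d : ℕ} [NeZero d] {V : ValuationSubring Ω}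
    {T : Tab V d} (b : WB (T.map V.subtype)) :
    Prim V b ↔ ∃ b', inc T b' = b ∧ rd T b' ≠ 0 := by
  constructor
  · intro h
    obtain ⟨b', hb'⟩ := mem_range_inc.2 h.int
    refine ⟨b', hb', fun h0 => ?_⟩
    obtain ⟨j, n, hjn⟩ := h.unit
    have h1 := rd_eq_zero_iff.1 h0 j n
    have h2 : (((b'.co j).coeff n : V) : Ω) = (b.co j).coeff n := by
      rw [← hb', inc_co, coeff_map]
      rfl
    rw [h2, hjn] at h1
    exact lt_irrefl _ h1
  · rintro ⟨b', rfl, h⟩
    refine ⟨mem_range_inc.1 ⟨b', rfl⟩, ?_⟩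
    by_contra hcon
    apply h
    rw [rd_eq_zero_iff]
    intro j n
    have h1 : V.valuation (((b'.co j).coeff n : V) : Ω) ≤ 1 :=
      (V.valuation_le_one_iff _).2 ((b'.co j).coeff n).2
    refine lt_of_le_of_ne h1 fun h2 => hcon ⟨j, n, ?_⟩
    rw [inc_co, coeff_map]
    exact h2

variable {k Ω : Type} [Field k] [Field Ω] [Algebra k Ω] [IsAlgClosed Ω] {d : ℕ} [NeZero d]
  {T : Tab Ω d} [IsDedekindDomain (WB T)] {ρ : Type} [Fintype ρ]

theorem exists_prim (V : ValuationSubring Ω) {b : WB T} (hb : b ≠ 0) :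
    ∃ c : Ω, c ≠ 0 ∧ Prim V (c • b) := by
  classical
  obtain ⟨T₀, hT⟩ : ∃ T₀ : Finset (Σ _ : ZMod d, ℕ),
      T₀ = Finset.univ.sigma (fun j => (b.co j).support) := ⟨_, rfl⟩
  have hmem : ∀ j i, (b.co j).coeff i ≠ 0 → (⟨j, i⟩ : Σ _ : ZMod d, ℕ) ∈ T₀ := by
    intro j i h
    rw [hT, Finset.mem_sigma]
    exact ⟨Finset.mem_univ _, mem_support_iff.2 h⟩
  have hne : T₀.Nonempty := by
    by_contra h0
    apply hb
    refine WB.ext (funext fun j => Polynomial.ext fun i => ?_)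
    by_contra h1
    exact h0 ⟨_, hmem j i h1⟩
  obtain ⟨x, hx, hmax⟩ := Finset.exists_max_image T₀ (fun y => V.valuation ((b.co y.1).coeff y.2)) hne
  have hx0 : (b.co x.1).coeff x.2 ≠ 0 := by
    rw [hT, Finset.mem_sigma] at hx
    exact mem_support_iff.1 hx.2
  obtain ⟨c, hc⟩ : ∃ c, c = (b.co x.1).coeff x.2 := ⟨_, rfl⟩
  rw [← hc] at hx0
  have hv0 : V.valuation c ≠ 0 := (Valuation.ne_zero_iff _).2 hx0
  have hV : ∀ j i, ((c⁻¹ • b).co j).coeff i ∈ V := by
    intro j i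
    rw [WB.co_smul', coeff_smul, smul_eq_mul, ← V.valuation_le_one_iff, map_mul, map_inv₀]
    by_cases h0 : (b.co j).coeff i = 0
    · rw [h0, map_zero, mul_zero]
      exact zero_le_one
    · have h1 := hmax _ (hmem j i h0)
      have h1' : V.valuation ((b.co j).coeff i) ≤ V.valuation c := by rw [hc]; exact h1
      calc (V.valuation c)⁻¹ * V.valuation ((b.co j).coeff i) ≤ (V.valuation c)⁻¹ * V.valuation c := by gcongr
        _ = 1 := inv_mul_cancel₀ hv0
  refine ⟨c⁻¹, inv_ne_zero hx0, hV, x.1, x.2, ?_⟩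
  rw [WB.co_smul', coeff_smul, smul_eq_mul, ← hc, inv_mul_cancel₀ hx0, map_one]

theorem cf_mul (hT : Tk k T) {V : ValuationSubring Ω} (hV : ∀ c : k, algebraMap k Ω c ∈ V)
    {b c : WB T} (hb : Cf (V : Set Ω) b) (hc : Cf (V : Set Ω) c) : Cf (V : Set Ω) (b * c) := by
  obtain ⟨T₀, rfl, hD⟩ := exists_model hT hV
  obtain ⟨b', rfl⟩ := (cf_iff_inc b).1 hb
  obtain ⟨c', rfl⟩ := (cf_iff_inc c).1 hc
  exact (cf_iff_inc _).2 ⟨b' * c', map_mul _ _ _⟩

theorem prim_mul (hT : Tk k T) {V : ValuationSubring Ω} (hV : ∀ c : k, algebraMap k Ω c ∈ V)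
    {b c : WB T} (hb : Prim V b) (hc : Prim V c) : Prim V (b * c) := by
  obtain ⟨T₀, rfl, hD⟩ := exists_model hT hV
  obtain ⟨b', rfl, hb'⟩ := (ve4_prim b).1 hb
  obtain ⟨c', rfl, hc'⟩ := (ve4_prim c).1 hc
  refine (ve4_prim _).2 ⟨b' * c', map_mul _ _ _, ?_⟩
  rw [map_mul]
  exact mul_ne hb' hc'

theorem prim_div (hT : Tk k T) {V : ValuationSubring Ω} (hV : ∀ c : k, algebraMap k Ω c ∈ V)
    {b c : WB T} (hb : Prim V b) (h : Cf (V : Set Ω) (b * c)) : Cf (V : Set Ω) c := by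
  obtain ⟨T₀, rfl, hD⟩ := exists_model hT hV
  obtain ⟨b', rfl, hb'⟩ := (ve4_prim b).1 hb
  obtain ⟨z, hz⟩ := (cf_iff_inc _).1 h
  exact (cf_iff_inc _).2 (gauss b' z c hb' hz)

theorem prim_zeros (hT : Tk k T) {V : ValuationSubring Ω} (hV : ∀ c : k, algebraMap k Ω c ∈ V)
    {b : WB T} (hb : Prim V b) :
    ∃ S : List (Pt T), (∀ P ∈ S, xx P ∈ V) ∧ S.length ≤ pord b ∧
      ∀ P : Pt T, xx P ∈ V → V.valuation (P b) < 1 → ∃ Q ∈ S, Cg k V P Q := by
  obtain ⟨T₀, rfl, hD⟩ := exists_model hT hV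
  obtain ⟨b', rfl, hb'⟩ := (ve4_prim b).1 hb
  have hI : Ideal.span {rd (T₀.map (kV hV)) b'} ≠ ⊥ := by
    rw [Ne, Ideal.span_singleton_eq_bot]
    exact hb'
  obtain ⟨S', hS'⟩ := exists_dI hI
  obtain ⟨S, hS⟩ := exists_liftL S'
  have hSV : ∀ P ∈ S, xx P ∈ V := by
    intro P hP
    obtain ⟨n, hn⟩ := List.get_of_mem hP
    rw [← hn]
    exact RedP.xx_mem (hS.get n.2 (by rw [← hS.length_eq]; exact n.2))
  refine ⟨S, hSV, ?_, ?_⟩
  · rw [hS.length_eq, span_eq_dI_length hb' hS'.symm]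
    exact c2b_pord_rd_le b'
  · intro P hP hPb
    obtain ⟨P', hP'⟩ := exists_redP hP
    have h1 : P' (rd (T₀.map (kV hV)) b') = 0 := (hP'.val_lt_iff b').1 hPb
    have h2 : P' ∈ S' := by
      rw [← dI_le_mP, hS', Ideal.span_le]
      intro x hx
      rw [Set.mem_singleton_iff] at hx
      rw [hx]
      exact h1
    obtain ⟨n, hn⟩ := List.get_of_mem h2
    have hn' : (n : ℕ) < S.length := by rw [hS.length_eq]; exact n.2
    refine ⟨S.get ⟨n, hn'⟩, List.get_mem _ _, ?_⟩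
    have h3 : RedP (S.get ⟨n, hn'⟩) P' := by
      rw [← hn]
      exact hS.get hn' n.2
    rw [cg_iff_cgW hV T₀ hP h3.xx_mem]
    exact (redP_eq_iff hP' h3).1 rfl

theorem exists_pt (hT : Tk k T) {V : ValuationSubring Ω} (hV : ∀ c : k, algebraMap k Ω c ∈ V)
    (S : List (Pt T)) : ∃ P : Pt T, xx P ∈ V ∧ ∀ Q ∈ S, ¬ Cg k V P Q := by
  classical
  obtain ⟨T₀, rfl, hD⟩ := exists_model hT hV
  have hinf : Infinite (ResidueField V) := inferInstance
  let f : Pt ((T₀.map (kV hV)).map V.subtype) → ResidueField V := fun Q =>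
    if h : ∃ Q' : Pt ((T₀.map (kV hV)).map (residue V)), RedP Q Q' then xx h.choose else 0
  obtain ⟨c, hc⟩ := Infinite.exists_notMem_finset (S.map f).toFinset
  obtain ⟨P', hP'⟩ := exists_xx ((T₀.map (kV hV)).map (residue V)) c
  obtain ⟨P, hP⟩ := exists_lift P'
  refine ⟨P, hP.xx_mem, fun Q hQ hcg => hc ?_⟩
  have hQV : xx Q ∈ V := cg_xx hcg hP.xx_mem
  rw [cg_iff_cgW hV T₀ hP.xx_mem hQV] at hcg
  have hex : ∃ Q' : Pt ((T₀.map (kV hV)).map (residue V)), RedP Q Q' := exists_redP hQV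
  have h1 : P' = hex.choose := (redP_eq_iff hP hex.choose_spec).2 hcg
  rw [List.mem_toFinset, List.mem_map]
  refine ⟨Q, hQ, ?_⟩
  show (if h : ∃ Q' : Pt ((T₀.map (kV hV)).map (residue V)), RedP Q Q' then xx h.choose else 0) = c
  rw [dif_pos hex, ← h1, hP']

end

end Pool.Agent.TIFT
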