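import Mathlib
import Pool.Agent.TIFT.VE3
import Pool.Agent.TIFT.VE4
import Pool.Agent.TIFT.VE5
import Pool.Agent.TIFT.G1

/-!
# [TIF, block THETA, section V] row VM2

infinite_kb: for c ∈ kbF there is P with xx P = c (exists_xx), PK_iff_xx (IsAlgClosed (kbF k Ω) from IsAlgClosure); kbF is infinite. chain: Q l := l.length <= n ∧ (forall P ∈ l, xx P ∈ V) ∧ exists R' : Fin n → Pt T, (forall i, xx (R' i) ∈ V) ∧ (forall i (hi : i < l.length) (hi' : i < n), R' ⟨i, hi'⟩ = l.get ⟨i, hi⟩) ∧ V.valuation (Φ R') = 1. Step: l.length =: i < n, R' as in Q l; N := the function of hΦ ⟨i, _⟩ R': Cf V N, P N = Φ (update R' i P). (R' i) N = Φ R' (Function.update_eq_self) has valuation 1 and R' i is V-finite, so N is primitive: if all coefficients had valuation < 1 then V.valuation (P N) < 1 for V-finite P (N = sum_j algebraMap (N.co j) * f_j; the values of x and the f_j at P are in V: ev_int); so a coefficient has valuation 1 (they are <= 1). prim_zeros: list S; a kb-point P (V-finite: PK_xx) not congruent to a point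 of S has V.valuation (P N) = 1 (ev_int: <= 1; prim_zeros: not < 1): Q (l ++ [P]) with update R' i P. The exceptional set is inside {P | PK P ∧ ∃ Q ∈ S, Cg k V P Q}: finite_cg. End: for l = ofFn P, R' = P. exists_kbpt: chain for V = ⊤ (valuation ≠ 0 iff = 1 for ⊤: an element is a unit of ⊤ iff ≠ 0), then choose points one after the other outside the finite exceptional sets (infinite_kb): by induction on i <= n there is l of length i of kb-points with Q l.
-/

set_option autoImplicit false
set_option linter.unusedSectionVars false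

open Polynomial IsLocalRing

namespace Pool.Agent.TIFT

open GT TIF

section

variable {k Ω : Type} [Field k] [Field Ω] [Algebra k Ω] [IsAlgClosed Ω] {d : ℕ} [NeZero d]
  {T : Tab Ω d} [IsDedekindDomain (WB T)]

private theorem vm2_closed : IsAlgClosed (kbF k Ω) :=
  IsAlgClosure.isAlgClosed k

private theorem vm2_prim (hT : Tk k T) {V : ValuationSubring Ω}
    (hV : ∀ c : k, algebraMap k Ω c ∈ V) {N : WB T} (hN : Cf (V : Set Ω) N) {P : Pt T}
    (hP : xx P ∈ V) (h : V.valuation (P N) = 1) : Prim V N := by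
  have h0 : N ≠ 0 := by
    rintro rfl
    rw [map_zero, map_zero] at h
    exact zero_ne_one h
  obtain ⟨c, hc, hp⟩ := exists_prim V h0
  obtain ⟨j, n, hjn⟩ := hp.unit
  have h1 : P (c • N) ∈ V := ev_int hT hV hp.int hP
  have h2 : V.valuation c ≤ 1 := by
    have h3 := (ValuationSubring.valuation_le_one_iff V _).2 h1
    rwa [map_smul, smul_eq_mul, map_mul, h, mul_one] at h3
  refine ⟨hN, j, n, ?_⟩
  have h4 : ((c • N).co j).coeff n = c * (N.co j).coeff n := by
    rw [WB.co_smul', coeff_smul, smul_eq_mul]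
  rw [h4, map_mul] at hjn
  have h5 : V.valuation ((N.co j).coeff n) ≤ 1 :=
    (ValuationSubring.valuation_le_one_iff V _).2 (hN j n)
  refine le_antisymm h5 ?_
  calc (1 : V.ValueGroup) = V.valuation c * V.valuation ((N.co j).coeff n) := hjn.symm
    _ ≤ 1 * V.valuation ((N.co j).coeff n) := mul_le_mul_left h2 _
    _ = V.valuation ((N.co j).coeff n) := one_mul _

/-- the lists which can be completed to a point where `Φ` is a unit -/
private def vm2_Q (V : ValuationSubring Ω) {n : ℕ} (Φ : (Fin n → Pt T) → Ω) (l : List (Pt T)) :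
    Prop :=
  l.length ≤ n ∧ (∀ P ∈ l, xx P ∈ V) ∧ ∃ R' : Fin n → Pt T, (∀ i, xx (R' i) ∈ V) ∧
    (∀ (i : ℕ) (hi : i < l.length) (hi' : i < n), R' ⟨i, hi'⟩ = l.get ⟨i, hi⟩) ∧
    V.valuation (Φ R') = 1

theorem infinite_kb (hT : Tk k T) : {P : Pt T | PK k (kbF k Ω : Set Ω) P}.Infinite := by
  have := vm2_closed (k := k) (Ω := Ω)
  choose f hf using fun c : kbF k Ω => exists_xx T (c : Ω)
  refine Set.infinite_of_injective_forall_mem (f := f) (fun c c' h => ?_) fun c => ?_
  · apply Subtype.ext
    rw [← hf c, ← hf c', h]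
  · refine (PK_iff_xx hT (kbF k Ω) (f c)).2 ?_
    rw [hf c]
    exact c.2

theorem chain (hT : Tk k T) {V : ValuationSubring Ω} (hV : ∀ c ∈ kbF k Ω, c ∈ V) {n : ℕ}
    {Φ : (Fin n → Pt T) → Ω} (hΦ : MPf V Φ) {R : Fin n → Pt T} (hR : ∀ i, xx (R i) ∈ V)
    (h : V.valuation (Φ R) = 1) :
    ∃ Q : List (Pt T) → Prop, Q [] ∧
      (∀ l : List (Pt T), l.length < n → Q l →
        {P : Pt T | PK k (kbF k Ω : Set Ω) P ∧ ¬ Q (l ++ [P])}.Finite) ∧
      ∀ P : Fin n → Pt T, Q (List.ofFn P) → V.valuation (Φ P) = 1 := by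
  have hV' : ∀ c : k, algebraMap k Ω c ∈ V := kb_le k hV
  refine ⟨vm2_Q V Φ, ⟨Nat.zero_le _, fun P hP => absurd hP List.not_mem_nil, R, hR,
    fun i hi => absurd hi (Nat.not_lt_zero _), h⟩, fun l hl hQ => ?_, fun P hQ => ?_⟩
  · obtain ⟨-, hlV, R', hR', hget, hval⟩ := hQ
    obtain ⟨N, hN, hNP⟩ := hΦ ⟨l.length, hl⟩ R' hR'
    have hself : Function.update R' ⟨l.length, hl⟩ (R' ⟨l.length, hl⟩) = R' :=
      Function.update_eq_self _ _
    have hprim : Prim V N := by
      refine vm2_prim hT hV' hN (hR' ⟨l.length, hl⟩) ?_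
      rw [hNP, hself, hval]
    obtain ⟨S, -, -, hS⟩ := prim_zeros hT hV' hprim
    refine (finite_cg hV S).subset ?_
    rintro P ⟨hP, hPQ⟩
    refine ⟨hP, ?_⟩
    have hxP : xx P ∈ V := hV _ (PK_xx hP)
    by_contra hno
    apply hPQ
    have hPN : V.valuation (P N) = 1 := by
      refine le_antisymm ((ValuationSubring.valuation_le_one_iff V _).2
        (ev_int hT hV' hN hxP)) (not_lt.1 fun hlt => hno (hS P hxP hlt))
    refine ⟨?_, ?_, Function.update R' ⟨l.length, hl⟩ P, ?_, ?_, ?_⟩
    · rw [List.length_append]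
      exact hl
    · intro P' hP'
      rcases List.mem_append.1 hP' with h1 | h1
      · exact hlV P' h1
      · rw [List.mem_singleton.1 h1]
        exact hxP
    · intro j
      rcases eq_or_ne j ⟨l.length, hl⟩ with rfl | hj
      · rw [Function.update_self]
        exact hxP
      · rw [Function.update_of_ne hj]
        exact hR' j
    · intro j hj hj'
      rw [List.length_append, List.length_singleton] at hj
      rcases Nat.lt_or_ge j l.length with h1 | h1
      · rw [Function.update_of_ne (fun h2 => by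
          have := congrArg Fin.val h2
          simp only at this
          omega), hget j h1 hj']
        rw [List.get_eq_getElem, List.get_eq_getElem, List.getElem_append_left]
      · have h2 : j = l.length := by omega
        subst h2
        rw [Function.update_self, List.get_eq_getElem]
        simp
    · rw [← hNP]
      exact hPN
  · obtain ⟨-, -, R', -, hget, hval⟩ := hQ
    have h1 : R' = P := by
      funext j
      have h2 := hget j.1 (by rw [List.length_ofFn]; exact j.2) j.2
      rw [List.get_ofFn] at h2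
      exact h2
    rw [← h1]
    exact hval

theorem exists_kbpt (hT : Tk k T) {n : ℕ} {Φ : (Fin n → Pt T) → Ω}
    (hΦ : MPf (⊤ : ValuationSubring Ω) Φ) {R : Fin n → Pt T} (h : Φ R ≠ 0) :
    ∃ P : Fin n → Pt T, (∀ i, PK k (kbF k Ω : Set Ω) (P i)) ∧ Φ P ≠ 0 := by
  have htop : ∀ c : Ω, c ≠ 0 → (⊤ : ValuationSubring Ω).valuation c = 1 := by
    intro c hc
    refine le_antisymm ((ValuationSubring.valuation_le_one_iff _ _).2 (ValuationSubring.mem_top c)) ?_
    have h1 : (⊤ : ValuationSubring Ω).valuation c⁻¹ ≤ 1 :=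
      (ValuationSubring.valuation_le_one_iff _ _).2 (ValuationSubring.mem_top _)
    rw [map_inv₀] at h1
    have h2 : (⊤ : ValuationSubring Ω).valuation c ≠ 0 := (Valuation.ne_zero_iff _).2 hc
    exact (inv_le_one₀ (zero_lt_iff.2 h2)).1 h1
  obtain ⟨Q, hQ0, hQs, hQe⟩ := chain hT (V := ⊤) (fun c _ => ValuationSubring.mem_top c) hΦ
    (R := R) (fun i => ValuationSubring.mem_top _) (htop _ h)
  have key : ∀ i : ℕ, i ≤ n → ∃ l : List (Pt T), l.length = i ∧
      (∀ P ∈ l, PK k (kbF k Ω : Set Ω) P) ∧ Q l := by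
    intro i
    induction i with
    | zero => exact fun _ => ⟨[], rfl, fun P hP => absurd hP List.not_mem_nil, hQ0⟩
    | succ i ih =>
      intro hi
      obtain ⟨l, hl, hlP, hlQ⟩ := ih (by omega)
      obtain ⟨P, hP, hP'⟩ := ((infinite_kb hT).sdiff (hQs l (by omega) hlQ)).nonempty
      refine ⟨l ++ [P], by rw [List.length_append, hl, List.length_singleton], ?_, ?_⟩
      · intro P' hP'
        rcases List.mem_append.1 hP' with h1 | h1
        · exact hlP P' h1
        · rw [List.mem_singleton.1 h1]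
          exact hP
      · by_contra hno
        exact hP' ⟨hP, hno⟩
  obtain ⟨l, hl, hlP, hlQ⟩ := key n le_rfl
  subst hl
  refine ⟨l.get, fun i => hlP _ (List.get_mem l i), ?_⟩
  have h1 := hQe l.get (by rw [List.ofFn_get]; exact hlQ)
  intro h2
  rw [h2, map_zero] at h1
  exact zero_ne_one h1

end

end Pool.Agent.TIFT
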