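import Mathlib
import Pool.Agent.TIFT.VDefs
import Pool.Agent.TIFT.C1
import Pool.Agent.TIFT.T1
import Pool.Agent.TIFT.U0

/-!
# [TIF, block THETA, section V] row VM3

HH_sum: Submodule.span_induction (or Submodule.mem_span_range_iff... / Finsupp.mem_span_range_iff_exists_finsupp) : tmf D: J = 1; sums: Fin.append; scalar: multiply the c j. Sth_eq: Finset.sum_apply, tmf (if_pos). Sth_mul: for every j: thc_eq ((D j).hd s) for the list X s ++ A s (ev_append ≠ 0), th = (prod Dl (B ++ (X ++ A))) / (Dl (X ++ A) ^ m * (ev h X * ev h A)), List.append_assoc; prod over j' of ev = (ev for j) * (prod over the others): Finset.mul_prod_erase; field_simp. cl_Al: induction on the list of the indices: (∏ i, mulSingle (r i) (iot (P i))) s = ∏ i with r i = s, iot (P i) (Finset.prod_apply, Pi.mulSingle_apply, Finset.prod_filter), cl of a list = the product of the classes iot P (cl_append; iot P = cl [P]), List.finRange versus Finset.univ (List.prod_toFinset or Finset.prod_list_map / List.prod_ofFn). exists_Al: P i := (R (r i))[the position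 of i in the filtered list (List.idxOf)]; it is < length as the lengths agree and i is a member. length_Al: List.length_filter / Finset.card of filter (List.finRange).
-/

set_option autoImplicit false
set_option linter.unusedSectionVars false

open Polynomial IsLocalRing

namespace Pool.Agent.TIFT

open GT TIF

section

variable {k Ω : Type} [Field k] [Field Ω] [Algebra k Ω] [IsAlgClosed Ω] {d : ℕ} [NeZero d]
  {T : Tab Ω d} [IsDedekindDomain (WB T)] {ρ : Type} [Fintype ρ]

private theorem vm3_alg {κ : Type} [Field κ] (N D x a : κ) (hD : D ≠ 0) (hx : x ≠ 0) (ha : a ≠ 0) :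
    N / (D * (x * a)) * D * a = N / x := by
  field_simp

private theorem vm3_alg2 {κ : Type} [Field κ] (c t D e E : κ) :
    c * t * D * (e * E) = c * (t * D * e) * E := by
  ring

theorem HH_sum {K : IntermediateField k Ω} {m : ℕ} {F : (ρ → ClassGroup (WB T)) → Ω}
    (hF : F ∈ HH T ρ K m) :
    ∃ (J : ℕ) (c : Fin J → K) (D : Fin J → TD k T ρ K m), F = ∑ j, c j • tmf (D j) := by
  obtain ⟨n, f, g, hs⟩ := Submodule.mem_span_set'.1 hF
  choose D hD using fun i => (g i).2
  refine ⟨n, f, D, ?_⟩
  rw [← hs]
  refine Finset.sum_congr rfl fun i _ => ?_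
  rw [← hD i]

theorem Sth_eq {K : IntermediateField k Ω} {m J : ℕ} (c : Fin J → K) (D : Fin J → TD k T ρ K m)
    {y : ρ → ClassGroup (WB T)} (hy : GenA K y) : (∑ j, c j • tmf (D j)) y = Sth c D y := by
  unfold Sth
  rw [Finset.sum_apply]
  refine Finset.sum_congr rfl fun j _ => ?_
  have h1 : (c j • tmf (D j)) y = (c j : Ω) * tmf (D j) y := rfl
  rw [h1]
  unfold tmf
  rw [if_pos hy]

theorem Sth_mul {K : IntermediateField k Ω} {m J : ℕ} (c : Fin J → K) (D : Fin J → TD k T ρ K m)
    (X A : ρ → List (Pt T)) (hg : ∀ s, gp T ≤ (X s ++ A s).length)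
    (hD : ∀ s, Dl (X s ++ A s) ≠ 0) (hX : ∀ j s, ev ((D j).h s) (X s) ≠ 0)
    (hA : ∀ j s, ev ((D j).h s) (A s) ≠ 0) :
    Sth c D (fun s => cl (X s ++ A s)) * (∏ s, Dl (X s ++ A s)) ^ m *
      ∏ j, ∏ s, ev ((D j).h s) (A s) = Phi c D X A := by
  unfold Sth Phi
  rw [Finset.sum_mul, Finset.sum_mul]
  refine Finset.sum_congr rfl fun j _ => ?_
  have h1 : ∀ s, thc ((D j).B s) ((D j).h s) (cl (X s ++ A s)) * Dl (X s ++ A s) ^ m *
      ev ((D j).h s) (A s) = (∏ i, Dl ((D j).B s i ++ X s ++ A s)) / ev ((D j).h s) (X s) := by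
    intro s
    have h0 : ev ((D j).h s) (X s ++ A s) ≠ 0 := by
      rw [ev_append]
      exact mul_ne_zero (hX j s) (hA j s)
    rw [thc_eq ((D j).hd s) (hg s) (hD s) h0, th, ev_append]
    have e1 : ∀ i, (D j).B s i ++ (X s ++ A s) = (D j).B s i ++ X s ++ A s := fun i =>
      (List.append_assoc _ _ _).symm
    rw [Finset.prod_congr rfl fun i _ => congrArg Dl (e1 i)]
    exact vm3_alg _ _ _ _ (pow_ne_zero m (hD s)) (hX j s) (hA j s)
  have h2 : (∏ s, thc ((D j).B s) ((D j).h s) (cl (X s ++ A s))) * (∏ s, Dl (X s ++ A s)) ^ m *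
      ∏ s, ev ((D j).h s) (A s) =
      ∏ s, (∏ i, Dl ((D j).B s i ++ X s ++ A s)) / ev ((D j).h s) (X s) := by
    rw [← Finset.prod_pow, ← Finset.prod_mul_distrib, ← Finset.prod_mul_distrib]
    exact Finset.prod_congr rfl fun s _ => h1 s
  rw [← h2, ← Finset.mul_prod_erase Finset.univ (fun j' => ∏ s, ev ((D j').h s) (A s))
    (Finset.mem_univ j)]
  exact vm3_alg2 _ _ _ _ _

theorem vm3_cl (X : List (Pt T)) : cl X = (X.map iot).prod := by
  induction X with
  | nil =>
    rw [List.map_nil, List.prod_nil]
    have h1 : cl ([] ++ [] : List (Pt T)) = cl [] * cl [] := cl_append [] []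
    rw [List.append_nil] at h1
    exact (mul_eq_left.1 h1.symm)
  | cons P X ih =>
    have h1 : cl (P :: X) = cl [P] * cl X := cl_append [P] X
    have h2 : cl [P] = iot P := by
      rw [cl, dI, List.map_cons, List.map_nil, List.prod_cons, List.prod_nil, mul_one]
      rfl
    rw [h1, h2, ih, List.map_cons, List.prod_cons]

theorem vm3_filter {α M : Type} [Monoid M] (p : α → Prop) [DecidablePred p] (f : α → M)
    (l : List α) : ((l.filter fun a => p a).map f).prod = (l.map fun a => if p a then f a else 1).prod := by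
  induction l with
  | nil => rfl
  | cons a l ih =>
    by_cases h : p a
    · rw [List.filter_cons_of_pos (by simpa using h), List.map_cons, List.prod_cons, ih,
        List.map_cons, List.prod_cons, if_pos h]
    · rw [List.filter_cons_of_neg (by simpa using h), ih, List.map_cons, List.prod_cons, if_neg h,
        one_mul]

variable [DecidableEq ρ]

theorem vm3_len {L : ℕ} (r : Fin L → ρ) (s : ρ) :
    ((List.finRange L).filter fun i => r i = s).length =
      (Finset.univ.filter fun i => r i = s).card := by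
  rw [← List.toFinset_card_of_nodup ((List.nodup_finRange L).filter _)]
  congr 1
  ext i
  simp

theorem cl_Al {L : ℕ} (r : Fin L → ρ) (P : Fin L → Pt T) :
    (∏ i, Pi.mulSingle (r i) (iot (P i)) : ρ → ClassGroup (WB T)) = fun s => cl (Al r P s) := by
  funext s
  rw [Finset.prod_apply, vm3_cl, Al, List.map_map, vm3_filter, Fin.prod_univ_def]
  congr 1
  refine List.map_congr_left fun i _ => ?_
  rw [Pi.mulSingle_apply]
  by_cases h : r i = s
  · rw [if_pos h, if_pos h.symm]
    rfl
  · rw [if_neg h, if_neg fun h' => h h'.symm]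

theorem length_Al {L : ℕ} (r : Fin L → ρ) (P : Fin L → Pt T) (s : ρ) :
    (Al r P s).length = (Finset.univ.filter fun i => r i = s).card := by
  rw [Al, List.length_map]
  exact vm3_len r s

theorem mem_Al {L : ℕ} {r : Fin L → ρ} {P : Fin L → Pt T} {s : ρ} {Q : Pt T} :
    Q ∈ Al r P s ↔ ∃ i, r i = s ∧ P i = Q := by
  rw [Al, List.mem_map]
  constructor
  · rintro ⟨i, hi, h⟩
    exact ⟨i, by simpa using (List.mem_filter.1 hi).2, h⟩
  · rintro ⟨i, hi, h⟩
    exact ⟨i, List.mem_filter.2 ⟨List.mem_finRange i, by simpa using hi⟩, h⟩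

theorem nodup_Al {L : ℕ} (r : Fin L → ρ) {P : Fin L → Pt T} (h : Function.Injective P) (s : ρ) :
    (Al r P s).Nodup := List.Nodup.map h ((List.nodup_finRange L).filter _)

theorem exists_Al {L : ℕ} (r : Fin L → ρ) (R : ρ → List (Pt T))
    (h : ∀ s, (R s).length = (Finset.univ.filter fun i => r i = s).card) :
    ∃ P : Fin L → Pt T, (∀ s, Al r P s = R s) ∧ ∀ i, P i ∈ R (r i) := by
  have key : ∀ i, ∃ Q : Pt T,
      (R (r i))[((List.finRange L).filter fun i' => r i' = r i).idxOf i]? = some Q := by
    intro i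
    have h1 : ((List.finRange L).filter fun i' => r i' = r i).idxOf i < (R (r i)).length := by
      rw [h, ← vm3_len]
      exact List.idxOf_lt_length_iff.2 (List.mem_filter.2 ⟨List.mem_finRange i, by simp⟩)
    exact ⟨_, List.getElem?_eq_getElem h1⟩
  choose P hP using key
  refine ⟨P, fun s => ?_, fun i => List.mem_of_getElem? (hP i)⟩
  apply List.ext_getElem?
  intro n
  rw [Al, List.getElem?_map]
  by_cases hn : n < ((List.finRange L).filter fun i => r i = s).length
  · rw [List.getElem?_eq_getElem hn, Option.map_some]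
    have hr : r (((List.finRange L).filter fun i => r i = s)[n]) = s := by
      simpa using (List.mem_filter.1 (List.getElem_mem hn)).2
    have h2 := hP (((List.finRange L).filter fun i => r i = s)[n])
    rw [hr] at h2
    rw [List.Nodup.idxOf_getElem ((List.nodup_finRange L).filter _)] at h2
    rw [← h2]
  · rw [List.getElem?_eq_none (not_lt.1 hn), Option.map_none, List.getElem?_eq_none]
    rw [h s, ← vm3_len]
    exact not_lt.1 hn

end

end Pool.Agent.TIFT
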