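import Mathlib
import Pool.Agent.TIFT.VE3
import Pool.Agent.TIFT.VE4
import Pool.Agent.TIFT.VE5
import Pool.Agent.TIFT.R

/-!
# [TIF, block THETA, section V] row VM1

MPf.const: N := algebraMap c (coefficients c or 0: WB.algebraMap_co'). MPf.pt: for the variable i take N = b, for another variable the constant Q i b ∈ V (ev_int). add, mul: N + N', N * N' (cf_mul). sum, prod: Finset.induction (empty: const). MPf.Dl: every entry of the matrix of C ++ l.map P is P ↦ P_j (e T t) (MPf.pt; e T t has coefficients 0, 1: r_e_co in TIFT/R.lean) or the constant (C i) (e T t) ∈ V; Dl is (by Matrix.det_apply) a sum of products of entries and signs; the length (C ++ l.map P).length does not depend on P: first prove for X : List (Pt T), n = X.length: Dl X = det (of fun i j : Fin n => (X.get (i.cast _)) (e T j)), or write C ++ l.map P = List.ofFn (fun i : Fin (|C| + |l|) => ..) and use a formula for Dl (List.ofFn p). MPf.ev: induction on l.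
-/

set_option autoImplicit false
set_option linter.unusedSectionVars false

open Polynomial IsLocalRing

namespace Pool.Agent.TIFT

open GT TIF

section

variable {k Ω : Type} [Field k] [Field Ω] [Algebra k Ω] [IsAlgClosed Ω] {d : ℕ} [NeZero d]
  {T : Tab Ω d} [IsDedekindDomain (WB T)]

theorem MPf.const {V : ValuationSubring Ω} {n : ℕ} {c : Ω} (hc : c ∈ V) :
    MPf V (fun _ : Fin n → Pt T => c) := by
  intro i Q _
  refine ⟨algebraMap Ω (WB T) c, ?_, fun P => P.commutes c⟩
  intro j m
  rw [WB.algebraMap_co']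
  split_ifs with hj
  · rw [coeff_C]
    split_ifs with hm
    · exact hc
    · exact V.zero_mem
  · rw [coeff_zero]
    exact V.zero_mem

theorem MPf.pt (hT : Tk k T) {V : ValuationSubring Ω} (hV : ∀ c : k, algebraMap k Ω c ∈ V) {n : ℕ}
    {b : WB T} (hb : Cf (V : Set Ω) b) (i : Fin n) : MPf V (fun P : Fin n → Pt T => P i b) := by
  intro i' Q hQ
  by_cases h : i = i'
  · subst h
    refine ⟨b, hb, fun P => ?_⟩
    show P b = (Function.update Q i P) i b
    rw [Function.update_self]
  · obtain ⟨N, hN, hN'⟩ := MPf.const (T := T) (ev_int hT hV hb (hQ i)) i' Q hQ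
    refine ⟨N, hN, fun P => ?_⟩
    show P N = (Function.update Q i' P) i b
    rw [hN', Function.update_of_ne h]

theorem MPf.add {V : ValuationSubring Ω} {n : ℕ} {Φ Ψ : (Fin n → Pt T) → Ω} (h : MPf V Φ)
    (h' : MPf V Ψ) : MPf V (fun P => Φ P + Ψ P) := by
  intro i Q hQ
  obtain ⟨N, hN, hN'⟩ := h i Q hQ
  obtain ⟨M, hM, hM'⟩ := h' i Q hQ
  refine ⟨N + M, fun j m => ?_, fun P => ?_⟩
  · have h1 : ((N + M).co j).coeff m = (N.co j).coeff m + (M.co j).coeff m := by
      rw [← coeff_add]
      rfl
    rw [h1]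
    exact V.add_mem _ _ (hN j m) (hM j m)
  · show P (N + M) = Φ (Function.update Q i P) + Ψ (Function.update Q i P)
    rw [map_add, hN', hM']

theorem MPf.mul (hT : Tk k T) {V : ValuationSubring Ω} (hV : ∀ c : k, algebraMap k Ω c ∈ V) {n : ℕ}
    {Φ Ψ : (Fin n → Pt T) → Ω} (h : MPf V Φ) (h' : MPf V Ψ) : MPf V (fun P => Φ P * Ψ P) := by
  intro i Q hQ
  obtain ⟨N, hN, hN'⟩ := h i Q hQ
  obtain ⟨M, hM, hM'⟩ := h' i Q hQ
  refine ⟨N * M, cf_mul hT hV hN hM, fun P => ?_⟩
  show P (N * M) = Φ (Function.update Q i P) * Ψ (Function.update Q i P)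
  rw [map_mul, hN', hM']

theorem MPf.sum {V : ValuationSubring Ω} {n : ℕ} {ι : Type} (s : Finset ι)
    {Φ : ι → (Fin n → Pt T) → Ω} (h : ∀ i ∈ s, MPf V (Φ i)) :
    MPf V (fun P => ∑ i ∈ s, Φ i P) := by
  classical
  induction s using Finset.induction with
  | empty =>
    simp only [Finset.sum_empty]
    exact MPf.const V.zero_mem
  | insert a s ha ih =>
    simp only [Finset.sum_insert ha]
    exact (h a (Finset.mem_insert_self _ _)).add (ih fun i hi => h i (Finset.mem_insert_of_mem hi))

theorem MPf.prod (hT : Tk k T) {V : ValuationSubring Ω} (hV : ∀ c : k, algebraMap k Ω c ∈ V)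
    {n : ℕ} {ι : Type} (s : Finset ι) {Φ : ι → (Fin n → Pt T) → Ω} (h : ∀ i ∈ s, MPf V (Φ i)) :
    MPf V (fun P => ∏ i ∈ s, Φ i P) := by
  classical
  induction s using Finset.induction with
  | empty =>
    simp only [Finset.prod_empty]
    exact MPf.const V.one_mem
  | insert a s ha ih =>
    simp only [Finset.prod_insert ha]
    exact (h a (Finset.mem_insert_self _ _)).mul hT hV (ih fun i hi => h i (Finset.mem_insert_of_mem hi))

private theorem vm1_Dl (X : List (Pt T)) (M : ℕ) (h : X.length = M) :
    TIFT.Dl X = Matrix.det (Matrix.of fun i j : Fin M => (X.get (i.cast h.symm)) (e T j)) := by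
  subst h
  rfl

theorem MPf.Dl (hT : Tk k T) {V : ValuationSubring Ω} (hV : ∀ c : k, algebraMap k Ω c ∈ V) {n : ℕ}
    {C : List (Pt T)} (hC : ∀ P ∈ C, xx P ∈ V) (l : List (Fin n)) :
    MPf V (fun P : Fin n → Pt T => TIFT.Dl (C ++ l.map P)) := by
  have hlen : ∀ P : Fin n → Pt T, (C ++ l.map P).length = C.length + l.length := fun P => by
    rw [List.length_append, List.length_map]
  have he : ∀ t, Cf (V : Set Ω) (e T t) := by
    intro t j m
    rcases r_e_co (T := T) t j m with h | h
    · rw [h]; exact V.zero_mem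
    · rw [h]; exact V.one_mem
  have hentry : ∀ (i : Fin (C.length + l.length)) (t : ℕ),
      MPf V (fun P : Fin n → Pt T => ((C ++ l.map P).get (i.cast (hlen P).symm)) (e T t)) := by
    intro i t
    by_cases hi : (i : ℕ) < C.length
    · have h1 : (fun P : Fin n → Pt T => ((C ++ l.map P).get (i.cast (hlen P).symm)) (e T t)) =
          fun _ => (C.get ⟨i, hi⟩) (e T t) := by
        funext P
        rw [List.get_eq_getElem, List.get_eq_getElem]
        simp only [Fin.val_cast]
        rw [List.getElem_append_left hi]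
      rw [h1]
      exact MPf.const (ev_int hT hV (he t) (hC _ (List.get_mem _ _)))
    · have hi2 : (i : ℕ) - C.length < l.length := by have := i.2; omega
      have h1 : (fun P : Fin n → Pt T => ((C ++ l.map P).get (i.cast (hlen P).symm)) (e T t)) =
          fun P => (P (l.get ⟨(i : ℕ) - C.length, hi2⟩)) (e T t) := by
        funext P
        rw [List.get_eq_getElem, List.get_eq_getElem]
        simp only [Fin.val_cast]
        rw [List.getElem_append_right (not_lt.1 hi), List.getElem_map]
      rw [h1]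
      exact MPf.pt hT hV (he t) _
  have hfun : (fun P : Fin n → Pt T => TIFT.Dl (C ++ l.map P)) = fun P =>
      ∑ σ : Equiv.Perm (Fin (C.length + l.length)), ((Equiv.Perm.sign σ : ℤ) : Ω) *
        ∏ i, ((C ++ l.map P).get ((σ i).cast (hlen P).symm)) (e T i) := by
    funext P
    rw [vm1_Dl _ _ (hlen P), Matrix.det_apply']
    rfl
  rw [hfun]
  refine MPf.sum _ fun σ _ => ?_
  refine MPf.mul hT hV (MPf.const ?_) (MPf.prod hT hV _ fun i _ => hentry (σ i) i)
  rcases Int.units_eq_one_or (Equiv.Perm.sign σ) with h | h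
  · rw [h]; simp only [Units.val_one, Int.cast_one]; exact V.one_mem
  · rw [h]; simp only [Units.val_neg, Units.val_one, Int.cast_neg, Int.cast_one]
    exact V.neg_mem _ V.one_mem

theorem MPf.ev (hT : Tk k T) {V : ValuationSubring Ω} (hV : ∀ c : k, algebraMap k Ω c ∈ V) {n : ℕ}
    {b : WB T} (hb : Cf (V : Set Ω) b) (l : List (Fin n)) :
    MPf V (fun P : Fin n → Pt T => TIFT.ev b (l.map P)) := by
  induction l with
  | nil =>
    have h1 : (fun P : Fin n → Pt T => TIFT.ev b (([] : List (Fin n)).map P)) = fun _ => 1 := by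
      funext P
      simp [TIFT.ev]
    rw [h1]
    exact MPf.const V.one_mem
  | cons a l ih =>
    have h1 : (fun P : Fin n → Pt T => TIFT.ev b ((a :: l).map P)) =
        fun P => P a b * TIFT.ev b (l.map P) := by
      funext P
      simp [TIFT.ev]
    rw [h1]
    exact (MPf.pt hT hV hb a).mul hT hV ih

end

end Pool.Agent.TIFT
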