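import Mathlib
import Pool.Agent.TIFT.VM1
import Pool.Agent.TIFT.VM3
import Pool.Agent.TIFT.U0

/-!
# [TIF, block THETA, section V] row VM4

Phi c D X (Al r P), Al r P s = (filtered list).map P: MPf.sum, MPf.mul, MPf.prod, MPf.const (c j ∈ V, (ev h (X s))⁻¹ ∈ V as the valuation of ev h (X s) is 1), MPf.Dl (the list B ++ X s is V-finite, then l.map P), MPf.ev ((D j').h s has coefficients in K ⊆ V: TD.cf_h).
-/

set_option autoImplicit false
set_option linter.unusedSectionVars false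

open Polynomial IsLocalRing

namespace Pool.Agent.TIFT

open GT TIF

section

variable {k Ω : Type} [Field k] [Field Ω] [Algebra k Ω] [IsAlgClosed Ω] {d : ℕ} [NeZero d]
  {T : Tab Ω d} [IsDedekindDomain (WB T)] {ρ : Type} [Fintype ρ] [DecidableEq ρ]

theorem MPf_DlA (hT : Tk k T) {V : ValuationSubring Ω} (hV : ∀ c : k, algebraMap k Ω c ∈ V)
    {L : ℕ} (r : Fin L → ρ) (s : ρ) : MPf V (fun P : Fin L → Pt T => Dl (Al r P s)) :=
  MPf.Dl (C := []) hT hV (by simp) ((List.finRange L).filter fun i => r i = s)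

theorem MPf_evA (hT : Tk k T) {V : ValuationSubring Ω} (hV : ∀ c : k, algebraMap k Ω c ∈ V)
    {L : ℕ} {b : WB T} (hb : Cf (V : Set Ω) b) (r : Fin L → ρ) (s : ρ) :
    MPf V (fun P : Fin L → Pt T => ev b (Al r P s)) :=
  MPf.ev hT hV hb ((List.finRange L).filter fun i => r i = s)

theorem MPf_Phi (hT : Tk k T) {V : ValuationSubring Ω} {K : IntermediateField k Ω}
    (hV : ∀ c ∈ K, c ∈ V) {m J L : ℕ} (c : Fin J → K) (D : Fin J → TD k T ρ K m)
    {X : ρ → List (Pt T)} (hX : ∀ s, ∀ P ∈ X s, xx P ∈ V)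
    (hev : ∀ j s, V.valuation (ev ((D j).h s) (X s)) = 1) (r : Fin L → ρ) :
    MPf V (fun P : Fin L → Pt T => Phi c D X (Al r P)) := by
  have hk : ∀ a : k, algebraMap k Ω a ∈ V := fun a => hV _ (K.algebraMap_mem a)
  unfold Phi
  refine MPf.sum _ fun j _ => ?_
  refine MPf.mul hT hk (MPf.mul hT hk (MPf.const (hV _ (c j).2)) ?_) ?_
  · refine MPf.prod hT hk _ fun s _ => ?_
    simp only [div_eq_mul_inv]
    refine MPf.mul hT hk (MPf.prod hT hk _ fun i _ => ?_) (MPf.const ?_)
    · refine MPf.Dl hT hk ?_ _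
      intro P hP
      rcases List.mem_append.1 hP with h1 | h1
      · exact hV _ (PK_xx ((D j).pk s i P h1))
      · exact hX s P h1
    · rw [← ValuationSubring.valuation_le_one_iff, map_inv₀, hev j s, inv_one]
  · refine MPf.prod hT hk _ fun j' _ => MPf.prod hT hk _ fun s _ => ?_
    exact MPf_evA hT hk (fun i n => hV _ ((D j').cf_h hT s i n)) r s

end

end Pool.Agent.TIFT
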