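import Pool.Agent.TIFT.G1

/-!
# [TIF, block THETA] row G2

kL K X is algebraic over K(xx X_i) (kP_alg), so independence over kL K X is independence over K(xx X_i): AlgebraicIndependent.sum_elim_iff / adjoin lemmas (Mathlib.RingTheory.AlgebraicIndependent.*), extension of scalars along algebraic extensions (AlgebraicIndependent.extendScalars or Algebra.IsAlgebraic transitivity with matroid/trdeg lemmas). exists_ind: Univ gives a transcendental element over any finitely generated field, hence over a Small field; exists_xx; induction with ind_append.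
-/

set_option autoImplicit false
set_option linter.unusedSectionVars false

open Polynomial IsLocalRing

namespace Pool.Agent.TIFT

open GT TIF

section

variable {k Ω : Type} [Field k] [Field Ω] [Algebra k Ω] [IsAlgClosed Ω] {d : ℕ} [NeZero d]
  {T : Tab Ω d} [IsDedekindDomain (WB T)]

theorem g_xx_mem_kP (P : Pt T) : xx P ∈ kP k P :=
  IntermediateField.subset_adjoin k _ ⟨WB.x T, g_cf_x, rfl⟩

theorem g_kP_le_kL (K : IntermediateField k Ω) {X : List (Pt T)} {P : Pt T} (hP : P ∈ X) :
    kP k P ≤ kL K X :=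
  (le_iSup₂_of_le (f := fun (P : Pt T) (_ : P ∈ X) => kP k P) P hP le_rfl).trans le_sup_right

theorem le_kL (K : IntermediateField k Ω) (X : List (Pt T)) : K ≤ kL K X := le_sup_left

theorem kL_le {K L : IntermediateField k Ω} {X : List (Pt T)} (h : K ≤ L)
    (h' : ∀ P ∈ X, kP k P ≤ L) : kL K X ≤ L := sup_le h (iSup₂_le h')

/-- the coordinates of a list of points -/
noncomputable def xs (X : List (Pt T)) : Fin X.length → Ω := fun i => xx (X.get i)

theorem ind_def {K : IntermediateField k Ω} {X : List (Pt T)} :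
    Ind K X ↔ AlgebraicIndependent K (xs X) := Iff.rfl

theorem range_xs (X : List (Pt T)) : Set.range (xs X) = {c | ∃ P ∈ X, xx P = c} := by
  ext c
  constructor
  · rintro ⟨i, rfl⟩
    exact ⟨_, List.get_mem X i, rfl⟩
  · rintro ⟨P, hP, rfl⟩
    obtain ⟨i, hi⟩ := List.get_of_mem hP
    exact ⟨i, by rw [xs, hi]⟩

theorem g_kP_le (hT : Tk k T) {L : IntermediateField k Ω} {P : Pt T} (h : xx P ∈ acl L) :
    kP k P ≤ acl L := (PK_iff_kP _ P).1 ((PK_iff_xx hT _ P).2 h)

theorem acl_kL (hT : Tk k T) (K : IntermediateField k Ω) (X : List (Pt T)) :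
    acl (kL K X) = acl (ad K (Set.range (xs X))) := by
  refine le_antisymm (acl_le (kL_le ((le_ad _ _).trans (le_acl _)) fun P hP => ?_))
    (acl_mono (ad_le (le_kL K X) ?_))
  · refine g_kP_le hT (le_acl _ (sub_ad _ _ ?_))
    rw [range_xs]
    exact ⟨P, hP, rfl⟩
  · rw [range_xs]
    rintro _ ⟨P, hP, rfl⟩
    exact g_kP_le_kL K hP (g_xx_mem_kP P)

theorem g_ai_append {K : IntermediateField k Ω} {X Y : List (Pt T)} :
    AlgebraicIndependent K (xs (X ++ Y)) ↔ AlgebraicIndependent K (Sum.elim (xs Y) (xs X)) := by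
  let e : Fin Y.length ⊕ Fin X.length ≃ Fin (X ++ Y).length :=
    (Equiv.sumComm _ _).trans (finSumFinEquiv.trans (finCongr List.length_append.symm))
  rw [← algebraicIndependent_equiv e]
  have h1 : xs (X ++ Y) ∘ e = Sum.elim (xs Y) (xs X) := by
    funext i
    rcases i with i | i
    · show xx ((X ++ Y).get _) = xx (Y.get i)
      congr 1
      simp [e, finSumFinEquiv]
    · show xx ((X ++ Y).get _) = xx (X.get i)
      congr 1
      simp [e, finSumFinEquiv]
  rw [h1]

theorem ind_append (hT : Tk k T) {K : IntermediateField k Ω} {X Y : List (Pt T)} :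
    Ind K (X ++ Y) ↔ Ind K X ∧ Ind (kL K X) Y := by
  rw [ind_def, g_ai_append, ai_sum, ind_def, ind_def, ai_acl_eq (acl_kL hT K X)]

theorem ind_singleton (hT : Tk k T) {K : IntermediateField k Ω} {P : Pt T} :
    Ind K [P] ↔ GenP k K P := by
  rw [genP_iff hT, ind_def]
  exact algebraicIndependent_unique_type_iff (ι := Fin 1)

theorem g_of_sub {K : IntermediateField k Ω} {X Y : List (Pt T)} (h : Ind K X)
    (hs : ∀ P ∈ X, xx P ∈ acl (ad K (Set.range (xs Y)))) (hl : Y.length ≤ X.length) :
    Ind K Y ∧ Y.length = X.length := by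
  have h1 := ai_exch (K := K) (y := xs X) (x := xs Y) h (by simpa using hl)
    (fun i => hs _ (List.get_mem X i))
  refine ⟨h1.1, ?_⟩
  simpa using h1.2

theorem ind_perm {K : IntermediateField k Ω} {X Y : List (Pt T)} (h : X.Perm Y) :
    Ind K X ↔ Ind K Y := by
  have key : ∀ {X Y : List (Pt T)}, X.Perm Y → Ind K X → Ind K Y := by
    intro X Y h hX
    refine (g_of_sub hX (fun P hP => le_acl _ (sub_ad _ _ ?_)) h.length_eq.symm.le).1
    rw [range_xs]
    exact ⟨P, h.mem_iff.1 hP, rfl⟩
  exact ⟨key h, key h.symm⟩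

theorem ind_mono {K K' : IntermediateField k Ω} (hK : K ≤ K') {X : List (Pt T)} (h : Ind K' X) :
    Ind K X := ai_mono hK h

theorem ind_acl {K : IntermediateField k Ω} {X : List (Pt T)} : Ind (acl K) X ↔ Ind K X := ai_acl

theorem small_iff {K : IntermediateField k Ω} :
    Small K ↔ ∃ S : Finset Ω, K ≤ acl (IntermediateField.adjoin k (S : Set Ω)) :=
  ⟨fun ⟨S, hS⟩ => ⟨S, fun x hx => mem_acl.2 (hS x hx)⟩,
    fun ⟨S, hS⟩ => ⟨S, fun _ hx => mem_acl.1 (hS hx)⟩⟩

theorem small_acl {K : IntermediateField k Ω} (hK : Small K) : Small (acl K) := by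
  rw [small_iff] at hK ⊢
  obtain ⟨S, hS⟩ := hK
  exact ⟨S, acl_le hS⟩

theorem small_mono {K K' : IntermediateField k Ω} (h : K ≤ K') (hK : Small K') : Small K := by
  obtain ⟨S, hS⟩ := hK
  exact ⟨S, fun x hx => hS x (h hx)⟩

theorem small_sup {K K' : IntermediateField k Ω} (hK : Small K) (hK' : Small K') :
    Small (K ⊔ K') := by
  classical
  rw [small_iff] at hK hK' ⊢
  obtain ⟨S, hS⟩ := hK
  obtain ⟨S', hS'⟩ := hK'
  refine ⟨S ∪ S', sup_le ?_ ?_⟩
  · exact hS.trans (acl_mono (IntermediateField.adjoin.mono k _ _ (by simp)))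
  · exact hS'.trans (acl_mono (IntermediateField.adjoin.mono k _ _ (by simp)))

theorem small_adjoin {S : Set Ω} (hS : S.Finite) : Small (IntermediateField.adjoin k S) := by
  rw [small_iff]
  exact ⟨hS.toFinset, by rw [Set.Finite.coe_toFinset]; exact le_acl _⟩

theorem small_ad {K : IntermediateField k Ω} (hK : Small K) {S : Set Ω} (hS : S.Finite) :
    Small (ad K S) := small_sup hK (small_adjoin hS)

theorem small_kL (hT : Tk k T) {K : IntermediateField k Ω} (hK : Small K) (X : List (Pt T)) :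
    Small (kL K X) := by
  refine small_mono (le_acl _) ?_
  rw [acl_kL hT]
  exact small_acl (small_ad hK (Set.finite_range _))

theorem small_kb (k Ω : Type) [Field k] [Field Ω] [Algebra k Ω] : Small (kbF k Ω) := by
  refine ⟨∅, fun x hx => ?_⟩
  exact (mem_algebraicClosure_iff.1 hx).tower_top _

theorem g_exists_tr (hU : Univ k Ω) {K : IntermediateField k Ω} (hK : Small K) :
    ∃ t : Ω, Transcendental K t := by
  obtain ⟨S, hS⟩ := small_iff.1 hK
  obtain ⟨t, ht⟩ := hU S
  refine ⟨t, fun h => ht ?_⟩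
  rw [← mem_acl]
  exact acl_le hS (mem_acl.2 h)

theorem g_exists_ai (hU : Univ k Ω) {K : IntermediateField k Ω} (hK : Small K) (n : ℕ) :
    ∃ f : Fin n → Ω, AlgebraicIndependent K f := by
  induction n with
  | zero => exact ⟨Fin.elim0, algebraicIndependent_empty_type_iff.2 (algebraMap K Ω).injective⟩
  | succ n ih =>
    obtain ⟨f, hf⟩ := ih
    obtain ⟨t, ht⟩ := g_exists_tr hU (small_ad hK (Set.finite_range f))
    have h1 : AlgebraicIndependent K (Sum.elim (fun _ : Fin 1 => t) f) :=
      ai_sum.2 ⟨hf, (algebraicIndependent_unique_type_iff (ι := Fin 1)).2 ht⟩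
    let e : Fin (n + 1) ≃ Fin 1 ⊕ Fin n :=
      (finCongr (Nat.add_comm n 1)).trans finSumFinEquiv.symm
    exact ⟨_, h1.comp e e.injective⟩

theorem exists_ind (hU : Univ k Ω) (T : Tab Ω d) [IsDedekindDomain (WB T)]
    {K : IntermediateField k Ω} (hK : Small K) (n : ℕ) :
    ∃ X : List (Pt T), X.length = n ∧ Ind K X := by
  obtain ⟨f, hf⟩ := g_exists_ai hU hK n
  choose P hP using exists_xx T
  refine ⟨List.ofFn fun i => P (f i), List.length_ofFn, ?_⟩
  have h1 : xs (List.ofFn fun i => P (f i)) = f ∘ finCongr List.length_ofFn := by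
    funext i
    show xx ((List.ofFn fun i => P (f i)).get i) = _
    rw [List.get_ofFn, hP]
    rfl
  rw [ind_def, h1]
  exact hf.comp _ (finCongr List.length_ofFn).injective

end

end Pool.Agent.TIFT
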