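import Mathlib
import Pool.Agent.TIFT.VM2
import Pool.Agent.TIFT.VM3
import Pool.Agent.TIFT.VM4
import Pool.Agent.TIFT.U0
import Pool.Agent.TIFT.G4
import Pool.Agent.TIFT.G7
import Pool.Agent.TIFT.G1
import Pool.Agent.TIFT.G2
import Pool.Agent.TIFT.C1
import Pool.Agent.TIFT.R
import Pool.Agent.TIFT.VE5

/-!
# [TIF, block THETA, section V] row VM5

Take independent points R : Fin L → Pt T over kbF (exists_ind hU T (small_kb k Ω) L as a list of length L; R = its get): all Al r R s are independent (sublists; IndA for the family: the family (s, t) ↦ (Al r R s).get t is R composed with an injective map Σ s, Fin _ → Fin L: AlgebraicIndependent.comp), of length >= gp: y := fun s => cl (Al r R s) is generic (genA_cl). By h0 and Sth_eq: Sth c D y ≠ 0. Dl (Al r R s) ≠ 0 (Dl_ind), ev ((D j).h s) (Al r R s) ≠ 0 (ev_ind, TD.cf_h, h ≠ 0 from (D j).hd.lc). Let Ψ P := Phi c D (fun _ => []) (Al r P) * (∏ s, Dl (Al r P s)) * ∏ j, ∏ s, ev ((D j).h s) (Al r P s): Ψ R ≠ 0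 by Sth_mul (X = [] everywhere), and Ψ is MPf ⊤ (MPf_Phi, MPf_DlA, MPf_evA, MPf.mul, MPf.prod with V = ⊤). exists_kbpt: P with Ψ P ≠ 0; Sth_mul again: Sth c D (cl (Al r P)) ≠ 0; it is in kbF: Sth * (nonzero elements of kbF) = Phi ∈ kbF (Dl_mem, ev of TD.cf_h at points over kbF).
-/

set_option autoImplicit false
set_option linter.unusedSectionVars false

open Polynomial IsLocalRing

namespace Pool.Agent.TIFT

open GT TIF

section

variable {k Ω : Type} [Field k] [Field Ω] [Algebra k Ω] [IsAlgClosed Ω] {d : ℕ} [NeZero d]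
  {T : Tab Ω d} [IsDedekindDomain (WB T)] {ρ : Type} [Fintype ρ] [DecidableEq ρ]

private theorem vm5_cf_f (j : ZMod d) : Cf (Set.range (algebraMap k Ω)) (WB.f T j) := by
  intro i n
  rw [WB.f_co]
  by_cases hj : i = j
  · rw [hj, Pi.single_eq_same, coeff_one]
    split_ifs
    · exact ⟨1, map_one _⟩
    · exact ⟨0, map_zero _⟩
  · rw [Pi.single_eq_of_ne hj, coeff_zero]
    exact ⟨0, map_zero _⟩

private theorem vm5_mem (K : IntermediateField k Ω) {P : Pt T} (hP : PK k (K : Set Ω) P)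
    {b : WB T} (hb : Cf (K : Set Ω) b) : P b ∈ K := by
  rw [← WB.sum_f b, map_sum]
  refine sum_mem fun j _ => ?_
  rw [g_P_smul]
  refine mul_mem ?_ (hP _ (vm5_cf_f j))
  rw [Polynomial.eval_eq_sum]
  exact sum_mem fun n _ => mul_mem (hb j n) (pow_mem (hP _ g_cf_x) n)

private theorem vm5_ev (K : IntermediateField k Ω) {X : List (Pt T)}
    (hX : ∀ P ∈ X, PK k (K : Set Ω) P) {b : WB T} (hb : Cf (K : Set Ω) b) : ev b X ∈ K := by
  refine list_prod_mem fun c hc => ?_
  obtain ⟨P, hP, rfl⟩ := List.mem_map.1 hc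
  exact vm5_mem K (hX P hP) hb

private theorem vm5_indA {K : IntermediateField k Ω} {L : ℕ} {R : Fin L → Pt T}
    (hR : AlgebraicIndependent K fun i => xx (R i)) (r : Fin L → ρ) : IndA K (Al r R) := by
  have hlen : ∀ s, (Al r R s).length = ((List.finRange L).filter fun i => r i = s).length :=
    fun s => List.length_map _
  let g : (Σ s, Fin (Al r R s).length) → Fin L := fun p =>
    ((List.finRange L).filter fun i => r i = p.1).get (p.2.cast (hlen p.1))
  have hrg : ∀ p, r (g p) = p.1 := by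
    intro p
    have h1 := List.get_mem ((List.finRange L).filter fun i => r i = p.1) (p.2.cast (hlen p.1))
    rw [List.mem_filter] at h1
    exact of_decide_eq_true h1.2
  have hg : Function.Injective g := by
    rintro ⟨s, t⟩ ⟨s', t'⟩ h
    have e3 : s = s' := by
      have e1 := hrg ⟨s, t⟩
      have e2 := hrg ⟨s', t'⟩
      rw [h] at e1
      exact e1.symm.trans e2
    subst e3
    have hn : ((List.finRange L).filter fun i => r i = s).Nodup := (List.nodup_finRange L).filter _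
    have e4 := (List.nodup_iff_injective_get.1 hn) h
    have e6 : (Fin.cast (hlen s) t).val = (Fin.cast (hlen s) t').val := congrArg Fin.val e4
    have e5 : t = t' := Fin.ext e6
    rw [e5]
  have e : (fun p : Σ s, Fin (Al r R s).length => xx ((Al r R p.1).get p.2)) =
      (fun i => xx (R i)) ∘ g := by
    funext p
    show xx ((Al r R p.1).get p.2) = xx (R (g p))
    congr 1
    exact List.getElem_map R
  show AlgebraicIndependent K (fun p : Σ s, Fin (Al r R s).length => xx ((Al r R p.1).get p.2))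
  rw [e]
  exact hR.comp g hg

private theorem vm5_h_ne {K : IntermediateField k Ω} {m : ℕ} (D : TD k T ρ K m) (s : ρ) :
    D.h s ≠ 0 := by
  intro h0
  have h1 : (∏ i, dI (D.B s i)) = ⊥ := by
    rw [← (D.hd s).div, h0, Ideal.span_singleton_eq_bot]
  rw [← Ideal.zero_eq_bot, Finset.prod_eq_zero_iff] at h1
  obtain ⟨i, -, hi⟩ := h1
  exact dI_ne_bot _ hi

theorem exists_kbY (hU : Univ k Ω) (hT : Tk k T) {m J L : ℕ} (c : Fin J → kbF k Ω)
    (D : Fin J → TD k T ρ (kbF k Ω) m)
    (h0 : ∀ y : ρ → ClassGroup (WB T), GenA (kbF k Ω) y → Sth c D y ≠ 0) (r : Fin L → ρ)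
    (hr : ∀ s, gp T ≤ (Finset.univ.filter fun i => r i = s).card) :
    ∃ P : Fin L → Pt T, (∀ i, PK k (kbF k Ω : Set Ω) (P i)) ∧ (∀ s, Dl (Al r P s) ≠ 0) ∧
      Sth c D (fun s => cl (Al r P s)) ≠ 0 ∧ Sth c D (fun s => cl (Al r P s)) ∈ kbF k Ω := by
  obtain ⟨X, rfl, hX⟩ := exists_ind hU T (small_kb k Ω) L
  have hI : IndA (kbF k Ω) (Al r X.get) := vm5_indA hX r
  have hgl : ∀ P : Fin X.length → Pt T, ∀ s, gp T ≤ (([] : List (Pt T)) ++ Al r P s).length := by
    intro P s
    rw [List.nil_append, length_Al]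
    exact hr s
  have hgen : GenA (kbF k Ω) (fun s => cl (Al r X.get s)) :=
    genA_cl hU hT (small_kb k Ω) hI (hgl X.get)
  have hS := h0 _ hgen
  have hDl : ∀ s, Dl (Al r X.get s) ≠ 0 := fun s => Dl_ind hT (hI.ind s)
  have hev : ∀ j s, ev ((D j).h s) (Al r X.get s) ≠ 0 := fun j s =>
    ev_ind hT (hI.ind s) (TD.cf_h hT (D j) s) (vm5_h_ne (D j) s)
  have hnil : ∀ j s, ev ((D j).h s) ([] : List (Pt T)) = 1 := fun j s => rfl
  have hmul : ∀ P : Fin X.length → Pt T, (∀ s, Dl (Al r P s) ≠ 0) →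
      (∀ j s, ev ((D j).h s) (Al r P s) ≠ 0) →
      Sth c D (fun s => cl (Al r P s)) * (∏ s, Dl (Al r P s)) ^ m *
        ∏ j, ∏ s, ev ((D j).h s) (Al r P s) = Phi c D (fun _ => []) (Al r P) := by
    intro P h1 h2
    exact Sth_mul c D (fun _ => []) (Al r P) (hgl P) h1
      (fun j s => by rw [hnil]; exact one_ne_zero) h2
  have hVt : ∀ x : k, algebraMap k Ω x ∈ (⊤ : ValuationSubring Ω) :=
    fun _ => ValuationSubring.mem_top _
  have hΨ : MPf (⊤ : ValuationSubring Ω) (fun P : Fin X.length → Pt T =>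
      Phi c D (fun _ => []) (Al r P) * (∏ s, Dl (Al r P s)) *
        ∏ j, ∏ s, ev ((D j).h s) (Al r P s)) := by
    refine MPf.mul hT hVt (MPf.mul hT hVt ?_ ?_) ?_
    · refine MPf_Phi hT (K := kbF k Ω) (fun _ _ => ValuationSubring.mem_top _) c D (X := fun _ => [])
        (fun s P hP => absurd hP List.not_mem_nil) (fun j s => ?_) r
      rw [hnil, map_one]
    · exact MPf.prod hT hVt _ fun s _ => MPf_DlA hT hVt r s
    · exact MPf.prod hT hVt _ fun j _ => MPf.prod hT hVt _ fun s _ =>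
        MPf_evA hT hVt (fun _ _ => ValuationSubring.mem_top _) r s
  have hR0 : Phi c D (fun _ => []) (Al r X.get) * (∏ s, Dl (Al r X.get s)) *
      ∏ j, ∏ s, ev ((D j).h s) (Al r X.get s) ≠ 0 := by
    have hp1 : ∏ s, Dl (Al r X.get s) ≠ 0 := Finset.prod_ne_zero_iff.2 fun s _ => hDl s
    have hp2 : ∏ j, ∏ s, ev ((D j).h s) (Al r X.get s) ≠ 0 :=
      Finset.prod_ne_zero_iff.2 fun j _ => Finset.prod_ne_zero_iff.2 fun s _ => hev j s
    refine mul_ne_zero (mul_ne_zero ?_ hp1) hp2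
    rw [← hmul X.get hDl hev]
    exact mul_ne_zero (mul_ne_zero hS (pow_ne_zero _ hp1)) hp2
  obtain ⟨P, hP, hPsi⟩ := exists_kbpt hT hΨ hR0
  have hPhi := left_ne_zero_of_mul (left_ne_zero_of_mul hPsi)
  have hq1 := right_ne_zero_of_mul (left_ne_zero_of_mul hPsi)
  have hq2 := right_ne_zero_of_mul hPsi
  have hD1 : ∀ s, Dl (Al r P s) ≠ 0 := fun s => Finset.prod_ne_zero_iff.1 hq1 s (Finset.mem_univ _)
  have hE1 : ∀ j s, ev ((D j).h s) (Al r P s) ≠ 0 := fun j s =>
    Finset.prod_ne_zero_iff.1 (Finset.prod_ne_zero_iff.1 hq2 j (Finset.mem_univ _)) s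
      (Finset.mem_univ _)
  have hPA : ∀ s, ∀ Q ∈ Al r P s, PK k (kbF k Ω : Set Ω) Q := by
    intro s Q hQ
    obtain ⟨i, -, rfl⟩ := mem_Al.1 hQ
    exact hP i
  have hm := hmul P hD1 hE1
  refine ⟨P, hP, hD1, ?_, ?_⟩
  · intro h1
    rw [h1, zero_mul, zero_mul] at hm
    exact hPhi hm.symm
  · have hDm : ∀ s, Dl (Al r P s) ∈ kbF k Ω := fun s => Dl_mem hT (kbF k Ω) (hPA s)
    have hEm : ∀ j s, ev ((D j).h s) (Al r P s) ∈ kbF k Ω := fun j s =>
      vm5_ev (kbF k Ω) (hPA s) (TD.cf_h hT (D j) s)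
    have hphi : Phi c D (fun _ => []) (Al r P) ∈ kbF k Ω := by
      refine sum_mem fun j _ => mul_mem (mul_mem (c j).2 (prod_mem fun s _ => ?_)) (prod_mem fun j' _ =>
        prod_mem fun s _ => hEm j' s)
      refine div_mem (prod_mem fun i _ => Dl_mem hT (kbF k Ω) ?_) ?_
      · intro Q hQ
        rcases List.mem_append.1 hQ with h | h
        · rcases List.mem_append.1 h with h | h
          · exact (D j).pk s i Q h
          · exact absurd h List.not_mem_nil
        · exact hPA s Q h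
      · rw [hnil]
        exact one_mem _
    have e1 : Sth c D (fun s => cl (Al r P s)) = Phi c D (fun _ => []) (Al r P) /
        ((∏ s, Dl (Al r P s)) ^ m * ∏ j, ∏ s, ev ((D j).h s) (Al r P s)) := by
      rw [eq_div_iff (mul_ne_zero (pow_ne_zero _ hq1) hq2), ← mul_assoc]
      exact hm
    rw [e1]
    exact div_mem hphi (mul_mem (pow_mem (prod_mem fun s _ => hDm s) _)
      (prod_mem fun j _ => prod_mem fun s _ => hEm j s))

end

end Pool.Agent.TIFT
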