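import Mathlib
import Pool.Agent.TIFT.VM3
import Pool.Agent.TIFT.VM5
import Pool.Agent.TIFT.VG1
import Pool.Agent.TIFT.VE3
import Pool.Agent.TIFT.VE5
import Pool.Agent.TIFT.VF1
import Pool.Agent.TIFT.C2
import Pool.Agent.TIFT.R

/-!
# [TIF, block THETA, section V] row VM6

exists_kbY: Y, lists Al r Y s over kbF, Dl ≠ 0. For every s: exists_good for the class cl (Al r Y s) * (cl (X s))⁻¹, n = card {i | r i = s} >= nT T, S := X s ++ all points of the (D j).B s i (finite: Finset.univ.toList.flatMap or List.ofFn .. flatten): R₀ s. exists_Al: R with Al r R s = R₀ s. X s ++ R₀ s is Good (List.pairwise_append, cg_symm), class cl (Al r Y s), length >= gp; V.valuation (Dl (X s ++ R₀ s)) = tV k V (cl (Al r Y s)) = 1 (tV_eq, tV_kb; cl_mem_JK; Ns by Dl_ne_zero_iff). hd_int: V.valuation (ev ((D j).h s) (R₀ s)) = 1 and V.valuation (ev ((D j).h s) (X s)) = 1 (hXB). Sth_mul with A = Al r R: Phi c D X (Al r R) = Sth c D (fun s => cl (X s ++ R₀ s))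 * .. , and cl (X s ++ R₀ s) = cl (Al r Y s), V.valuation (Sth c D ..) = 1 (kb_val).
-/

set_option autoImplicit false
set_option linter.unusedSectionVars false

open Polynomial IsLocalRing

namespace Pool.Agent.TIFT

open GT TIF

section

variable {k Ω : Type} [Field k] [Field Ω] [Algebra k Ω] [IsAlgClosed Ω] {d : ℕ} [NeZero d]
  {T : Tab Ω d} [IsDedekindDomain (WB T)] {ρ : Type} [Fintype ρ] [DecidableEq ρ]

private theorem vm6_ev {V : ValuationSubring Ω} (l : List (Pt T)) (b : WB T)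
    (h : ∀ P ∈ l, V.valuation (P b) = 1) : V.valuation (ev b l) = 1 := by
  induction l with
  | nil => rw [ev, List.map_nil, List.prod_nil, map_one]
  | cons P l ih =>
    rw [ev, List.map_cons, List.prod_cons, map_mul, h P (List.mem_cons_self ..), one_mul]
    exact ih fun Q hQ => h Q (List.mem_cons_of_mem _ hQ)

theorem exists_R (hU : Univ k Ω) (hT : Tk k T) {V : ValuationSubring Ω}
    (hV : ∀ c ∈ kbF k Ω, c ∈ V) {m J L : ℕ} (c : Fin J → kbF k Ω)
    (D : Fin J → TD k T ρ (kbF k Ω) m)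
    (h0 : ∀ y : ρ → ClassGroup (WB T), GenA (kbF k Ω) y → Sth c D y ≠ 0) (r : Fin L → ρ)
    (hr : ∀ s, nT T ≤ (Finset.univ.filter fun i => r i = s).card)
    {X : ρ → List (Pt T)} (hX : ∀ s, Good k V (X s))
    (hXB : ∀ j s i, ∀ P ∈ X s, ∀ Q ∈ (D j).B s i, ¬ Cg k V P Q) :
    (∀ j s, V.valuation (ev ((D j).h s) (X s)) = 1) ∧
    ∃ R : Fin L → Pt T, (∀ i, xx (R i) ∈ V) ∧ V.valuation (Phi c D X (Al r R)) = 1 := by
  classical
  have hk := kb_le k hV
  have hfin : ∀ j s i, ∀ P ∈ (D j).B s i, xx P ∈ V := fun j s i P hP =>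
    hV _ (PK_xx ((D j).pk s i P hP))
  have hint := fun j s => hd_int hT hk ((D j).hd s) (hfin j s)
  have hevX : ∀ j s, V.valuation (ev ((D j).h s) (X s)) = 1 := fun j s =>
    vm6_ev (X s) _ fun P hP =>
      (hint j s).2 P ((hX s).fin P hP) fun i Q hQ => hXB j s i P hP Q hQ
  refine ⟨hevX, ?_⟩
  have hgp : gp T ≤ nT T := by unfold nT; omega
  obtain ⟨Y, hY, hYD, hYS, hYS'⟩ := exists_kbY hU hT c D h0 r fun s => hgp.trans (hr s)
  obtain ⟨S, hSX, hSB⟩ : ∃ S : ρ → List (Pt T), (∀ s, ∀ Q ∈ X s, Q ∈ S s) ∧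
      ∀ s j i, ∀ Q ∈ (D j).B s i, Q ∈ S s := by
    refine ⟨fun s => X s ++ (List.ofFn fun j => (List.ofFn fun i => (D j).B s i).flatten).flatten,
      fun s Q hQ => List.mem_append_left _ hQ, fun s j i Q hQ => List.mem_append_right _ ?_⟩
    exact List.mem_flatten.2 ⟨_, (List.mem_ofFn' _ _).2 ⟨j, rfl⟩,
      List.mem_flatten.2 ⟨_, (List.mem_ofFn' _ _).2 ⟨i, rfl⟩, hQ⟩⟩
  have hex : ∀ s, ∃ R : List (Pt T), Good k V R ∧ (∀ P ∈ R, ∀ Q ∈ S s, ¬ Cg k V P Q) ∧
      cl R = cl (Al r Y s) * (cl (X s))⁻¹ ∧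
      R.length = (Finset.univ.filter fun i => r i = s).card := fun s =>
    exists_good hT hk _ _ (hr s)
  choose R₀ hR1 hR2 hR3 hR4 using hex
  obtain ⟨R, hR, hR'⟩ := exists_Al r R₀ hR4
  refine ⟨R, fun i => (hR1 (r i)).fin _ (hR' i), ?_⟩
  have hgood : ∀ s, Good k V (X s ++ R₀ s) := fun s => by
    refine ⟨fun P hP => ?_, List.pairwise_append.2 ⟨(hX s).dif, (hR1 s).dif, ?_⟩⟩
    · rcases List.mem_append.1 hP with h | h
      · exact (hX s).fin P h
      · exact (hR1 s).fin P h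
    · exact fun P hP Q hQ h => hR2 s Q hQ P (hSX s P hP) (cg_symm h)
  have hcl : ∀ s, cl (X s ++ R₀ s) = cl (Al r Y s) := fun s => by
    rw [cl_append, hR3, mul_comm (cl (Al r Y s)), mul_inv_cancel_left]
  have hlen : ∀ s, gp T ≤ (X s ++ R₀ s).length := fun s => by
    rw [List.length_append, hR4]
    exact (hgp.trans (hr s)).trans (Nat.le_add_left _ _)
  have hNs : ∀ s, Ns (cl (Al r Y s)) := fun s =>
    ((Dl_ne_zero_iff (by rw [length_Al]; exact hgp.trans (hr s))).1 (hYD s)).2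
  have hval : ∀ s, V.valuation (Dl (X s ++ R₀ s)) = 1 := fun s => by
    rw [← tV_eq hT hk (hgood s) (hlen s), hcl]
    refine tV_kb hT hV (cl_mem_JK hT _ fun P hP => ?_) (hNs s)
    obtain ⟨i, -, rfl⟩ := mem_Al.1 hP
    exact hY i
  have hne : ∀ c : Ω, V.valuation c = 1 → c ≠ 0 := fun c hc h => by
    rw [h, map_zero] at hc
    exact zero_ne_one hc
  have hevR : ∀ j s, V.valuation (ev ((D j).h s) (R₀ s)) = 1 := fun j s =>
    vm6_ev (R₀ s) _ fun P hP =>
      (hint j s).2 P ((hR1 s).fin P hP) fun i Q hQ => hR2 s P hP Q (hSB s j i Q hQ)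
  have hm := Sth_mul c D X (Al r R) (fun s => by rw [hR]; exact hlen s)
    (fun s => by rw [hR]; exact hne _ (hval s)) (fun j s => hne _ (hevX j s))
    (fun j s => by rw [hR]; exact hne _ (hevR j s))
  have hS1 : (fun s => cl (X s ++ Al r R s)) = fun s => cl (Al r Y s) :=
    funext fun s => by rw [hR, hcl]
  rw [← hm, hS1, map_mul, map_mul, kb_val hV hYS' hYS, map_pow, map_prod, map_prod, one_mul]
  rw [Finset.prod_eq_one fun s _ => by rw [hR, hval], one_pow, one_mul]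
  exact Finset.prod_eq_one fun j _ => by
    rw [map_prod]
    exact Finset.prod_eq_one fun s _ => by rw [hR, hevR]

end

end Pool.Agent.TIFT
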