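import Mathlib
import Pool.Agent.TIFT.VM2
import Pool.Agent.TIFT.VM3
import Pool.Agent.TIFT.VM4
import Pool.Agent.TIFT.VM6
import Pool.Agent.TIFT.VG2
import Pool.Agent.TIFT.G7
import Pool.Agent.TIFT.U7
import Pool.Agent.TIFT.VE3
import Pool.Agent.TIFT.VE5
import Pool.Agent.TIFT.VF1
import Pool.Agent.TIFT.C2
import Pool.Agent.TIFT.R

/-!
# [TIF, block THETA, section V] row VM7

HH_sum: F = ∑ c j • tmf (D j); zero_HH (and HH membership) + Sth_eq: Sth c D y ≠ 0 for all generic y (F ≠ 0). For every s: exists_tV for x s, S := all points of the (D j).B s i: X s Good, class x s, >= gp points. exists_R, MPf_Phi, chain: Q₀. Q l := Q₀ l ∧ l.Nodup ∧ ∀ P ∈ l, (∀ j s i, P ∉ (D j).B s i) ∧ ∀ s, ∀ Q ∈ X s, ¬ Cg k V P Q. Exceptional P for l: those of Q₀, those in l, in some B, congruent to a point of some X s (finite_cg). End: P : Fin L → Pt T over kbF with Q (ofFn P): P injective (List.nodup_ofFn). A := Al r P. X s ++ A s is Good (good_kb for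 A s, nodup_Al; mixed pairs), x * ∏ mulSingle = fun s => cl (X s ++ A s) (cl_Al, cl_append), generic by genA_mul hU hT (small_kb k Ω) hx (cl (A s) ∈ JK kbF ⊆ JK (acl kbF): cl_mem_JK, JK_mono), so Ns (gen_Ns) and Dl (X s ++ A s) ≠ 0. ev ((D j).h s) (A s) ∈ kbF, ≠ 0 (TD.ev_ne), valuation 1 (kb_val). Sth_mul: V.valuation (F (..)) * (∏ s, V.valuation (Dl (X s ++ A s))) ^ m * 1 = V.valuation (Phi c D X A) = 1, and tA = ∏ s, V.valuation (Dl (X s ++ A s)) (tV_eq).
-/

set_option autoImplicit false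
set_option linter.unusedSectionVars false

open Polynomial IsLocalRing

namespace Pool.Agent.TIFT

open GT TIF

section

variable {k Ω : Type} [Field k] [Field Ω] [Algebra k Ω] [IsAlgClosed Ω] {d : ℕ} [NeZero d]
  {T : Tab Ω d} [IsDedekindDomain (WB T)] {ρ : Type} [Fintype ρ]

private theorem vm7_ev {V : ValuationSubring Ω} (l : List (Pt T)) (b : WB T)
    (h : ∀ P ∈ l, V.valuation (P b) = 1) : V.valuation (ev b l) = 1 := by
  induction l with
  | nil => rw [ev, List.map_nil, List.prod_nil, map_one]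
  | cons P l ih =>
    rw [ev, List.map_cons, List.prod_cons, map_mul, h P (List.mem_cons_self ..), one_mul]
    exact ih fun Q hQ => h Q (List.mem_cons_of_mem _ hQ)

theorem dens [DecidableEq ρ] (hU : Univ k Ω) (hT : Tk k T) {V : ValuationSubring Ω}
    (hV : ∀ c ∈ kbF k Ω, c ∈ V) {m : ℕ} {F : (ρ → ClassGroup (WB T)) → Ω}
    (hF : F ∈ HH T ρ (kbF k Ω) m) (h0 : F ≠ 0) {x : ρ → ClassGroup (WB T)}
    (hx : GenA (kbF k Ω) x) {L : ℕ} (r : Fin L → ρ)
    (hr : ∀ s, nT T ≤ (Finset.univ.filter fun i => r i = s).card) :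
    ∃ Q : List (Pt T) → Prop, Q [] ∧
      (∀ l : List (Pt T), l.length < L → Q l →
        {P : Pt T | PK k (kbF k Ω : Set Ω) P ∧ ¬ Q (l ++ [P])}.Finite) ∧
      ∀ P : Fin L → Pt T, (∀ i, PK k (kbF k Ω : Set Ω) (P i)) → Q (List.ofFn P) →
        V.valuation (F (x * ∏ i, Pi.mulSingle (r i) (iot (P i)))) *
          tA k V (x * ∏ i, Pi.mulSingle (r i) (iot (P i))) ^ m = 1 := by
  classical
  have hk := kb_le k hV
  obtain ⟨J, c, D, hFD⟩ := HH_sum hF
  have hSth : ∀ y : ρ → ClassGroup (WB T), GenA (kbF k Ω) y → Sth c D y ≠ 0 := by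
    intro y hy h
    rw [← Sth_eq c D hy, ← hFD] at h
    exact h0 (zero_HH hU hT (small_kb k Ω) hF hy h)
  have hfin : ∀ j s i, ∀ P ∈ (D j).B s i, xx P ∈ V := fun j s i P hP =>
    hV _ (PK_xx ((D j).pk s i P hP))
  obtain ⟨S, hSB⟩ : ∃ S : ρ → List (Pt T), ∀ s j i, ∀ Q ∈ (D j).B s i, Q ∈ S s := by
    refine ⟨fun s => (List.ofFn fun j => (List.ofFn fun i => (D j).B s i).flatten).flatten,
      fun s j i Q hQ => ?_⟩
    exact List.mem_flatten.2 ⟨_, (List.mem_ofFn' _ _).2 ⟨j, rfl⟩,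
      List.mem_flatten.2 ⟨_, (List.mem_ofFn' _ _).2 ⟨i, rfl⟩, hQ⟩⟩
  have hex : ∀ s, ∃ X : List (Pt T), Good k V X ∧ (∀ P ∈ X, ∀ Q ∈ S s, ¬ Cg k V P Q) ∧
      cl X = x s ∧ gp T ≤ X.length ∧ tV k V (x s) = V.valuation (Dl X) := fun s =>
    exists_tV hT hk _ _
  choose X hX1 hX2 hX3 hX4 hX5 using hex
  obtain ⟨hevX, R, hR, hRv⟩ := exists_R hU hT hV c D hSth r hr hX1
    (fun j s i P hP Q hQ => hX2 s P hP Q (hSB s j i Q hQ))
  obtain ⟨Q₀, hQ1, hQ2, hQ3⟩ := chain hT hV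
    (MPf_Phi hT hV c D (fun s => (hX1 s).fin) hevX r) hR hRv
  refine ⟨fun l => Q₀ l ∧ l.Nodup ∧ ∀ P ∈ l, (∀ j s i, P ∉ (D j).B s i) ∧
    ∀ s, ∀ Q ∈ X s, ¬ Cg k V P Q, ⟨hQ1, List.nodup_nil, fun P hP => by simp at hP⟩, ?_, ?_⟩
  · rintro l hl ⟨h1, h2, h3⟩
    have hf1 := hQ2 l hl h1
    have hf2 : {P | P ∈ l}.Finite := List.finite_toSet l
    have hf3 : ({P | ∃ j s i, P ∈ (D j).B s i} : Set (Pt T)).Finite := by
      have : ({P | ∃ j s i, P ∈ (D j).B s i} : Set (Pt T)) =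
          ⋃ j, ⋃ s, ⋃ i, {P | P ∈ (D j).B s i} := by
        ext P
        simp only [Set.mem_ofPred_eq, Set.mem_iUnion]
      rw [this]
      exact Set.finite_iUnion fun j => Set.finite_iUnion fun s => Set.finite_iUnion fun i =>
        List.finite_toSet _
    have hf4 : ({P | ∃ s, PK k (kbF k Ω : Set Ω) P ∧ ∃ Q ∈ X s, Cg k V P Q} :
        Set (Pt T)).Finite := by
      have : ({P | ∃ s, PK k (kbF k Ω : Set Ω) P ∧ ∃ Q ∈ X s, Cg k V P Q} : Set (Pt T)) =
          ⋃ s, {P | PK k (kbF k Ω : Set Ω) P ∧ ∃ Q ∈ X s, Cg k V P Q} := by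
        ext P
        simp only [Set.mem_ofPred_eq, Set.mem_iUnion]
      rw [this]
      exact Set.finite_iUnion fun s => finite_cg hV (X s)
    refine (((hf1.union hf2).union hf3).union hf4).subset ?_
    rintro P ⟨hP, hP'⟩
    by_contra hc
    simp only [Set.mem_union, not_or] at hc
    obtain ⟨⟨⟨c1, c2⟩, c3⟩, c4⟩ := hc
    refine hP' ⟨by_contra fun h => c1 ⟨hP, h⟩, ?_, ?_⟩
    · refine List.nodup_append.2 ⟨h2, List.nodup_singleton _, fun a ha b hb => ?_⟩
      rw [List.mem_singleton] at hb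
      subst hb
      rintro rfl
      exact c2 ha
    · intro P' hP''
      rcases List.mem_append.1 hP'' with h | h
      · exact h3 P' h
      · rw [List.mem_singleton] at h
        subst h
        exact ⟨fun j s i h => c3 ⟨j, s, i, h⟩, fun s Q hQ h => c4 ⟨s, hP, Q, hQ, h⟩⟩
  · rintro P hP ⟨h1, h2, h3⟩
    have hinj : Function.Injective P := List.nodup_ofFn.1 h2
    have hval := hQ3 P h1
    have hkA : ∀ s, ∀ Q ∈ Al r P s, PK k (kbF k Ω : Set Ω) Q := by
      intro s Q hQ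
      obtain ⟨i, -, rfl⟩ := mem_Al.1 hQ
      exact hP i
    have hmA : ∀ s, ∀ Q ∈ Al r P s, Q ∈ List.ofFn P := by
      intro s Q hQ
      obtain ⟨i, -, rfl⟩ := mem_Al.1 hQ
      exact (List.mem_ofFn' _ _).2 ⟨i, rfl⟩
    have hA : ∀ s, Good k V (Al r P s) := fun s => good_kb hV (hkA s) (nodup_Al r hinj s)
    have hXA : ∀ s, Good k V (X s ++ Al r P s) := fun s => by
      refine ⟨fun Q hQ => ?_, List.pairwise_append.2 ⟨(hX1 s).dif, (hA s).dif, ?_⟩⟩
      · rcases List.mem_append.1 hQ with h | h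
        · exact (hX1 s).fin Q h
        · exact (hA s).fin Q h
      · exact fun Q hQ Q' hQ' h => (h3 Q' (hmA s Q' hQ')).2 s Q hQ (cg_symm h)
    have hcl : x * ∏ i, Pi.mulSingle (r i) (iot (P i)) = fun s => cl (X s ++ Al r P s) := by
      rw [cl_Al]
      funext s
      rw [Pi.mul_apply, cl_append, hX3]
    have hgen : GenA (kbF k Ω) (fun s => cl (X s ++ Al r P s)) := by
      rw [← hcl, cl_Al]
      exact genA_mul hU hT (small_kb k Ω) hx fun s =>
        JK_mono (fun c hc => le_acl _ hc) (cl_mem_JK hT _ (hkA s))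
    have hlen : ∀ s, gp T ≤ (X s ++ Al r P s).length := fun s => by
      rw [List.length_append]
      exact (hX4 s).trans (Nat.le_add_right _ _)
    have hD : ∀ s, Dl (X s ++ Al r P s) ≠ 0 := fun s =>
      (Dl_ne_zero_iff (hlen s)).2 ⟨(hXA s).nodup, gen_Ns hT hgen s⟩
    have hne : ∀ c : Ω, V.valuation c = 1 → c ≠ 0 := fun c hc h => by
      rw [h, map_zero] at hc
      exact zero_ne_one hc
    have hevA : ∀ j s, V.valuation (ev ((D j).h s) (Al r P s)) = 1 := fun j s =>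
      vm7_ev _ _ fun Q hQ => (hd_int hT hk ((D j).hd s) (hfin j s)).2 Q ((hA s).fin Q hQ)
        fun i Q' hQ' h => by
          have := cg_kb hV (hkA s Q hQ) ((D j).pk s i Q' hQ') h
          subst this
          exact (h3 Q (hmA s Q hQ)).1 j s i hQ'
    have hm := Sth_mul c D X (Al r P) hlen hD (fun j s => hne _ (hevX j s))
      (fun j s => hne _ (hevA j s))
    have htA : tA k V (fun s => cl (X s ++ Al r P s)) =
        ∏ s, V.valuation (Dl (X s ++ Al r P s)) := by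
      unfold tA
      exact Finset.prod_congr rfl fun s _ => tV_eq hT hk (hXA s) (hlen s)
    have hev1 : V.valuation (∏ j, ∏ s, ev ((D j).h s) (Al r P s)) = 1 := by
      rw [map_prod]
      exact Finset.prod_eq_one fun j _ => by
        rw [map_prod]
        exact Finset.prod_eq_one fun s _ => hevA j s
    rw [hcl, hFD, Sth_eq c D hgen, htA]
    rw [← hm, map_mul, map_mul, hev1, mul_one, map_pow, map_prod] at hval
    exact hval

end

end Pool.Agent.TIFT
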