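import Mathlib
import Pool.Agent.TIFT.VM7
import Pool.Agent.TIFT.G1
import Pool.Agent.TIFT.R

/-!
# [TIF, block PIG] base points (BPF)

`bpf`: for `F ∈ HH m`, `F ≠ 0`, a valuation ring `V ⊇ kbF` and a generic class `x` there are `d` points
`a_1, .., a_d` over `kbF` with product `1` such that `V(F (x a_j)) Θ(x a_j)^m = 1` for all `j`: `dens` for the
points of the fibres of the coordinate `x` over elements of `kbF`.
-/

set_option autoImplicit false
set_option linter.unusedSectionVars false

open IsLocalRing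

namespace Pool.Agent.TIFT

open GT TIF

section

variable {k Ω : Type} [Field k] [Field Ω] [Algebra k Ω] [IsAlgClosed Ω] {d : ℕ} [NeZero d]
  {T : Tab Ω d} [IsDedekindDomain (WB T)] {ρ : Type} [Fintype ρ]

private theorem bpf_iot (P : Pt T) : cl [P] = iot P := by
  rw [cl, dI, List.map_cons, List.map_nil, List.prod_cons, List.prod_nil, mul_one]
  rfl

private theorem bpf_cl (L : List (Pt T)) : (L.map iot).prod = cl L := by
  induction L with
  | nil =>
    rw [List.map_nil, List.prod_nil, cl, dI_nil]
    symm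
    have h : (⊤ : Ideal (WB T)) = Ideal.span {(1 : WB T)} := by
      rw [Ideal.span_singleton_one]
    rw [h]
    exact cls_span one_ne_zero
  | cons P L ih =>
    rw [List.map_cons, List.prod_cons, ih, ← bpf_iot, ← cl_append]
    rfl

/-- the fibre of the coordinate `x` over `t` -/
theorem bpf_fib (T : Tab Ω d) [IsDedekindDomain (WB T)] (t : Ω) :
    ∃ X : Fin d → Pt T, (∀ j, xx (X j) = t) ∧ ∏ j, iot (X j) = 1 := by
  obtain ⟨b, hb⟩ : ∃ b : WB T, b = algebraMap (Polynomial Ω) (WB T)
    (Polynomial.X - Polynomial.C t) := ⟨_, rfl⟩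
  have hp : pord b = d := by
    rw [hb, pord_algebraMap, Polynomial.natDegree_X_sub_C, mul_one]
  have hb0 : b ≠ 0 := by
    rw [hb, Ne, map_eq_zero_iff _ WB.algebraMap_injective]
    exact Polynomial.X_sub_C_ne_zero t
  obtain ⟨L, hL⟩ := exists_dI (I := Ideal.span {b}) (by rwa [Ne, Ideal.span_singleton_eq_bot])
  have hlen : L.length = d := by rw [span_eq_dI_length hb0 hL.symm, hp]
  have hx : ∀ P ∈ L, xx P = t := fun P hP => by
    have h1 : dI L ≤ mP P := dI_le_mP.2 hP
    rw [hL, Ideal.span_singleton_le_iff_mem] at h1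
    have h2 : P b = 0 := h1
    rw [hb, Algebra.algebraMap_eq_smul_one, g_P_smul, map_one, mul_one, Polynomial.eval_sub,
      Polynomial.eval_X, Polynomial.eval_C, sub_eq_zero] at h2
    exact h2
  have hc : cl L = 1 := by
    rw [cl, hL]
    exact cls_span hb0
  refine ⟨fun j => L.get (j.cast hlen.symm), fun j => hx _ (List.get_mem L _), ?_⟩
  rw [← hc, ← bpf_cl, ← Fin.prod_univ_fun_getElem L iot]
  exact Fintype.prod_equiv (finCongr hlen.symm) _ _ fun j => rfl

theorem bpf (hU : Univ k Ω) (hT : Tk k T) {m : ℕ} {F : (ρ → ClassGroup (WB T)) → Ω}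
    (hF : F ∈ HH T ρ (kbF k Ω) m) (h0 : F ≠ 0) {V : ValuationSubring Ω}
    (hV : ∀ c ∈ kbF k Ω, c ∈ V) {x : ρ → ClassGroup (WB T)} (hx : GenA (kbF k Ω) x) :
    ∃ a : Fin d → ρ → ClassGroup (WB T), (∀ j i, a j i ∈ JK (T := T) (kbF k Ω : Set Ω)) ∧
      ∏ j, a j = 1 ∧ ∀ j, V.valuation (F (x * a j)) * tA k V (x * a j) ^ m = 1 := by
  classical
  -- the coordinates: `nT T` points for each
  obtain ⟨L, r, hr⟩ : ∃ (L : ℕ) (r : Fin L → ρ),
      ∀ s, nT T ≤ (Finset.univ.filter fun i => r i = s).card := by
    refine ⟨Fintype.card (ρ × Fin (nT T)), fun i => ((Fintype.equivFin _).symm i).1, fun s => ?_⟩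
    have h1 : (Finset.univ.filter fun i => ((Fintype.equivFin (ρ × Fin (nT T))).symm i).1 = s).card
        = (Finset.univ.filter fun p : ρ × Fin (nT T) => p.1 = s).card := by
      refine Finset.card_equiv (Fintype.equivFin (ρ × Fin (nT T))).symm fun i => ?_
      simp
    rw [h1]
    have h2 : (Finset.univ.image fun t : Fin (nT T) => (s, t)) ⊆
        Finset.univ.filter fun p : ρ × Fin (nT T) => p.1 = s := by
      intro p hp
      obtain ⟨t, -, rfl⟩ := Finset.mem_image.1 hp
      simp
    have h3 := Finset.card_le_card h2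
    rwa [Finset.card_image_of_injective _ (fun t t' h => (Prod.mk.inj h).2), Finset.card_univ,
      Fintype.card_fin] at h3
  obtain ⟨Q, hQ1, hQ2, hQ3⟩ := dens hU hT hV hF h0 hx r hr
  obtain ⟨P₀, -⟩ := exists_xx T (0 : Ω)
  have hac : IsAlgClosed (kbF k Ω) := IsAlgClosure.isAlgClosed k
  have hinf : (kbF k Ω : Set Ω).Infinite := by
    have : Infinite (kbF k Ω) := inferInstance
    exact Set.infinite_coe_iff.1 this
  have key : ∀ i, i ≤ L → ∃ P : ℕ → Fin d → Pt T,
      (∀ s < i, ∀ j, PK k (kbF k Ω : Set Ω) (P s j)) ∧ (∀ s < i, ∏ j, iot (P s j) = 1) ∧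
      ∀ j, Q ((List.range i).map fun s => P s j) := by
    intro i
    induction i with
    | zero =>
      exact fun _ => ⟨fun _ _ => P₀, fun s hs => absurd hs (Nat.not_lt_zero s),
        fun s hs => absurd hs (Nat.not_lt_zero s), fun _ => hQ1⟩
    | succ i ih =>
      intro hi
      obtain ⟨P, h1, h2, h3⟩ := ih (by omega)
      have hfin : ∀ j, {P' : Pt T | PK k (kbF k Ω : Set Ω) P' ∧
          ¬ Q (((List.range i).map fun s => P s j) ++ [P'])}.Finite := fun j =>
        hQ2 _ (by rw [List.length_map, List.length_range]; omega) (h3 j)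
      have hfin' : (⋃ j, xx '' {P' : Pt T | PK k (kbF k Ω : Set Ω) P' ∧
          ¬ Q (((List.range i).map fun s => P s j) ++ [P'])}).Finite :=
        Set.finite_iUnion fun j => (hfin j).image _
      obtain ⟨t, ht, ht'⟩ := (hinf.sdiff hfin').nonempty
      obtain ⟨X, hX, hX'⟩ := bpf_fib T t
      have hXK : ∀ j, PK k (kbF k Ω : Set Ω) (X j) := fun j =>
        (PK_iff_xx hT (kbF k Ω) (X j)).2 (by rw [hX]; exact ht)
      refine ⟨Function.update P i X, fun s hs j => ?_, fun s hs => ?_, fun j => ?_⟩
      · by_cases h : s = i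
        · rw [h, Function.update_self]
          exact hXK j
        · rw [Function.update_of_ne h]
          exact h1 s (by omega) j
      · by_cases h : s = i
        · rw [h, Function.update_self]
          exact hX'
        · rw [Function.update_of_ne h]
          exact h2 s (by omega)
      · have h4 : (List.range (i + 1)).map (fun s => Function.update P i X s j) =
            ((List.range i).map fun s => P s j) ++ [X j] := by
          rw [List.range_succ, List.map_append, List.map_cons, List.map_nil,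
            Function.update_self]
          congr 1
          refine List.map_congr_left fun s hs => ?_
          rw [Function.update_of_ne (ne_of_lt (List.mem_range.1 hs))]
        rw [h4]
        by_contra h
        exact ht' (Set.mem_iUnion.2 ⟨j, X j, ⟨hXK j, h⟩, hX j⟩)
  obtain ⟨P, h1, h2, h3⟩ := key L le_rfl
  refine ⟨fun j => ∏ i : Fin L, Pi.mulSingle (r i) (iot (P i j)), fun j s => ?_, ?_, fun j => ?_⟩
  · change (∏ i : Fin L, Pi.mulSingle (r i) (iot (P i j)) : ρ → ClassGroup (WB T)) s ∈ _
    rw [cl_Al r fun i => P i j]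
    refine cl_mem_JK hT _ fun P' hP' => ?_
    obtain ⟨i, -, rfl⟩ := mem_Al.1 hP'
    exact h1 i i.2 j
  · rw [Finset.prod_comm]
    refine Finset.prod_eq_one fun i _ => ?_
    have h4 := map_prod (MonoidHom.mulSingle (fun _ : ρ => ClassGroup (WB T)) (r i))
      (fun j => iot (P i j)) Finset.univ
    rw [h2 i i.2, map_one] at h4
    exact h4.symm
  · refine hQ3 (fun i => P i j) (fun i => h1 i i.2 j) ?_
    have h4 : (List.ofFn fun i : Fin L => P i j) = (List.range L).map fun s => P s j := by
      refine List.ext_getElem (by simp) fun n _ _ => by simp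
    rw [h4]
    exact h3 j

end

end Pool.Agent.TIFT
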