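import Pool.Agent.TIFT.R

set_option maxSynthPendingDepth 3

private theorem g0_tf_field (K L : Type*) [Field K] [Field L] [Algebra K L] :
    Module.IsTorsionFree K L := inferInstance

private theorem g0_fs_field (K L : Type*) [Field K] [Field L] [Algebra K L] :
    FaithfulSMul K L := inferInstance

attribute [local instance 5000] g0_tf_field g0_fs_field


/-!
# [TIF, block THETA] section G: tools on algebraic independence
-/

set_option autoImplicit false
set_option linter.unusedSectionVars false

open Polynomial IsLocalRing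

namespace Pool.Agent.TIFT

open GT TIF

section tools

variable {k Ω : Type} [Field k] [Field Ω] [Algebra k Ω]

theorem mem_acl {K : IntermediateField k Ω} {x : Ω} : x ∈ acl K ↔ IsAlgebraic K x := by
  change x ∈ algebraicClosure K Ω ↔ _
  exact mem_algebraicClosure_iff

theorem le_acl (K : IntermediateField k Ω) : K ≤ acl K := fun x hx =>
  mem_acl.2 (isAlgebraic_algebraMap (⟨x, hx⟩ : K))

theorem alg_mono {K K' : IntermediateField k Ω} (h : K ≤ K') {x : Ω} (hx : IsAlgebraic K x) :
    IsAlgebraic K' x := by
  obtain ⟨p, hp0, hp⟩ := hx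
  refine ⟨p.map (IntermediateField.inclusion h : K →+* K'),
    (Polynomial.map_ne_zero_iff (IntermediateField.inclusion_injective h)).2 hp0, ?_⟩
  rw [Polynomial.aeval_def, Polynomial.eval₂_map]
  exact hp

theorem acl_mono {K K' : IntermediateField k Ω} (h : K ≤ K') : acl K ≤ acl K' := fun _ hx =>
  mem_acl.2 (alg_mono h (mem_acl.1 hx))

theorem acl_acl (K : IntermediateField k Ω) : acl (acl K) = acl K := by
  refine le_antisymm (fun x hx => mem_acl.2 ?_) (le_acl _)
  have h1 : IsAlgebraic (algebraicClosure K Ω) x := mem_acl.1 hx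
  exact h1.restrictScalars K

theorem acl_le {K K' : IntermediateField k Ω} (h : K ≤ acl K') : acl K ≤ acl K' := by
  rw [← acl_acl K']
  exact acl_mono h

instance acl_closed [IsAlgClosed Ω] (K : IntermediateField k Ω) : IsAlgClosed (acl K) := by
  have h : IsAlgClosure K (algebraicClosure K Ω) := inferInstance
  exact h.isAlgClosed

/-- `K` with the elements of `S` adjoined -/
def ad (K : IntermediateField k Ω) (S : Set Ω) : IntermediateField k Ω :=
  K ⊔ IntermediateField.adjoin k S

theorem ad_eq (K : IntermediateField k Ω) (S : Set Ω) :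
    ad K S = (IntermediateField.adjoin K S).restrictScalars k := by
  rw [IntermediateField.restrictScalars_adjoin, IntermediateField.adjoin_union,
    IntermediateField.adjoin_self]
  rfl

theorem le_ad (K : IntermediateField k Ω) (S : Set Ω) : K ≤ ad K S := le_sup_left

theorem sub_ad (K : IntermediateField k Ω) (S : Set Ω) : S ⊆ ad K S := fun _ hx =>
  (le_sup_right : IntermediateField.adjoin k S ≤ ad K S) (IntermediateField.subset_adjoin k S hx)

theorem ad_le {K L : IntermediateField k Ω} {S : Set Ω} (h : K ≤ L) (h' : S ⊆ L) : ad K S ≤ L :=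
  sup_le h (IntermediateField.adjoin_le_iff.2 h')

theorem ad_mono {K K' : IntermediateField k Ω} {S S' : Set Ω} (h : K ≤ K') (h' : S ⊆ S') :
    ad K S ≤ ad K' S' := ad_le (h.trans (le_ad _ _)) (h'.trans (sub_ad _ _))

theorem ai_ad {K : IntermediateField k Ω} {S : Set Ω} {ι : Type} {x : ι → Ω} :
    AlgebraicIndependent (ad K S) x ↔ AlgebraicIndependent (Algebra.adjoin K S) x := by
  rw [← IntermediateField.algebraicIndependent_adjoin_iff, ad_eq]
  rfl

theorem mem_acl_ad {K : IntermediateField k Ω} {S : Set Ω} {x : Ω} :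
    x ∈ acl (ad K S) ↔ IsAlgebraic (Algebra.adjoin K S) x := by
  rw [← IntermediateField.isAlgebraic_adjoin_iff, mem_acl, ad_eq]
  rfl

/-- smaller base field -/
theorem ai_mono {K K' : IntermediateField k Ω} (h : K ≤ K') {ι : Type} {x : ι → Ω}
    (hx : AlgebraicIndependent K' x) : AlgebraicIndependent K x := by
  let _ : Algebra K K' := (IntermediateField.inclusion h).toRingHom.toAlgebra
  have _ : IsScalarTower K K' Ω := IsScalarTower.of_algebraMap_eq fun _ => rfl
  exact hx.restrictScalars (IntermediateField.inclusion_injective h)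

/-- algebraic base field -/
theorem ai_alg {K K' : IntermediateField k Ω} (h : K ≤ K') (h' : K' ≤ acl K) {ι : Type}
    {x : ι → Ω} (hx : AlgebraicIndependent K x) : AlgebraicIndependent K' x := by
  let _ : Algebra K K' := (IntermediateField.inclusion h).toRingHom.toAlgebra
  have _ : IsScalarTower K K' Ω := IsScalarTower.of_algebraMap_eq fun _ => rfl
  have _ : Algebra.IsAlgebraic K K' := ⟨fun x => by
    have h1 : IsAlgebraic K (x : Ω) := mem_acl.1 (h' x.2)
    exact (isAlgebraic_algebraMap_iff (algebraMap K' Ω).injective).1 h1⟩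
  exact hx.extendScalars K'

theorem ai_acl {K : IntermediateField k Ω} {ι : Type} {x : ι → Ω} :
    AlgebraicIndependent (acl K) x ↔ AlgebraicIndependent K x :=
  ⟨ai_mono (le_acl K), ai_alg (le_acl K) le_rfl⟩

theorem ai_acl_eq {K K' : IntermediateField k Ω} (h : acl K = acl K') {ι : Type} {x : ι → Ω} :
    AlgebraicIndependent K x ↔ AlgebraicIndependent K' x := by
  rw [← ai_acl, h, ai_acl]

theorem ai_sum {K : IntermediateField k Ω} {ι ι' : Type} {x : ι → Ω} {y : ι' → Ω} :
    AlgebraicIndependent K (Sum.elim y x) ↔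
      AlgebraicIndependent K x ∧ AlgebraicIndependent (ad K (Set.range x)) y := by
  rw [AlgebraicIndependent.sumElim_iff, ai_ad]

/-- exchange -/
theorem ai_exch {K : IntermediateField k Ω} {ι κ : Type} [Finite ι] [Finite κ] {y : ι → Ω}
    {x : κ → Ω} (hy : AlgebraicIndependent K y) (hc : Nat.card κ ≤ Nat.card ι)
    (h : ∀ i, y i ∈ acl (ad K (Set.range x))) :
    AlgebraicIndependent K x ∧ Nat.card κ = Nat.card ι := by
  obtain ⟨F, hF⟩ : ∃ F, F = algebraicClosure (IntermediateField.adjoin K (Set.range x)) Ω :=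
    ⟨_, rfl⟩
  obtain ⟨F', hF'⟩ : ∃ F', F' = F.restrictScalars K := ⟨_, rfl⟩
  have hmem : ∀ z : Ω, z ∈ F' ↔ IsAlgebraic (Algebra.adjoin K (Set.range x)) z := by
    intro z
    rw [hF', IntermediateField.mem_restrictScalars, hF, mem_algebraicClosure_iff,
      IntermediateField.isAlgebraic_adjoin_iff]
  have hx : ∀ i, x i ∈ F' := fun i => by
    rw [hmem]
    exact isAlgebraic_algebraMap (⟨x i, Algebra.subset_adjoin ⟨i, rfl⟩⟩ :
      Algebra.adjoin K (Set.range x))
  have hyF : ∀ i, y i ∈ F' := fun i => by
    rw [hmem, ← mem_acl_ad]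
    exact h i
  let x' : κ → F' := fun i => ⟨x i, hx i⟩
  let y' : ι → F' := fun i => ⟨y i, hyF i⟩
  have hy' : AlgebraicIndependent K y' :=
    AlgebraicIndependent.of_comp F'.val (by exact hy)
  have halg : Algebra.IsAlgebraic (Algebra.adjoin K (Set.range x')) F' := by
    constructor
    intro z
    have h1 := (hmem z).1 z.2
    have h2 : Algebra.adjoin K (Set.range x) = (Algebra.adjoin K (Set.range x')).map F'.val := by
      rw [AlgHom.map_adjoin, ← Set.range_comp]
      rfl
    obtain ⟨p, hp0, hp⟩ := h1
    have hm : ∀ c : Algebra.adjoin K (Set.range x), ∃ c' : Algebra.adjoin K (Set.range x'),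
        ((c' : F') : Ω) = c := by
      intro c
      have hc : (c : Ω) ∈ (Algebra.adjoin K (Set.range x')).map F'.val := by
        rw [← h2]
        exact c.2
      obtain ⟨c', hc', h3⟩ := hc
      exact ⟨⟨c', hc'⟩, h3⟩
    let g : Algebra.adjoin K (Set.range x') →+* Algebra.adjoin K (Set.range x) :=
      { toFun := fun c => ⟨((c : F') : Ω), by
          rw [h2]
          exact ⟨c, c.2, rfl⟩⟩
        map_one' := rfl
        map_mul' := fun _ _ => rfl
        map_zero' := rfl
        map_add' := fun _ _ => rfl }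
    have hl : p ∈ lifts g := by
      rw [lifts_iff_coeff_lifts]
      intro n
      obtain ⟨c', hc'⟩ := hm (p.coeff n)
      exact ⟨c', Subtype.ext hc'⟩
    obtain ⟨q, rfl⟩ := (mem_lifts _).1 hl
    refine ⟨q, fun h0 => hp0 (by rw [h0, Polynomial.map_zero]), ?_⟩
    apply Subtype.ext
    have h4 : (F'.val : F' →+* Ω) (Polynomial.aeval z q) = 0 := by
      rw [Polynomial.aeval_def, Polynomial.hom_eval₂]
      rw [Polynomial.aeval_def, Polynomial.eval₂_map] at hp
      exact hp
    exact h4
  have hle : Cardinal.mk ι ≤ Algebra.trdeg K F' := hy'.cardinalMk_le_trdeg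
  have hκι : Cardinal.mk κ ≤ Cardinal.mk ι := by
    rw [← Nat.cast_card, ← Nat.cast_card (α := ι)]
    exact_mod_cast hc
  have hb : IsTranscendenceBasis K x' :=
    Algebra.IsAlgebraic.isTranscendenceBasis_of_le_trdeg_of_finite K x' (hκι.trans hle)
  refine ⟨?_, le_antisymm hc ?_⟩
  · exact hb.1.map' (f := F'.val) F'.val.injective
  · have h1 := hb.cardinalMk_eq_trdeg
    rw [← h1, ← Nat.cast_card, ← Nat.cast_card (α := κ)] at hle
    exact_mod_cast hle

end tools

end Pool.Agent.TIFT
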