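import Pool.Agent.TIFT.G2
import Pool.Agent.TIFP.Conj

/-!
# [TIF, block THETA] row G3

For one list (indA_iff reduces to it): by induction / at once with TIFP.Conj.exists_conj over the field K for the finite vector of all P (x), P (f_j): the kernels agree. For that: a relation over K between the coordinates of P_1, .., P_n is an element of WB_K ⊗ .. ⊗ WB_K (domain); step: P generic over F, N ∈ WB T with coefficients in F and P N = 0 implies N = 0 (the norm of N to Ω[X] has coefficients in F and vanishes at xx P); so ker (WB_F → Ω) = 0 for both P and P'. Induction: an isomorphism φ : K(P_1..P_{n-1}) → K(P'_1..) extends to K(P_1..P_n) by P_n ↦ P'_n.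
-/

set_option autoImplicit false
set_option linter.unusedSectionVars false

open Polynomial IsLocalRing

namespace Pool.Agent.TIFT

open GT TIF

section

variable {k Ω : Type} [Field k] [Field Ω] [Algebra k Ω] [IsAlgClosed Ω] {d : ℕ} [NeZero d]
  {T : Tab Ω d} [IsDedekindDomain (WB T)] {ρ : Type} [Fintype ρ]

/-- an element of `WB T` over `K` does not vanish at a generic point -/
theorem g_inj {K : IntermediateField k Ω} {T' : Tab K d} (h : T'.map (algebraMap K Ω) = T)
    {P : Pt T} (hP : Transcendental K (xx P)) {b' : WB T'}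
    (h0 : P (bmap (algebraMap K Ω) h b') = 0) : b' = 0 := by
  let φ : WB T' →+* Ω := (P : WB T →+* Ω).comp (bmap (algebraMap K Ω) h)
  have hdom : IsDomain (WB T') :=
    (bmap_inj (algebraMap K Ω) h (algebraMap K Ω).injective).isDomain (bmap (algebraMap K Ω) h)
  have hφ : ∀ p : Polynomial K, φ (algebraMap (Polynomial K) (WB T') p) =
      Polynomial.aeval (xx P) p := by
    intro p
    show P (bmap (algebraMap K Ω) h (algebraMap (Polynomial K) (WB T') p)) = _
    rw [bmap_algebraMap]
    have h1 := g_P_smul P (p.map (algebraMap K Ω)) 1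
    rw [Algebra.smul_def, mul_one, map_one, mul_one] at h1
    rw [h1, Polynomial.eval_map, Polynomial.aeval_def]
  have hc : (RingHom.ker φ).comap (algebraMap (Polynomial K) (WB T')) = ⊥ := by
    rw [eq_bot_iff]
    intro p hp
    rw [Ideal.mem_comap, RingHom.mem_ker, hφ] at hp
    rw [Ideal.mem_bot]
    exact (transcendental_iff.1 hP) p hp
  have h2 := Ideal.eq_bot_of_comap_eq_bot hc
  have h3 : b' ∈ RingHom.ker φ := h0
  rw [h2] at h3
  exact h3

theorem pt_ext {P Q : Pt T} (h : ∀ b : WB T, Cf (Set.range (algebraMap k Ω)) b → P b = Q b) :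
    P = Q := by
  have hf : ∀ i : ZMod d, Cf (Set.range (algebraMap k Ω)) (WB.f T i) := by
    intro i j n
    rw [WB.f_co]
    by_cases h : j = i
    · rw [h, Pi.single_eq_same, coeff_one]
      split_ifs
      · exact ⟨1, map_one _⟩
      · exact ⟨0, map_zero _⟩
    · rw [Pi.single_eq_of_ne h]
      exact ⟨0, by rw [coeff_zero, map_zero]⟩
  have hx : xx P = xx Q := h _ g_cf_x
  refine AlgHom.ext fun b => ?_
  rw [← WB.sum_f b, map_sum, map_sum]
  refine Finset.sum_congr rfl fun j _ => ?_
  rw [g_P_smul, g_P_smul, hx, h _ (hf j)]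

theorem rac_cf (hT : Tk k T) (σ : Ω ≃ₐ[k] Ω) {b : WB T} (hb : ∀ j n, σ ((b.co j).coeff n) =
    (b.co j).coeff n) : rac hT σ b = b := by
  refine WB.ext (funext fun j => Polynomial.ext fun n => ?_)
  rw [rac, bE_co, coeff_map]
  exact hb j n

theorem aP_cf (hT : Tk k T) (σ : Ω ≃ₐ[k] Ω) (P : Pt T) {b : WB T}
    (hb : Cf (Set.range (algebraMap k Ω)) b) : aP hT σ P b = σ (P b) := by
  have h1 : rac hT σ b = b := rac_cf hT σ fun j n => by
    obtain ⟨a, ha⟩ := hb j n
    rw [← ha, σ.commutes]
  show σ (P ((rac hT σ).symm b)) = _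
  rw [(RingEquiv.symm_apply_eq _).2 h1.symm]

theorem xx_aP (hT : Tk k T) (σ : Ω ≃ₐ[k] Ω) (P : Pt T) : xx (aP hT σ P) = σ (xx P) :=
  aP_cf hT σ P g_cf_x

theorem aP_trans (hT : Tk k T) (σ τ : Ω ≃ₐ[k] Ω) (P : Pt T) :
    aP hT (σ.trans τ) P = aP hT τ (aP hT σ P) := by
  refine pt_ext (k := k) fun b hb => ?_
  rw [aP_cf hT _ _ hb, aP_cf hT _ _ hb, aP_cf hT _ _ hb]
  rfl

theorem aP_fix (hT : Tk k T) (σ : Ω ≃ₐ[k] Ω) {P : Pt T} (h : ∀ c ∈ kP k P, σ c = c) :
    aP hT σ P = P := by
  refine pt_ext (k := k) fun b hb => ?_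
  rw [aP_cf hT _ _ hb]
  exact h _ (IntermediateField.subset_adjoin k _ ⟨b, hb, rfl⟩)

theorem g_conj_one (hT : Tk k T) {K : IntermediateField k Ω} {P P' : Pt T} (hP : GenP k K P)
    (hP' : GenP k K P') : ∃ σ : Ω ≃ₐ[k] Ω, (∀ x ∈ K, σ x = x) ∧ aP hT σ P = P' := by
  rw [genP_iff hT] at hP hP'
  obtain ⟨T', h⟩ := g_form hT K
  have hdom : IsDomain (WB T') :=
    (bmap_inj (algebraMap K Ω) h (algebraMap K Ω).injective).isDomain (bmap (algebraMap K Ω) h)
  obtain ⟨E, hE⟩ : ∃ E : Pt T → (WB T' →ₐ[K] Ω), ∀ P b, E P b = P (bmap (algebraMap K Ω) h b) := by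
    refine ⟨fun P => { (P : WB T →+* Ω).comp (bmap (algebraMap K Ω) h) with
      commutes' := fun r => ?_ }, fun _ _ => rfl⟩
    show P (bmap (algebraMap K Ω) h (algebraMap K (WB T') r)) = algebraMap K Ω r
    rw [bmap_algebraMap', AlgHom.commutes]
    rfl
  have hinj : ∀ P : Pt T, Transcendental K (xx P) → Function.Injective (E P) := by
    intro P hP
    rw [injective_iff_map_eq_zero]
    intro b hb
    rw [hE] at hb
    exact g_inj h hP hb
  have hft : Algebra.FiniteType K (WB T') :=
    Algebra.FiniteType.trans (S := Polynomial K) inferInstance inferInstance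
  have htr : Algebra.trdeg K (FractionRing (WB T')) < Cardinal.aleph0 := by
    have h1 : Algebra.trdeg K (WB T') < Cardinal.aleph0 := trdeg_lt_aleph0_of_finiteType
    have h2 := trdeg_add_eq K (WB T') (A := FractionRing (WB T'))
    have h4 : Algebra.IsAlgebraic (WB T') (FractionRing (WB T')) :=
      IsLocalization.isAlgebraic _ (nonZeroDivisors (WB T'))
    have h3 : Algebra.trdeg (WB T') (FractionRing (WB T')) = 0 := trdeg_eq_zero
    rw [h3, add_zero] at h2
    rw [← h2]
    exact h1
  obtain ⟨σ, hσ⟩ := Pool.Agent.TIFP.exists_aut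
    (IsFractionRing.liftAlgHom (hinj P hP) : FractionRing (WB T') →ₐ[K] Ω)
    (IsFractionRing.liftAlgHom (hinj P' hP')) htr
  refine ⟨σ.restrictScalars k, fun x hx => σ.commutes ⟨x, hx⟩, ?_⟩
  refine pt_ext (k := k) fun b hb => ?_
  rw [aP_cf hT _ _ hb]
  obtain ⟨b', rfl⟩ := g_lift h (g_cf_mono (g_range_sub K) hb)
  have h1 := hσ (algebraMap (WB T') _ b')
  rw [IsFractionRing.liftAlgHom_apply, IsFractionRing.liftAlgHom_apply,
    IsFractionRing.lift_algebraMap, IsFractionRing.lift_algebraMap] at h1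
  have h2 : σ (E P b') = E P' b' := h1
  rw [hE, hE] at h2
  exact h2

theorem g_tr {K : IntermediateField k Ω} {S : Set Ω} {t : Ω} :
    Transcendental (ad K S) t ↔ Transcendental (Algebra.adjoin K S) t := by
  rw [Transcendental, Transcendental, ← mem_acl, mem_acl_ad]

theorem g_conj_fam (hT : Tk k T) {K : IntermediateField k Ω} {ι : Type} [Finite ι]
    (P P' : ι → Pt T) (hP : AlgebraicIndependent K fun i => xx (P i))
    (hP' : AlgebraicIndependent K fun i => xx (P' i)) :
    ∃ σ : Ω ≃ₐ[k] Ω, (∀ x ∈ K, σ x = x) ∧ ∀ i, aP hT σ (P i) = P' i := by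
  classical
  have key : ∀ s : Finset ι, ∃ σ : Ω ≃ₐ[k] Ω, (∀ x ∈ K, σ x = x) ∧
      ∀ i ∈ s, aP hT σ (P i) = P' i := by
    intro s
    induction s using Finset.induction_on with
    | empty => exact ⟨AlgEquiv.refl, fun _ _ => rfl, fun i hi => absurd hi (Finset.notMem_empty i)⟩
    | insert a s ha ih =>
      obtain ⟨σ, hσ, hσs⟩ := ih
      obtain ⟨L, hL⟩ : ∃ L, L = K ⊔ ⨆ i ∈ s, kP k (P' i) := ⟨_, rfl⟩
      have hKL : K ≤ L := by
        rw [hL]
        exact le_sup_left
      have hPL : ∀ i ∈ s, kP k (P' i) ≤ L := by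
        intro i hi
        rw [hL]
        exact (le_iSup₂_of_le (f := fun (i : ι) (_ : i ∈ s) => kP k (P' i)) i hi le_rfl).trans
          le_sup_right
      have hLa : L ≤ acl (ad K ((fun i => xx (P' i)) '' s)) := by
        rw [hL]
        refine sup_le ((le_ad _ _).trans (le_acl _)) (iSup₂_le fun i hi => ?_)
        exact g_kP_le hT (le_acl _ (sub_ad _ _ ⟨i, hi, rfl⟩))
      have htr : ∀ t : Ω, Transcendental (Algebra.adjoin K ((fun i => xx (P' i)) '' s)) t →
          Transcendental L t := by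
        intro t ht halg
        rw [← g_tr] at ht
        refine ht (mem_acl.1 ?_)
        exact acl_le hLa (mem_acl.2 halg)
      have hg' : GenP k L (P' a) := by
        rw [genP_iff hT]
        exact htr _ (hP'.transcendental_adjoin ha)
      have hg : GenP k L (aP hT σ (P a)) := by
        rw [genP_iff hT]
        refine htr _ ?_
        let σK : Ω →ₐ[K] Ω := { (σ : Ω →+* Ω) with
          commutes' := fun r => hσ r r.2 }
        have h1 : AlgebraicIndependent K fun i => σ (xx (P i)) :=
          hP.map' (f := σK) σ.injective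
        have h2 := h1.transcendental_adjoin (s := (s : Set ι)) (i := a) ha
        have h3 : (fun i => σ (xx (P i))) '' s = (fun i => xx (P' i)) '' s := by
          refine Set.image_congr fun i hi => ?_
          rw [← hσs i hi, xx_aP]
        rw [h3] at h2
        rw [xx_aP]
        exact h2
      obtain ⟨τ, hτ, hτa⟩ := g_conj_one hT hg hg'
      refine ⟨σ.trans τ, fun x hx => ?_, fun i hi => ?_⟩
      · show τ (σ x) = x
        rw [hσ x hx, hτ x (hKL hx)]
      · rw [aP_trans]
        rcases Finset.mem_insert.1 hi with rfl | hi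
        · exact hτa
        · rw [hσs i hi]
          exact aP_fix hT τ fun c hc => hτ c (hPL i hi hc)
  have hfin := Fintype.ofFinite ι
  obtain ⟨σ, h1, h2⟩ := key Finset.univ
  exact ⟨σ, h1, fun i => h2 i (Finset.mem_univ i)⟩

theorem ind_conj (hT : Tk k T) {K : IntermediateField k Ω}
    {X X' : ρ → List (Pt T)} (hX : IndA K X) (hX' : IndA K X')
    (h : ∀ r, (X r).length = (X' r).length) :
    ∃ σ : Ω ≃ₐ[k] Ω, (∀ x ∈ K, σ x = x) ∧ ∀ r, (X r).map (aP hT σ) = X' r := by
  let e : (Σ r, Fin (X r).length) ≃ Σ r, Fin (X' r).length :=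
    Equiv.sigmaCongrRight fun r => finCongr (h r)
  have h1 : AlgebraicIndependent K fun p : Σ r, Fin (X r).length =>
      xx ((X' p.1).get (finCongr (h p.1) p.2)) := hX'.comp e e.injective
  obtain ⟨σ, hσ, h2⟩ := g_conj_fam hT (fun p : Σ r, Fin (X r).length => (X p.1).get p.2)
    (fun p => (X' p.1).get (finCongr (h p.1) p.2)) hX h1
  refine ⟨σ, hσ, fun r => ?_⟩
  refine List.ext_get (by rw [List.length_map, h r]) fun n h3 h4 => ?_
  have h5 : n < (X r).length := by rwa [h r]
  have h6 := h2 ⟨r, ⟨n, h5⟩⟩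
  rw [List.get_eq_getElem, List.getElem_map]
  exact h6

theorem g_card_sigma (X : ρ → List (Pt T)) :
    Nat.card (Σ r, Fin (X r).length) = ∑ r, (X r).length := by
  rw [Nat.card_eq_fintype_card, Fintype.card_sigma]
  simp

theorem indA_iff {K : IntermediateField k Ω} {X : ρ → List (Pt T)} {l : List ρ} (hl : l.Nodup)
    (hl' : ∀ r, r ∈ l) : IndA K X ↔ Ind K (l.flatMap X) := by
  classical
  have hlen : (l.flatMap X).length = ∑ r, (X r).length := by
    rw [List.length_flatMap]
    have h1 : l.toFinset = Finset.univ := by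
      ext r
      simp [hl' r]
    rw [← h1, List.sum_toFinset _ hl]
  have hr : Set.range (fun p : Σ r, Fin (X r).length => xx ((X p.1).get p.2)) =
      Set.range (xs (l.flatMap X)) := by
    rw [range_xs]
    ext c
    constructor
    · rintro ⟨p, rfl⟩
      exact ⟨_, List.mem_flatMap.2 ⟨p.1, hl' _, List.get_mem _ _⟩, rfl⟩
    · rintro ⟨P, hP, rfl⟩
      obtain ⟨r, -, hPr⟩ := List.mem_flatMap.1 hP
      obtain ⟨i, hi⟩ := List.get_of_mem hPr
      exact ⟨⟨r, i⟩, by simp only [hi]⟩
  have hc : Nat.card (Σ r, Fin (X r).length) = Nat.card (Fin (l.flatMap X).length) := by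
    rw [g_card_sigma, Nat.card_fin, hlen]
  constructor
  · intro h
    refine (ai_exch (K := K) (x := xs (l.flatMap X)) h hc.symm.le fun p => ?_).1
    rw [← hr]
    exact le_acl _ (sub_ad _ _ ⟨p, rfl⟩)
  · intro h
    refine (ai_exch (K := K) (y := xs (l.flatMap X)) h hc.le fun p => ?_).1
    rw [hr]
    exact le_acl _ (sub_ad _ _ ⟨p, rfl⟩)

end

end Pool.Agent.TIFT
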