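import Pool.Agent.TIFT.G5

/-!
# [TIF, block THETA] row G6

genA_rdc: the lists X₀ of GenA satisfy dI (X₀ r) = rdc (x r) (ind_Ns_inv), so X r is a permutation of X₀ r. gen_of_alg: let dI (X r) = rdc (x r), |X r| <= gp. y r = cl (Y r), dI (Y r) = rdc (y r) is rational over the algebraically closed field acl (K(x)) ⊆ acl (K(X)) (kD k (x s) ⊆ field of the coordinates of X s: cl_mem_JK), so the points of Y are over acl (K(X)) (PK_of_ratI): gp * |ρ| algebraically independent elements of a field of transcendence degree <= sum |X r| over K: so |X r| = gp and the coordinates are algebraically independent (a spanning family of cardinality = trdeg is independent). Mathlib: Algebra.trdeg, IsTranscendenceBasis, matroid API.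
-/

set_option autoImplicit false
set_option linter.unusedSectionVars false

open Polynomial IsLocalRing

namespace Pool.Agent.TIFT

open GT TIF

section

variable {k Ω : Type} [Field k] [Field Ω] [Algebra k Ω] [IsAlgClosed Ω] {d : ℕ} [NeZero d]
  {T : Tab Ω d} [IsDedekindDomain (WB T)] {ρ : Type} [Fintype ρ]

/-- the coordinates of a family of lists of points -/
noncomputable def xf (X : ρ → List (Pt T)) : (Σ r, Fin (X r).length) → Ω :=
  fun p => xx ((X p.1).get p.2)

theorem indA_def {K : IntermediateField k Ω} {X : ρ → List (Pt T)} :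
    IndA K X ↔ AlgebraicIndependent K (xf X) := Iff.rfl

theorem mem_range_xf {X : ρ → List (Pt T)} {r : ρ} {P : Pt T} (hP : P ∈ X r) :
    xx P ∈ Set.range (xf X) := by
  obtain ⟨i, rfl⟩ := List.get_of_mem hP
  exact ⟨⟨r, i⟩, rfl⟩

theorem indA_ind {K : IntermediateField k Ω} {X : ρ → List (Pt T)} (h : IndA K X) (r : ρ) :
    Ind K (X r) :=
  h.comp (fun i => (⟨r, i⟩ : Σ r, Fin (X r).length)) fun i j hij => by simpa using hij

/-- exchange for families of lists of points -/
theorem indA_exch {ρ' : Type} [Fintype ρ'] {K : IntermediateField k Ω} {Y : ρ → List (Pt T)}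
    {X : ρ' → List (Pt T)} (hY : IndA K Y) (hc : ∑ r, (X r).length ≤ ∑ r, (Y r).length)
    (h : ∀ r, ∀ P ∈ Y r, xx P ∈ acl (ad K (Set.range (xf X)))) :
    IndA K X ∧ ∑ r, (X r).length = ∑ r, (Y r).length := by
  have h1 := ai_exch (K := K) (y := xf Y) (x := xf X) hY (by
    rw [g_card_sigma, g_card_sigma]
    exact hc) (fun p => h p.1 _ (List.get_mem _ _))
  rw [g_card_sigma, g_card_sigma] at h1
  exact h1

theorem indA_perm {K : IntermediateField k Ω} {Y X : ρ → List (Pt T)} (hY : IndA K Y)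
    (h : ∀ r, (Y r).Perm (X r)) : IndA K X :=
  (indA_exch hY (le_of_eq (Finset.sum_congr rfl fun r _ => (h r).length_eq.symm))
    fun r _ hP => le_acl _ (sub_ad _ _ (mem_range_xf ((h r).mem_iff.1 hP)))).1

theorem genA_rdc (hU : Univ k Ω) (hT : Tk k T) {K : IntermediateField k Ω} (hK : Small K)
    {x : ρ → ClassGroup (WB T)} (h : GenA K x)
    {X : ρ → List (Pt T)} (hX : ∀ r, dI (X r) = rdc (x r)) :
    IndA K X ∧ ∀ r, (X r).length = gp T := by
  obtain ⟨X₀, hl, hi, hc⟩ := h
  have h1 : ∀ r, (X₀ r).Perm (X r) := by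
    intro r
    apply perm_of_dI
    rw [hX, ← hc r]
    exact (ind_Ns_inv hU hT hK (indA_ind hi r) (hl r)).2.symm
  exact ⟨indA_perm hi h1, fun r => by rw [← (h1 r).length_eq, hl r]⟩

theorem cl_of_rdc {X : List (Pt T)} {x : ClassGroup (WB T)} (h : dI X = rdc x) : cl X = x := by
  rw [cl, h, cls_rdc]

theorem length_of_rdc {X : List (Pt T)} {x : ClassGroup (WB T)} (h : dI X = rdc x) :
    X.length ≤ gp T := by
  rw [← len_dI, h]
  exact len_rdc x

theorem kD_le (hT : Tk k T) {L : IntermediateField k Ω} {X : List (Pt T)} {x : ClassGroup (WB T)}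
    (h : cl X = x) (hX : ∀ P ∈ X, xx P ∈ acl L) : kD k x ≤ acl L := by
  rw [← mem_JK_iff hT, ← h]
  exact cl_mem_JK hT _ fun P hP => (PK_iff_xx hT _ P).2 (hX P hP)

theorem gen_of_alg (hU : Univ k Ω) (hT : Tk k T) {K : IntermediateField k Ω} (hK : Small K)
    {x y : ρ → ClassGroup (WB T)}
    (hy : GenA K y) (h : ∀ r, y r ∈ JK (T := T) (acl (K ⊔ ⨆ s, kD k (x s)) : Set Ω)) :
    GenA K x := by
  have hex : ∀ r, ∃ X : List (Pt T), dI X = rdc (x r) := fun r => exists_dI (rdc_ne (x r))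
  choose X hX using hex
  obtain ⟨Y, hl, hi, hc⟩ := hy
  have hYr : ∀ r, rdc (y r) = dI (Y r) := fun r => by
    rw [← hc r]
    exact (ind_Ns_inv hU hT hK (indA_ind hi r) (hl r)).2
  obtain ⟨F, hF⟩ : ∃ F, F = acl (K ⊔ ⨆ s, kD k (x s)) := ⟨_, rfl⟩
  have hFc : IsAlgClosed F := by
    rw [hF]
    infer_instance
  have hFX : F ≤ acl (ad K (Set.range (xf X))) := by
    rw [hF]
    refine acl_le (sup_le ((le_ad _ _).trans (le_acl _)) (iSup_le fun s => ?_))
    exact kD_le hT (cl_of_rdc (hX s)) fun P hP => le_acl _ (sub_ad _ _ (mem_range_xf hP))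
  have hYF : ∀ r, ∀ P ∈ Y r, xx P ∈ F := by
    intro r P hP
    have h1 : RatI (F : Set Ω) (rdc (y r)) := by
      rw [hF]
      exact h r
    rw [hYr] at h1
    exact (PK_iff_xx hT F P).1 (PK_of_ratI hT F h1 P hP)
  have hlen : ∀ r, (X r).length ≤ (Y r).length := fun r => by
    rw [hl r]
    exact length_of_rdc (hX r)
  obtain ⟨h1, h2⟩ := indA_exch hi (Finset.sum_le_sum fun r _ => hlen r)
    fun r P hP => hFX (hYF r P hP)
  have h3 := (Finset.sum_eq_sum_iff_of_le fun r _ => hlen r).1 h2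
  exact ⟨X, fun r => by rw [h3 r (Finset.mem_univ r), hl r], h1, fun r => cl_of_rdc (hX r)⟩

theorem genA_Ns (hU : Univ k Ω) (hT : Tk k T) {K : IntermediateField k Ω} (hK : Small K)
    {x : ρ → ClassGroup (WB T)} (h : GenA K x) (r : ρ) : Ns (x r) ∧ Ns (x r)⁻¹ := by
  obtain ⟨X, hl, hi, hc⟩ := h
  rw [← hc r]
  refine ⟨?_, (ind_Ns_inv hU hT hK (indA_ind hi r) (hl r)).1⟩
  exact ((Dl_ne_zero_iff (hl r).symm.le).1 (Dl_ind hT (indA_ind hi r))).2

end

end Pool.Agent.TIFT
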