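import Pool.Agent.TIFT.T1
import Pool.Agent.TIFT.T4
import Pool.Agent.TIFT.K2
import Pool.Agent.TIFT.G7
import Pool.Agent.TIFP.Grid

/-!
# [TIF PIG, PD] The dimension of spaces of functions on `A × A`: numerators in one variable
-/

set_option autoImplicit false
set_option linter.unusedSectionVars false

open Polynomial IsLocalRing

namespace Pool.Agent.TIFT

open GT TIF

section one

variable {d : ℕ} [NeZero d] {Ω : Type} [Field Ω] [IsAlgClosed Ω] {T : Tab Ω d}
  [IsDedekindDomain (WB T)]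

/-- the number of zeros -/
theorem pd_zeros {b : WB T} (hb : b ≠ 0) {X : List (Pt T)} (hX : X.Nodup) (h : ∀ P ∈ X, P b = 0) :
    X.length ≤ pord b := by
  have h1 : b ∈ dI X := (dI_le_iff hX).2 h
  have h2 : Ideal.span {b} ≤ dI X := (Ideal.span_singleton_le_iff_mem _).2 h1
  have h3 := SUP.len_mono (by rwa [Ne, Ideal.span_singleton_eq_bot]) h2
  rwa [len_dI, len_span hb] at h3

theorem pd_h_ne {m : ℕ} {B : Fin m → List (Pt T)} {h : WB T} (hB : Hd B h) : h ≠ 0 := by
  intro h1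
  have := hB.lc
  rw [h1, (lc_eq_zero_iff (0 : WB T)).2 rfl] at this
  exact zero_ne_one this

/-- the zeros of `h` are the points of the `B i` -/
theorem pd_zero_mem {m : ℕ} {B : Fin m → List (Pt T)} {h : WB T} (hB : Hd B h) {P : Pt T}
    (h0 : P h = 0) : ∃ i, P ∈ B i := by
  have h1 : Ideal.span {h} ≤ mP P := (Ideal.span_singleton_le_iff_mem _).2 h0
  rw [hB.div] at h1
  obtain ⟨i, -, hi⟩ := (Ideal.IsPrime.prod_le (RingHom.ker_isPrime _)).1 h1
  exact ⟨i, dI_le_mP.1 hi⟩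

/-- the numerator of a theta monomial -/
noncomputable def pdnm {m : ℕ} (B : Fin m → List (Pt T)) (h : WB T) (X : List (Pt T)) : Ω :=
  (∏ i, Dl (B i ++ X)) / ev h X

theorem pd_th_nm {m : ℕ} (B : Fin m → List (Pt T)) (h : WB T) {X : List (Pt T)} (hX : Dl X ≠ 0) :
    th B h X * Dl X ^ m = pdnm B h X := by
  unfold th pdnm
  rw [div_mul_eq_mul_div, mul_comm (Dl X ^ m) (ev h X), mul_div_mul_right _ _ (pow_ne_zero _ hX)]

/-- the numerator as a function of one of the points -/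
theorem pd_nm_var {m : ℕ} {B : Fin m → List (Pt T)} {h : WB T} (hB : Hd B h) (X₁ X₂ : List (Pt T))
    (hg : gp T ≤ (X₁ ++ X₂).length) (h0 : ev h (X₁ ++ X₂) ≠ 0) :
    ∃ F : WB T, pord F ≤ m * ((X₁ ++ X₂).length + gp T) ∧
      ∀ P : Pt T, P h ≠ 0 → P F = pdnm B h (X₁ ++ P :: X₂) := by
  obtain ⟨F, -, hF1, hF2⟩ := th_last hB hg h0
  refine ⟨(((-1 : Ω) ^ (1 * X₂.length)) ^ m) • F, (pord_smul_le _ _).trans hF1, fun P hP => ?_⟩
  have e1 : ∀ i, Dl (B i ++ (X₁ ++ P :: X₂)) =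
      (-1) ^ (1 * X₂.length) * Dl (B i ++ (X₁ ++ X₂) ++ [P]) := by
    intro i
    have h1 := Dl_swap (B i ++ X₁) [P] X₂ []
    simp only [List.length_singleton, List.append_nil] at h1
    rw [← List.append_assoc (B i) X₁ X₂, ← h1]
    congr 1
    simp
  have e2 : ev h (X₁ ++ P :: X₂) = P h * ev h (X₁ ++ X₂) := by
    have h1 : (X₁ ++ P :: X₂).Perm (P :: (X₁ ++ X₂)) := List.perm_middle
    rw [ev_perm h1]
    unfold ev
    rw [List.map_cons, List.prod_cons]
  unfold pdnm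
  simp only [e1]
  rw [Finset.prod_mul_distrib, Finset.prod_const, Finset.card_univ, Fintype.card_fin, ← hF2 P, e2,
    map_smul, smul_eq_mul, mul_div_assoc, mul_div_assoc, div_self (mul_ne_zero hP h0), mul_one]

end one

end Pool.Agent.TIFT
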