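import Pool.Agent.TIFT.PD1

/-!
# [TIF PIG, PD] The dimension of spaces of functions on `A × A`: the numerator of a product of three
theta monomials as a function of `2 g |ρ|` points
-/

set_option autoImplicit false
set_option linter.unusedSectionVars false

open Polynomial IsLocalRing

namespace Pool.Agent.TIFT

open GT TIF

section conf

variable {k Ω : Type} [Field k] [Field Ω] [Algebra k Ω] [IsAlgClosed Ω] {d : ℕ} [NeZero d]
  {T : Tab Ω d} [IsDedekindDomain (WB T)] {ρ : Type} [Fintype ρ]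

/-- the list of the points with the indices `(b, r, j)`, `j < g` -/
def pdL {g : ℕ} (y : Bool × ρ × Fin g → Pt T) (b : Bool) (r : ρ) : List (Pt T) :=
  List.ofFn fun j => y (b, r, j)

theorem pdL_length {g : ℕ} (y : Bool × ρ × Fin g → Pt T) (b : Bool) (r : ρ) :
    (pdL y b r).length = g := List.length_ofFn

theorem mem_pdL {g : ℕ} (y : Bool × ρ × Fin g → Pt T) (b : Bool) (r : ρ) {P : Pt T}
    (h : P ∈ pdL y b r) : ∃ i, y i = P := by
  obtain ⟨j, hj⟩ := (List.mem_ofFn' _ _).1 h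
  exact ⟨_, hj⟩

theorem pdL_update_ne [DecidableEq ρ] {g : ℕ} (y : Bool × ρ × Fin g → Pt T) (b b₀ : Bool)
    (r r₀ : ρ) (j₀ : Fin g) (P : Pt T) (h : (b, r) ≠ (b₀, r₀)) :
    pdL (Function.update y (b₀, r₀, j₀) P) b r = pdL y b r := by
  unfold pdL
  congr 1
  funext j
  rw [Function.update_of_ne]
  intro h1
  apply h
  rw [Prod.ext_iff] at h1 ⊢
  exact ⟨h1.1, (Prod.ext_iff.1 h1.2).1⟩

theorem pdL_update [DecidableEq ρ] {g : ℕ} (y : Bool × ρ × Fin g → Pt T) (b₀ : Bool) (r₀ : ρ)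
    (j₀ : Fin g) : ∃ X₁ X₂ : List (Pt T), X₁.length + X₂.length + 1 = g ∧
      (∀ P ∈ X₁, ∃ i, y i = P) ∧ (∀ P ∈ X₂, ∃ i, y i = P) ∧
      ∀ P, pdL (Function.update y (b₀, r₀, j₀) P) b₀ r₀ = X₁ ++ P :: X₂ := by
  refine ⟨(pdL y b₀ r₀).take j₀, (pdL y b₀ r₀).drop (j₀ + 1), ?_, ?_, ?_, ?_⟩
  · rw [List.length_take, List.length_drop, pdL_length]
    have := j₀.2
    omega
  · exact fun P hP => mem_pdL y b₀ r₀ (List.mem_of_mem_take hP)
  · exact fun P hP => mem_pdL y b₀ r₀ (List.mem_of_mem_drop hP)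
  · intro P
    have h1 : pdL (Function.update y (b₀, r₀, j₀) P) b₀ r₀ = (pdL y b₀ r₀).set j₀ P := by
      apply List.ext_getElem
      · rw [List.length_set, pdL_length, pdL_length]
      · intro n h2 h3
        rw [List.getElem_set]
        unfold pdL
        rw [List.getElem_ofFn, List.getElem_ofFn]
        split_ifs with h4
        · have : (⟨n, by simpa [pdL_length] using h2⟩ : Fin g) = j₀ := Fin.ext h4.symm
          rw [this, Function.update_self]
        · rw [Function.update_of_ne]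
          intro h5
          apply h4
          have h6 := (Prod.ext_iff.1 (Prod.ext_iff.1 h5).2).2
          exact (congrArg Fin.val h6).symm
    rw [h1, List.set_eq_take_append_cons_drop, if_pos (by rw [pdL_length]; exact j₀.2)]

/-- the numerator -/
noncomputable def pdNm {K : IntermediateField k Ω} {m₁ m₂ m₃ g : ℕ} (D₁ : TD k T ρ K m₁)
    (D₂ : TD k T ρ K m₂) (D₃ : TD k T ρ K m₃) (C : List (Pt T)) (A : ρ → List (Pt T))
    (y : Bool × ρ × Fin g → Pt T) : Ω :=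
  ∏ r, (pdnm (D₁.B r) (D₁.h r) (C ++ pdL y false r) * pdnm (D₂.B r) (D₂.h r) (C ++ pdL y true r) *
    pdnm (D₃.B r) (D₃.h r) (A r ++ pdL y false r ++ pdL y true r))

/-- `S` contains the zeros of the `h r` -/
def pdAv {K : IntermediateField k Ω} {m : ℕ} (D : TD k T ρ K m) (S : List (Pt T)) : Prop :=
  ∀ r i, ∀ P ∈ D.B r i, P ∈ S

theorem pdAv.ne {K : IntermediateField k Ω} {m : ℕ} {D : TD k T ρ K m} {S : List (Pt T)}
    (h : pdAv D S) (r : ρ) {P : Pt T} (hP : P ∉ S) : P (D.h r) ≠ 0 := by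
  intro h0
  obtain ⟨i, hi⟩ := pd_zero_mem (D.hd r) h0
  exact hP (h r i P hi)

theorem pdAv.ev {K : IntermediateField k Ω} {m : ℕ} {D : TD k T ρ K m} {S : List (Pt T)}
    (h : pdAv D S) (r : ρ) {X : List (Pt T)} (hX : ∀ P ∈ X, P ∉ S) : ev (D.h r) X ≠ 0 := by
  intro h0
  obtain ⟨P, hP, h1⟩ := (ev_eq_zero_iff _ _).1 h0
  exact h.ne r (hX P hP) h1

/-- one variable -/
theorem pd_Nm_var [DecidableEq ρ] {K : IntermediateField k Ω} {m₁ m₂ m₃ g c : ℕ} (D₁ : TD k T ρ K m₁)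
    (D₂ : TD k T ρ K m₂) (D₃ : TD k T ρ K m₃) (C : List (Pt T)) (A : ρ → List (Pt T))
    (y : Bool × ρ × Fin g → Pt T) (S : List (Pt T)) (h₁ : pdAv D₁ S) (h₂ : pdAv D₂ S) (h₃ : pdAv D₃ S)
    (hC : ∀ P ∈ C, P ∉ S) (hA : ∀ r, ∀ P ∈ A r, P ∉ S) (hy : ∀ i, y i ∉ S)
    (hCg : gp T ≤ C.length) (hAg : ∀ r, gp T ≤ (A r).length) (hCc : C.length + g + g + gp T ≤ c)
    (hAc : ∀ r, (A r).length + g + g + gp T ≤ c) (i : Bool × ρ × Fin g) :
    ∃ N : WB T, pord N ≤ c * (m₁ + m₂ + m₃) ∧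
      ∀ P : Pt T, P ∉ S → P N = pdNm D₁ D₂ D₃ C A (Function.update y i P) := by
  obtain ⟨b₀, r₀, j₀⟩ := i
  obtain ⟨X₁, X₂, hlen, hX₁, hX₂, hX⟩ := pdL_update y b₀ r₀ j₀
  have hX₁' : ∀ P ∈ X₁, P ∉ S := fun P hP => by
    obtain ⟨i, rfl⟩ := hX₁ P hP
    exact hy i
  have hX₂' : ∀ P ∈ X₂, P ∉ S := fun P hP => by
    obtain ⟨i, rfl⟩ := hX₂ P hP
    exact hy i
  have hcL : ∀ b r, ∀ P ∈ pdL y b r, P ∉ S := fun b r P hP => by
    obtain ⟨i, rfl⟩ := mem_pdL y b r hP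
    exact hy i
  have happ : ∀ {X Y : List (Pt T)}, (∀ P ∈ X, P ∉ S) → (∀ P ∈ Y, P ∉ S) → ∀ P ∈ X ++ Y, P ∉ S :=
    fun hX hY P hP => (List.mem_append.1 hP).elim (hX P) (hY P)
  -- the factors with another index
  have hrest : ∀ P, ∀ r ∈ Finset.univ.erase r₀,
      (pdnm (D₁.B r) (D₁.h r) (C ++ pdL (Function.update y (b₀, r₀, j₀) P) false r) *
        pdnm (D₂.B r) (D₂.h r) (C ++ pdL (Function.update y (b₀, r₀, j₀) P) true r) *
        pdnm (D₃.B r) (D₃.h r) (A r ++ pdL (Function.update y (b₀, r₀, j₀) P) false r ++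
          pdL (Function.update y (b₀, r₀, j₀) P) true r)) =
      (pdnm (D₁.B r) (D₁.h r) (C ++ pdL y false r) * pdnm (D₂.B r) (D₂.h r) (C ++ pdL y true r) *
        pdnm (D₃.B r) (D₃.h r) (A r ++ pdL y false r ++ pdL y true r)) := by
    intro P r hr
    have hr' : r ≠ r₀ := Finset.ne_of_mem_erase hr
    rw [pdL_update_ne y false b₀ r r₀ j₀ P (fun h => hr' (Prod.ext_iff.1 h).2),
      pdL_update_ne y true b₀ r r₀ j₀ P (fun h => hr' (Prod.ext_iff.1 h).2)]
  have hmul : ∀ u v : WB T, pord (u * v) ≤ pord u + pord v := by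
    intro u v
    by_cases hu : u = 0
    · rw [hu, zero_mul]
      exact (mem_Ble_iff _ _).1 (Submodule.zero_mem _)
    by_cases hv : v = 0
    · rw [hv, mul_zero]
      exact (mem_Ble_iff _ _).1 (Submodule.zero_mem _)
    exact (pord_mul hu hv).le
  cases b₀ with
  | false =>
    obtain ⟨F₁, hF₁, hF₁'⟩ := pd_nm_var (D₁.hd r₀) (C ++ X₁) X₂ (by
      simp only [List.length_append]
      omega) (h₁.ev r₀ (happ (happ hC hX₁') hX₂'))
    obtain ⟨F₃, hF₃, hF₃'⟩ := pd_nm_var (D₃.hd r₀) (A r₀ ++ X₁) (X₂ ++ pdL y true r₀) (by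
      simp only [List.length_append]
      have := hAg r₀
      omega) (h₃.ev r₀ (happ (happ (hA r₀) hX₁') (happ hX₂' (hcL true r₀))))
    refine ⟨((∏ r ∈ Finset.univ.erase r₀, (pdnm (D₁.B r) (D₁.h r) (C ++ pdL y false r) *
      pdnm (D₂.B r) (D₂.h r) (C ++ pdL y true r) *
        pdnm (D₃.B r) (D₃.h r) (A r ++ pdL y false r ++ pdL y true r))) *
      pdnm (D₂.B r₀) (D₂.h r₀) (C ++ pdL y true r₀)) • (F₁ * F₃), ?_, fun P hP => ?_⟩
    · refine (pord_smul_le _ _).trans ((hmul _ _).trans ((add_le_add hF₁ hF₃).trans ?_))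
      simp only [List.length_append, pdL_length]
      have h4 : C.length + X₁.length + X₂.length + gp T ≤ c := by omega
      have h5 : (A r₀).length + X₁.length + (X₂.length + g) + gp T ≤ c := by
        have := hAc r₀
        omega
      calc m₁ * (C.length + X₁.length + X₂.length + gp T) +
          m₃ * ((A r₀).length + X₁.length + (X₂.length + g) + gp T) ≤ m₁ * c + m₃ * c :=
            add_le_add (Nat.mul_le_mul_left _ h4) (Nat.mul_le_mul_left _ h5)
        _ ≤ c * (m₁ + m₂ + m₃) := by nlinarith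
    · unfold pdNm
      rw [← Finset.mul_prod_erase _ _ (Finset.mem_univ r₀), Finset.prod_congr rfl (hrest P), hX P,
        pdL_update_ne y true false r₀ r₀ j₀ P (fun h => Bool.noConfusion (Prod.ext_iff.1 h).1)]
      have e1 : C ++ (X₁ ++ P :: X₂) = (C ++ X₁) ++ P :: X₂ := by simp
      have e3 : A r₀ ++ (X₁ ++ P :: X₂) ++ pdL y true r₀ =
          (A r₀ ++ X₁) ++ P :: (X₂ ++ pdL y true r₀) := by simp
      rw [e1, e3, ← hF₁' P (h₁.ne r₀ hP), ← hF₃' P (h₃.ne r₀ hP), map_smul, smul_eq_mul, map_mul]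
      ring
  | true =>
    obtain ⟨F₂, hF₂, hF₂'⟩ := pd_nm_var (D₂.hd r₀) (C ++ X₁) X₂ (by
      simp only [List.length_append]
      omega) (h₂.ev r₀ (happ (happ hC hX₁') hX₂'))
    obtain ⟨F₃, hF₃, hF₃'⟩ := pd_nm_var (D₃.hd r₀) (A r₀ ++ pdL y false r₀ ++ X₁) X₂ (by
      simp only [List.length_append]
      have := hAg r₀
      omega) (h₃.ev r₀ (happ (happ (happ (hA r₀) (hcL false r₀)) hX₁') hX₂'))
    refine ⟨((∏ r ∈ Finset.univ.erase r₀, (pdnm (D₁.B r) (D₁.h r) (C ++ pdL y false r) *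
      pdnm (D₂.B r) (D₂.h r) (C ++ pdL y true r) *
        pdnm (D₃.B r) (D₃.h r) (A r ++ pdL y false r ++ pdL y true r))) *
      pdnm (D₁.B r₀) (D₁.h r₀) (C ++ pdL y false r₀)) • (F₂ * F₃), ?_, fun P hP => ?_⟩
    · refine (pord_smul_le _ _).trans ((hmul _ _).trans ((add_le_add hF₂ hF₃).trans ?_))
      simp only [List.length_append, pdL_length]
      have h4 : C.length + X₁.length + X₂.length + gp T ≤ c := by omega
      have h5 : (A r₀).length + g + X₁.length + X₂.length + gp T ≤ c := by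
        have := hAc r₀
        omega
      calc m₂ * (C.length + X₁.length + X₂.length + gp T) +
          m₃ * ((A r₀).length + g + X₁.length + X₂.length + gp T) ≤ m₂ * c + m₃ * c :=
            add_le_add (Nat.mul_le_mul_left _ h4) (Nat.mul_le_mul_left _ h5)
        _ ≤ c * (m₁ + m₂ + m₃) := by nlinarith
    · unfold pdNm
      rw [← Finset.mul_prod_erase _ _ (Finset.mem_univ r₀), Finset.prod_congr rfl (hrest P), hX P,
        pdL_update_ne y false true r₀ r₀ j₀ P (fun h => Bool.noConfusion (Prod.ext_iff.1 h).1)]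
      have e1 : C ++ (X₁ ++ P :: X₂) = (C ++ X₁) ++ P :: X₂ := by simp
      have e3 : A r₀ ++ pdL y false r₀ ++ (X₁ ++ P :: X₂) =
          (A r₀ ++ pdL y false r₀ ++ X₁) ++ P :: X₂ := by simp
      rw [e1, e3, ← hF₂' P (h₂.ne r₀ hP), ← hF₃' P (h₃.ne r₀ hP), map_smul, smul_eq_mul, map_mul]
      ring

end conf

end Pool.Agent.TIFT
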