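import Pool.Agent.TIFT.PD2

/-!
# [TIF PIG, PD] The dimension of spaces of functions on `A × A`: the grid
-/

set_option autoImplicit false
set_option linter.unusedSectionVars false

open Polynomial IsLocalRing

namespace Pool.Agent.TIFT

open GT TIF

section grid

variable {k Ω : Type} [Field k] [Field Ω] [Algebra k Ω] [IsAlgClosed Ω] {d : ℕ} [NeZero d]
  {T : Tab Ω d} [IsDedekindDomain (WB T)] {ρ : Type} [Fintype ρ]

/-- many points over `K` -/
theorem pd_pts (hT : Tk k T) (K : IntermediateField k Ω) [IsAlgClosed K] (S : List (Pt T)) (D : ℕ) :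
    ∃ Q : Fin D → Pt T, Function.Injective Q ∧ (∀ s, Q s ∉ S) ∧ ∀ s, PK k (K : Set Ω) (Q s) := by
  obtain ⟨X, hX1, hX2, -, hX3, hX4⟩ := exists_repK hT K (JK_one hT K) S
    (le_max_left (nT T) D)
  have hD : D ≤ X.length := by
    rw [hX3]
    exact le_max_right _ _
  refine ⟨fun s => X.get (Fin.castLE hD s), fun s t h => ?_, fun s => hX2 _ (List.get_mem _ _),
    fun s => hX4 _ (List.get_mem _ _)⟩
  exact Fin.castLE_injective hD (hX1.injective_get h)

private theorem pd_dI_flatten (L : List (List (Pt T))) : dI L.flatten = (L.map dI).prod := by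
  induction L with
  | nil => rw [List.flatten_nil, List.map_nil, List.prod_nil, dI_nil, Ideal.one_eq_top]
  | cons X L ih => rw [List.flatten_cons, dI_append, ih, List.map_cons, List.prod_cons]

/-- the denominator has coefficients in `K` -/
theorem pd_h_cf (hT : Tk k T) {K : IntermediateField k Ω} {m : ℕ} (D : TD k T ρ K m) (r : ρ) :
    Cf (K : Set Ω) (D.h r) := by
  have hh : D.h r ≠ 0 := pd_h_ne (D.hd r)
  have h1 : Ideal.span {D.h r} = dI (List.ofFn (D.B r)).flatten := by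
    rw [pd_dI_flatten, List.map_ofFn, List.prod_ofFn, (D.hd r).div]
    rfl
  have h2 : RatI (K : Set Ω) (Ideal.span {D.h r}) := by
    rw [h1]
    refine ratI_dI hT K fun P hP => ?_
    obtain ⟨X, hX, hPX⟩ := List.mem_flatten.1 hP
    obtain ⟨i, rfl⟩ := (List.mem_ofFn' _ _).1 hX
    exact D.pk r i P hPX
  refine (ratI_iff hT K (by rwa [Ne, Ideal.span_singleton_eq_bot])).1 h2 (pord (D.h r)) (D.h r) ?_
  refine ⟨Ideal.mem_span_singleton_self _, rfl, (D.hd r).lc, fun c hc hc0 hlt => ?_⟩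
  obtain ⟨b, rfl⟩ := Ideal.mem_span_singleton.1 hc
  exfalso
  have hb : b ≠ 0 := right_ne_zero_of_mul hc0
  rw [pord_mul hh hb] at hlt
  omega

theorem pd_h_val (hT : Tk k T) {K : IntermediateField k Ω} [IsAlgClosed K] {m : ℕ}
    (D : TD k T ρ K m) (r : ρ) {P : Pt T} (hP : PK k (K : Set Ω) P) : P (D.h r) ∈ K := by
  have h1 := g_acl hT (K := K) (P := P) (pd_h_cf hT D r)
  have h2 : ad K {xx P} ≤ K := ad_le le_rfl (by simpa using (PK_iff_xx hT K P).1 hP)
  have h3 := acl_mono h2 h1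
  rwa [g_acl_eq] at h3

theorem pd_nm_mem (hT : Tk k T) {K : IntermediateField k Ω} [IsAlgClosed K] {m : ℕ}
    (D : TD k T ρ K m) (r : ρ) {X : List (Pt T)} (hX : ∀ P ∈ X, PK k (K : Set Ω) P) :
    pdnm (D.B r) (D.h r) X ∈ K := by
  unfold pdnm
  refine K.div_mem (K.prod_mem fun i _ => Dl_mem hT K fun P hP => ?_) ?_
  · rcases List.mem_append.1 hP with h | h
    · exact D.pk r i P h
    · exact hX P h
  · unfold ev
    refine K.toSubfield.list_prod_mem fun c hc => ?_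
    obtain ⟨P, hP, rfl⟩ := List.mem_map.1 hc
    exact pd_h_val hT D r (hX P hP)

theorem pd_Nm_mem (hT : Tk k T) {K : IntermediateField k Ω} [IsAlgClosed K] {m₁ m₂ m₃ g : ℕ}
    (D₁ : TD k T ρ K m₁) (D₂ : TD k T ρ K m₂) (D₃ : TD k T ρ K m₃) {C : List (Pt T)}
    {A : ρ → List (Pt T)} (hC : ∀ P ∈ C, PK k (K : Set Ω) P)
    (hA : ∀ r, ∀ P ∈ A r, PK k (K : Set Ω) P) {y : Bool × ρ × Fin g → Pt T}
    (hy : ∀ i, PK k (K : Set Ω) (y i)) : pdNm D₁ D₂ D₃ C A y ∈ K := by
  have hcL : ∀ b r, ∀ P ∈ pdL y b r, PK k (K : Set Ω) P := fun b r P hP => by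
    obtain ⟨i, rfl⟩ := mem_pdL y b r hP
    exact hy i
  have happ : ∀ {X Y : List (Pt T)}, (∀ P ∈ X, PK k (K : Set Ω) P) →
      (∀ P ∈ Y, PK k (K : Set Ω) P) → ∀ P ∈ X ++ Y, PK k (K : Set Ω) P :=
    fun hX hY P hP => (List.mem_append.1 hP).elim (hX P) (hY P)
  unfold pdNm
  refine K.prod_mem fun r _ => K.mul_mem (K.mul_mem ?_ ?_) ?_
  · exact pd_nm_mem hT D₁ r (happ hC (hcL _ _))
  · exact pd_nm_mem hT D₂ r (happ hC (hcL _ _))
  · exact pd_nm_mem hT D₃ r (happ (happ (hA r) (hcL _ _)) (hcL _ _))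

/-- many numerators are linearly dependent over `K` -/
theorem pd_grid (hT : Tk k T) {K : IntermediateField k Ω} [IsAlgClosed K] {m₁ m₂ m₃ g c : ℕ}
    (C : List (Pt T)) (A : ρ → List (Pt T)) (S : List (Pt T)) (hC : ∀ P ∈ C, P ∉ S)
    (hA : ∀ r, ∀ P ∈ A r, P ∉ S) (hC' : ∀ P ∈ C, PK k (K : Set Ω) P)
    (hA' : ∀ r, ∀ P ∈ A r, PK k (K : Set Ω) P) (hCg : gp T ≤ C.length)
    (hAg : ∀ r, gp T ≤ (A r).length) (hCc : C.length + g + g + gp T ≤ c)
    (hAc : ∀ r, (A r).length + g + g + gp T ≤ c) {n : ℕ}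
    (hn : (c * (m₁ + m₂ + m₃) + 1) ^ (2 * (g * Fintype.card ρ)) < n)
    (D₁ : Fin n → TD k T ρ K m₁) (D₂ : Fin n → TD k T ρ K m₂) (D₃ : Fin n → TD k T ρ K m₃)
    (h₁ : ∀ l, pdAv (D₁ l) S) (h₂ : ∀ l, pdAv (D₂ l) S) (h₃ : ∀ l, pdAv (D₃ l) S)
    (Y : Bool × ρ × Fin g → Pt T) (hY : ∀ i, Y i ∉ S) :
    ∃ a : Fin n → K, a ≠ 0 ∧ ∑ l, a l • pdNm (D₁ l) (D₂ l) (D₃ l) C A Y = 0 := by
  classical
  obtain ⟨Q, hQ1, hQ2, hQ3⟩ := pd_pts hT K S (c * (m₁ + m₂ + m₃) + 1)
  have hcard : Fintype.card (Bool × ρ × Fin g) = 2 * (g * Fintype.card ρ) := by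
    rw [Fintype.card_prod, Fintype.card_prod, Fintype.card_bool, Fintype.card_fin,
      Nat.mul_comm (Fintype.card ρ)]
  let e : Bool × ρ × Fin g ≃ Fin (2 * (g * Fintype.card ρ)) := Fintype.equivFinOfCardEq hcard
  have hup : ∀ (x : Fin (2 * (g * Fintype.card ρ)) → Pt T) (i : Fin (2 * (g * Fintype.card ρ)))
      (P : Pt T), Function.update x i P ∘ e = Function.update (x ∘ e) (e.symm i) P := by
    intro x i P
    rw [Function.update_comp_equiv]
  have key := Pool.Agent.TIFP.grid (K := K) (Ω := Ω) (X := Pt T) hn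
    (fun l x => pdNm (D₁ l) (D₂ l) (D₃ l) C A (x ∘ e)) (fun _ => Q) (Y ∘ e.symm) ?_ ?_
  · obtain ⟨a, ha, h⟩ := key
    refine ⟨a, ha, ?_⟩
    have e1 : (Y ∘ e.symm) ∘ e = Y := by
      funext i
      simp
    simpa only [e1] using h
  · intro l s
    exact ⟨⟨_, pd_Nm_mem hT (D₁ l) (D₂ l) (D₃ l) hC' hA' (y := (fun i => Q (s i)) ∘ e)
      fun i => hQ3 _⟩, rfl⟩
  · intro a i x hx1 hx2 hz
    -- all points are outside `S`
    obtain ⟨x', hx'⟩ : ∃ x', x' = Function.update x i ((Y ∘ e.symm) i) := ⟨_, rfl⟩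
    have hx'S : ∀ j, x' j ∉ S := by
      intro j
      rw [hx']
      rcases lt_trichotomy j i with h | h | h
      · rw [Function.update_of_ne h.ne, hx1 j h]
        exact hY _
      · subst h
        rw [Function.update_self]
        exact hY _
      · rw [Function.update_of_ne h.ne']
        obtain ⟨s, hs⟩ := hx2 j h
        rw [hs]
        exact hQ2 s
    have hxx : ∀ P, Function.update x i P = Function.update x' i P := by
      intro P
      rw [hx', Function.update_idem]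
    simp only [hxx, hup] at hz ⊢
    have hvar := fun l => pd_Nm_var (D₁ l) (D₂ l) (D₃ l) C A (x' ∘ e) S (h₁ l) (h₂ l) (h₃ l) hC hA
      (fun j => hx'S _) hCg hAg hCc hAc (e.symm i)
    choose N hN1 hN2 using hvar
    have hsum : ∀ P : Pt T, P ∉ S → P (∑ l, a l • N l) =
        ∑ l, a l • pdNm (D₁ l) (D₂ l) (D₃ l) C A (Function.update (x' ∘ e) (e.symm i) P) := by
      intro P hP
      rw [map_sum]
      refine Finset.sum_congr rfl fun l _ => ?_
      have h4 : a l • N l = (a l : Ω) • N l := rfl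
      rw [h4, map_smul, hN2 l P hP]
      rfl
    have hord : pord (∑ l, a l • N l) ≤ c * (m₁ + m₂ + m₃) := by
      rw [← mem_Ble_iff]
      refine Submodule.sum_mem _ fun l _ => ?_
      have h4 : a l • N l = (a l : Ω) • N l := rfl
      rw [h4]
      exact Submodule.smul_mem _ _ ((mem_Ble_iff _ _).2 (hN1 l))
    have h0 : (∑ l, a l • N l) = 0 := by
      by_contra hne
      have h5 := pd_zeros hne (X := List.ofFn Q) (List.nodup_ofFn.2 hQ1) (by
        intro P hP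
        obtain ⟨s, rfl⟩ := (List.mem_ofFn' _ _).1 hP
        rw [hsum _ (hQ2 s)]
        exact hz s)
      rw [List.length_ofFn] at h5
      omega
    rw [← hsum ((Y ∘ e.symm) i) (hY _), h0, map_zero]

end grid

end Pool.Agent.TIFT
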