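import Pool.Agent.TIFT.U0

/-!
# [TIF, block THETA] row U1

Let l be a list of all r (Finset.univ.toList), flat X := l.flatMap X; indA_iff (G3) translates IndA to Ind of flat. X, X' the lists of x, x' (GenA). K₁ := kL (kL K (flat X)) (flat X') is Small (small_kL). Let C be independent over K₁, |C r| = gp (exists_genA over K₁, unfold GenA). Then Ind K (flat X ++ flat C), permute: Ind K (flat C ++ flat X), so Ind K_C (flat X) with K_C := kL K (flat C) (ind_append), i.e. GenA K_C x. z r := (cl (C r))⁻¹ is rational over K_C (JK_inv, cl_mem_JK: the points of C are over K_C; JK_mono to acl K_C), so GenA K_C (x * z) (genA_mul, small_kL): Y with IndA K_C Y, |Y r| = gp, cl (Y r) = x r * (cl (C r))⁻¹. Ind K (flat C ++ flat Y), and flatMap (C r ++ Y r) is a permutation of it (List.flatMap_append_perm). Same for x'.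
-/

set_option autoImplicit false
set_option linter.unusedSectionVars false

open Polynomial IsLocalRing

namespace Pool.Agent.TIFT

open GT TIF

section

variable {k Ω : Type} [Field k] [Field Ω] [Algebra k Ω] [IsAlgClosed Ω] {d : ℕ} [NeZero d]
  {T : Tab Ω d} [IsDedekindDomain (WB T)] {ρ : Type} [Fintype ρ]

private theorem u1_mem (r : ρ) : r ∈ (Finset.univ : Finset ρ).toList :=
  Finset.mem_toList.2 (Finset.mem_univ r)

private theorem u1_aux (hU : Univ k Ω) (hT : Tk k T) {K : IntermediateField k Ω} (hK : Small K)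
    {x : ρ → ClassGroup (WB T)} {X C : ρ → List (Pt T)} (hX : IndA K X)
    (hXl : ∀ r, (X r).length = gp T) (hXc : ∀ r, cl (X r) = x r)
    (hC : Ind (kL K ((Finset.univ : Finset ρ).toList.flatMap X))
      ((Finset.univ : Finset ρ).toList.flatMap C)) :
    ∃ Y : ρ → List (Pt T), (∀ r, (Y r).length = gp T) ∧ IndA K (fun r => C r ++ Y r) ∧
      ∀ r, cl (C r ++ Y r) = x r := by
  have hl : ((Finset.univ : Finset ρ).toList).Nodup := Finset.nodup_toList _
  have hl' : ∀ r, r ∈ (Finset.univ : Finset ρ).toList := u1_mem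
  have h1 := (ind_append hT).2 ⟨(indA_iff hl hl').1 hX, hC⟩
  have h2 := (ind_perm List.perm_append_comm).1 h1
  obtain ⟨h3, h4⟩ := (ind_append hT).1 h2
  have h5 : GenA (kL K ((Finset.univ : Finset ρ).toList.flatMap C)) x :=
    ⟨X, hXl, (indA_iff hl hl').2 h4, hXc⟩
  have hz : ∀ r, (fun r => (cl (C r))⁻¹) r ∈
      JK (T := T) (acl (kL K ((Finset.univ : Finset ρ).toList.flatMap C)) : Set Ω) := by
    intro r
    refine JK_mono (le_acl _) (JK_inv hT _ (cl_mem_JK hT _ fun P hP => ?_))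
    exact (PK_iff_kP _ P).2 (g_kP_le_kL K (List.mem_flatMap.2 ⟨r, hl' r, hP⟩))
  obtain ⟨Y, hYl, hYi, hYc⟩ := genA_mul hU hT (small_kL hT hK _) h5 hz
  refine ⟨Y, hYl, ?_, fun r => ?_⟩
  · refine (indA_iff hl hl').2 ?_
    refine (ind_perm (List.flatMap_append_perm _ C Y)).1 ?_
    exact (ind_append hT).2 ⟨h3, (indA_iff hl hl').1 hYi⟩
  · rw [cl_append, hYc r]
    show cl (C r) * (x r * (cl (C r))⁻¹) = x r
    rw [mul_comm (x r), mul_inv_cancel_left]

theorem exists_CY (hU : Univ k Ω) (hT : Tk k T) {K : IntermediateField k Ω} (hK : Small K)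
    {x x' : ρ → ClassGroup (WB T)} (hx : GenA K x) (hx' : GenA K x') :
    ∃ C Y Y' : ρ → List (Pt T),
      (∀ r, (C r).length = gp T ∧ (Y r).length = gp T ∧ (Y' r).length = gp T) ∧
      IndA K (fun r => C r ++ Y r) ∧ IndA K (fun r => C r ++ Y' r) ∧
      (∀ r, cl (C r ++ Y r) = x r) ∧ ∀ r, cl (C r ++ Y' r) = x' r := by
  have hl : ((Finset.univ : Finset ρ).toList).Nodup := Finset.nodup_toList _
  have hl' : ∀ r, r ∈ (Finset.univ : Finset ρ).toList := u1_mem
  obtain ⟨X, hXl, hXi, hXc⟩ := hx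
  obtain ⟨X', hXl', hXi', hXc'⟩ := hx'
  obtain ⟨w, C, hCl, hCi, -⟩ := exists_genA (ρ := ρ) hU T
    (small_kL hT (small_kL hT hK ((Finset.univ : Finset ρ).toList.flatMap X))
      ((Finset.univ : Finset ρ).toList.flatMap X'))
  have hC := (indA_iff hl hl').1 hCi
  obtain ⟨Y, h1, h2, h3⟩ := u1_aux hU hT hK hXi hXl hXc (ind_mono (le_kL _ _) hC)
  obtain ⟨Y', h1', h2', h3'⟩ := u1_aux hU hT hK hXi' hXl' hXc'
    (ind_mono (kL_le ((le_kL _ _).trans (le_kL _ _)) fun P hP => g_kP_le_kL _ hP) hC)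
  exact ⟨C, Y, Y', fun r => ⟨hCl r, h1 r, h1' r⟩, h2, h2', h3, h3'⟩

end

end Pool.Agent.TIFT
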