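import Pool.Agent.TIFT.U0

/-!
# [TIF, block THETA] row U2a

exists_Tr: exists_repK for b r outside S, Nt.exists, Nt.hd. pk': B r i = A r for i = ⟨0, hn⟩. eval: tmf_eval with Y = X and Y r = X r ++ A r, Dl_B_ne, ev_ne (not_PK), genA_mul (Tr.mem_JK, JK_mono).
-/

set_option autoImplicit false
set_option linter.unusedSectionVars false

open Polynomial IsLocalRing

namespace Pool.Agent.TIFT

open GT TIF

section

variable {k Ω : Type} [Field k] [Field Ω] [Algebra k Ω] [IsAlgClosed Ω] {d : ℕ} [NeZero d]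
  {T : Tab Ω d} [IsDedekindDomain (WB T)] {ρ : Type} [Fintype ρ]

theorem exists_Tr (hT : Tk k T) (K : IntermediateField k Ω) [IsAlgClosed K] {n : ℕ}
    {b : ρ → ClassGroup (WB T)} (hb : ∀ r, b r ^ n = 1) (hK : ∀ r, b r ∈ JK (T := T) (K : Set Ω))
    (S : List (Pt T)) : ∃ t : Tr T ρ K n b, ∀ r, ∀ P ∈ t.A r, P ∉ S := by
  choose A h1 h2 h3 _ h5 using fun r => exists_repK hT K (hK r) S (le_refl (nT T))
  have h6 : ∀ r, ∃ f, Nt n (A r) f := fun r => Nt.exists (by rw [h3 r]; exact hb r)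
  choose f hf using h6
  exact ⟨{ B := fun r _ => A r
           h := f
           hd := fun r => (hf r).hd
           nd := fun r _ => h1 r
           pk := fun r _ => h5 r
           A := A
           eq := fun _ _ => rfl
           cl_eq := h3
           nt := hf }, h2⟩

theorem Tr.pk' {K : IntermediateField k Ω} {n : ℕ} (hn : 0 < n) {b : ρ → ClassGroup (WB T)}
    (t : Tr T ρ K n b) (r : ρ) : (∀ P ∈ t.A r, PK k (K : Set Ω) P) ∧ (t.A r).Nodup := by
  rw [← t.eq r ⟨0, hn⟩]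
  exact ⟨t.pk r _, t.nd r _⟩

theorem Tr.mem_JK (hT : Tk k T) {K : IntermediateField k Ω} {n : ℕ} (hn : 0 < n)
    {b : ρ → ClassGroup (WB T)} (t : Tr T ρ K n b) (r : ρ) : b r ∈ JK (T := T) (K : Set Ω) := by
  rw [← t.cl_eq r]
  exact cl_mem_JK hT K (t.pk' hn r).1

theorem Tr.pow {K : IntermediateField k Ω} {n : ℕ} {b : ρ → ClassGroup (WB T)}
    (t : Tr T ρ K n b) (r : ρ) : b r ^ n = 1 := by
  have h1 : (t.h r) ≠ 0 := by
    intro h0
    have := (t.nt r).lc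
    rw [h0, a3_lc_zero] at this
    exact zero_ne_one this
  have hp : ∀ m : ℕ, cls (dI (t.A r) ^ m) = cls (dI (t.A r)) ^ m := by
    intro m
    induction m with
    | zero => rw [pow_zero, pow_zero, Ideal.one_eq_top, ← Ideal.span_singleton_one, cls_span one_ne_zero]
    | succ m ih =>
      rw [pow_succ, cls_mul (pow_ne_zero m (dI_ne_bot _)) (dI_ne_bot _), ih, pow_succ]
  rw [← t.cl_eq r, cl, ← hp, ← (t.nt r).div, cls_span h1]

/-- the translate of a generic class, and its representative `X ++ A` -/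
theorem Tr.eval (hU : Univ k Ω) (hT : Tk k T) {K : IntermediateField k Ω} (hK : Small K) {n m : ℕ}
    (hn : 0 < n) {b : ρ → ClassGroup (WB T)} (t : Tr T ρ K n b) (D : TD k T ρ K m)
    (hd : ∀ r i, ∀ P ∈ t.A r, P ∉ D.B r i) {X : ρ → List (Pt T)} (hX : IndA K X)
    (hg : ∀ r, (X r).length = gp T) :
    (∀ r, Dl (X r) ≠ 0 ∧ Dl (X r ++ t.A r) ≠ 0 ∧ ev (t.h r) (X r) ≠ 0 ∧ ev (D.h r) (t.A r) ≠ 0 ∧
      ev (D.h r) (X r) ≠ 0) ∧ GenA K ((fun r => cl (X r)) * b) ∧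
    tmf t.toTD (fun r => cl (X r)) = ∏ r, th (fun _ : Fin n => t.A r) (t.h r) (X r) ∧
    tmf D ((fun r => cl (X r)) * b) = ∏ r, th (D.B r) (D.h r) (X r ++ t.A r) := by
  have hx : GenA K (fun r => cl (X r)) := ⟨X, hg, hX, fun _ => rfl⟩
  have hxb : GenA K ((fun r => cl (X r)) * b) :=
    genA_mul hU hT hK hx fun r => JK_mono (le_acl K) (Tr.mem_JK hT hn t r)
  have hg' : ∀ r, gp T ≤ (X r).length := fun r => (hg r).ge
  have h1 : ∀ r, Dl (X r) ≠ 0 := fun r => Dl_ind hT (hX.ind r)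
  have h2 : ∀ r, Dl (X r ++ t.A r) ≠ 0 := fun r =>
    (Dl_B_ne hU hT hK hX hg' (t.pk' hn r).2 (t.pk' hn r).1 r).2
  have h3 : ∀ r, ev (t.h r) (X r) ≠ 0 := fun r =>
    t.toTD.ev_ne r fun P hP i hi => not_PK (hX.ind r) hP (t.pk r i P hi)
  have h4 : ∀ r, ev (D.h r) (t.A r) ≠ 0 := fun r =>
    D.ev_ne r fun P hP i => hd r i P hP
  have h5 : ∀ r, ev (D.h r) (X r) ≠ 0 := fun r =>
    D.ev_ne r fun P hP i hi => not_PK (hX.ind r) hP (D.pk r i P hi)
  refine ⟨fun r => ⟨h1 r, h2 r, h3 r, h4 r, h5 r⟩, hxb, ?_, ?_⟩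
  · rw [tmf_eval t.toTD hx hg' h1 (fun _ => rfl) h3]
    refine Finset.prod_congr rfl fun r _ => ?_
    rw [show t.B r = fun _ : Fin n => t.A r from funext fun i => t.eq r i]
  · refine tmf_eval D hxb (fun r => ?_) h2 (fun r => ?_) fun r => ?_
    · rw [List.length_append]
      exact (hg' r).trans (Nat.le_add_right _ _)
    · rw [cl_append, t.cl_eq r]
      rfl
    · rw [ev_append]
      exact mul_ne_zero (h5 r) (h4 r)

end

end Pool.Agent.TIFT
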