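import Pool.Agent.TIFT.U2a

/-!
# [TIF, block THETA] row U2b

The translate of a theta monomial by a torsion class is a theta monomial up to a constant.
-/

set_option autoImplicit false
set_option linter.unusedSectionVars false

open Polynomial IsLocalRing

namespace Pool.Agent.TIFT

open GT TIF Pool.Agent.TIFP

section

variable {k Ω : Type} [Field k] [Field Ω] [Algebra k Ω] [IsAlgClosed Ω] {d : ℕ} [NeZero d]
  {T : Tab Ω d} [IsDedekindDomain (WB T)] {ρ : Type} [Fintype ρ]

private theorem u2b_P (K : IntermediateField k Ω) {P : Pt T} (hP : PK k (K : Set Ω) P) {b : WB T}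
    (hb : Cf (K : Set Ω) b) : P b ∈ K := by
  have h1 : P b = ((eW T).repr b).sum fun i r => r * P (eW T i) := by
    conv_lhs => rw [← (eW T).linearCombination_repr b]
    rw [Finsupp.linearCombination_apply, map_finsuppSum]
    refine Finsupp.sum_congr fun i _ => ?_
    rw [map_smul, smul_eq_mul]
  rw [h1, Finsupp.sum]
  refine sum_mem fun i _ => mul_mem ?_ (r_eW_mem K hP i)
  obtain ⟨n, j⟩ := i
  rw [eW_repr]
  exact hb j n

private theorem u2b_ev (K : IntermediateField k Ω) {X : List (Pt T)}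
    (hX : ∀ P ∈ X, PK k (K : Set Ω) P) {b : WB T} (hb : Cf (K : Set Ω) b) : ev b X ∈ K := by
  unfold ev
  refine list_prod_mem fun c hc => ?_
  obtain ⟨P, hP, rfl⟩ := List.mem_map.1 hc
  exact u2b_P K (hX P hP) hb

theorem Tr.op_tmf (hU : Univ k Ω) (hT : Tk k T) {K : IntermediateField k Ω}
    (hK : Small K) {n : ℕ} (hn : 0 < n) {b : ρ → ClassGroup (WB T)} (t : Tr T ρ K n b)
    (D : TD k T ρ K n) (hd : ∀ r i, ∀ P ∈ t.A r, P ∉ D.B r i) :
    ∃ (D' : TD k T ρ K n) (c : Ω), c ∈ K ∧ c ≠ 0 ∧ (∀ r i, cl (D'.B r i) = cl (D.B r i) * b r) ∧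
      ∀ x, t.op (tmf D) x = c * tmf D' x := by
  have hA : ∀ r, ev (D.h r) (t.A r) ≠ 0 := fun r => D.ev_ne r fun P hP i => hd r i P hP
  refine ⟨{ B := fun r i => D.B r i ++ t.A r
            h := fun r => D.h r * t.h r
            hd := fun r => Hd_T (D.hd r) (t.nt r)
            nd := fun r i => ?_
            pk := fun r i P hP => ?_ }, ∏ r, (ev (D.h r) (t.A r))⁻¹, ?_, ?_, ?_, ?_⟩
  · rw [List.nodup_append]
    refine ⟨D.nd r i, (t.pk' hn r).2, fun P hP Q hQ hPQ => ?_⟩
    rw [hPQ] at hP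
    exact hd r i Q hQ hP
  · rcases List.mem_append.1 hP with h | h
    · exact D.pk r i P h
    · exact (t.pk' hn r).1 P h
  · exact prod_mem fun r _ => inv_mem (u2b_ev K (t.pk' hn r).1 (D.cf_h hT r))
  · exact Finset.prod_ne_zero_iff.2 fun r _ => inv_ne_zero (hA r)
  · intro r i
    show cl (D.B r i ++ t.A r) = _
    rw [cl_append, t.cl_eq r]
  · intro x
    by_cases hx : GenA K x
    · obtain ⟨X, hl, hX, hc⟩ := hx
      obtain ⟨h1, -, h3, h4⟩ := t.eval hU hT hK hn D hd hX hl
      have hx' : GenA K x := ⟨X, hl, hX, hc⟩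
      have hxe : (fun r => cl (X r)) = x := funext hc
      rw [hxe] at h3 h4
      rw [tmf_eval _ hx' (fun r => (hl r).ge) (fun r => (h1 r).1) hc
        (fun r => by
          show ev (D.h r * t.h r) (X r) ≠ 0
          rw [ev_mul]
          exact mul_ne_zero (h1 r).2.2.2.2 (h1 r).2.2.1)]
      rw [Tr.op, h3, h4, ← Finset.prod_mul_distrib, ← Finset.prod_mul_distrib]
      exact Finset.prod_congr rfl fun r _ =>
        th_T (D.B r) (D.h r) (t.h r) (t.A r) (X r) (h1 r).1 (h1 r).2.1 (h1 r).2.2.2.1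
    · rw [Tr.op, tmf_not _ hx, tmf_not _ hx, zero_mul, mul_zero]

end

end Pool.Agent.TIFT
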